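import Mathlib

/-!
# Definitions for the q-supercongruence of MP_322b37_nt

All products are finite and polynomial in `q` and `s = a + 1/a`.
-/

namespace SC322

open Finset Polynomial

section Ring
variable {R : Type*} [CommRing R]

/-- `[m]_q = 1 + q + ... + q^(m-1)` -/
def br (q : R) (m : ℕ) : R := ∑ i ∈ range m, q ^ i

/-- `(q;q^2)_k` -/
def pO (q : R) (k : ℕ) : R := ∏ j ∈ range k, (1 - q ^ (2 * j + 1))

/-- `(q;q)_k` -/
def pQ (q : R) (k : ℕ) : R := ∏ j ∈ range k, (1 - q ^ (j + 1))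

/-- `(-q;q)_k` -/
def pE (q : R) (k : ℕ) : R := ∏ j ∈ range k, (1 + q ^ (j + 1))

/-- `(aq;q^2)_k (q/a;q^2)_k` in terms of `s = a + 1/a` -/
def pA (q s : R) (k : ℕ) : R := ∏ j ∈ range k, (1 - s * q ^ (2 * j + 1) + q ^ (4 * j + 2))

/-- `(aq;q)_k (q/a;q)_k` in terms of `s = a + 1/a` -/
def pB (q s : R) (k : ℕ) : R := ∏ j ∈ range k, (1 - s * q ^ (j + 1) + q ^ (2 * j + 2))

/-- `T8 * pQ M * pB M` as a polynomial in `s` over any commutative ring -/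
noncomputable def U8 (q : R) (M : ℕ) : R[X] :=
  ∑ k ∈ range (M + 1),
    C ((-1) ^ k * br q (3 * k + 1) * pO q k * ∏ j ∈ Ico k M, (1 - q ^ (j + 1))) *
      (∏ j ∈ range k, (1 - X * C (q ^ (2 * j + 1)) + C (q ^ (4 * j + 2)))) *
      ∏ j ∈ Ico k M, (1 - X * C (q ^ (j + 1)) + C (q ^ (2 * j + 2)))

/-- `T16 * (pQ M) * (pE M) * (pB M) * q^(M(M+1)/2)` as a polynomial in `s` -/
noncomputable def U16 (q : R) (M : ℕ) : R[X] :=
  ∑ k ∈ range (M + 1),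
    C (br q (3 * k + 1) * pO q k * (∏ j ∈ Ico k M, (1 - q ^ (j + 1))) *
        (∏ j ∈ Ico k M, (1 + q ^ (j + 1))) * q ^ (M * (M + 1) / 2 - k * (k + 1) / 2)) *
      (∏ j ∈ range k, (1 - X * C (q ^ (2 * j + 1)) + C (q ^ (4 * j + 2)))) *
      ∏ j ∈ Ico k M, (1 - X * C (q ^ (j + 1)) + C (q ^ (2 * j + 2)))

end Ring

section Field
variable {K : Type*} [Field K]

def f8 (q s : K) (k : ℕ) : K := (-1) ^ k * pO q k * pA q s k / (pQ q k * pB q s k)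

def f16 (q s : K) (k : ℕ) : K :=
  pO q k * pA q s k / (pQ q k * pE q k * pB q s k * q ^ (k * (k + 1) / 2))

/-- truncated sums `T_l = sum_{k<l} [3k+1] f(k)` -/
def T8 (q s : K) (l : ℕ) : K := ∑ k ∈ range l, br q (3 * k + 1) * f8 q s k

def T16 (q s : K) (l : ℕ) : K := ∑ k ∈ range l, br q (3 * k + 1) * f16 q s k

/-- the dual terms, `l ≥ 1` -/
def D8 (q s : K) (l : ℕ) : K :=
  -(q * br q (3 * l - 1) * q ^ (3 * (l * (l - 1) / 2))) /
    (f8 q s l * (1 - q ^ l) * (1 - s * q ^ l + q ^ (2 * l)))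

def D16 (q s : K) (l : ℕ) : K :=
  q * br q (3 * l - 1) /
    (q ^ l * f16 q s l * (1 - q ^ (2 * l)) * (1 - s * q ^ l + q ^ (2 * l)))

def W8 (q s : K) (M : ℕ) : K := ∑ l ∈ Icc 1 M, D8 q s l * T8 q s l

def W16 (q s : K) (M : ℕ) : K := ∑ l ∈ Icc 1 M, D16 q s l * T16 q s l

/-- closed forms; the odd number `m = 2i+1` runs over the odd numbers `≤ M` -/
def V8 (q s : K) (M : ℕ) : K :=
  q / (1 - q) ^ 2 * ∑ i ∈ range ((M + 1) / 2),
    q ^ (2 * i * (i + 1)) * (1 - q ^ (4 * i + 2)) / (1 - s * q ^ (2 * i + 1) + q ^ (4 * i + 2))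

def V16 (q s : K) (M : ℕ) : K :=
  q / (1 - q) ^ 2 * ∑ i ∈ range ((M + 1) / 2),
    (1 - q ^ (4 * i + 2)) / (1 - s * q ^ (2 * i + 1) + q ^ (4 * i + 2))

/-- right-hand sides of the functional equations, `b = a q` -/
def h8 (q a : K) (M : ℕ) : K :=
  -(q / (a * q * (1 - q) ^ 2)) *
    ((1 + a * q) / (1 - a * q) -
      q ^ (3 * (M * (M + 1) / 2) + (M + 1)) * (1 - (a * q) ^ 2) /
        ((1 - a * q * q ^ M) * (1 - a * q * q ^ (M + 1))))

def h16 (q a : K) (M : ℕ) : K :=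
  q / (1 - q) ^ 2 *
    ((1 - (a * q) ^ 2) / ((1 - a * q * q ^ M) * (1 - a * q * q ^ (M + 1))) -
      (1 + a * q) / (1 - a * q))

end Field

end SC322
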