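import Pool.Agent.SC322.Defs

/-!
# q-binomials, the terms `t8`, `t16`, and the local power series ring at a root of unity
-/

namespace SC322

open Finset Polynomial

/-- Gaussian binomial coefficients (q-Pascal rule) -/
noncomputable def qb : ℕ → ℕ → ℤ[X]
  | _, 0 => 1
  | 0, _ + 1 => 0
  | n + 1, k + 1 => qb n k + X ^ (k + 1) * qb n (k + 1)

/-- central Gaussian binomial coefficient `[2k, k]` evaluated at `q` -/
noncomputable def cq {R : Type*} [CommRing R] (q : R) (k : ℕ) : R := aeval q (qb (2 * k) k)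

/-- `t8_k = (-1)^k [3k+1] [2k,k]^3 / (-q;q)_k^3` -/
noncomputable def t8 {R : Type*} [CommRing R] [Inv R] (q : R) (k : ℕ) : R :=
  (-1) ^ k * br q (3 * k + 1) * cq q k ^ 3 * (pE q k ^ 3)⁻¹

/-- `t16_k = [3k+1] [2k,k]^3 / ((-q;q)_k^4 q^(k(k+1)/2))` -/
noncomputable def t16 {R : Type*} [CommRing R] [Inv R] (q : R) (k : ℕ) : R :=
  br q (3 * k + 1) * cq q k ^ 3 * (pE q k ^ 4 * q ^ (k * (k + 1) / 2))⁻¹

/-- the truncated square `sum_{i+j<n} t_i t_j` -/
def conv {R : Type*} [CommRing R] (t : ℕ → R) (n : ℕ) : R :=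
  ∑ i ∈ range n, t i * ∑ j ∈ range (n - i), t j

/-- the point `q = ζ + ε` in `ℂ⟦ε⟧` -/
noncomputable def qz (ζ : ℂ) : PowerSeries ℂ := PowerSeries.C ζ + PowerSeries.X

end SC322
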