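import Pool.Agent.SC322.Defs2

/-!
# q-binomials
-/

namespace SC322

open Finset Polynomial

theorem qb_zero_right (n : ℕ) : qb n 0 = 1 := by
  cases n <;> rfl

theorem qb_succ_succ (n k : ℕ) : qb (n + 1) (k + 1) = qb n k + X ^ (k + 1) * qb n (k + 1) := rfl

theorem qb_eq_zero {n k : ℕ} (h : n < k) : qb n k = 0 := by
  induction n generalizing k with
  | zero =>
    obtain ⟨k', rfl⟩ : ∃ k', k = k' + 1 := ⟨k - 1, by omega⟩
    rfl
  | succ n ih =>
    obtain ⟨k', rfl⟩ : ∃ k', k = k' + 1 := ⟨k - 1, by omega⟩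
    rw [qb_succ_succ, ih (by omega), ih (by omega), mul_zero, add_zero]

theorem qb_self (k : ℕ) : qb k k = 1 := by
  induction k with
  | zero => rfl
  | succ k ih => rw [qb_succ_succ, ih, qb_eq_zero (Nat.lt_succ_self k), mul_zero, add_zero]

theorem pQ_zero {R : Type*} [CommRing R] (q : R) : pQ q 0 = 1 := by simp [pQ]

theorem pQ_succ {R : Type*} [CommRing R] (q : R) (k : ℕ) :
    pQ q (k + 1) = pQ q k * (1 - q ^ (k + 1)) := by
  simp [pQ, prod_range_succ]

theorem pO_succ {R : Type*} [CommRing R] (q : R) (k : ℕ) :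
    pO q (k + 1) = pO q k * (1 - q ^ (2 * k + 1)) := by
  simp [pO, prod_range_succ]

theorem pE_succ {R : Type*} [CommRing R] (q : R) (k : ℕ) :
    pE q (k + 1) = pE q k * (1 + q ^ (k + 1)) := by
  simp [pE, prod_range_succ]

theorem pQ_map {R S : Type*} [CommRing R] [CommRing S] (φ : R →+* S) (q : R) (k : ℕ) :
    φ (pQ q k) = pQ (φ q) k := by
  simp [pQ, map_prod]

theorem pO_map {R S : Type*} [CommRing R] [CommRing S] (φ : R →+* S) (q : R) (k : ℕ) :
    φ (pO q k) = pO (φ q) k := by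
  simp [pO, map_prod]

theorem pE_map {R S : Type*} [CommRing R] [CommRing S] (φ : R →+* S) (q : R) (k : ℕ) :
    φ (pE q k) = pE (φ q) k := by
  simp [pE, map_prod]

theorem br_map {R S : Type*} [CommRing R] [CommRing S] (φ : R →+* S) (q : R) (k : ℕ) :
    φ (br q k) = br (φ q) k := by
  simp [br, map_sum]

theorem qb_factorial (n k : ℕ) : qb (n + k) k * pQ (X : ℤ[X]) k * pQ (X : ℤ[X]) n =
    pQ (X : ℤ[X]) (n + k) := by
  induction n generalizing k with
  | zero => rw [zero_add, qb_self, pQ_zero, one_mul, mul_one]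
  | succ n ihn =>
    induction k with
    | zero => rw [add_zero, qb_zero_right, pQ_zero, one_mul, one_mul]
    | succ k ihk =>
      have h1 := ihn (k + 1)
      have e1 : n + 1 + (k + 1) = (n + 1 + k) + 1 := by ring
      have e2 : n + (k + 1) = n + 1 + k := by ring
      rw [e2] at h1
      rw [e1, qb_succ_succ, pQ_succ _ (n + 1 + k)]
      have h2 : (qb (n + 1 + k) k + X ^ (k + 1) * qb (n + 1 + k) (k + 1)) * pQ (X : ℤ[X]) (k + 1) *
          pQ (X : ℤ[X]) (n + 1) = (qb (n + 1 + k) k * pQ (X : ℤ[X]) k * pQ (X : ℤ[X]) (n + 1)) *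
          (1 - X ^ (k + 1)) + X ^ (k + 1) * (1 - X ^ (n + 1)) *
          (qb (n + 1 + k) (k + 1) * pQ (X : ℤ[X]) (k + 1) * pQ (X : ℤ[X]) n) := by
        rw [pQ_succ _ k, pQ_succ _ n]
        ring
      rw [h2, ihk, h1]
      ring

theorem cq_map {R S : Type*} [CommRing R] [CommRing S] (φ : R →+* S) (q : R) (k : ℕ) :
    φ (cq q k) = cq (φ q) k := by
  unfold cq
  exact (aeval_algHom_apply φ.toIntAlgHom q _).symm

theorem cq_zero {R : Type*} [CommRing R] (q : R) : cq q 0 = 1 := by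
  unfold cq
  rw [qb_zero_right, map_one]

theorem pQ_two_mul {R : Type*} [CommRing R] (q : R) (k : ℕ) :
    pQ q (k + k) = pO q k * pE q k * pQ q k := by
  induction k with
  | zero => simp [pQ, pO, pE]
  | succ k ih =>
    have e1 : k + 1 + (k + 1) = (k + k + 1) + 1 := by ring
    rw [e1, pQ_succ, pQ_succ, ih, pO_succ, pE_succ, pQ_succ]
    ring

theorem pQ_X_ne_zero (k : ℕ) : pQ (X : ℤ[X]) k ≠ 0 := by
  unfold pQ
  rw [prod_ne_zero_iff]
  intro j _ h
  have h1 := congrArg (fun f : ℤ[X] => f.coeff 0) h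
  simp at h1

theorem cq_X (k : ℕ) : cq (X : ℤ[X]) k = qb (2 * k) k := by
  unfold cq
  exact aeval_X_left_apply _

theorem cq_mul_pQ_X (k : ℕ) : cq (X : ℤ[X]) k * pQ (X : ℤ[X]) k = pO X k * pE X k := by
  apply mul_right_cancel₀ (pQ_X_ne_zero k)
  rw [cq_X, two_mul, qb_factorial, pQ_two_mul]

theorem aeval_hom_X {R : Type*} [CommRing R] (q : R) :
    ((aeval q : ℤ[X] →ₐ[ℤ] R) : ℤ[X] →+* R) X = q := aeval_X q

theorem cq_mul_pQ {R : Type*} [CommRing R] (q : R) (k : ℕ) :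
    cq q k * pQ q k = pO q k * pE q k := by
  have h := congrArg ((aeval q : ℤ[X] →ₐ[ℤ] R) : ℤ[X] →+* R) (cq_mul_pQ_X k)
  rwa [map_mul, map_mul, cq_map, pQ_map, pO_map, pE_map, aeval_hom_X] at h

theorem cq_succ_X (k : ℕ) :
    (1 - X ^ (k + 1)) * cq (X : ℤ[X]) (k + 1) =
      (1 + X ^ (k + 1)) * (1 - X ^ (2 * k + 1)) * cq (X : ℤ[X]) k := by
  apply mul_right_cancel₀ (pQ_X_ne_zero k)
  have h1 := cq_mul_pQ_X (k + 1)
  have h2 := cq_mul_pQ_X k
  rw [pQ_succ, pO_succ, pE_succ] at h1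
  linear_combination h1 - (1 + X ^ (k + 1)) * (1 - X ^ (2 * k + 1)) * h2

theorem cq_succ {R : Type*} [CommRing R] (q : R) (k : ℕ) :
    (1 - q ^ (k + 1)) * cq q (k + 1) = (1 + q ^ (k + 1)) * (1 - q ^ (2 * k + 1)) * cq q k := by
  have h := congrArg ((aeval q : ℤ[X] →ₐ[ℤ] R) : ℤ[X] →+* R) (cq_succ_X k)
  simpa only [map_mul, map_add, map_sub, map_one, map_pow, cq_map, aeval_hom_X] using h

theorem aeval_one_qb {R : Type*} [CommRing R] (n k : ℕ) :
    aeval (1 : R) (qb n k) = (Nat.choose n k : R) := by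
  induction n generalizing k with
  | zero =>
    cases k with
    | zero => simp [qb_zero_right]
    | succ k => simp [qb_eq_zero (Nat.succ_pos k)]
  | succ n ih =>
    cases k with
    | zero => simp [qb_zero_right]
    | succ k =>
      rw [qb_succ_succ, map_add, map_mul, ih, ih, map_pow, aeval_X, one_pow, one_mul,
        Nat.choose_succ_succ, Nat.cast_add]

theorem cq_one {R : Type*} [CommRing R] (k : ℕ) :
    cq (1 : R) k = (Nat.centralBinom k : R) := by
  unfold cq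
  rw [aeval_one_qb, Nat.centralBinom_eq_two_mul_choose]

theorem one_sub_pow_ne_zero {K : Type*} [Field K] {ζ : K} {n : ℕ} (hζ : IsPrimitiveRoot ζ n)
    {s : ℕ} (h1 : 0 < s) (h2 : s < n) : 1 - ζ ^ s ≠ 0 := by
  intro h
  exact hζ.pow_ne_one_of_pos_of_lt h1.ne' h2 (sub_eq_zero.1 h).symm

/-- values at a root of unity: `ζ` primitive of order `2m+1` -/
theorem cq_zeta_zero {K : Type*} [Field K] {ζ : K} {m : ℕ} (hζ : IsPrimitiveRoot ζ (2 * m + 1))
    {s : ℕ} (h1 : m < s) (h2 : s < 2 * m + 1) : cq ζ s = 0 := by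
  induction s with
  | zero => omega
  | succ s ih =>
    have h3 := cq_succ ζ s
    have h4 : 1 - ζ ^ (s + 1) ≠ 0 := one_sub_pow_ne_zero hζ (Nat.succ_pos s) h2
    apply mul_left_cancel₀ h4
    rw [h3, mul_zero]
    rcases Nat.lt_or_ge m s with h5 | h5
    · rw [ih h5 (by omega), mul_zero]
    · have h6 : s = m := by omega
      rw [h6, hζ.pow_eq_one, sub_self, mul_zero, zero_mul]

theorem cq_zeta_lucas {K : Type*} [Field K] {ζ : K} {m : ℕ} (hζ : IsPrimitiveRoot ζ (2 * m + 1))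
    (i s : ℕ) (h2 : s < 2 * m + 1) :
    cq ζ (i * (2 * m + 1) + s) = cq ζ (i * (2 * m + 1)) * cq ζ s := by
  induction s with
  | zero => rw [add_zero, cq_zero, mul_one]
  | succ s ih =>
    have h4 : 1 - ζ ^ (s + 1) ≠ 0 := one_sub_pow_ne_zero hζ (Nat.succ_pos s) h2
    have hp : ζ ^ (i * (2 * m + 1)) = 1 := by
      rw [mul_comm, pow_mul, hζ.pow_eq_one, one_pow]
    have h5 := cq_succ ζ (i * (2 * m + 1) + s)
    have h6 := cq_succ ζ s
    have e1 : ζ ^ (i * (2 * m + 1) + s + 1) = ζ ^ (s + 1) := by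
      rw [add_assoc, pow_add, hp, one_mul]
    have e2 : ζ ^ (2 * (i * (2 * m + 1) + s) + 1) = ζ ^ (2 * s + 1) := by
      have : 2 * (i * (2 * m + 1) + s) + 1 = i * (2 * m + 1) + i * (2 * m + 1) + (2 * s + 1) := by
        ring
      rw [this, pow_add, pow_add, hp, one_mul, one_mul]
    rw [e1, e2, ih (by omega)] at h5
    rw [← add_assoc]
    apply mul_left_cancel₀ h4
    linear_combination h5 - cq ζ (i * (2 * m + 1)) * h6

theorem cq_zeta_ne_zero {K : Type*} [Field K] {ζ : K} {m : ℕ}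
    (hζ : IsPrimitiveRoot ζ (2 * m + 1)) (hne : ∀ i, 1 + ζ ^ i ≠ 0) {s : ℕ} (h1 : s ≤ m) :
    cq ζ s ≠ 0 := by
  induction s with
  | zero => rw [cq_zero]; exact one_ne_zero
  | succ s ih =>
    have h3 := cq_succ ζ s
    intro h
    rw [h, mul_zero] at h3
    have h4 : 1 - ζ ^ (2 * s + 1) ≠ 0 :=
      one_sub_pow_ne_zero hζ (by omega) (by omega)
    exact mul_ne_zero (mul_ne_zero (hne _) h4) (ih (by omega)) h3.symm

end SC322
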