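import Pool.Agent.SC322.Defs2

/-!
# P4a : polynomial identities between `U` and `T` (part without the exact evaluation)
-/

namespace SC322

open Finset Polynomial

theorem p4_pQ_split {R : Type*} [CommRing R] (q : R) {k M : ℕ} (h : k ≤ M) :
    pQ q M = pQ q k * ∏ j ∈ Ico k M, (1 - q ^ (j + 1)) := by
  unfold pQ
  rw [Finset.prod_range_mul_prod_Ico _ h]

theorem p4_pE_split {R : Type*} [CommRing R] (q : R) {k M : ℕ} (h : k ≤ M) :
    pE q M = pE q k * ∏ j ∈ Ico k M, (1 + q ^ (j + 1)) := by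
  unfold pE
  rw [Finset.prod_range_mul_prod_Ico _ h]

theorem p4_pB_split {R : Type*} [CommRing R] (q s : R) {k M : ℕ} (h : k ≤ M) :
    pB q s M = pB q s k * ∏ j ∈ Ico k M, (1 - s * q ^ (j + 1) + q ^ (2 * j + 2)) := by
  unfold pB
  rw [Finset.prod_range_mul_prod_Ico _ h]

theorem p4_eval_A {R : Type*} [CommRing R] (q s : R) (k : ℕ) :
    (∏ j ∈ range k, (1 - X * C (q ^ (2 * j + 1)) + C (q ^ (4 * j + 2)))).eval s = pA q s k := by
  rw [Polynomial.eval_prod]
  unfold pA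
  refine Finset.prod_congr rfl fun j _ => ?_
  simp [Polynomial.eval_add, Polynomial.eval_sub, Polynomial.eval_mul]

theorem p4_eval_B {R : Type*} [CommRing R] (q s : R) (k M : ℕ) :
    (∏ j ∈ Ico k M, (1 - X * C (q ^ (j + 1)) + C (q ^ (2 * j + 2)))).eval s =
      ∏ j ∈ Ico k M, (1 - s * q ^ (j + 1) + q ^ (2 * j + 2)) := by
  rw [Polynomial.eval_prod]
  refine Finset.prod_congr rfl fun j _ => ?_
  simp [Polynomial.eval_add, Polynomial.eval_sub, Polynomial.eval_mul]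

theorem U8_eval {K : Type*} [Field K] (q s : K) (M : ℕ) (hQ : pQ q M ≠ 0) (hB : pB q s M ≠ 0) :
    (U8 q M).eval s = T8 q s (M + 1) * (pQ q M * pB q s M) := by
  unfold U8 T8
  rw [Polynomial.eval_finsetSum, Finset.sum_mul]
  refine Finset.sum_congr rfl fun k hk => ?_
  have hkM : k ≤ M := by
    have := Finset.mem_range.1 hk
    omega
  rw [Polynomial.eval_mul, Polynomial.eval_mul, Polynomial.eval_C, p4_eval_A, p4_eval_B]
  have h1 := p4_pQ_split q hkM
  have h2 := p4_pB_split q s hkM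
  rw [h1, h2]
  rw [h1] at hQ
  rw [h2] at hB
  have hQ1 : pQ q k ≠ 0 := left_ne_zero_of_mul hQ
  have hB1 : pB q s k ≠ 0 := left_ne_zero_of_mul hB
  unfold f8
  field_simp

theorem U16_eval {K : Type*} [Field K] (q s : K) (M : ℕ) (hQ : pQ q M ≠ 0) (hE : pE q M ≠ 0)
    (hB : pB q s M ≠ 0) (hq : q ≠ 0) :
    (U16 q M).eval s =
      T16 q s (M + 1) * (pQ q M * pE q M * pB q s M * q ^ (M * (M + 1) / 2)) := by
  unfold U16 T16
  rw [Polynomial.eval_finsetSum, Finset.sum_mul]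
  refine Finset.sum_congr rfl fun k hk => ?_
  have hkM : k ≤ M := by
    have := Finset.mem_range.1 hk
    omega
  rw [Polynomial.eval_mul, Polynomial.eval_mul, Polynomial.eval_C, p4_eval_A, p4_eval_B]
  have h1 := p4_pQ_split q hkM
  have h2 := p4_pB_split q s hkM
  have h3 := p4_pE_split q hkM
  have hle : k * (k + 1) / 2 ≤ M * (M + 1) / 2 :=
    Nat.div_le_div_right (Nat.mul_le_mul hkM (by omega))
  have h4 : q ^ (M * (M + 1) / 2) =
      q ^ (k * (k + 1) / 2) * q ^ (M * (M + 1) / 2 - k * (k + 1) / 2) := by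
    rw [← pow_add]
    congr 1
    omega
  rw [h1, h2, h3, h4]
  rw [h1] at hQ
  rw [h2] at hB
  rw [h3] at hE
  have hQ1 : pQ q k ≠ 0 := left_ne_zero_of_mul hQ
  have hB1 : pB q s k ≠ 0 := left_ne_zero_of_mul hB
  have hE1 : pE q k ≠ 0 := left_ne_zero_of_mul hE
  have hq1 : q ^ (k * (k + 1) / 2) ≠ 0 := pow_ne_zero _ hq
  unfold f16
  generalize q ^ (k * (k + 1) / 2) = Y at hq1 ⊢
  field_simp


theorem U8_map {R S : Type*} [CommRing R] [CommRing S] (φ : R →+* S) (q : R) (M : ℕ) :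
    (U8 q M).map φ = U8 (φ q) M := by
  unfold U8
  rw [Polynomial.map_sum]
  refine Finset.sum_congr rfl fun k _ => ?_
  simp [Polynomial.map_prod, Polynomial.map_sum, br, pO, map_sum, map_prod]

theorem U16_map {R S : Type*} [CommRing R] [CommRing S] (φ : R →+* S) (q : R) (M : ℕ) :
    (U16 q M).map φ = U16 (φ q) M := by
  unfold U16
  rw [Polynomial.map_sum]
  refine Finset.sum_congr rfl fun k _ => ?_
  simp [Polynomial.map_prod, Polynomial.map_sum, br, pO, map_sum, map_prod]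

theorem p4_natDegree_A {R : Type*} [CommRing R] (q : R) (k : ℕ) :
    (∏ j ∈ range k, (1 - X * C (q ^ (2 * j + 1)) + C (q ^ (4 * j + 2)) : R[X])).natDegree ≤ k := by
  have h := Polynomial.natDegree_prod_le (range k)
    (fun j => (1 - X * C (q ^ (2 * j + 1)) + C (q ^ (4 * j + 2)) : R[X]))
  refine h.trans ?_
  have h2 : ∀ j ∈ range k,
      (1 - X * C (q ^ (2 * j + 1)) + C (q ^ (4 * j + 2)) : R[X]).natDegree ≤ 1 := by
    intro j _
    compute_degree
  calc ∑ j ∈ range k, (1 - X * C (q ^ (2 * j + 1)) + C (q ^ (4 * j + 2)) : R[X]).natDegree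
      ≤ ∑ _j ∈ range k, 1 := Finset.sum_le_sum h2
    _ = k := by simp

theorem p4_natDegree_B {R : Type*} [CommRing R] (q : R) (k M : ℕ) :
    (∏ j ∈ Ico k M, (1 - X * C (q ^ (j + 1)) + C (q ^ (2 * j + 2)) : R[X])).natDegree ≤ M - k := by
  have h := Polynomial.natDegree_prod_le (Ico k M)
    (fun j => (1 - X * C (q ^ (j + 1)) + C (q ^ (2 * j + 2)) : R[X]))
  refine h.trans ?_
  have h2 : ∀ j ∈ Ico k M,
      (1 - X * C (q ^ (j + 1)) + C (q ^ (2 * j + 2)) : R[X]).natDegree ≤ 1 := by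
    intro j _
    compute_degree
  calc ∑ j ∈ Ico k M, (1 - X * C (q ^ (j + 1)) + C (q ^ (2 * j + 2)) : R[X]).natDegree
      ≤ ∑ _j ∈ Ico k M, 1 := Finset.sum_le_sum h2
    _ = M - k := by simp

/-- degree bounds -/
theorem U8_natDegree {R : Type*} [CommRing R] (q : R) (M : ℕ) : (U8 q M).natDegree ≤ M := by
  unfold U8
  refine Polynomial.natDegree_sum_le_of_forall_le _ _ fun k hk => ?_
  have hkM : k ≤ M := by
    have := Finset.mem_range.1 hk
    omega
  refine (Polynomial.natDegree_mul_le).trans ?_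
  have h1 := p4_natDegree_B q k M
  have h2 := p4_natDegree_A q k
  have h3 := Polynomial.natDegree_C_mul_le
    ((-1) ^ k * br q (3 * k + 1) * pO q k * ∏ j ∈ Ico k M, (1 - q ^ (j + 1)))
    (∏ j ∈ range k, (1 - X * C (q ^ (2 * j + 1)) + C (q ^ (4 * j + 2)) : R[X]))
  omega

theorem U16_natDegree {R : Type*} [CommRing R] (q : R) (M : ℕ) : (U16 q M).natDegree ≤ M := by
  unfold U16
  refine Polynomial.natDegree_sum_le_of_forall_le _ _ fun k hk => ?_
  have hkM : k ≤ M := by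
    have := Finset.mem_range.1 hk
    omega
  refine (Polynomial.natDegree_mul_le).trans ?_
  have h1 := p4_natDegree_B q k M
  have h2 := p4_natDegree_A q k
  have h3 := Polynomial.natDegree_C_mul_le
    (br q (3 * k + 1) * pO q k * (∏ j ∈ Ico k M, (1 - q ^ (j + 1))) *
        (∏ j ∈ Ico k M, (1 + q ^ (j + 1))) * q ^ (M * (M + 1) / 2 - k * (k + 1) / 2))
    (∏ j ∈ range k, (1 - X * C (q ^ (2 * j + 1)) + C (q ^ (4 * j + 2)) : R[X]))
  omega

theorem p4_eval_map {R S : Type*} [CommRing R] [CommRing S] (φ : R →+* S) (f : R[X]) (s : R) :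
    φ (f.eval s) = (f.map φ).eval (φ s) := by
  rw [Polynomial.eval_map, Polynomial.eval₂_at_apply]

theorem p4_pQ_ne {K : Type*} [Field K] (q : K) (hq : ∀ j : ℕ, 1 ≤ j → q ^ j ≠ 1) (M : ℕ) :
    pQ q M ≠ 0 := by
  unfold pQ
  refine Finset.prod_ne_zero_iff.2 fun j _ h => hq (j + 1) (by omega) ?_
  exact (sub_eq_zero.1 h).symm

theorem p4_pE_ne {K : Type*} [Field K] (q : K) (hq : ∀ j : ℕ, 1 ≤ j → 1 + q ^ j ≠ 0) (M : ℕ) :
    pE q M ≠ 0 := by
  unfold pE
  exact Finset.prod_ne_zero_iff.2 fun j _ h => hq (j + 1) (by omega) h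

theorem p4_pB_ne {K : Type*} [Field K] (q : K) (hq0 : q ≠ 0) (hq : ∀ j : ℕ, 1 ≤ j → q ^ j ≠ 1)
    (M : ℕ) : pB q (q ^ (2 * M + 1) + (q ^ (2 * M + 1))⁻¹) M ≠ 0 := by
  unfold pB
  refine Finset.prod_ne_zero_iff.2 fun j hj h => ?_
  have hjM := Finset.mem_range.1 hj
  have hn : q ^ (2 * M + 1) ≠ 0 := pow_ne_zero _ hq0
  have h1 : (1 - q ^ (2 * M + 1) * q ^ (j + 1)) * (q ^ (2 * M + 1) - q ^ (j + 1)) = 0 := by
    have h2 : (1 - (q ^ (2 * M + 1) + (q ^ (2 * M + 1))⁻¹) * q ^ (j + 1) + q ^ (2 * j + 2)) *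
        q ^ (2 * M + 1) = (1 - q ^ (2 * M + 1) * q ^ (j + 1)) * (q ^ (2 * M + 1) - q ^ (j + 1)) := by
      have h3 : q ^ (2 * j + 2) = q ^ (j + 1) * q ^ (j + 1) := by
        rw [← pow_add]
        congr 1
        omega
      rw [h3]
      generalize q ^ (2 * M + 1) = a at hn ⊢
      generalize q ^ (j + 1) = y
      field_simp
      ring
    rw [← h2, h, zero_mul]
  rcases mul_eq_zero.1 h1 with h4 | h4
  · rw [← pow_add] at h4
    exact hq _ (by omega) (sub_eq_zero.1 h4).symm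
  · have h5 : q ^ (2 * M + 1) = q ^ (j + 1) * q ^ (2 * M - j) := by
      rw [← pow_add]
      congr 1
      omega
    rw [h5] at h4
    have h6 : q ^ (j + 1) * (q ^ (2 * M - j) - 1) = 0 := by
      rw [← h4]
      ring
    rcases mul_eq_zero.1 h6 with h7 | h7
    · exact pow_ne_zero _ hq0 h7
    · exact hq _ (by omega) (sub_eq_zero.1 h7)

theorem p4_map_pQ {R S : Type*} [CommRing R] [CommRing S] (φ : R →+* S) (q : R) (M : ℕ) :
    φ (pQ q M) = pQ (φ q) M := by
  simp [pQ, map_prod]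

theorem p4_map_pE {R S : Type*} [CommRing R] [CommRing S] (φ : R →+* S) (q : R) (M : ℕ) :
    φ (pE q M) = pE (φ q) M := by
  simp [pE, map_prod]

theorem p4_map_pB {R S : Type*} [CommRing R] [CommRing S] (φ : R →+* S) (q s : R) (M : ℕ) :
    φ (pB q s M) = pB (φ q) (φ s) M := by
  simp [pB, map_prod]

theorem p4_map_br {R S : Type*} [CommRing R] [CommRing S] (φ : R →+* S) (q : R) (m : ℕ) :
    φ (br q m) = br (φ q) m := by
  simp [br, map_sum]

theorem p4_aux_s {K : Type*} [Field K] {x y : K} (hy : y ≠ 0) (h : x * y = y ^ 2 + 1) :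
    x = y + y⁻¹ := by
  field_simp
  exact h

theorem p4_aux_d {K : Type*} [Field K] {a b c d e f : K} (hc : c ≠ 0) :
    a / c * (b * d * e * (c * f)) = f * a * (b * d * e) := by
  field_simp

/-! ### The specialisation at a root of unity -/

theorem p4_qz_ne_zero {ζ : ℂ} : qz ζ ≠ 0 := by
  intro h
  have h1 := congrArg (PowerSeries.coeff 1) h
  simp [qz] at h1

theorem p4_constantCoeff_qz {ζ : ℂ} : PowerSeries.constantCoeff (qz ζ) = ζ := by
  simp [qz]

theorem p4_coeff_one_pow (ζ : ℂ) (j : ℕ) :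
    PowerSeries.coeff 1 (qz ζ ^ j) = j * ζ ^ (j - 1) := by
  induction j with
  | zero => simp [PowerSeries.coeff_one]
  | succ j ih =>
    rw [pow_succ, PowerSeries.coeff_mul]
    have h1 : Finset.HasAntidiagonal.antidiagonal 1 = {((0 : ℕ), (1 : ℕ)), (1, 0)} := by decide
    rw [h1, Finset.sum_pair (by decide)]
    rw [ih]
    have h2 : PowerSeries.coeff 0 (qz ζ ^ j) = ζ ^ j := by
      rw [PowerSeries.coeff_zero_eq_constantCoeff_apply, map_pow, p4_constantCoeff_qz]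
    have h3 : PowerSeries.coeff 1 (qz ζ) = 1 := by
      simp [qz]
    have h4 : PowerSeries.coeff 0 (qz ζ) = ζ := by
      rw [PowerSeries.coeff_zero_eq_constantCoeff_apply, p4_constantCoeff_qz]
    simp only [h2, h3, h4]
    rcases Nat.eq_zero_or_pos j with h | h
    · subst h; simp
    · have h5 : ζ ^ j = ζ ^ (j - 1) * ζ := by
        rw [← pow_succ]
        congr 1
        omega
      rw [show j + 1 - 1 = j by omega, h5]
      push_cast
      ring

theorem p4_qz_pow_ne {ζ : ℂ} (hζ : ζ ≠ 0) (c : ℂ) {j : ℕ} (hj : 1 ≤ j) :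
    qz ζ ^ j ≠ PowerSeries.C c := by
  intro h
  have h1 := congrArg (PowerSeries.coeff 1) h
  rw [p4_coeff_one_pow, PowerSeries.coeff_C] at h1
  simp only [one_ne_zero, if_false] at h1
  rcases mul_eq_zero.1 h1 with h2 | h2
  · have : j = 0 := by exact_mod_cast h2
    omega
  · exact pow_ne_zero _ hζ h2

theorem p4_zeta_pQ_ne {ζ : ℂ} {M : ℕ} (hζ : IsPrimitiveRoot ζ (2 * M + 1)) : pQ ζ M ≠ 0 := by
  unfold pQ
  refine Finset.prod_ne_zero_iff.2 fun j hj h => ?_
  have hjM := Finset.mem_range.1 hj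
  exact hζ.pow_ne_one_of_pos_of_lt (by omega) (by omega) (sub_eq_zero.1 h).symm

theorem p4_zeta_pE_ne {ζ : ℂ} {M : ℕ} (hζ : IsPrimitiveRoot ζ (2 * M + 1)) : pE ζ M ≠ 0 := by
  unfold pE
  refine Finset.prod_ne_zero_iff.2 fun j hj h => ?_
  have h1 : ζ ^ (j + 1) = -1 := by
    linear_combination h
  have h2 : (ζ ^ (j + 1)) ^ (2 * M + 1) = 1 := by
    rw [← pow_mul, mul_comm, pow_mul, hζ.pow_eq_one, one_pow]
  rw [h1] at h2
  have h3 : (-1 : ℂ) ^ (2 * M + 1) = -1 := by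
    rw [pow_succ, pow_mul]
    norm_num
  rw [h3] at h2
  norm_num at h2

theorem p4_zeta_pB_two {R : Type*} [CommRing R] (q : R) (M : ℕ) : pB q 2 M = (pQ q M) ^ 2 := by
  unfold pB pQ
  rw [← Finset.prod_pow]
  refine Finset.prod_congr rfl fun j _ => ?_
  ring

theorem p4_br_zeta {ζ : ℂ} {M : ℕ} (hM : 1 ≤ M) (hζ : IsPrimitiveRoot ζ (2 * M + 1)) :
    br ζ (2 * M + 1) = 0 := by
  unfold br
  exact hζ.geom_sum_eq_zero (by omega)

/-- the point `s = q^n + q^(-n)` in the power series ring -/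
theorem p4_exists_s {ζ : ℂ} {M : ℕ} (hζ : IsPrimitiveRoot ζ (2 * M + 1)) :
    ∃ s : PowerSeries ℂ, s * qz ζ ^ (2 * M + 1) = (qz ζ ^ (2 * M + 1)) ^ 2 + 1 ∧
      PowerSeries.constantCoeff s = 2 := by
  have hc : PowerSeries.constantCoeff (qz ζ ^ (2 * M + 1)) = 1 := by
    rw [map_pow, p4_constantCoeff_qz, hζ.pow_eq_one]
  have hc0 : PowerSeries.constantCoeff (qz ζ ^ (2 * M + 1)) ≠ 0 := by
    rw [hc]
    exact one_ne_zero
  refine ⟨((qz ζ ^ (2 * M + 1)) ^ 2 + 1) * (qz ζ ^ (2 * M + 1))⁻¹, ?_, ?_⟩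
  · rw [mul_assoc, PowerSeries.inv_mul_cancel _ hc0, mul_one]
  · rw [map_mul, map_add, map_pow, hc, PowerSeries.constantCoeff_inv, hc, map_one]
    norm_num

theorem p4_zeta_ne {ζ : ℂ} {M : ℕ} (hζ : IsPrimitiveRoot ζ (2 * M + 1)) : ζ ≠ 0 :=
  hζ.ne_zero (by omega)

end SC322
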