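import Pool.Agent.SC322.Defs2

/-!
# SC322 P5a : functional equation of `W8` (dual WZ)

Everything is written in terms of `b = a q`, so that `s = a + 1/a = b/q + q/b`.
-/

namespace SC322

open Finset Polynomial

namespace P5

/-- `s = a + 1/a` in terms of `b = a q` -/
def sb {K : Type*} [Field K] (q b : K) : K := b / q + q / b

/-- factorisation of the quadratic -/
theorem quad {K : Type*} [Field K] {q b : K} (hq : q ≠ 0) (hb : b ≠ 0) (x : K) :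
    1 - sb q b * (q * x) + (q * x) ^ 2 = (1 - b * x) * (b - q ^ 2 * x) / b := by
  rw [sb]
  field_simp
  ring

/-- second form of the factorisation -/
theorem quad' {K : Type*} [Field K] {q b : K} (hq : q ≠ 0) (hb : b ≠ 0) (x : K) :
    1 - sb q b * x + x ^ 2 = (q - b * x) * (b - q * x) / (q * b) := by
  rw [sb]
  field_simp
  ring

theorem f8_zero {K : Type*} [Field K] (q s : K) : f8 q s 0 = 1 := by
  simp [f8, pO, pA, pQ, pB]

theorem f8_succ {K : Type*} [Field K] {q b : K} (hq : q ≠ 0) (hb : b ≠ 0) (l : ℕ) :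
    f8 q (sb q b) (l + 1) = f8 q (sb q b) l *
      (-(1 - q * (q ^ l) ^ 2) / (1 - q * q ^ l) *
        ((1 - b * (q ^ l) ^ 2) * (b - q ^ 2 * (q ^ l) ^ 2) /
          ((1 - b * q ^ l) * (b - q ^ 2 * q ^ l)))) := by
  have e1 : q ^ (2 * l + 1) = q * (q ^ l) ^ 2 := by ring
  have e2 : q ^ (4 * l + 2) = (q * (q ^ l) ^ 2) ^ 2 := by ring
  have e3 : q ^ (l + 1) = q * q ^ l := by ring
  have e4 : q ^ (2 * l + 2) = (q * q ^ l) ^ 2 := by ring
  have hstep : f8 q (sb q b) (l + 1) = f8 q (sb q b) l *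
      (-((1 - q ^ (2 * l + 1)) * (1 - sb q b * q ^ (2 * l + 1) + q ^ (4 * l + 2))) /
        ((1 - q ^ (l + 1)) * (1 - sb q b * q ^ (l + 1) + q ^ (2 * l + 2)))) := by
    simp only [f8, pO, pA, pQ, pB, prod_range_succ, pow_succ (-1 : K) l]
    rw [div_mul_div_comm]
    congr 1
    · ring
    · ring
  rw [hstep, e1, e2, e3, e4, quad hq hb, quad hq hb]
  congr 1
  rw [div_mul_div_comm, mul_div_assoc', mul_div_assoc', ← neg_div, div_div_div_cancel_right₀ hb]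
  congr 1
  ring

/-- the nonvanishing facts used below -/
structure NZ {K : Type*} [Field K] (q b : K) : Prop where
  q0 : q ≠ 0
  b0 : b ≠ 0
  h1 : ∀ j : ℕ, 1 - b * q ^ j ≠ 0
  h2 : ∀ j : ℕ, b - q ^ j ≠ 0

theorem nz_of {ζ a : ℂ} {n : ℕ} (hn : 1 ≤ n) (hζ : ζ ^ n = 1) (ha : a ≠ 0) (ha1 : a ^ n ≠ 1) :
    NZ ζ (a * ζ) := by
  have hz : ζ ≠ 0 := by
    rintro rfl
    rw [zero_pow (by omega)] at hζ
    exact zero_ne_one hζ
  refine ⟨hz, mul_ne_zero ha hz, ?_, ?_⟩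
  · intro j h
    apply ha1
    have h1 : a * ζ * ζ ^ j = 1 := by linear_combination -h
    have h2 : (a * ζ * ζ ^ j) ^ n = a ^ n * ζ ^ n * (ζ ^ n) ^ j := by ring
    rw [h1, hζ] at h2
    simpa using h2.symm
  · intro j h
    apply ha1
    have h1 : a * ζ = ζ ^ j := by linear_combination h
    have h2 : (a * ζ) ^ n = a ^ n * ζ ^ n := by ring
    have h3 : (ζ ^ j) ^ n = (ζ ^ n) ^ j := by ring
    rw [h1, h3, hζ] at h2
    simpa using h2.symm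

/-- the ratio `f8 (a q^2) / f8 a` -/
theorem f8_ratio {K : Type*} [Field K] {q b : K} (N : NZ q b) (l : ℕ) :
    f8 q (sb q (b * q ^ 2)) l = f8 q (sb q b) l *
      ((1 - b * (q ^ l) ^ 2) * (1 - b * q) * (b - q ^ l) * (b - q * q ^ l) /
        ((b - (q ^ l) ^ 2) * (1 - b * q ^ l) * (1 - b * q * q ^ l) * (b - q))) := by
  have hq := N.q0
  have hb := N.b0
  have hb2 : b * q ^ 2 ≠ 0 := mul_ne_zero hb (pow_ne_zero _ hq)
  have k0 : b - 1 ≠ 0 := by simpa using N.h2 0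
  have k1 : b - q ≠ 0 := by simpa using N.h2 1
  have k2 : 1 - b ≠ 0 := by simpa using N.h1 0
  have k3 : 1 - b * q ≠ 0 := by simpa using N.h1 1
  induction l with
  | zero =>
    simp only [f8_zero, pow_zero, one_pow, mul_one]
    field_simp
  | succ l ih =>
    rw [f8_succ hq hb, f8_succ hq hb2, ih]
    have g1 : 1 - b * (q ^ l) ^ 2 ≠ 0 := by
      have := N.h1 (2 * l); rwa [show q ^ (2 * l) = (q ^ l) ^ 2 by ring] at this
    have g2 : b - (q ^ l) ^ 2 ≠ 0 := by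
      have := N.h2 (2 * l); rwa [show q ^ (2 * l) = (q ^ l) ^ 2 by ring] at this
    have g3 : 1 - b * q ^ l ≠ 0 := N.h1 l
    have g4 : b - q ^ l ≠ 0 := N.h2 l
    have g5 : 1 - b * q * q ^ l ≠ 0 := by
      have := N.h1 (l + 1); rwa [show b * q ^ (l + 1) = b * q * q ^ l by ring] at this
    have g6 : b - q * q ^ l ≠ 0 := by
      have := N.h2 (l + 1); rwa [show q ^ (l + 1) = q * q ^ l by ring] at this
    have g7 : b - q ^ 2 * (q ^ l) ^ 2 ≠ 0 := by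
      have := N.h2 (2 * l + 2)
      rwa [show q ^ (2 * l + 2) = q ^ 2 * (q ^ l) ^ 2 by ring] at this
    have g8 : b - q ^ 2 * q ^ l ≠ 0 := by
      have := N.h2 (l + 2); rwa [show q ^ (l + 2) = q ^ 2 * q ^ l by ring] at this
    have g9 : 1 - b * q ^ 2 * q ^ l ≠ 0 := by
      have := N.h1 (l + 2)
      rwa [show b * q ^ (l + 2) = b * q ^ 2 * q ^ l by ring] at this
    rw [pow_succ' q l]
    generalize q ^ l = Y at *
    generalize f8 q (sb q b) l = f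
    rw [mul_assoc f, mul_assoc f]
    congr 1
    have e8 : b * q ^ 2 - q ^ 2 * Y = q ^ 2 * (b - Y) := by ring
    have e7 : b * q ^ 2 - q ^ 2 * Y ^ 2 = q ^ 2 * (b - Y ^ 2) := by ring
    have e6 : b - (q * Y) ^ 2 = b - q ^ 2 * Y ^ 2 := by ring
    have e5 : 1 - b * (q * Y) = 1 - b * q * Y := by ring
    have e4 : 1 - b * q * (q * Y) = 1 - b * q ^ 2 * Y := by ring
    have e3 : b - q * (q * Y) = b - q ^ 2 * Y := by ring
    have e2 : 1 - b * (q * Y) ^ 2 = 1 - b * q ^ 2 * Y ^ 2 := by ring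
    rw [e8, e7, e6, e5, e4, e3, e2]
    generalize -(1 - q * Y ^ 2) / (1 - q * Y) = c
    have hz2 : q ^ 2 ≠ 0 := pow_ne_zero _ hq
    rw [mul_left_comm, mul_assoc c]
    congr 1
    rw [div_mul_div_comm, div_mul_div_comm, div_eq_div_iff]
    · ring
    · simp only [mul_ne_zero_iff, and_assoc]
      exact ⟨g2, g3, g5, k1, g9, hz2, g4⟩
    · simp only [mul_ne_zero_iff, and_assoc]
      exact ⟨g3, g8, g7, g5, g9, k1⟩

theorem br_eq {K : Type*} [Field K] {q : K} (h : 1 - q ≠ 0) (m : ℕ) :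
    br q m = (1 - q ^ m) / (1 - q) := by
  rw [eq_div_iff h, br, geom_sum_mul_neg]

/-- `rho` of case 8 in terms of `b` -/
def rho8 {K : Type*} [Field K] (q b : K) : K := (b - q) / (b * (1 - b * q))

/-- the WZ mate -/
def G8 {K : Type*} [Field K] (q b : K) (l : ℕ) : K :=
  f8 q (sb q b) l * ((1 - b ^ 2) * q ^ l * (1 - q ^ l) * (b - q * q ^ l) /
    (b * (1 - q) * (b - (q ^ l) ^ 2) * (1 - b * q ^ l)))

/-- the dual WZ mate -/
def Gd8 {K : Type*} [Field K] (q b : K) (l : ℕ) : K :=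
  q * q ^ (3 * ((l + 1) * l / 2)) * (1 - b ^ 2) /
    (f8 q (sb q b) l * ((1 - q) * (b - q * q ^ l) * (1 - b * (q ^ l) ^ 2) * (b - q ^ l)))

/-- the telescoping term -/
def C8 {K : Type*} [Field K] (q b : K) (l : ℕ) : K :=
  -(q ^ (3 * (l * (l - 1) / 2)) * q ^ l * q / ((q - b * q ^ l) * (1 - b * q ^ l)))

/-- rational identity behind the WZ equation -/
theorem wz8_id {K : Type*} [Field K] {q b Y f : K} {u0 u1 u2 u3 u4 u5 u6 : K}
    (e1 : u1 = 1 - b * Y) (e2 : u2 = 1 - b * q * Y) (e3 : u3 = b - Y ^ 2)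
    (hb : b ≠ 0) (h0 : u0 ≠ 0) (h1 : u1 ≠ 0) (h2 : u2 ≠ 0) (h3 : u3 ≠ 0) (h4 : u4 ≠ 0)
    (h5 : u5 ≠ 0) (h6 : u6 ≠ 0) :
    (1 - q * Y ^ 3) / u0 * f =
      (1 - q * Y ^ 3) / u0 *
        (f * ((1 - b * Y ^ 2) * (b - Y) * (b - q * Y) / (b * u3 * u1 * u2))) -
      (f * (-(1 - q * Y ^ 2) / u5 * ((1 - b * Y ^ 2) * u6 / (u1 * u4))) *
          ((1 - b ^ 2) * (q * Y) * u5 * u4 / (b * u0 * u6 * u2)) -
        f * ((1 - b ^ 2) * Y * (1 - Y) * (b - q * Y) / (b * u0 * u3 * u1))) := by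
  field_simp
  subst e1 e2 e3
  ring

/-- collection of the nonvanishing facts at `Y = q^l` -/
theorem NZ.at {K : Type*} [Field K] {q b : K} (N : NZ q b) (l : ℕ) :
    1 - b * q ^ l ≠ 0 ∧ 1 - b * q * q ^ l ≠ 0 ∧ b - (q ^ l) ^ 2 ≠ 0 ∧ b - q ^ 2 * q ^ l ≠ 0 ∧
      b - q ^ 2 * (q ^ l) ^ 2 ≠ 0 ∧ b - q ^ l ≠ 0 ∧ b - q * q ^ l ≠ 0 ∧
      1 - b * (q ^ l) ^ 2 ≠ 0 ∧ 1 - b * q ^ 2 * (q ^ l) ^ 2 ≠ 0 := by
  refine ⟨N.h1 l, ?_, ?_, ?_, ?_, N.h2 l, ?_, ?_, ?_⟩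
  · have := N.h1 (l + 1); rwa [show b * q ^ (l + 1) = b * q * q ^ l by ring] at this
  · have := N.h2 (2 * l); rwa [show q ^ (2 * l) = (q ^ l) ^ 2 by ring] at this
  · have := N.h2 (l + 2); rwa [show q ^ (l + 2) = q ^ 2 * q ^ l by ring] at this
  · have := N.h2 (2 * l + 2)
    rwa [show q ^ (2 * l + 2) = q ^ 2 * (q ^ l) ^ 2 by ring] at this
  · have := N.h2 (l + 1); rwa [show q ^ (l + 1) = q * q ^ l by ring] at this
  · have := N.h1 (2 * l); rwa [show q ^ (2 * l) = (q ^ l) ^ 2 by ring] at this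
  · have := N.h1 (2 * l + 2)
    rwa [show b * q ^ (2 * l + 2) = b * q ^ 2 * (q ^ l) ^ 2 by ring] at this

theorem rho8_f8 {K : Type*} [Field K] {q b : K} (N : NZ q b) (l : ℕ) :
    rho8 q b * f8 q (sb q (b * q ^ 2)) l = f8 q (sb q b) l *
      ((1 - b * (q ^ l) ^ 2) * (b - q ^ l) * (b - q * q ^ l) /
        (b * (b - (q ^ l) ^ 2) * (1 - b * q ^ l) * (1 - b * q * q ^ l))) := by
  obtain ⟨n1, n2, n3, -⟩ := N.at l
  have hb := N.b0
  have k1 : b - q ≠ 0 := by simpa using N.h2 1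
  have k3 : 1 - b * q ≠ 0 := by simpa using N.h1 1
  rw [f8_ratio N, rho8, mul_left_comm]
  congr 1
  rw [div_mul_div_comm, div_eq_div_iff]
  · ring
  · simp only [mul_ne_zero_iff, and_assoc]
    exact ⟨hb, k3, n3, n1, n2, k1⟩
  · simp only [mul_ne_zero_iff, and_assoc]
    exact ⟨hb, n3, n1, n2⟩

theorem T8_wz {K : Type*} [Field K] {q b : K} {M : ℕ} (N : NZ q b) (h0 : 1 - q ≠ 0)
    (hq1 : ∀ j : ℕ, 1 ≤ j → j ≤ M → 1 - q ^ j ≠ 0) (l : ℕ) (hl : l ≤ M) :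
    T8 q (sb q b) l = rho8 q b * T8 q (sb q (b * q ^ 2)) l - G8 q b l := by
  have hb := N.b0
  induction l with
  | zero => simp [T8, G8]
  | succ l ih =>
    obtain ⟨n1, n2, n3, n4, n5, -⟩ := N.at l
    have n6 : 1 - q * q ^ l ≠ 0 := by
      have := hq1 (l + 1) (by omega) hl
      rwa [pow_succ'] at this
    have ih' := ih (by omega)
    have hT : ∀ s : K, T8 q s (l + 1) = T8 q s l + br q (3 * l + 1) * f8 q s l := by
      intro s; simp [T8, sum_range_succ]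
    rw [hT, hT, ih', mul_add, mul_left_comm (rho8 q b), rho8_f8 N, br_eq h0]
    have e3 : q ^ (3 * l + 1) = q * (q ^ l) ^ 3 := by ring
    rw [e3]
    have key := wz8_id (f := f8 q (sb q b) l) (q := q) (Y := q ^ l) rfl rfl rfl hb h0 n1 n2 n3
      n4 n6 n5
    have hG1 : G8 q b (l + 1) = f8 q (sb q b) l *
        (-(1 - q * (q ^ l) ^ 2) / (1 - q * q ^ l) * ((1 - b * (q ^ l) ^ 2) *
          (b - q ^ 2 * (q ^ l) ^ 2) / ((1 - b * q ^ l) * (b - q ^ 2 * q ^ l)))) *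
          ((1 - b ^ 2) * (q * q ^ l) * (1 - q * q ^ l) * (b - q ^ 2 * q ^ l) /
            (b * (1 - q) * (b - q ^ 2 * (q ^ l) ^ 2) * (1 - b * q * q ^ l))) := by
      rw [G8, f8_succ N.q0 hb]
      congr 1
      have a1 : q ^ (l + 1) = q * q ^ l := by ring
      have a2 : b - q * (q * q ^ l) = b - q ^ 2 * q ^ l := by ring
      have a3 : (q * q ^ l) ^ 2 = q ^ 2 * (q ^ l) ^ 2 := by ring
      have a4 : b * (q * q ^ l) = b * q * q ^ l := by ring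
      rw [a1, a2, a3, a4]
    rw [hG1]
    have hG0 : G8 q b l = f8 q (sb q b) l * ((1 - b ^ 2) * q ^ l * (1 - q ^ l) *
        (b - q * q ^ l) / (b * (1 - q) * (b - (q ^ l) ^ 2) * (1 - b * q ^ l))) := rfl
    rw [hG0]
    linear_combination key

theorem NZ.shift {K : Type*} [Field K] {q b : K} (N : NZ q b) : NZ q (b * q ^ 2) := by
  refine ⟨N.q0, mul_ne_zero N.b0 (pow_ne_zero _ N.q0), ?_, ?_⟩
  · intro j
    have := N.h1 (j + 2)
    rwa [show b * q ^ (j + 2) = b * q ^ 2 * q ^ j by ring] at this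
  · intro j
    match j with
    | 0 =>
      intro h
      apply N.h1 2
      linear_combination -h
    | 1 =>
      intro h
      apply N.h1 1
      apply mul_left_cancel₀ N.q0
      linear_combination -h
    | j + 2 =>
      intro h
      apply N.h2 j
      apply mul_left_cancel₀ (pow_ne_zero 2 N.q0)
      linear_combination h

/-- the dual term at `k+1` in terms of `f8` at `k` -/
theorem D8_succ {K : Type*} [Field K] {q b : K} (N : NZ q b) (h0 : 1 - q ≠ 0) (k : ℕ)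
    (hk : 1 - q * q ^ k ≠ 0) :
    D8 q (sb q b) (k + 1) = q * (1 - q ^ 2 * (q ^ k) ^ 3) * q ^ (3 * ((k + 1) * k / 2)) * b /
      ((1 - q) * f8 q (sb q b) k *
        ((1 - q * (q ^ k) ^ 2) * ((1 - b * (q ^ k) ^ 2) * (b - q ^ 2 * (q ^ k) ^ 2)))) := by
  have hb := N.b0
  obtain ⟨n1, n2, n3, n4, -⟩ := N.at k
  have e1 : q ^ (k + 1) = q * q ^ k := by ring
  have e2 : q ^ (2 * (k + 1)) = (q * q ^ k) ^ 2 := by ring
  have e3 : q ^ (3 * (k + 1) - 1) = q ^ 2 * (q ^ k) ^ 3 := by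
    rw [show 3 * (k + 1) - 1 = 3 * k + 2 by omega]; ring
  have e4 : (k + 1) * (k + 1 - 1) / 2 = (k + 1) * k / 2 := by rw [Nat.add_sub_cancel]
  rw [D8, br_eq h0, e4, e1, e2, e3, quad N.q0 hb, f8_succ N.q0 hb]
  generalize q ^ (3 * ((k + 1) * k / 2)) = Z
  generalize q ^ k = y at *
  generalize f8 q (sb q b) k = f
  generalize (1 - b * y ^ 2) * (b - q ^ 2 * y ^ 2) = m1
  have hden : f * (-(1 - q * y ^ 2) / (1 - q * y) * (m1 / ((1 - b * y) * (b - q ^ 2 * y)))) *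
      (1 - q * y) * ((1 - b * y) * (b - q ^ 2 * y) / b) = -(f * ((1 - q * y ^ 2) * m1)) / b := by
    generalize 1 - q * y = u1 at *
    generalize 1 - b * y = u2 at *
    generalize b - q ^ 2 * y = u3 at *
    field_simp
  rw [hden]
  generalize 1 - q * y ^ 2 = u4
  rw [div_div_eq_mul_div, neg_mul, neg_div_neg_eq, mul_div_assoc', div_mul_eq_mul_div,
    div_mul_eq_mul_div, div_div]
  congr 1
  ring

/-- the dual term at `l ≥ 1` in terms of `f8` at `l` -/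
theorem D8_eq {K : Type*} [Field K] {q b : K} (N : NZ q b) (h0 : 1 - q ≠ 0) (l : ℕ)
    (hl : 1 ≤ l) :
    D8 q (sb q b) l = -((q - (q ^ l) ^ 3) / (1 - q) * q ^ (3 * (l * (l - 1) / 2))) /
      (f8 q (sb q b) l * (1 - q ^ l) * ((q - b * q ^ l) * (b - q * q ^ l) / (q * b))) := by
  have hb := N.b0
  have e2 : q ^ (2 * l) = (q ^ l) ^ 2 := by ring
  have e3 : q * q ^ (3 * l - 1) = (q ^ l) ^ 3 := by
    rw [← pow_succ', show 3 * l - 1 + 1 = l * 3 by omega, pow_mul]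
  rw [D8, br_eq h0, e2, quad' N.q0 hb, mul_div_assoc', mul_sub, mul_one, e3]

/-- rational identity behind the dual WZ equation -/
theorem dual8_idA {K : Type*} [Field K] {q b y Z f : K}
    {u0 u1 u2 u3 u4 u5 u6 u7 u8 u9 u10 u11 u12 u13 : K}
    (e1 : u1 = 1 - b * y) (e2 : u2 = 1 - b * q * y) (e3 : u3 = b - y ^ 2)
    (e5 : u5 = 1 - q * y) (e6 : u6 = b - q ^ 2 * y ^ 2) (e7 : u7 = b - y) (e8 : u8 = b - q * y)
    (e10 : u10 = 1 - b * q ^ 2 * y ^ 2) (e13 : u13 = 1 - q * y ^ 2)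
    (hq : q ≠ 0) (hb : b ≠ 0) (hf : f ≠ 0) (h0 : u0 ≠ 0) (h1 : u1 ≠ 0) (h2 : u2 ≠ 0)
    (h3 : u3 ≠ 0) (h4 : u4 ≠ 0) (h5 : u5 ≠ 0) (h6 : u6 ≠ 0) (h7 : u7 ≠ 0) (h8 : u8 ≠ 0)
    (h9 : u9 ≠ 0) (h10 : u10 ≠ 0) (h11 : u11 ≠ 0) (h12 : u12 ≠ 0) (h13 : u13 ≠ 0) :
    q * (1 - q ^ 2 * y ^ 3) * Z * (b * q ^ 2) /
        (u0 * (f * (u9 * u12 * u7 * u8 / (u3 * u1 * u2 * u11))) * (u13 * (u10 * (q ^ 2 * u3)))) /
        b ^ 2 -
      u11 / (b * u12) * (q * (1 - q ^ 2 * y ^ 3) * Z * b / (u0 * f * (u13 * (u9 * u6)))) =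
    u11 / (b * u12) * (q * Z * (1 - b ^ 2) / (f * (u0 * u8 * u9 * u7)) -
      q * (Z * (q * y) ^ 3) * (1 - b ^ 2) /
        (f * (-u13 / u5 * (u9 * u6 / (u1 * u4))) * (u0 * u4 * u10 * u8))) := by
  field_simp
  subst e1 e2 e3 e5 e6 e7 e8 e10 e13
  ring

/-- rational identity behind the telescoping of the boundary terms -/
theorem dual8_idB {K : Type*} [Field K] {q b Y Z f : K}
    {v0 v1 v2 v3 v4 v5 v6 v7 v8 : K}
    (e2 : v2 = q - b * Y) (e4 : v4 = b - Y ^ 2)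
    (e5 : v5 = 1 - b * Y) (e6 : v6 = 1 - b * q * Y)
    (hq : q ≠ 0) (hb : b ≠ 0) (hf : f ≠ 0) (h0 : v0 ≠ 0) (h1 : v1 ≠ 0) (h2 : v2 ≠ 0)
    (h3 : v3 ≠ 0) (h4 : v4 ≠ 0) (h5 : v5 ≠ 0) (h6 : v6 ≠ 0) (h7 : v7 ≠ 0) (h8 : v8 ≠ 0) :
    -((q - Y ^ 3) / v0 * Z) / (f * v1 * (v2 * v3 / (q * b))) *
        (f * ((1 - b ^ 2) * Y * v1 * v3 / (b * v0 * v4 * v5))) =
      -((1 - q * Y ^ 3) / v0 * (f * (v7 * v8 * v3 / (b * v4 * v5 * v6)))) *
          (q * (Z * Y ^ 3) * (1 - b ^ 2) / (f * (v0 * v3 * v7 * v8))) +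
        q * (b ^ 2 - 1) / (b * v0 ^ 2) *
          (-(Z * Y ^ 3 * (q * Y) * q / (q * v5 * v6)) - -(Z * Y * q / (v2 * v5))) := by
  field_simp
  subst e2 e4 e5 e6
  ring

theorem f8_ne_zero {K : Type*} [Field K] {q b : K} {M : ℕ} (N : NZ q b)
    (hq1 : ∀ j : ℕ, 1 ≤ j → j ≤ 2 * M → 1 - q ^ j ≠ 0) (l : ℕ) (hl : l ≤ M) :
    f8 q (sb q b) l ≠ 0 := by
  induction l with
  | zero => simp [f8_zero]
  | succ l ih =>
    obtain ⟨n1, -, -, n4, n5, -, -, n8, -⟩ := N.at l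
    rw [f8_succ N.q0 N.b0]
    have m1 : 1 - q * q ^ l ≠ 0 := by
      have := hq1 (l + 1) (by omega) (by omega)
      rwa [pow_succ'] at this
    have m2 : 1 - q * (q ^ l) ^ 2 ≠ 0 := by
      have := hq1 (2 * l + 1) (by omega) (by omega)
      rwa [show q ^ (2 * l + 1) = q * (q ^ l) ^ 2 by ring] at this
    exact mul_ne_zero (ih (by omega)) (mul_ne_zero (div_ne_zero (neg_ne_zero.2 m2) m1)
      (div_ne_zero (mul_ne_zero n8 n5) (mul_ne_zero n1 n4)))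

/-- the dual WZ equation -/
theorem dual8 {K : Type*} [Field K] {q b : K} {M : ℕ} (N : NZ q b)
    (hq1 : ∀ j : ℕ, 1 ≤ j → j ≤ 2 * M → 1 - q ^ j ≠ 0) (k : ℕ) (hk : k + 1 ≤ M) :
    D8 q (sb q (b * q ^ 2)) (k + 1) / b ^ 2 - rho8 q b * D8 q (sb q b) (k + 1) =
      rho8 q b * (Gd8 q b k - Gd8 q b (k + 1)) := by
  have hq := N.q0
  have hb := N.b0
  have h0 : 1 - q ≠ 0 := by simpa using hq1 1 le_rfl (by omega)
  have k1 : b - q ≠ 0 := by simpa using N.h2 1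
  have k3 : 1 - b * q ≠ 0 := by simpa using N.h1 1
  obtain ⟨n1, n2, n3, n4, n5, n6, n7, n8, n9⟩ := N.at k
  have hf : f8 q (sb q b) k ≠ 0 := f8_ne_zero N hq1 k (by omega)
  have m1 : 1 - q * q ^ k ≠ 0 := by
    have := hq1 (k + 1) (by omega) (by omega)
    rwa [pow_succ'] at this
  have m2 : 1 - q * (q ^ k) ^ 2 ≠ 0 := by
    have := hq1 (2 * k + 1) (by omega) (by omega)
    rwa [show q ^ (2 * k + 1) = q * (q ^ k) ^ 2 by ring] at this
  have key := dual8_idA (q := q) (b := b) (y := q ^ k) (Z := q ^ (3 * ((k + 1) * k / 2)))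
    (f := f8 q (sb q b) k) rfl rfl rfl rfl rfl rfl rfl rfl rfl hq hb hf h0 n1 n2 n3 n4 m1 n5 n6 n7
    n8 n9 k1 k3 m2
  rw [D8_succ N h0 k m1, D8_succ N.shift h0 k m1, f8_ratio N]
  have a1 : b * q ^ 2 - q ^ 2 * (q ^ k) ^ 2 = q ^ 2 * (b - (q ^ k) ^ 2) := by ring
  rw [a1]
  have hG0 : Gd8 q b k = q * q ^ (3 * ((k + 1) * k / 2)) * (1 - b ^ 2) /
    (f8 q (sb q b) k * ((1 - q) * (b - q * q ^ k) * (1 - b * (q ^ k) ^ 2) * (b - q ^ k))) := rfl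
  have hG1 : Gd8 q b (k + 1) = q * (q ^ (3 * ((k + 1) * k / 2)) * (q * q ^ k) ^ 3) * (1 - b ^ 2) /
        (f8 q (sb q b) k * (-(1 - q * (q ^ k) ^ 2) / (1 - q * q ^ k) * ((1 - b * (q ^ k) ^ 2) *
          (b - q ^ 2 * (q ^ k) ^ 2) / ((1 - b * q ^ k) * (b - q ^ 2 * q ^ k)))) *
          ((1 - q) * (b - q ^ 2 * q ^ k) * (1 - b * q ^ 2 * (q ^ k) ^ 2) * (b - q * q ^ k))) := by
    rw [Gd8, f8_succ hq hb]
    have a2 : q ^ (k + 1) = q * q ^ k := by ring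
    have a3 : b - q * (q * q ^ k) = b - q ^ 2 * q ^ k := by ring
    have a4 : b * (q * q ^ k) ^ 2 = b * q ^ 2 * (q ^ k) ^ 2 := by ring
    have a5 : q ^ (3 * ((k + 1 + 1) * (k + 1) / 2)) =
        q ^ (3 * ((k + 1) * k / 2)) * (q * q ^ k) ^ 3 := by
      have : (k + 1 + 1) * (k + 1) / 2 = (k + 1) * k / 2 + (k + 1) := by
        rw [show (k + 1 + 1) * (k + 1) = (k + 1) * k + (k + 1) * 2 by ring,
          Nat.add_mul_div_right _ _ (by norm_num)]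
      rw [this, mul_add, pow_add, ← pow_succ', ← pow_mul, mul_comm 3 (k + 1)]
    rw [a5, a2, a3, a4]
  rw [hG0, hG1]
  rw [rho8]
  exact key

/-- the boundary terms telescope -/
theorem tele8 {K : Type*} [Field K] {q b : K} {M : ℕ} (N : NZ q b)
    (hq1 : ∀ j : ℕ, 1 ≤ j → j ≤ 2 * M → 1 - q ^ j ≠ 0) (l : ℕ) (hl1 : 1 ≤ l) (hl : l ≤ M) :
    D8 q (sb q b) l * G8 q b l =
      -(rho8 q b * (br q (3 * l + 1) * f8 q (sb q (b * q ^ 2)) l)) * Gd8 q b l +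
        q * (b ^ 2 - 1) / (b * (1 - q) ^ 2) * (C8 q b (l + 1) - C8 q b l) := by
  have hq := N.q0
  have hb := N.b0
  have h0 : 1 - q ≠ 0 := by simpa using hq1 1 le_rfl (by omega)
  obtain ⟨n1, n2, n3, n4, n5, n6, n7, n8, n9⟩ := N.at l
  have hf : f8 q (sb q b) l ≠ 0 := f8_ne_zero N hq1 l hl
  have m1 : 1 - q ^ l ≠ 0 := hq1 l hl1 (by omega)
  have m2 : q - b * q ^ l ≠ 0 := by
    obtain ⟨j, rfl⟩ : ∃ j, l = j + 1 := ⟨l - 1, by omega⟩
    intro h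
    apply N.h1 j
    apply mul_left_cancel₀ hq
    linear_combination h
  have key := dual8_idB (q := q) (b := b) (Y := q ^ l) (Z := q ^ (3 * (l * (l - 1) / 2)))
    (f := f8 q (sb q b) l) rfl rfl rfl rfl hq hb hf h0 m1 m2 n7 n3 n1 n2 n8 n6
  rw [mul_left_comm (rho8 q b), rho8_f8 N, D8_eq N h0 l hl1, br_eq h0]
  have e3 : q ^ (3 * l + 1) = q * (q ^ l) ^ 3 := by ring
  have e4 : (l + 1) * l / 2 = l * (l - 1) / 2 + l := by
    obtain ⟨j, rfl⟩ : ∃ j, l = j + 1 := ⟨l - 1, by omega⟩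
    rw [show (j + 1 + 1) * (j + 1) = (j + 1) * (j + 1 - 1) + (j + 1) * 2 by
      rw [Nat.add_sub_cancel]; ring, Nat.add_mul_div_right _ _ (by norm_num)]
  have e5 : q ^ (3 * ((l + 1) * l / 2)) = q ^ (3 * (l * (l - 1) / 2)) * (q ^ l) ^ 3 := by
    rw [e4, mul_add, pow_add, ← pow_mul, mul_comm 3 l]
  have e6 : q ^ (3 * ((l + 1) * (l + 1 - 1) / 2)) =
      q ^ (3 * (l * (l - 1) / 2)) * (q ^ l) ^ 3 := by
    rw [Nat.add_sub_cancel, e5]
  have e7 : q - b * q ^ (l + 1) = q * (1 - b * q ^ l) := by ring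
  have e8 : 1 - b * q ^ (l + 1) = 1 - b * q * q ^ l := by ring
  have e9 : q ^ (l + 1) = q * q ^ l := by ring
  rw [G8, Gd8, C8, C8, e3, e5, e6, e7, e8, e9]
  exact key

theorem W8_shift_b {K : Type*} [Field K] {q b : K} {M : ℕ} (hM : 1 ≤ M) (N : NZ q b)
    (hq1 : ∀ j : ℕ, 1 ≤ j → j ≤ 2 * M → 1 - q ^ j ≠ 0)
    (hT : T8 q (sb q (b * q ^ 2)) (M + 1) = 0) :
    W8 q (sb q (b * q ^ 2)) M / b ^ 2 - W8 q (sb q b) M =
      rho8 q b * Gd8 q b 0 +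
        q * (b ^ 2 - 1) / (b * (1 - q) ^ 2) * (C8 q b (M + 1) - C8 q b 1) := by
  have h0 : 1 - q ≠ 0 := by simpa using hq1 1 le_rfl (by omega)
  have hT1 : ∀ (s : K) (l : ℕ), T8 q s (l + 1) = T8 q s l + br q (3 * l + 1) * f8 q s l := by
    intro s l; simp [T8, sum_range_succ]
  have main : ∀ L : ℕ, L ≤ M →
      (∑ l ∈ Icc 1 L, D8 q (sb q (b * q ^ 2)) l * T8 q (sb q (b * q ^ 2)) l) / b ^ 2 -
        ∑ l ∈ Icc 1 L, D8 q (sb q b) l * T8 q (sb q b) l =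
      rho8 q b * Gd8 q b 0 - rho8 q b * T8 q (sb q (b * q ^ 2)) (L + 1) * Gd8 q b L +
        q * (b ^ 2 - 1) / (b * (1 - q) ^ 2) * (C8 q b (L + 1) - C8 q b 1) := by
    intro L
    induction L with
    | zero =>
      intro _
      have : T8 q (sb q (b * q ^ 2)) 1 = 1 := by simp [T8, br, f8_zero]
      simp [this]
    | succ L ih =>
      intro hL
      have ih' := ih (by omega)
      rw [sum_Icc_succ_top (by omega), sum_Icc_succ_top (by omega)]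
      have hA := dual8 N hq1 L hL
      have hB := tele8 N hq1 (L + 1) (by omega) hL
      have hw := T8_wz N h0 (M := M) (fun j h1 h2 => hq1 j h1 (by omega)) (L + 1) hL
      rw [hT1 _ (L + 1), hw, add_div]
      have hA' : D8 q (sb q (b * q ^ 2)) (L + 1) / b ^ 2 =
          rho8 q b * D8 q (sb q b) (L + 1) + rho8 q b * (Gd8 q b L - Gd8 q b (L + 1)) := by
        linear_combination hA
      have hA'' : D8 q (sb q (b * q ^ 2)) (L + 1) * T8 q (sb q (b * q ^ 2)) (L + 1) / b ^ 2 =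
          (rho8 q b * D8 q (sb q b) (L + 1) + rho8 q b * (Gd8 q b L - Gd8 q b (L + 1))) *
            T8 q (sb q (b * q ^ 2)) (L + 1) := by
        rw [← hA']; ring
      rw [hA'']
      linear_combination ih' + hB
  have := main M le_rfl
  rw [hT] at this
  rw [W8, W8, this]
  ring

end P5

theorem W8_shift {ζ a : ℂ} {M : ℕ} (hM : 1 ≤ M) (hζ : IsPrimitiveRoot ζ (2 * M + 1))
    (ha : a ≠ 0) (ha1 : a ^ (2 * M + 1) ≠ 1)
    (hT : T8 ζ (a * ζ ^ 2 + (a * ζ ^ 2)⁻¹) (M + 1) = 0) :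
    W8 ζ (a * ζ ^ 2 + (a * ζ ^ 2)⁻¹) M / (a * ζ) ^ 2 - W8 ζ (a + a⁻¹) M = h8 ζ a M := by
  have N : P5.NZ ζ (a * ζ) := P5.nz_of (by omega) hζ.pow_eq_one ha ha1
  have hz := N.q0
  have hq1 : ∀ j : ℕ, 1 ≤ j → j ≤ 2 * M → 1 - ζ ^ j ≠ 0 := by
    intro j h1 h2 h
    exact hζ.pow_ne_one_of_pos_of_lt (l := j) (by omega) (by omega) (by linear_combination -h)
  have s1 : a + a⁻¹ = P5.sb ζ (a * ζ) := by
    rw [P5.sb]; field_simp
  have s2 : a * ζ ^ 2 + (a * ζ ^ 2)⁻¹ = P5.sb ζ (a * ζ * ζ ^ 2) := by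
    rw [P5.sb]; field_simp
  rw [s2] at hT ⊢
  rw [s1, P5.W8_shift_b hM N hq1 hT]
  have h0 : 1 - ζ ≠ 0 := by simpa using hq1 1 le_rfl (by omega)
  have k0 : a * ζ - 1 ≠ 0 := by simpa using N.h2 0
  have k1 : a * ζ - ζ ≠ 0 := by simpa using N.h2 1
  have k2 : 1 - a * ζ ≠ 0 := by simpa using N.h1 0
  have k3 : 1 - a * ζ * ζ ≠ 0 := by simpa using N.h1 1
  obtain ⟨n1, n2, -⟩ := N.at M
  have hb := N.b0
  have g0 : P5.Gd8 ζ (a * ζ) 0 = ζ * (1 - (a * ζ) ^ 2) /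
      ((1 - ζ) * (a * ζ - ζ) * (1 - a * ζ) * (a * ζ - 1)) := by
    simp [P5.Gd8, P5.f8_zero]
  have c1 : P5.C8 ζ (a * ζ) 1 = -(ζ / ((1 - a * ζ) * (1 - a * ζ * ζ))) := by
    rw [P5.C8]
    have : ζ - a * ζ * ζ ^ 1 = ζ * (1 - a * ζ) := by ring
    rw [this]
    simp only [pow_one, Nat.sub_self, mul_zero, Nat.zero_div, pow_zero, one_mul]
    rw [mul_assoc ζ, mul_div_mul_left _ _ hz]
  have c2 : P5.C8 ζ (a * ζ) (M + 1) = -(ζ ^ (3 * (M * (M + 1) / 2)) * (ζ * ζ ^ M) /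
      ((1 - a * ζ * ζ ^ M) * (1 - a * ζ * ζ * ζ ^ M))) := by
    rw [P5.C8, Nat.add_sub_cancel, mul_comm (M + 1) M]
    have e1 : ζ - a * ζ * ζ ^ (M + 1) = ζ * (1 - a * ζ * ζ ^ M) := by ring
    have e2 : 1 - a * ζ * ζ ^ (M + 1) = 1 - a * ζ * ζ * ζ ^ M := by ring
    rw [e1, e2, mul_assoc ζ, mul_comm _ ζ, mul_div_mul_left _ _ hz, pow_succ' ζ M]
  have e3 : ζ ^ (3 * (M * (M + 1) / 2) + (M + 1)) =
      ζ ^ (3 * (M * (M + 1) / 2)) * (ζ * ζ ^ M) := by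
    rw [pow_add, pow_succ' ζ M]
  have e4 : 1 - a * ζ * ζ ^ (M + 1) = 1 - a * ζ * ζ * ζ ^ M := by ring
  rw [g0, c1, c2, P5.rho8, h8, e3, e4]
  generalize ζ ^ (3 * (M * (M + 1) / 2)) = Z at *
  generalize ζ ^ M = y at *
  generalize a * ζ = b at *
  generalize e5 : 1 - b * y = u1 at *
  generalize e6 : 1 - b * ζ * y = u2 at *
  generalize e7 : 1 - b = u3 at *
  generalize e8 : 1 - b * ζ = u4 at *
  generalize e9 : b - ζ = u5 at *
  generalize e10 : 1 - ζ = u6 at *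
  have e11 : b - 1 = -u3 := by rw [← e7]; ring
  rw [e11]
  field_simp
  rw [← e7, ← e8, ← e10]
  ring

end SC322
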