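import Pool.Agent.SC322.P5a

/-!
# SC322 P5b : functional equation of `W16` (dual WZ)

Everything is written in terms of `b = a q`, so that `s = a + 1/a = b/q + q/b`.
-/

namespace SC322

open Finset Polynomial

namespace P5

theorem f16_zero {K : Type*} [Field K] (q s : K) : f16 q s 0 = 1 := by
  simp [f16, pO, pA, pQ, pB, pE]

theorem f16_succ {K : Type*} [Field K] {q b : K} (hq : q ≠ 0) (hb : b ≠ 0) (l : ℕ) :
    f16 q (sb q b) (l + 1) = f16 q (sb q b) l *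
      ((1 - q * (q ^ l) ^ 2) / ((1 - q * q ^ l) * (1 + q * q ^ l) * (q * q ^ l)) *
        ((1 - b * (q ^ l) ^ 2) * (b - q ^ 2 * (q ^ l) ^ 2) /
          ((1 - b * q ^ l) * (b - q ^ 2 * q ^ l)))) := by
  have e1 : q ^ (2 * l + 1) = q * (q ^ l) ^ 2 := by ring
  have e2 : q ^ (4 * l + 2) = (q * (q ^ l) ^ 2) ^ 2 := by ring
  have e3 : q ^ (l + 1) = q * q ^ l := by ring
  have e4 : q ^ (2 * l + 2) = (q * q ^ l) ^ 2 := by ring
  have e5 : (l + 1) * (l + 1 + 1) / 2 = l * (l + 1) / 2 + (l + 1) := by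
    rw [show (l + 1) * (l + 1 + 1) = l * (l + 1) + (l + 1) * 2 by ring,
      Nat.add_mul_div_right _ _ (by norm_num)]
  have hstep : f16 q (sb q b) (l + 1) = f16 q (sb q b) l *
      (((1 - q ^ (2 * l + 1)) * (1 - sb q b * q ^ (2 * l + 1) + q ^ (4 * l + 2))) /
        ((1 - q ^ (l + 1)) * (1 + q ^ (l + 1)) * (q ^ (l + 1)) *
          (1 - sb q b * q ^ (l + 1) + q ^ (2 * l + 2)))) := by
    simp only [f16, pO, pA, pQ, pB, pE, prod_range_succ, e5, pow_add q (l * (l + 1) / 2) (l + 1)]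
    rw [div_mul_div_comm]
    congr 1
    · ring
    · ring
  rw [hstep, e1, e2, e3, e4, quad hq hb, quad hq hb]
  congr 1
  rw [div_mul_div_comm, mul_div_assoc', mul_div_assoc', div_div_div_cancel_right₀ hb]

/-- the ratio `f16 (a q^2) / f16 a` -/
theorem f16_ratio {K : Type*} [Field K] {q b : K} (N : NZ q b) (l : ℕ) :
    f16 q (sb q (b * q ^ 2)) l = f16 q (sb q b) l *
      ((1 - b * (q ^ l) ^ 2) * (1 - b * q) * (b - q ^ l) * (b - q * q ^ l) /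
        ((b - (q ^ l) ^ 2) * (1 - b * q ^ l) * (1 - b * q * q ^ l) * (b - q))) := by
  have hq := N.q0
  have hb := N.b0
  have hb2 : b * q ^ 2 ≠ 0 := mul_ne_zero hb (pow_ne_zero _ hq)
  have k0 : b - 1 ≠ 0 := by simpa using N.h2 0
  have k1 : b - q ≠ 0 := by simpa using N.h2 1
  have k2 : 1 - b ≠ 0 := by simpa using N.h1 0
  have k3 : 1 - b * q ≠ 0 := by simpa using N.h1 1
  induction l with
  | zero =>
    simp only [f16_zero, pow_zero, one_pow, mul_one]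
    field_simp
  | succ l ih =>
    rw [f16_succ hq hb, f16_succ hq hb2, ih]
    have g9 : 1 - b * q ^ 2 * q ^ l ≠ 0 := by
      have := N.h1 (l + 2)
      rwa [show b * q ^ (l + 2) = b * q ^ 2 * q ^ l by ring] at this
    obtain ⟨g3, g5, g2, g8, g7, g4, g6, g1, -⟩ := N.at l
    rw [pow_succ' q l]
    generalize q ^ l = Y at *
    generalize f16 q (sb q b) l = f
    rw [mul_assoc f, mul_assoc f]
    congr 1
    have e8 : b * q ^ 2 - q ^ 2 * Y = q ^ 2 * (b - Y) := by ring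
    have e7 : b * q ^ 2 - q ^ 2 * Y ^ 2 = q ^ 2 * (b - Y ^ 2) := by ring
    have e6 : b - (q * Y) ^ 2 = b - q ^ 2 * Y ^ 2 := by ring
    have e5 : 1 - b * (q * Y) = 1 - b * q * Y := by ring
    have e4 : 1 - b * q * (q * Y) = 1 - b * q ^ 2 * Y := by ring
    have e3 : b - q * (q * Y) = b - q ^ 2 * Y := by ring
    have e2 : 1 - b * (q * Y) ^ 2 = 1 - b * q ^ 2 * Y ^ 2 := by ring
    rw [e8, e7, e6, e5, e4, e3, e2]
    generalize (1 - q * Y ^ 2) / ((1 - q * Y) * (1 + q * Y) * (q * Y)) = c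
    have hz2 : q ^ 2 ≠ 0 := pow_ne_zero _ hq
    rw [mul_left_comm, mul_assoc c]
    congr 1
    rw [div_mul_div_comm, div_mul_div_comm, div_eq_div_iff]
    · ring
    · simp only [mul_ne_zero_iff, and_assoc]
      exact ⟨g2, g3, g5, k1, g9, hz2, g4⟩
    · simp only [mul_ne_zero_iff, and_assoc]
      exact ⟨g3, g8, g7, g5, g9, k1⟩

/-- `rho` of case 16 in terms of `b` -/
def rho16 {K : Type*} [Field K] (q b : K) : K := (q - b) / (1 - b * q)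

/-- the WZ mate -/
def G16 {K : Type*} [Field K] (q b : K) (l : ℕ) : K :=
  f16 q (sb q b) l * (-((1 + b) * q ^ l * ((1 - q ^ l) * (1 + q ^ l)) * (1 - q ^ l) *
    (b - q * q ^ l)) / ((1 - q) * (b - (q ^ l) ^ 2) * (1 - b * q ^ l)))

/-- the dual WZ mate -/
def Gd16 {K : Type*} [Field K] (q b : K) (l : ℕ) : K :=
  (1 + b) * q * b * (q ^ l - 1) /
    (f16 q (sb q b) l * ((1 - q) * (b - q * q ^ l) * (1 - b * (q ^ l) ^ 2) * (b - q ^ l)))

/-- the telescoping term -/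
def C16 {K : Type*} [Field K] (q b : K) (l : ℕ) : K :=
  (q - b * (q ^ l) ^ 2) * q / (b * (q - b * q ^ l) * (1 - b * q ^ l))

/-- rational identity behind the WZ equation -/
theorem wz16_id {K : Type*} [Field K] {q b Y f : K} {u0 u1 u2 u3 u4 u5 u6 v5 : K}
    (e1 : u1 = 1 - b * Y) (e2 : u2 = 1 - b * q * Y) (e3 : u3 = b - Y ^ 2) (e5 : u5 = 1 - q * Y)
    (hq : q ≠ 0) (hY : Y ≠ 0) (h0 : u0 ≠ 0) (h1 : u1 ≠ 0) (h2 : u2 ≠ 0) (h3 : u3 ≠ 0)
    (h4 : u4 ≠ 0) (h5 : u5 ≠ 0) (h6 : u6 ≠ 0) (h7 : v5 ≠ 0) :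
    (1 - q * Y ^ 3) / u0 * f =
      (1 - q * Y ^ 3) / u0 *
        (f * (-((1 - b * Y ^ 2) * (b - Y) * (b - q * Y)) / (u3 * u1 * u2))) -
      (f * ((1 - q * Y ^ 2) / (u5 * v5 * (q * Y)) * ((1 - b * Y ^ 2) * u6 / (u1 * u4))) *
          (-((1 + b) * (q * Y) * (u5 * v5) * u5 * u4) / (u0 * u6 * u2)) -
        f * (-((1 + b) * Y * ((1 - Y) * (1 + Y)) * (1 - Y) * (b - q * Y)) /
          (u0 * u3 * u1))) := by
  field_simp
  subst e1 e2 e3 e5
  ring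

theorem rho16_f16 {K : Type*} [Field K] {q b : K} (N : NZ q b) (l : ℕ) :
    rho16 q b * f16 q (sb q (b * q ^ 2)) l = f16 q (sb q b) l *
      (-((1 - b * (q ^ l) ^ 2) * (b - q ^ l) * (b - q * q ^ l)) /
        ((b - (q ^ l) ^ 2) * (1 - b * q ^ l) * (1 - b * q * q ^ l))) := by
  obtain ⟨n1, n2, n3, -⟩ := N.at l
  have hb := N.b0
  have k1 : b - q ≠ 0 := by simpa using N.h2 1
  have k3 : 1 - b * q ≠ 0 := by simpa using N.h1 1
  rw [f16_ratio N, rho16, mul_left_comm]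
  congr 1
  rw [div_mul_div_comm, div_eq_div_iff]
  · ring
  · simp only [mul_ne_zero_iff, and_assoc]
    exact ⟨k3, n3, n1, n2, k1⟩
  · simp only [mul_ne_zero_iff, and_assoc]
    exact ⟨n3, n1, n2⟩

theorem T16_wz {K : Type*} [Field K] {q b : K} {M : ℕ} (N : NZ q b) (h0 : 1 - q ≠ 0)
    (hq1 : ∀ j : ℕ, 1 ≤ j → j ≤ 2 * M → 1 - q ^ j ≠ 0) (l : ℕ) (hl : l ≤ M) :
    T16 q (sb q b) l = rho16 q b * T16 q (sb q (b * q ^ 2)) l - G16 q b l := by
  have hb := N.b0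
  induction l with
  | zero => simp [T16, G16]
  | succ l ih =>
    obtain ⟨n1, n2, n3, n4, n5, -⟩ := N.at l
    have n6 : 1 - q * q ^ l ≠ 0 := by
      have := hq1 (l + 1) (by omega) (by omega)
      rwa [pow_succ'] at this
    have n7 : 1 + q * q ^ l ≠ 0 := by
      intro h
      apply hq1 (2 * (l + 1)) (by omega) (by omega)
      rw [show q ^ (2 * (l + 1)) = (q * q ^ l) ^ 2 by ring]
      linear_combination (1 - q * q ^ l) * h
    have hY : q ^ l ≠ 0 := pow_ne_zero _ N.q0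
    have ih' := ih (by omega)
    have hT : ∀ s : K, T16 q s (l + 1) = T16 q s l + br q (3 * l + 1) * f16 q s l := by
      intro s; simp [T16, sum_range_succ]
    rw [hT, hT, ih', mul_add, mul_left_comm (rho16 q b), rho16_f16 N, br_eq h0]
    have e3 : q ^ (3 * l + 1) = q * (q ^ l) ^ 3 := by ring
    rw [e3]
    have key := wz16_id (f := f16 q (sb q b) l) (q := q) (Y := q ^ l) rfl rfl rfl rfl N.q0 hY h0
      n1 n2 n3 n4 n6 n5 n7
    have hG1 : G16 q b (l + 1) = f16 q (sb q b) l *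
        ((1 - q * (q ^ l) ^ 2) / ((1 - q * q ^ l) * (1 + q * q ^ l) * (q * q ^ l)) *
          ((1 - b * (q ^ l) ^ 2) *
          (b - q ^ 2 * (q ^ l) ^ 2) / ((1 - b * q ^ l) * (b - q ^ 2 * q ^ l)))) *
          (-((1 + b) * (q * q ^ l) * ((1 - q * q ^ l) * (1 + q * q ^ l)) * (1 - q * q ^ l) *
            (b - q ^ 2 * q ^ l)) /
            ((1 - q) * (b - q ^ 2 * (q ^ l) ^ 2) * (1 - b * q * q ^ l))) := by
      rw [G16, f16_succ N.q0 hb]
      congr 1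
      have a1 : q ^ (l + 1) = q * q ^ l := by ring
      have a2 : b - q * (q * q ^ l) = b - q ^ 2 * q ^ l := by ring
      have a3 : (q * q ^ l) ^ 2 = q ^ 2 * (q ^ l) ^ 2 := by ring
      have a4 : b * (q * q ^ l) = b * q * q ^ l := by ring
      rw [a1, a2, a3, a4]
    rw [hG1]
    rw [G16]
    linear_combination key

/-- the dual term at `k+1` in terms of `f16` at `k` -/
theorem D16_succ {K : Type*} [Field K] {q b : K} (N : NZ q b) (h0 : 1 - q ≠ 0) (k : ℕ)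
    (hk : 1 - q * q ^ k ≠ 0) (hk2 : 1 + q * q ^ k ≠ 0) :
    D16 q (sb q b) (k + 1) = q * (1 - q ^ 2 * (q ^ k) ^ 3) * b /
      ((1 - q) * f16 q (sb q b) k *
        ((1 - q * (q ^ k) ^ 2) * ((1 - b * (q ^ k) ^ 2) * (b - q ^ 2 * (q ^ k) ^ 2)))) := by
  have hb := N.b0
  have hq := N.q0
  obtain ⟨n1, n2, n3, n4, -⟩ := N.at k
  have hY : q ^ k ≠ 0 := pow_ne_zero _ N.q0
  have e1 : q ^ (k + 1) = q * q ^ k := by ring
  have e2 : q ^ (2 * (k + 1)) = (q * q ^ k) ^ 2 := by ring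
  have e3 : q ^ (3 * (k + 1) - 1) = q ^ 2 * (q ^ k) ^ 3 := by
    rw [show 3 * (k + 1) - 1 = 3 * k + 2 by omega]; ring
  rw [D16, br_eq h0, e1, e2, e3, quad N.q0 hb, f16_succ N.q0 hb]
  generalize q ^ k = y at *
  generalize f16 q (sb q b) k = f
  generalize (1 - b * y ^ 2) * (b - q ^ 2 * y ^ 2) = m1
  have e4 : 1 - (q * y) ^ 2 = (1 - q * y) * (1 + q * y) := by ring
  rw [e4]
  have hden : q * y * (f * ((1 - q * y ^ 2) / ((1 - q * y) * (1 + q * y) * (q * y)) *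
      (m1 / ((1 - b * y) * (b - q ^ 2 * y))))) *
      ((1 - q * y) * (1 + q * y)) * ((1 - b * y) * (b - q ^ 2 * y) / b) =
        (f * ((1 - q * y ^ 2) * m1)) / b := by
    generalize 1 - q * y = u1 at *
    generalize 1 + q * y = u4 at *
    generalize 1 - b * y = u2 at *
    generalize b - q ^ 2 * y = u3 at *
    field_simp
  rw [hden]
  generalize 1 - q * y ^ 2 = u4
  rw [div_div_eq_mul_div, mul_div_assoc', div_mul_eq_mul_div, div_div]
  congr 1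
  ring

/-- the dual term at `l ≥ 1` in terms of `f16` at `l` -/
theorem D16_eq {K : Type*} [Field K] {q b : K} (N : NZ q b) (h0 : 1 - q ≠ 0) (l : ℕ)
    (hl : 1 ≤ l) :
    D16 q (sb q b) l = ((q - (q ^ l) ^ 3) / (1 - q)) /
      (q ^ l * f16 q (sb q b) l * ((1 - q ^ l) * (1 + q ^ l)) *
        ((q - b * q ^ l) * (b - q * q ^ l) / (q * b))) := by
  have hb := N.b0
  have e2 : q ^ (2 * l) = (q ^ l) ^ 2 := by ring
  have e3 : q * q ^ (3 * l - 1) = (q ^ l) ^ 3 := by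
    rw [← pow_succ', show 3 * l - 1 + 1 = l * 3 by omega, pow_mul]
  have e4 : 1 - (q ^ l) ^ 2 = (1 - q ^ l) * (1 + q ^ l) := by ring
  rw [D16, br_eq h0, e2, quad' N.q0 hb, mul_div_assoc', mul_sub, mul_one, e3, e4]

/-- rational identity behind the dual WZ equation -/
theorem dual16_idA {K : Type*} [Field K] {q b y f : K}
    {u0 u1 u2 u3 u4 u5 u6 u7 u8 u9 u10 u11 u12 u13 v5 : K}
    (e1 : u1 = 1 - b * y) (e2 : u2 = 1 - b * q * y) (e3 : u3 = b - y ^ 2)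
    (e5 : u5 = 1 - q * y) (e55 : v5 = 1 + q * y)
    (e6 : u6 = b - q ^ 2 * y ^ 2) (e7 : u7 = b - y) (e8 : u8 = b - q * y)
    (e10 : u10 = 1 - b * q ^ 2 * y ^ 2) (e11 : u11 = b - q) (e13 : u13 = 1 - q * y ^ 2)
    (hq : q ≠ 0) (hb : b ≠ 0) (hf : f ≠ 0) (h0 : u0 ≠ 0) (h1 : u1 ≠ 0) (h2 : u2 ≠ 0)
    (h3 : u3 ≠ 0) (h4 : u4 ≠ 0) (h5 : u5 ≠ 0) (h55 : v5 ≠ 0) (h6 : u6 ≠ 0) (h7 : u7 ≠ 0)
    (h8 : u8 ≠ 0)
    (h9 : u9 ≠ 0) (h10 : u10 ≠ 0) (h11 : u11 ≠ 0) (h12 : u12 ≠ 0) (h13 : u13 ≠ 0) :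
    q * (1 - q ^ 2 * y ^ 3) * (b * q ^ 2) /
        (u0 * (f * (u9 * u12 * u7 * u8 / (u3 * u1 * u2 * u11))) * (u13 * (u10 * (q ^ 2 * u3)))) -
      (q - b) / u12 * (q * (1 - q ^ 2 * y ^ 3) * b / (u0 * f * (u13 * (u9 * u6)))) =
    (q - b) / u12 * ((1 + b) * q * b * (y - 1) / (f * (u0 * u8 * u9 * u7)) -
      (1 + b) * q * b * (q * y - 1) /
        (f * (u13 / (u5 * v5 * (q * y)) * (u9 * u6 / (u1 * u4))) * (u0 * u4 * u10 * u8))) := by
  field_simp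
  subst e1 e2 e3 e5 e55 e6 e7 e8 e10 e11 e13
  ring

/-- rational identity behind the telescoping of the boundary terms -/
theorem dual16_idB {K : Type*} [Field K] {q b Y f : K}
    {v0 v1 v2 v3 v4 v5 v6 v7 v8 v9 : K}
    (e1 : v1 = 1 - Y) (e2 : v2 = q - b * Y) (e4 : v4 = b - Y ^ 2)
    (e5 : v5 = 1 - b * Y) (e6 : v6 = 1 - b * q * Y)
    (hq : q ≠ 0) (hb : b ≠ 0) (hY : Y ≠ 0) (hf : f ≠ 0) (h0 : v0 ≠ 0) (h1 : v1 ≠ 0)
    (h2 : v2 ≠ 0) (h9 : v9 ≠ 0)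
    (h3 : v3 ≠ 0) (h4 : v4 ≠ 0) (h5 : v5 ≠ 0) (h6 : v6 ≠ 0) (h7 : v7 ≠ 0) (h8 : v8 ≠ 0) :
    ((q - Y ^ 3) / v0) / (Y * f * (v1 * v9) * (v2 * v3 / (q * b))) *
        (f * (-((1 + b) * Y * (v1 * v9) * v1 * v3) / (v0 * v4 * v5))) =
      -((1 - q * Y ^ 3) / v0 * (f * (-(v7 * v8 * v3) / (v4 * v5 * v6)))) *
          ((1 + b) * q * b * (Y - 1) / (f * (v0 * v3 * v7 * v8))) +
        b * (b + 1) / v0 ^ 2 *
          ((q - b * (q * Y) ^ 2) * q / (b * (q * v5) * v6) -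
            (q - b * Y ^ 2) * q / (b * v2 * v5)) := by
  field_simp
  subst e1 e2 e4 e5 e6
  ring

theorem f16_ne_zero {K : Type*} [Field K] {q b : K} {M : ℕ} (N : NZ q b)
    (hq1 : ∀ j : ℕ, 1 ≤ j → j ≤ 2 * M → 1 - q ^ j ≠ 0) (l : ℕ) (hl : l ≤ M) :
    f16 q (sb q b) l ≠ 0 := by
  induction l with
  | zero => simp [f16_zero]
  | succ l ih =>
    obtain ⟨n1, -, -, n4, n5, -, -, n8, -⟩ := N.at l
    rw [f16_succ N.q0 N.b0]
    have m1 : 1 - q * q ^ l ≠ 0 := by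
      have := hq1 (l + 1) (by omega) (by omega)
      rwa [pow_succ'] at this
    have m2 : 1 - q * (q ^ l) ^ 2 ≠ 0 := by
      have := hq1 (2 * l + 1) (by omega) (by omega)
      rwa [show q ^ (2 * l + 1) = q * (q ^ l) ^ 2 by ring] at this
    have m3 : 1 + q * q ^ l ≠ 0 := by
      intro h
      apply hq1 (2 * (l + 1)) (by omega) (by omega)
      rw [show q ^ (2 * (l + 1)) = (q * q ^ l) ^ 2 by ring]
      linear_combination (1 - q * q ^ l) * h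
    exact mul_ne_zero (ih (by omega)) (mul_ne_zero (div_ne_zero m2
      (mul_ne_zero (mul_ne_zero m1 m3) (mul_ne_zero N.q0 (pow_ne_zero _ N.q0))))
      (div_ne_zero (mul_ne_zero n8 n5) (mul_ne_zero n1 n4)))

/-- the dual WZ equation -/
theorem dual16 {K : Type*} [Field K] {q b : K} {M : ℕ} (N : NZ q b)
    (hq1 : ∀ j : ℕ, 1 ≤ j → j ≤ 2 * M → 1 - q ^ j ≠ 0) (k : ℕ) (hk : k + 1 ≤ M) :
    D16 q (sb q (b * q ^ 2)) (k + 1) - rho16 q b * D16 q (sb q b) (k + 1) =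
      rho16 q b * (Gd16 q b k - Gd16 q b (k + 1)) := by
  have hq := N.q0
  have hb := N.b0
  have h0 : 1 - q ≠ 0 := by simpa using hq1 1 le_rfl (by omega)
  have k1 : b - q ≠ 0 := by simpa using N.h2 1
  have k3 : 1 - b * q ≠ 0 := by simpa using N.h1 1
  obtain ⟨n1, n2, n3, n4, n5, n6, n7, n8, n9⟩ := N.at k
  have hf : f16 q (sb q b) k ≠ 0 := f16_ne_zero N hq1 k (by omega)
  have m1 : 1 - q * q ^ k ≠ 0 := by
    have := hq1 (k + 1) (by omega) (by omega)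
    rwa [pow_succ'] at this
  have m2 : 1 - q * (q ^ k) ^ 2 ≠ 0 := by
    have := hq1 (2 * k + 1) (by omega) (by omega)
    rwa [show q ^ (2 * k + 1) = q * (q ^ k) ^ 2 by ring] at this
  have m3 : 1 + q * q ^ k ≠ 0 := by
    intro h
    apply hq1 (2 * (k + 1)) (by omega) (by omega)
    rw [show q ^ (2 * (k + 1)) = (q * q ^ k) ^ 2 by ring]
    linear_combination (1 - q * q ^ k) * h
  have key := dual16_idA (q := q) (b := b) (y := q ^ k)
    (f := f16 q (sb q b) k) rfl rfl rfl rfl rfl rfl rfl rfl rfl rfl rfl hq hb hf h0 n1 n2 n3 n4 m1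
    m3 n5 n6 n7 n8 n9 k1 k3 m2
  rw [D16_succ N h0 k m1 m3, D16_succ N.shift h0 k m1 m3, f16_ratio N]
  have a1 : b * q ^ 2 - q ^ 2 * (q ^ k) ^ 2 = q ^ 2 * (b - (q ^ k) ^ 2) := by ring
  rw [a1]
  have hG0 : Gd16 q b k = (1 + b) * q * b * (q ^ k - 1) /
    (f16 q (sb q b) k * ((1 - q) * (b - q * q ^ k) * (1 - b * (q ^ k) ^ 2) * (b - q ^ k))) := rfl
  have hG1 : Gd16 q b (k + 1) = (1 + b) * q * b * (q * q ^ k - 1) /
        (f16 q (sb q b) k * ((1 - q * (q ^ k) ^ 2) /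
          ((1 - q * q ^ k) * (1 + q * q ^ k) * (q * q ^ k)) * ((1 - b * (q ^ k) ^ 2) *
          (b - q ^ 2 * (q ^ k) ^ 2) / ((1 - b * q ^ k) * (b - q ^ 2 * q ^ k)))) *
          ((1 - q) * (b - q ^ 2 * q ^ k) * (1 - b * q ^ 2 * (q ^ k) ^ 2) * (b - q * q ^ k))) := by
    rw [Gd16, f16_succ hq hb]
    have a2 : q ^ (k + 1) = q * q ^ k := by ring
    have a3 : b - q * (q * q ^ k) = b - q ^ 2 * q ^ k := by ring
    have a4 : b * (q * q ^ k) ^ 2 = b * q ^ 2 * (q ^ k) ^ 2 := by ring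
    rw [a2, a3, a4]
  rw [hG0, hG1]
  rw [rho16]
  exact key

/-- the boundary terms telescope -/
theorem tele16 {K : Type*} [Field K] {q b : K} {M : ℕ} (N : NZ q b)
    (hq1 : ∀ j : ℕ, 1 ≤ j → j ≤ 2 * M → 1 - q ^ j ≠ 0) (l : ℕ) (hl1 : 1 ≤ l) (hl : l ≤ M) :
    D16 q (sb q b) l * G16 q b l =
      -(rho16 q b * (br q (3 * l + 1) * f16 q (sb q (b * q ^ 2)) l)) * Gd16 q b l +
        b * (b + 1) / (1 - q) ^ 2 * (C16 q b (l + 1) - C16 q b l) := by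
  have hq := N.q0
  have hb := N.b0
  have h0 : 1 - q ≠ 0 := by simpa using hq1 1 le_rfl (by omega)
  obtain ⟨n1, n2, n3, n4, n5, n6, n7, n8, n9⟩ := N.at l
  have hf : f16 q (sb q b) l ≠ 0 := f16_ne_zero N hq1 l hl
  have m1 : 1 - q ^ l ≠ 0 := hq1 l hl1 (by omega)
  have m3 : 1 + q ^ l ≠ 0 := by
    intro h
    apply hq1 (2 * l) (by omega) (by omega)
    rw [show q ^ (2 * l) = (q ^ l) ^ 2 by ring]
    linear_combination (1 - q ^ l) * h
  have m2 : q - b * q ^ l ≠ 0 := by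
    obtain ⟨j, rfl⟩ : ∃ j, l = j + 1 := ⟨l - 1, by omega⟩
    intro h
    apply N.h1 j
    apply mul_left_cancel₀ hq
    linear_combination h
  have hY : q ^ l ≠ 0 := pow_ne_zero _ hq
  have key := dual16_idB (q := q) (b := b) (Y := q ^ l)
    (f := f16 q (sb q b) l) rfl rfl rfl rfl rfl hq hb hY hf h0 m1 m2 m3 n7 n3 n1 n2 n8 n6
  rw [mul_left_comm (rho16 q b), rho16_f16 N, D16_eq N h0 l hl1, br_eq h0]
  have e3 : q ^ (3 * l + 1) = q * (q ^ l) ^ 3 := by ring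
  have e7 : q - b * (q * q ^ l) = q * (1 - b * q ^ l) := by ring
  have e8 : 1 - b * (q * q ^ l) = 1 - b * q * q ^ l := by ring
  have e9 : q ^ (l + 1) = q * q ^ l := by ring
  rw [G16, Gd16, C16, C16, e3, e9, e7, e8]
  exact key

theorem W16_shift_b {K : Type*} [Field K] {q b : K} {M : ℕ} (hM : 1 ≤ M) (N : NZ q b)
    (hq1 : ∀ j : ℕ, 1 ≤ j → j ≤ 2 * M → 1 - q ^ j ≠ 0)
    (hT : T16 q (sb q (b * q ^ 2)) (M + 1) = 0) :
    W16 q (sb q (b * q ^ 2)) M - W16 q (sb q b) M =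
      b * (b + 1) / (1 - q) ^ 2 * (C16 q b (M + 1) - C16 q b 1) := by
  have h0 : 1 - q ≠ 0 := by simpa using hq1 1 le_rfl (by omega)
  have hT1 : ∀ (s : K) (l : ℕ), T16 q s (l + 1) = T16 q s l + br q (3 * l + 1) * f16 q s l := by
    intro s l; simp [T16, sum_range_succ]
  have hG0 : Gd16 q b 0 = 0 := by simp [Gd16]
  have main : ∀ L : ℕ, L ≤ M →
      (∑ l ∈ Icc 1 L, D16 q (sb q (b * q ^ 2)) l * T16 q (sb q (b * q ^ 2)) l) -
        ∑ l ∈ Icc 1 L, D16 q (sb q b) l * T16 q (sb q b) l =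
      - (rho16 q b * T16 q (sb q (b * q ^ 2)) (L + 1) * Gd16 q b L) +
        b * (b + 1) / (1 - q) ^ 2 * (C16 q b (L + 1) - C16 q b 1) := by
    intro L
    induction L with
    | zero =>
      intro _
      simp [hG0]
    | succ L ih =>
      intro hL
      have ih' := ih (by omega)
      rw [sum_Icc_succ_top (by omega), sum_Icc_succ_top (by omega)]
      have hA := dual16 N hq1 L hL
      have hB := tele16 N hq1 (L + 1) (by omega) hL
      have hw := T16_wz N h0 (M := M) hq1 (L + 1) hL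
      rw [hT1 _ (L + 1), hw]
      linear_combination ih' + hB + T16 q (sb q (b * q ^ 2)) (L + 1) * hA
  have := main M le_rfl
  rw [hT] at this
  rw [W16, W16, this]
  ring

end P5

theorem W16_shift {ζ a : ℂ} {M : ℕ} (hM : 1 ≤ M) (hζ : IsPrimitiveRoot ζ (2 * M + 1))
    (ha : a ≠ 0) (ha1 : a ^ (2 * M + 1) ≠ 1)
    (hT : T16 ζ (a * ζ ^ 2 + (a * ζ ^ 2)⁻¹) (M + 1) = 0) :
    W16 ζ (a * ζ ^ 2 + (a * ζ ^ 2)⁻¹) M - W16 ζ (a + a⁻¹) M = h16 ζ a M := by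
  have N : P5.NZ ζ (a * ζ) := P5.nz_of (by omega) hζ.pow_eq_one ha ha1
  have hz := N.q0
  have hq1 : ∀ j : ℕ, 1 ≤ j → j ≤ 2 * M → 1 - ζ ^ j ≠ 0 := by
    intro j h1 h2 h
    exact hζ.pow_ne_one_of_pos_of_lt (l := j) (by omega) (by omega) (by linear_combination -h)
  have s1 : a + a⁻¹ = P5.sb ζ (a * ζ) := by
    rw [P5.sb]; field_simp
  have s2 : a * ζ ^ 2 + (a * ζ ^ 2)⁻¹ = P5.sb ζ (a * ζ * ζ ^ 2) := by
    rw [P5.sb]; field_simp
  rw [s2] at hT ⊢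
  rw [s1, P5.W16_shift_b hM N hq1 hT]
  have h0 : 1 - ζ ≠ 0 := by simpa using hq1 1 le_rfl (by omega)
  have k2 : 1 - a * ζ ≠ 0 := by simpa using N.h1 0
  have k3 : 1 - a * ζ * ζ ≠ 0 := by simpa using N.h1 1
  obtain ⟨n1, n2, -⟩ := N.at M
  have hb := N.b0
  have hone : (ζ * ζ ^ M) ^ 2 = ζ := by
    have := hζ.pow_eq_one
    calc (ζ * ζ ^ M) ^ 2 = ζ * ζ ^ (2 * M + 1) := by ring
      _ = ζ := by rw [this, mul_one]
  have c1 : P5.C16 ζ (a * ζ) 1 = ζ / (a * ζ * (1 - a * ζ)) := by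
    rw [P5.C16]
    have e1 : ζ - a * ζ * ζ ^ 1 = ζ * (1 - a * ζ) := by ring
    have e2 : ζ - a * ζ * (ζ ^ 1) ^ 2 = ζ * (1 - a * ζ * ζ) := by ring
    rw [e1, e2, pow_one]
    generalize 1 - a * ζ = u1 at *
    generalize 1 - a * ζ * ζ = u2 at *
    generalize a * ζ = b at *
    field_simp
  have c2 : P5.C16 ζ (a * ζ) (M + 1) = ζ * (1 - a * ζ) /
      (a * ζ * ((1 - a * ζ * ζ ^ M) * (1 - a * ζ * ζ * ζ ^ M))) := by
    rw [P5.C16, pow_succ' ζ M, hone]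
    have e1 : ζ - a * ζ * (ζ * ζ ^ M) = ζ * (1 - a * ζ * ζ ^ M) := by ring
    have e2 : 1 - a * ζ * (ζ * ζ ^ M) = 1 - a * ζ * ζ * ζ ^ M := by ring
    have e3 : ζ - a * ζ * ζ = ζ * (1 - a * ζ) := by ring
    rw [e1, e2, e3]
    generalize 1 - a * ζ * ζ ^ M = u1 at *
    generalize 1 - a * ζ * ζ * ζ ^ M = u2 at *
    generalize 1 - a * ζ = u3 at *
    generalize a * ζ = b at *
    field_simp
  have e4 : 1 - a * ζ * ζ ^ (M + 1) = 1 - a * ζ * ζ * ζ ^ M := by ring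
  rw [c1, c2, h16, e4]
  generalize 1 - a * ζ * ζ ^ M = u1 at *
  generalize 1 - a * ζ * ζ * ζ ^ M = u2 at *
  generalize e7 : 1 - a * ζ = u3 at *
  generalize a * ζ = b at *
  generalize 1 - ζ = u6 at *
  field_simp
  rw [← e7]
  ring

end SC322
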