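import Pool.Agent.SC322.Defs2

/-!
# P6: the closed forms `V8`, `V16` satisfy the functional equations
-/

namespace SC322

open Finset Polynomial

section P6aux

variable {K : Type*} [Field K]

theorem p6_step16 {b y q : K} (h1 : 1 - b * y ≠ 0)
    (h2 : 1 - b * (y * q ^ 2) ≠ 0) (h3 : b - y ≠ 0) (h4 : b - y * q ^ 2 ≠ 0) :
    (1 - q ^ 2 * y ^ 2) * b / ((1 - b * (y * q ^ 2)) * (b - y)) -
      (1 - q ^ 2 * y ^ 2) * b / ((1 - b * y) * (b - y * q ^ 2)) =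
    -(1 - b ^ 2) * (y * q ^ 2) / ((1 - b * (y * q ^ 2)) * (b - y * q ^ 2)) +
      (1 - b ^ 2) * y / ((1 - b * y) * (b - y)) := by
  rw [div_sub_div _ _ (mul_ne_zero h2 h3) (mul_ne_zero h1 h4),
    div_add_div _ _ (mul_ne_zero h2 h4) (mul_ne_zero h1 h3),
    div_eq_div_iff (mul_ne_zero (mul_ne_zero h2 h3) (mul_ne_zero h1 h4))
      (mul_ne_zero (mul_ne_zero h2 h4) (mul_ne_zero h1 h3))]
  ring

theorem p6_step8 {b y q : K} (hb : b ≠ 0) (h1 : 1 - b * y ≠ 0)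
    (h2 : 1 - b * (y * q ^ 2) ≠ 0) (h3 : b - y ≠ 0) (h4 : b - y * q ^ 2 ≠ 0) :
    (1 - q ^ 2 * y ^ 2) * b / ((1 - b * (y * q ^ 2)) * (b - y)) / b ^ 2 -
      (1 - q ^ 2 * y ^ 2) * b / ((1 - b * y) * (b - y * q ^ 2)) =
    -(y ^ 2 * q ^ 4) * (1 - b ^ 2) / (b * ((1 - b * (y * q ^ 2)) * (b - y * q ^ 2))) +
      (1 - b ^ 2) / (b * ((1 - b * y) * (b - y))) := by
  have hb2 : b ^ 2 ≠ 0 := pow_ne_zero 2 hb
  rw [div_div, div_sub_div _ _ (mul_ne_zero (mul_ne_zero h2 h3) hb2) (mul_ne_zero h1 h4),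
    div_add_div _ _ (mul_ne_zero hb (mul_ne_zero h2 h4)) (mul_ne_zero hb (mul_ne_zero h1 h3)),
    div_eq_div_iff (mul_ne_zero (mul_ne_zero (mul_ne_zero h2 h3) hb2) (mul_ne_zero h1 h4))
      (mul_ne_zero (mul_ne_zero hb (mul_ne_zero h2 h4)) (mul_ne_zero hb (mul_ne_zero h1 h3)))]
  ring

theorem p6_den {a q y : K} (ha : a ≠ 0) (hq : q ≠ 0) :
    1 - (a + a⁻¹) * (q * y) + (q * y) ^ 2 = (1 - a * q * y) * (a * q - y * q ^ 2) / (a * q) := by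
  field_simp
  ring

theorem p6_den' {a q y : K} (ha : a ≠ 0) (hq : q ≠ 0) :
    1 - (a * q ^ 2 + (a * q ^ 2)⁻¹) * (q * y) + (q * y) ^ 2 =
      (1 - a * q * (y * q ^ 2)) * (a * q - y) / (a * q) := by
  field_simp
  ring

/-- partial sums, case 16 -/
theorem p6_sum16 {q a : K} (ha : a ≠ 0) (hq : q ≠ 0) (h1 : ∀ j : ℕ, 1 - a * q * q ^ j ≠ 0)
    (h2 : ∀ j : ℕ, a * q - q ^ j ≠ 0) (I : ℕ) :
    (∑ i ∈ range I, (1 - q ^ (4 * i + 2)) /
        (1 - (a * q ^ 2 + (a * q ^ 2)⁻¹) * q ^ (2 * i + 1) + q ^ (4 * i + 2))) -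
      ∑ i ∈ range I, (1 - q ^ (4 * i + 2)) /
        (1 - (a + a⁻¹) * q ^ (2 * i + 1) + q ^ (4 * i + 2)) =
      -(1 - (a * q) ^ 2) * q ^ (2 * I) / ((1 - a * q * q ^ (2 * I)) * (a * q - q ^ (2 * I))) -
        (1 + a * q) / (1 - a * q) := by
  induction I with
  | zero =>
    have h0 : 1 - a * q ≠ 0 := by simpa using h1 0
    have h0' : a * q - 1 ≠ 0 := by simpa using h2 0
    simp only [range_zero, sum_empty, Nat.mul_zero, pow_zero, mul_one]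
    rw [div_sub_div _ _ (mul_ne_zero h0 h0') h0, eq_div_iff (mul_ne_zero (mul_ne_zero h0 h0') h0)]
    ring
  | succ I ih =>
    rw [sum_range_succ, sum_range_succ]
    have e1 : q ^ (4 * I + 2) = (q * q ^ (2 * I)) ^ 2 := by ring
    have e2 : q ^ (2 * I + 1) = q * q ^ (2 * I) := by ring
    have e3 : q ^ (2 * (I + 1)) = q ^ (2 * I) * q ^ 2 := by ring
    have g1 := h1 (2 * I)
    have g2 := h1 (2 * (I + 1))
    have g3 := h2 (2 * I)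
    have g4 := h2 (2 * (I + 1))
    rw [e3] at g2 g4
    have hb : a * q ≠ 0 := mul_ne_zero ha hq
    have key := p6_step16 (b := a * q) (y := q ^ (2 * I)) (q := q) g1 g2 g3 g4
    rw [e1, e2, e3, p6_den ha hq, p6_den' ha hq, div_div_eq_mul_div, div_div_eq_mul_div]
    have e4 : 1 - (q * q ^ (2 * I)) ^ 2 = 1 - q ^ 2 * (q ^ (2 * I)) ^ 2 := by ring
    rw [e4]
    linear_combination ih + key

/-- partial sums, case 8 -/
theorem p6_sum8 {q a : K} (ha : a ≠ 0) (hq : q ≠ 0) (h1 : ∀ j : ℕ, 1 - a * q * q ^ j ≠ 0)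
    (h2 : ∀ j : ℕ, a * q - q ^ j ≠ 0) (I : ℕ) :
    (∑ i ∈ range I, q ^ (2 * i * (i + 1)) * (1 - q ^ (4 * i + 2)) /
        (1 - (a * q ^ 2 + (a * q ^ 2)⁻¹) * q ^ (2 * i + 1) + q ^ (4 * i + 2))) / (a * q) ^ 2 -
      ∑ i ∈ range I, q ^ (2 * i * (i + 1)) * (1 - q ^ (4 * i + 2)) /
        (1 - (a + a⁻¹) * q ^ (2 * i + 1) + q ^ (4 * i + 2)) =
      -q ^ (2 * I ^ 2) * q ^ (2 * I) * (1 - (a * q) ^ 2) /
          (a * q * ((1 - a * q * q ^ (2 * I)) * (a * q - q ^ (2 * I)))) -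
        (1 + a * q) / (a * q * (1 - a * q)) := by
  have hb : a * q ≠ 0 := mul_ne_zero ha hq
  induction I with
  | zero =>
    have h0 : 1 - a * q ≠ 0 := by simpa using h1 0
    have h0' : a * q - 1 ≠ 0 := by simpa using h2 0
    simp only [range_zero, sum_empty, Nat.mul_zero, pow_zero, mul_one]
    rw [div_sub_div _ _ (mul_ne_zero hb (mul_ne_zero h0 h0')) (mul_ne_zero hb h0),
      zero_div, sub_zero,
      eq_div_iff (mul_ne_zero (mul_ne_zero hb (mul_ne_zero h0 h0')) (mul_ne_zero hb h0))]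
    ring
  | succ I ih =>
    rw [sum_range_succ, sum_range_succ]
    have e1 : q ^ (4 * I + 2) = (q * q ^ (2 * I)) ^ 2 := by ring
    have e2 : q ^ (2 * I + 1) = q * q ^ (2 * I) := by ring
    have e3 : q ^ (2 * (I + 1)) = q ^ (2 * I) * q ^ 2 := by ring
    have e5 : q ^ (2 * I * (I + 1)) = q ^ (2 * I ^ 2) * q ^ (2 * I) := by ring
    have e6 : q ^ (2 * (I + 1) ^ 2) = q ^ (2 * I ^ 2) * ((q ^ (2 * I)) ^ 2 * q ^ 2) := by ring
    have g1 := h1 (2 * I)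
    have g2 := h1 (2 * (I + 1))
    have g3 := h2 (2 * I)
    have g4 := h2 (2 * (I + 1))
    rw [e3] at g2 g4
    have key := p6_step8 (b := a * q) (y := q ^ (2 * I)) (q := q) hb g1 g2 g3 g4
    rw [e1, e2, e3, e5, e6, p6_den ha hq, p6_den' ha hq, div_div_eq_mul_div, div_div_eq_mul_div]
    have e4 : 1 - (q * q ^ (2 * I)) ^ 2 = 1 - q ^ 2 * (q ^ (2 * I)) ^ 2 := by ring
    rw [e4]
    linear_combination ih + q ^ (2 * I ^ 2) * q ^ (2 * I) * key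

end P6aux

section P6main

variable {ζ a : ℂ} {M : ℕ}

theorem p6_ne1 (hζ : IsPrimitiveRoot ζ (2 * M + 1)) (ha1 : a ^ (2 * M + 1) ≠ 1) (j : ℕ) :
    1 - a * ζ * ζ ^ j ≠ 0 := by
  intro h
  apply ha1
  have h' : a * ζ ^ (j + 1) = 1 := by
    have : a * ζ * ζ ^ j = 1 := (sub_eq_zero.mp h).symm
    rw [← this]; ring
  have h2 := congrArg (· ^ (2 * M + 1)) h'
  simp only [mul_pow, one_pow] at h2
  rw [← pow_mul, mul_comm (j + 1), pow_mul, hζ.pow_eq_one, one_pow, mul_one] at h2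
  exact h2

theorem p6_ne2 (hζ : IsPrimitiveRoot ζ (2 * M + 1)) (ha1 : a ^ (2 * M + 1) ≠ 1) (j : ℕ) :
    a * ζ - ζ ^ j ≠ 0 := by
  intro h
  apply ha1
  have h' : a * ζ = ζ ^ j := sub_eq_zero.mp h
  have h2 := congrArg (· ^ (2 * M + 1)) h'
  simp only [mul_pow] at h2
  rw [← pow_mul, mul_comm j, pow_mul, hζ.pow_eq_one, one_pow, mul_one] at h2
  exact h2

/-- the value at the end of the range -/
theorem p6_end (hζ : IsPrimitiveRoot ζ (2 * M + 1)) (b : ℂ) :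
    (1 - b * ζ ^ (2 * ((M + 1) / 2))) * (b - ζ ^ (2 * ((M + 1) / 2))) =
      -ζ ^ (2 * ((M + 1) / 2)) * ((1 - b * ζ ^ M) * (1 - b * ζ ^ (M + 1))) := by
  have hn : ζ ^ (2 * M + 1) = 1 := hζ.pow_eq_one
  have hn' : ζ ^ M * ζ ^ (M + 1) = 1 := by rw [← pow_add, ← hn]; congr 1; omega
  rcases Nat.even_or_odd M with hM | hM
  · have : 2 * ((M + 1) / 2) = M := by
      obtain ⟨k, hk⟩ := hM; omega
    rw [this]
    linear_combination -b * (1 - b * ζ ^ M) * hn'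
  · have : 2 * ((M + 1) / 2) = M + 1 := by
      obtain ⟨k, hk⟩ := hM; omega
    rw [this]
    linear_combination -b * (1 - b * ζ ^ (M + 1)) * hn'

theorem p6_exp (hζ : IsPrimitiveRoot ζ (2 * M + 1)) :
    ζ ^ (2 * ((M + 1) / 2) ^ 2) = ζ ^ (3 * (M * (M + 1) / 2) + (M + 1)) := by
  have hn : ζ ^ (2 * M + 1) = 1 := hζ.pow_eq_one
  have key : ∃ t : ℕ, 3 * (M * (M + 1) / 2) + (M + 1) = 2 * ((M + 1) / 2) ^ 2 + (2 * M + 1) * t := by
    rcases Nat.even_or_odd M with hM | hM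
    · obtain ⟨k, hk⟩ := hM
      refine ⟨k + 1, ?_⟩
      have h1 : (M + 1) / 2 = k := by omega
      have h2 : M * (M + 1) / 2 = k * (2 * k + 1) := by
        rw [hk]
        apply Nat.div_eq_of_eq_mul_left (by norm_num)
        ring
      rw [h1, h2, hk]; ring
    · obtain ⟨k, hk⟩ := hM
      refine ⟨k + 1, ?_⟩
      have h1 : (M + 1) / 2 = k + 1 := by omega
      have h2 : M * (M + 1) / 2 = (2 * k + 1) * (k + 1) := by
        rw [hk]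
        apply Nat.div_eq_of_eq_mul_left (by norm_num)
        ring
      rw [h1, h2, hk]; ring
  obtain ⟨t, ht⟩ := key
  rw [ht, pow_add, pow_mul ζ (2 * M + 1) t, hn, one_pow, mul_one]

theorem V16_shift {ζ a : ℂ} {M : ℕ} (hM : 1 ≤ M) (hζ : IsPrimitiveRoot ζ (2 * M + 1))
    (ha : a ≠ 0) (ha1 : a ^ (2 * M + 1) ≠ 1) :
    V16 ζ (a * ζ ^ 2 + (a * ζ ^ 2)⁻¹) M - V16 ζ (a + a⁻¹) M = h16 ζ a M := by
  have hz : ζ ≠ 0 := hζ.ne_zero (by omega)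
  have h1 := p6_ne1 (a := a) hζ ha1
  have h2 := p6_ne2 (a := a) hζ ha1
  have key := p6_sum16 ha hz h1 h2 ((M + 1) / 2)
  have hy : ζ ^ (2 * ((M + 1) / 2)) ≠ 0 := pow_ne_zero _ hz
  have g1 := h1 M
  have g2 := h1 (M + 1)
  have e : -(1 - (a * ζ) ^ 2) * ζ ^ (2 * ((M + 1) / 2)) /
      ((1 - a * ζ * ζ ^ (2 * ((M + 1) / 2))) * (a * ζ - ζ ^ (2 * ((M + 1) / 2)))) =
      (1 - (a * ζ) ^ 2) / ((1 - a * ζ * ζ ^ M) * (1 - a * ζ * ζ ^ (M + 1))) := by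
    rw [p6_end hζ (a * ζ), div_eq_div_iff (mul_ne_zero (neg_ne_zero.mpr hy) (mul_ne_zero g1 g2))
      (mul_ne_zero g1 g2)]
    ring
  rw [e] at key
  unfold V16 h16
  rw [← mul_sub, key]

theorem V8_shift {ζ a : ℂ} {M : ℕ} (hM : 1 ≤ M) (hζ : IsPrimitiveRoot ζ (2 * M + 1))
    (ha : a ≠ 0) (ha1 : a ^ (2 * M + 1) ≠ 1) :
    V8 ζ (a * ζ ^ 2 + (a * ζ ^ 2)⁻¹) M / (a * ζ) ^ 2 - V8 ζ (a + a⁻¹) M = h8 ζ a M := by
  have hz : ζ ≠ 0 := hζ.ne_zero (by omega)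
  have hz1 : 1 - ζ ≠ 0 := by
    intro h
    have : ζ = 1 := (sub_eq_zero.mp h).symm
    have h3 := hζ.pow_ne_one_of_pos_of_lt (l := 1) (by omega) (by omega)
    apply h3
    rw [this, one_pow]
  have h1 := p6_ne1 (a := a) hζ ha1
  have h2 := p6_ne2 (a := a) hζ ha1
  have hb : a * ζ ≠ 0 := mul_ne_zero ha hz
  have h0 : 1 - a * ζ ≠ 0 := by simpa using h1 0
  have key := p6_sum8 ha hz h1 h2 ((M + 1) / 2)
  have hy : ζ ^ (2 * ((M + 1) / 2)) ≠ 0 := pow_ne_zero _ hz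
  have g1 := h1 M
  have g2 := h1 (M + 1)
  have e : -ζ ^ (2 * ((M + 1) / 2) ^ 2) * ζ ^ (2 * ((M + 1) / 2)) * (1 - (a * ζ) ^ 2) /
      (a * ζ * ((1 - a * ζ * ζ ^ (2 * ((M + 1) / 2))) * (a * ζ - ζ ^ (2 * ((M + 1) / 2))))) =
      ζ ^ (3 * (M * (M + 1) / 2) + (M + 1)) * (1 - (a * ζ) ^ 2) /
        (a * ζ * ((1 - a * ζ * ζ ^ M) * (1 - a * ζ * ζ ^ (M + 1)))) := by
    rw [p6_end hζ (a * ζ), p6_exp hζ,
      div_eq_div_iff (mul_ne_zero hb (mul_ne_zero (neg_ne_zero.mpr hy) (mul_ne_zero g1 g2)))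
      (mul_ne_zero hb (mul_ne_zero g1 g2))]
    ring
  rw [e] at key
  unfold V8 h8
  rw [mul_div_assoc, ← mul_sub, key]
  rw [div_sub_div _ _ (mul_ne_zero hb (mul_ne_zero g1 g2)) (mul_ne_zero hb h0),
    div_sub_div _ _ h0 (mul_ne_zero g1 g2), div_mul_div_comm, ← neg_div, div_mul_div_comm,
    div_eq_div_iff (mul_ne_zero (pow_ne_zero 2 hz1) (mul_ne_zero
      (mul_ne_zero hb (mul_ne_zero g1 g2)) (mul_ne_zero hb h0)))
      (mul_ne_zero (mul_ne_zero hb (pow_ne_zero 2 hz1)) (mul_ne_zero h0 (mul_ne_zero g1 g2)))]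
  ring

end P6main

end SC322
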