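import Pool.Agent.SC322.Defs2

/-! Package P7a : `(W - V) * pA` is a polynomial in `s` of degree `< M`. -/

namespace SC322

open Finset Polynomial

namespace P7a

/-- factor of `pA` -/
noncomputable def Ap (ζ : ℂ) (j : ℕ) : ℂ[X] := 1 - X * C (ζ ^ (2 * j + 1)) + C (ζ ^ (4 * j + 2))

/-- factor of `pB` -/
noncomputable def Bp (ζ : ℂ) (j : ℕ) : ℂ[X] := 1 - X * C (ζ ^ (j + 1)) + C (ζ ^ (2 * j + 2))

theorem Ap_deg (ζ : ℂ) (j : ℕ) : (Ap ζ j).natDegree ≤ 1 := by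
  unfold Ap
  compute_degree

theorem Bp_deg (ζ : ℂ) (j : ℕ) : (Bp ζ j).natDegree ≤ 1 := by
  unfold Bp
  compute_degree

theorem prod_deg (F : ℕ → ℂ[X]) (hF : ∀ j, (F j).natDegree ≤ 1) (S : Finset ℕ) :
    (∏ j ∈ S, F j).natDegree ≤ S.card := by
  refine (natDegree_prod_le _ _).trans ?_
  calc ∑ j ∈ S, (F j).natDegree ≤ ∑ j ∈ S, 1 := Finset.sum_le_sum fun j _ => hF j
    _ = S.card := by simp

theorem main {ζ : ℂ} {M : ℕ} (hM : 1 ≤ M) (e g v : ℕ → ℂ) :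
    ∃ P : ℂ[X], P.natDegree < M ∧ ∀ s : ℂ, (∀ i : ℕ, 1 ≤ i → i < 2 * M + 1 →
      1 - s * ζ ^ i + ζ ^ (2 * i) ≠ 0) → P.eval s =
      ((∑ l ∈ Icc 1 M, (e l * (pB ζ s l / (pA ζ s l * (1 - s * ζ ^ l + ζ ^ (2 * l))))) *
          (∑ k ∈ range l, g k * (pA ζ s k / pB ζ s k))) -
        ∑ i ∈ range ((M + 1) / 2), v i / (1 - s * ζ ^ (2 * i + 1) + ζ ^ (4 * i + 2))) *
      pA ζ s M := by
  refine ⟨(∑ l ∈ Icc 1 M, ∑ k ∈ range l, C (e l * g k) * ((∏ j ∈ Ico l M, Ap ζ j) *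
      (∏ j ∈ range k, Ap ζ j) * ∏ j ∈ Ico k (l - 1), Bp ζ j)) -
      ∑ i ∈ range ((M + 1) / 2), C (v i) * ∏ j ∈ (range M).erase i, Ap ζ j, ?_, ?_⟩
  · have h : ((∑ l ∈ Icc 1 M, ∑ k ∈ range l, C (e l * g k) * ((∏ j ∈ Ico l M, Ap ζ j) *
      (∏ j ∈ range k, Ap ζ j) * ∏ j ∈ Ico k (l - 1), Bp ζ j)) -
      ∑ i ∈ range ((M + 1) / 2), C (v i) * ∏ j ∈ (range M).erase i, Ap ζ j).natDegree ≤ M - 1 := by
      refine (natDegree_sub_le _ _).trans (max_le ?_ ?_)
      · refine natDegree_sum_le_of_forall_le _ _ fun l hl => ?_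
        refine natDegree_sum_le_of_forall_le _ _ fun k hk => ?_
        rw [mem_Icc] at hl
        rw [mem_range] at hk
        refine (natDegree_C_mul_le _ _).trans ?_
        refine natDegree_mul_le.trans ?_
        have h1 := natDegree_mul_le (p := ∏ j ∈ Ico l M, Ap ζ j) (q := ∏ j ∈ range k, Ap ζ j)
        have h2 := prod_deg (Ap ζ) (Ap_deg ζ) (Ico l M)
        have h3 := prod_deg (Ap ζ) (Ap_deg ζ) (range k)
        have h4 := prod_deg (Bp ζ) (Bp_deg ζ) (Ico k (l - 1))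
        rw [Nat.card_Ico] at h2 h4
        rw [card_range] at h3
        omega
      · refine natDegree_sum_le_of_forall_le _ _ fun i hi => ?_
        rw [mem_range] at hi
        refine (natDegree_C_mul_le _ _).trans ?_
        refine (prod_deg (Ap ζ) (Ap_deg ζ) _).trans ?_
        rw [card_erase_of_mem (mem_range.2 (by omega)), card_range]
    omega
  · intro s hs
    have hA : ∀ j, j < M → 1 - s * ζ ^ (2 * j + 1) + ζ ^ (4 * j + 2) ≠ 0 := by
      intro j hj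
      have := hs (2 * j + 1) (by omega) (by omega)
      rwa [show 2 * (2 * j + 1) = 4 * j + 2 by ring] at this
    have hB : ∀ j, j < M → 1 - s * ζ ^ (j + 1) + ζ ^ (2 * j + 2) ≠ 0 := by
      intro j hj
      have := hs (j + 1) (by omega) (by omega)
      rwa [show 2 * (j + 1) = 2 * j + 2 by ring] at this
    have hAe : ∀ j, (Ap ζ j).eval s = 1 - s * ζ ^ (2 * j + 1) + ζ ^ (4 * j + 2) := by
      intro j; simp [Ap]
    have hBe : ∀ j, (Bp ζ j).eval s = 1 - s * ζ ^ (j + 1) + ζ ^ (2 * j + 2) := by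
      intro j; simp [Bp]
    have hpA : ∀ k, k ≤ M → pA ζ s k ≠ 0 := by
      intro k hk
      unfold pA
      exact prod_ne_zero_iff.2 fun j hj => hA j (by rw [mem_range] at hj; omega)
    have hpB : ∀ k, k ≤ M → pB ζ s k ≠ 0 := by
      intro k hk
      unfold pB
      exact prod_ne_zero_iff.2 fun j hj => hB j (by rw [mem_range] at hj; omega)
    rw [eval_sub, eval_finsetSum, eval_finsetSum, sub_mul, sum_mul, sum_mul]
    congr 1
    · refine sum_congr rfl fun l hl => ?_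
      rw [mem_Icc] at hl
      rw [eval_finsetSum, mul_sum, sum_mul]
      refine sum_congr rfl fun k hk => ?_
      rw [mem_range] at hk
      obtain ⟨l', rfl⟩ : ∃ l', l = l' + 1 := ⟨l - 1, by omega⟩
      rw [Nat.add_sub_cancel]
      rw [eval_mul, eval_C, eval_mul, eval_mul, eval_prod, eval_prod, eval_prod]
      simp only [hAe, hBe]
      have e1 : pA ζ s (l' + 1) * ∏ j ∈ Ico (l' + 1) M,
          (1 - s * ζ ^ (2 * j + 1) + ζ ^ (4 * j + 2)) = pA ζ s M := by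
        unfold pA
        exact prod_range_mul_prod_Ico _ hl.2
      have e2 : pB ζ s k * ∏ j ∈ Ico k l', (1 - s * ζ ^ (j + 1) + ζ ^ (2 * j + 2)) =
          pB ζ s l' := by
        unfold pB
        exact prod_range_mul_prod_Ico _ (by omega)
      have e3 : pB ζ s (l' + 1) = pB ζ s l' * (1 - s * ζ ^ (l' + 1) + ζ ^ (2 * (l' + 1))) := by
        unfold pB
        rw [prod_range_succ]
        rfl
      have e4 : ∏ j ∈ range k, (1 - s * ζ ^ (2 * j + 1) + ζ ^ (4 * j + 2)) = pA ζ s k := rfl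
      rw [e4, e3, ← e2, ← e1]
      have n1 := hpA (l' + 1) hl.2
      have n2 := hpB k (by omega)
      have n3 : 1 - s * ζ ^ (l' + 1) + ζ ^ (2 * (l' + 1)) ≠ 0 := hB l' (by omega)
      generalize ∏ j ∈ Ico (l' + 1) M, (1 - s * ζ ^ (2 * j + 1) + ζ ^ (4 * j + 2)) = Q1 at *
      generalize ∏ j ∈ Ico k l', (1 - s * ζ ^ (j + 1) + ζ ^ (2 * j + 2)) = Q2 at *
      generalize 1 - s * ζ ^ (l' + 1) + ζ ^ (2 * (l' + 1)) = b at *
      generalize pA ζ s (l' + 1) = A1 at *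
      generalize pA ζ s k = A2 at *
      generalize pB ζ s k = B2 at *
      generalize e (l' + 1) = E at *
      generalize g k = G at *
      field_simp
    · refine sum_congr rfl fun i hi => ?_
      rw [mem_range] at hi
      have hiM : i < M := by omega
      rw [eval_mul, eval_C, eval_prod]
      simp only [hAe]
      have e1 : (1 - s * ζ ^ (2 * i + 1) + ζ ^ (4 * i + 2)) * ∏ j ∈ (range M).erase i,
          (1 - s * ζ ^ (2 * j + 1) + ζ ^ (4 * j + 2)) = pA ζ s M := by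
        unfold pA
        exact mul_prod_erase (range M) (fun j => 1 - s * ζ ^ (2 * j + 1) + ζ ^ (4 * j + 2))
          (mem_range.2 hiM)
      rw [← e1]
      have n1 := hA i hiM
      field_simp

end P7a

open P7a

/-- `(W8 - V8) * pA` is a polynomial in `s` of degree `< M` -/
theorem W8_poly {ζ : ℂ} {M : ℕ} (hM : 1 ≤ M) (_hζ : IsPrimitiveRoot ζ (2 * M + 1)) :
    ∃ P : ℂ[X], P.natDegree < M ∧ ∀ s : ℂ, (∀ i : ℕ, 1 ≤ i → i < 2 * M + 1 →
      1 - s * ζ ^ i + ζ ^ (2 * i) ≠ 0) → P.eval s = (W8 ζ s M - V8 ζ s M) * pA ζ s M := by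
  obtain ⟨P, h1, h2⟩ := main (ζ := ζ) hM
    (fun l => -(ζ * br ζ (3 * l - 1) * ζ ^ (3 * (l * (l - 1) / 2))) /
      ((-1) ^ l * pO ζ l / pQ ζ l * (1 - ζ ^ l)))
    (fun k => br ζ (3 * k + 1) * ((-1) ^ k * pO ζ k / pQ ζ k))
    (fun i => ζ / (1 - ζ) ^ 2 * (ζ ^ (2 * i * (i + 1)) * (1 - ζ ^ (4 * i + 2))))
  refine ⟨P, h1, fun s hs => ?_⟩
  rw [h2 s hs]
  congr 2
  · unfold W8
    refine sum_congr rfl fun l _ => ?_
    congr 1
    · unfold D8 f8
      simp only [div_eq_mul_inv, mul_inv_rev, inv_inv]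
      ring
    · unfold T8 f8
      refine sum_congr rfl fun k _ => ?_
      simp only [div_eq_mul_inv, mul_inv_rev]
      ring
  · unfold V8
    rw [mul_sum]
    refine sum_congr rfl fun i _ => ?_
    rw [mul_div_assoc]

theorem W16_poly {ζ : ℂ} {M : ℕ} (hM : 1 ≤ M) (_hζ : IsPrimitiveRoot ζ (2 * M + 1)) :
    ∃ P : ℂ[X], P.natDegree < M ∧ ∀ s : ℂ, (∀ i : ℕ, 1 ≤ i → i < 2 * M + 1 →
      1 - s * ζ ^ i + ζ ^ (2 * i) ≠ 0) → P.eval s = (W16 ζ s M - V16 ζ s M) * pA ζ s M := by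
  obtain ⟨P, h1, h2⟩ := main (ζ := ζ) hM
    (fun l => ζ * br ζ (3 * l - 1) /
      (ζ ^ l * (pO ζ l / (pQ ζ l * pE ζ l * ζ ^ (l * (l + 1) / 2))) * (1 - ζ ^ (2 * l))))
    (fun k => br ζ (3 * k + 1) * (pO ζ k / (pQ ζ k * pE ζ k * ζ ^ (k * (k + 1) / 2))))
    (fun i => ζ / (1 - ζ) ^ 2 * (1 - ζ ^ (4 * i + 2)))
  refine ⟨P, h1, fun s hs => ?_⟩
  rw [h2 s hs]
  congr 2
  · unfold W16
    refine sum_congr rfl fun l _ => ?_
    congr 1
    · unfold D16 f16
      simp only [div_eq_mul_inv, mul_inv_rev, inv_inv]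
      ring
    · unfold T16 f16
      refine sum_congr rfl fun k _ => ?_
      simp only [div_eq_mul_inv, mul_inv_rev]
      ring
  · unfold V16
    rw [mul_sum]
    refine sum_congr rfl fun i _ => ?_
    rw [mul_div_assoc]

end SC322
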