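import Pool.Agent.SC322.P3b
import Pool.Agent.SC322.P4a
import Pool.Agent.SC322.P5a
import Pool.Agent.SC322.P5b
import Pool.Agent.SC322.P6
import Pool.Agent.SC322.P7a

/-!
# `W = V` at `s = 2` (polynomial argument in `s`)
-/

namespace SC322

open Finset Polynomial

section aux

variable {ζ a : ℂ} {M : ℕ}

private theorem zeta_pow_ne_one (hζ : IsPrimitiveRoot ζ (2 * M + 1)) {i : ℕ} (h1 : 1 ≤ i)
    (h2 : i < 2 * M + 1) : ζ ^ i ≠ 1 :=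
  hζ.pow_ne_one_of_pos_of_lt (by omega) h2

private theorem zeta_ne_zero' (hζ : IsPrimitiveRoot ζ (2 * M + 1)) : ζ ≠ 0 :=
  hζ.ne_zero (by omega)

/-- the factor does not vanish when `a ^ n ≠ 1` -/
private theorem fac_ne_zero (hζ : IsPrimitiveRoot ζ (2 * M + 1)) (ha : a ≠ 0)
    (ha1 : a ^ (2 * M + 1) ≠ 1) (i : ℕ) :
    1 - (a + a⁻¹) * ζ ^ i + ζ ^ (2 * i) ≠ 0 := by
  have h1 : 1 - (a + a⁻¹) * ζ ^ i + ζ ^ (2 * i) = (1 - a * ζ ^ i) * (1 - a⁻¹ * ζ ^ i) := by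
    have : a * a⁻¹ = 1 := mul_inv_cancel₀ ha
    linear_combination (-(ζ ^ (2 * i))) * this
  have hz : (ζ ^ i) ^ (2 * M + 1) = 1 := by
    rw [← pow_mul, mul_comm, pow_mul, hζ.pow_eq_one, one_pow]
  rw [h1]
  refine mul_ne_zero ?_ ?_
  · intro h
    apply ha1
    have h2 : a * ζ ^ i = 1 := by linear_combination -h
    have h3 : (a * ζ ^ i) ^ (2 * M + 1) = 1 := by rw [h2, one_pow]
    rwa [mul_pow, hz, mul_one] at h3
  · intro h
    apply ha1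
    have h2 : a⁻¹ * ζ ^ i = 1 := by linear_combination -h
    have h3 : (a⁻¹ * ζ ^ i) ^ (2 * M + 1) = 1 := by rw [h2, one_pow]
    rw [mul_pow, hz, mul_one, inv_pow] at h3
    exact inv_eq_one.mp h3

private theorem pQ_ne_zero (hζ : IsPrimitiveRoot ζ (2 * M + 1)) : pQ ζ M ≠ 0 := by
  unfold pQ
  refine Finset.prod_ne_zero_iff.mpr fun j hj => ?_
  have hj' := Finset.mem_range.mp hj
  exact sub_ne_zero.mpr (zeta_pow_ne_one hζ (by omega) (by omega)).symm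

private theorem one_add_ne_zero (hζ : IsPrimitiveRoot ζ (2 * M + 1)) (i : ℕ) :
    1 + ζ ^ i ≠ 0 := by
  intro h
  have h2 : ζ ^ i = -1 := by linear_combination h
  have h3 : (ζ ^ i) ^ (2 * M + 1) = 1 := by
    rw [← pow_mul, mul_comm, pow_mul, hζ.pow_eq_one, one_pow]
  rw [h2, Odd.neg_one_pow ⟨M, rfl⟩] at h3
  norm_num at h3

private theorem pE_ne_zero (hζ : IsPrimitiveRoot ζ (2 * M + 1)) : pE ζ M ≠ 0 := by
  unfold pE
  exact Finset.prod_ne_zero_iff.mpr fun j _ => one_add_ne_zero hζ (j + 1)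

private theorem pB_ne_zero (hζ : IsPrimitiveRoot ζ (2 * M + 1)) (ha : a ≠ 0)
    (ha1 : a ^ (2 * M + 1) ≠ 1) : pB ζ (a + a⁻¹) M ≠ 0 := by
  unfold pB
  refine Finset.prod_ne_zero_iff.mpr fun j _ => ?_
  have := fac_ne_zero hζ ha ha1 (j + 1)
  rwa [show 2 * (j + 1) = 2 * j + 2 by ring] at this

private theorem T8_zero (hM : 1 ≤ M) (hζ : IsPrimitiveRoot ζ (2 * M + 1)) (ha : a ≠ 0)
    (ha1 : a ^ (2 * M + 1) ≠ 1) : T8 ζ (a + a⁻¹) (M + 1) = 0 := by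
  have h := U8_eval ζ (a + a⁻¹) M (pQ_ne_zero hζ) (pB_ne_zero hζ ha ha1)
  rw [U8_zeta hM hζ, eval_zero] at h
  have h2 := mul_ne_zero (pQ_ne_zero hζ) (pB_ne_zero hζ ha ha1)
  exact (mul_eq_zero.mp h.symm).resolve_right h2

private theorem T16_zero (hM : 1 ≤ M) (hζ : IsPrimitiveRoot ζ (2 * M + 1)) (ha : a ≠ 0)
    (ha1 : a ^ (2 * M + 1) ≠ 1) : T16 ζ (a + a⁻¹) (M + 1) = 0 := by
  have hz := zeta_ne_zero' hζ
  have h := U16_eval ζ (a + a⁻¹) M (pQ_ne_zero hζ) (pE_ne_zero hζ) (pB_ne_zero hζ ha ha1) hz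
  rw [U16_zeta hM hζ, eval_zero] at h
  have h2 := mul_ne_zero (mul_ne_zero (mul_ne_zero (pQ_ne_zero hζ) (pE_ne_zero hζ))
    (pB_ne_zero hζ ha ha1)) (pow_ne_zero (M * (M + 1) / 2) hz)
  exact (mul_eq_zero.mp h.symm).resolve_right h2

private theorem shift_ne (hζ : IsPrimitiveRoot ζ (2 * M + 1)) (ha1 : a ^ (2 * M + 1) ≠ 1) (i : ℕ) :
    (a * ζ ^ i) ^ (2 * M + 1) ≠ 1 := by
  rw [mul_pow, ← pow_mul ζ, mul_comm i, pow_mul ζ, hζ.pow_eq_one, one_pow, mul_one]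
  exact ha1

private theorem d8_shift (hM : 1 ≤ M) (hζ : IsPrimitiveRoot ζ (2 * M + 1)) (ha : a ≠ 0)
    (ha1 : a ^ (2 * M + 1) ≠ 1) :
    W8 ζ (a * ζ ^ 2 + (a * ζ ^ 2)⁻¹) M - V8 ζ (a * ζ ^ 2 + (a * ζ ^ 2)⁻¹) M =
      (a * ζ) ^ 2 * (W8 ζ (a + a⁻¹) M - V8 ζ (a + a⁻¹) M) := by
  have hz := zeta_ne_zero' hζ
  have h1 := W8_shift hM hζ ha ha1
    (T8_zero hM hζ (mul_ne_zero ha (pow_ne_zero 2 hz)) (shift_ne hζ ha1 2))
  have h2 := V8_shift hM hζ ha ha1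
  have h3 : (a * ζ) ^ 2 ≠ 0 := pow_ne_zero 2 (mul_ne_zero ha hz)
  have h4 := h1.trans h2.symm
  generalize W8 ζ (a * ζ ^ 2 + (a * ζ ^ 2)⁻¹) M = w' at *
  generalize V8 ζ (a * ζ ^ 2 + (a * ζ ^ 2)⁻¹) M = v' at *
  generalize W8 ζ (a + a⁻¹) M = w at *
  generalize V8 ζ (a + a⁻¹) M = v at *
  generalize (a * ζ) ^ 2 = t at *
  have h5 : w' / t - v' / t = w - v := by linear_combination h4
  rw [← sub_div, div_eq_iff h3] at h5
  rw [h5, mul_comm]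

private theorem d16_shift (hM : 1 ≤ M) (hζ : IsPrimitiveRoot ζ (2 * M + 1)) (ha : a ≠ 0)
    (ha1 : a ^ (2 * M + 1) ≠ 1) :
    W16 ζ (a * ζ ^ 2 + (a * ζ ^ 2)⁻¹) M - V16 ζ (a * ζ ^ 2 + (a * ζ ^ 2)⁻¹) M =
      W16 ζ (a + a⁻¹) M - V16 ζ (a + a⁻¹) M := by
  have hz := zeta_ne_zero' hζ
  have h1 := W16_shift hM hζ ha ha1
    (T16_zero hM hζ (mul_ne_zero ha (pow_ne_zero 2 hz)) (shift_ne hζ ha1 2))
  have h2 := V16_shift hM hζ ha ha1
  linear_combination h1 - h2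

private theorem d8_iter (hM : 1 ≤ M) (hζ : IsPrimitiveRoot ζ (2 * M + 1)) (ha : a ≠ 0)
    (ha1 : a ^ (2 * M + 1) ≠ 1) (j : ℕ) :
    W8 ζ (a * ζ ^ (2 * j) + (a * ζ ^ (2 * j))⁻¹) M -
        V8 ζ (a * ζ ^ (2 * j) + (a * ζ ^ (2 * j))⁻¹) M =
      (a ^ j * ζ ^ (j * j)) ^ 2 * (W8 ζ (a + a⁻¹) M - V8 ζ (a + a⁻¹) M) := by
  have hz := zeta_ne_zero' hζ
  induction j with
  | zero => simp
  | succ j ih =>
    have h := d8_shift hM hζ (a := a * ζ ^ (2 * j)) (mul_ne_zero ha (pow_ne_zero _ hz))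
      (shift_ne hζ ha1 (2 * j))
    rw [ih] at h
    have e : a * ζ ^ (2 * (j + 1)) = a * ζ ^ (2 * j) * ζ ^ 2 := by ring
    rw [e, h]
    ring

private theorem d16_iter (hM : 1 ≤ M) (hζ : IsPrimitiveRoot ζ (2 * M + 1)) (ha : a ≠ 0)
    (ha1 : a ^ (2 * M + 1) ≠ 1) (j : ℕ) :
    W16 ζ (a * ζ ^ (2 * j) + (a * ζ ^ (2 * j))⁻¹) M -
        V16 ζ (a * ζ ^ (2 * j) + (a * ζ ^ (2 * j))⁻¹) M =
      W16 ζ (a + a⁻¹) M - V16 ζ (a + a⁻¹) M := by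
  have hz := zeta_ne_zero' hζ
  induction j with
  | zero => simp
  | succ j ih =>
    have h := d16_shift hM hζ (a := a * ζ ^ (2 * j)) (mul_ne_zero ha (pow_ne_zero _ hz))
      (shift_ne hζ ha1 (2 * j))
    rw [ih] at h
    have e : a * ζ ^ (2 * (j + 1)) = a * ζ ^ (2 * j) * ζ ^ 2 := by ring
    rw [e, h]

private theorem d8_zero (hM : 1 ≤ M) (hζ : IsPrimitiveRoot ζ (2 * M + 1)) (ha : a ≠ 0)
    (ha1 : a ^ (2 * M + 1) ≠ 1) (ha2 : a ^ (2 * (2 * M + 1)) ≠ 1) :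
    W8 ζ (a + a⁻¹) M - V8 ζ (a + a⁻¹) M = 0 := by
  have h := d8_iter hM hζ ha ha1 (2 * M + 1)
  have e1 : ζ ^ (2 * (2 * M + 1)) = 1 := by
    rw [mul_comm, pow_mul, hζ.pow_eq_one, one_pow]
  have e2 : ζ ^ ((2 * M + 1) * (2 * M + 1)) = 1 := by
    rw [pow_mul, hζ.pow_eq_one, one_pow]
  rw [e1, e2, mul_one, mul_one] at h
  have h3 : (1 - a ^ (2 * (2 * M + 1))) * (W8 ζ (a + a⁻¹) M - V8 ζ (a + a⁻¹) M) = 0 := by
    rw [mul_comm 2 (2 * M + 1), pow_mul]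
    linear_combination h
  exact (mul_eq_zero.mp h3).resolve_left (sub_ne_zero.mpr ha2.symm)

private theorem two_pow_ne : (2 : ℂ) ^ (2 * M + 1) ≠ 1 := by
  have h : (2 : ℕ) ^ (2 * M + 1) ≠ 1 := (Nat.one_lt_two_pow (by omega)).ne'
  exact_mod_cast h

private theorem two_pow_ne' : (2 : ℂ) ^ (2 * (2 * M + 1)) ≠ 1 := by
  have h : (2 : ℕ) ^ (2 * (2 * M + 1)) ≠ 1 := (Nat.one_lt_two_pow (by omega)).ne'
  exact_mod_cast h

/-- the point `s_j` -/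
private noncomputable def sj (ζ : ℂ) (j : ℕ) : ℂ := 2 * ζ ^ (2 * j) + (2 * ζ ^ (2 * j))⁻¹

private theorem sj_inj (hζ : IsPrimitiveRoot ζ (2 * M + 1)) {i j : ℕ} (hi : i < 2 * M + 1)
    (hj : j < 2 * M + 1) (h : sj ζ i = sj ζ j) : i = j := by
  have hz := zeta_ne_zero' hζ
  have hζ2 : IsPrimitiveRoot (ζ ^ 2) (2 * M + 1) :=
    hζ.pow_of_coprime 2 (Nat.coprime_two_left.mpr ⟨M, rfl⟩)
  unfold sj at h
  set x : ℂ := 2 * ζ ^ (2 * i) with hx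
  set y : ℂ := 2 * ζ ^ (2 * j) with hy
  have hx0 : x ≠ 0 := mul_ne_zero two_ne_zero (pow_ne_zero _ hz)
  have hy0 : y ≠ 0 := mul_ne_zero two_ne_zero (pow_ne_zero _ hz)
  have h1 : (x - y) * (x * y - 1) = 0 := by
    field_simp at h
    linear_combination h
  rcases mul_eq_zero.mp h1 with h2 | h2
  · have h3 : ζ ^ (2 * i) = ζ ^ (2 * j) := by
      have : (2 : ℂ) * ζ ^ (2 * i) = 2 * ζ ^ (2 * j) := by linear_combination h2
      exact mul_left_cancel₀ two_ne_zero this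
    rw [pow_mul, pow_mul] at h3
    exact hζ2.pow_inj hi hj h3
  · exfalso
    have h3 : (4 : ℂ) * ζ ^ (2 * i + 2 * j) = 1 := by
      rw [pow_add]
      linear_combination h2
    have h4 : ((4 : ℂ) * ζ ^ (2 * i + 2 * j)) ^ (2 * M + 1) = 1 := by rw [h3, one_pow]
    rw [mul_pow, ← pow_mul ζ, mul_comm (2 * i + 2 * j), pow_mul ζ, hζ.pow_eq_one, one_pow,
      mul_one] at h4
    have h5 : (4 : ℕ) ^ (2 * M + 1) ≠ 1 := (Nat.one_lt_pow (by omega) (by norm_num)).ne'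
    exact h5 (by exact_mod_cast h4)

private theorem poly_zero (hζ : IsPrimitiveRoot ζ (2 * M + 1)) (P : ℂ[X])
    (hd : P.natDegree < 2 * M + 1) (hr : ∀ j < 2 * M + 1, P.eval (sj ζ j) = 0) : P = 0 := by
  refine Polynomial.eq_zero_of_natDegree_lt_card_of_eval_eq_zero P (ι := Fin (2 * M + 1))
    (f := fun j => sj ζ j) ?_ ?_ ?_
  · intro i j h
    exact Fin.ext (sj_inj hζ i.2 j.2 h)
  · intro i
    exact hr i i.2
  · simpa using hd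

private theorem cond_sj (hζ : IsPrimitiveRoot ζ (2 * M + 1)) (j i : ℕ) :
    1 - sj ζ j * ζ ^ i + ζ ^ (2 * i) ≠ 0 :=
  fac_ne_zero hζ (mul_ne_zero two_ne_zero (pow_ne_zero _ (zeta_ne_zero' hζ)))
    (shift_ne hζ two_pow_ne (2 * j)) i

private theorem cond_two (hζ : IsPrimitiveRoot ζ (2 * M + 1)) {i : ℕ} (h1 : 1 ≤ i)
    (h2 : i < 2 * M + 1) : 1 - (2 : ℂ) * ζ ^ i + ζ ^ (2 * i) ≠ 0 := by
  have e : 1 - (2 : ℂ) * ζ ^ i + ζ ^ (2 * i) = (1 - ζ ^ i) ^ 2 := by ring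
  rw [e]
  exact pow_ne_zero 2 (sub_ne_zero.mpr (zeta_pow_ne_one hζ h1 h2).symm)

private theorem pA_two_ne (hζ : IsPrimitiveRoot ζ (2 * M + 1)) : pA ζ 2 M ≠ 0 := by
  unfold pA
  refine Finset.prod_ne_zero_iff.mpr fun j hj => ?_
  have hj' := Finset.mem_range.mp hj
  have := cond_two hζ (i := 2 * j + 1) (by omega) (by omega)
  rwa [show 2 * (2 * j + 1) = 4 * j + 2 by ring] at this

end aux

theorem W8_two {ζ : ℂ} {M : ℕ} (hM : 1 ≤ M) (hζ : IsPrimitiveRoot ζ (2 * M + 1)) :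
    W8 ζ 2 M = V8 ζ 2 M := by
  obtain ⟨P, hd, hP⟩ := W8_poly hM hζ
  have hz := zeta_ne_zero' hζ
  have h0 : P = 0 := by
    refine poly_zero hζ P (by omega) fun j _ => ?_
    rw [hP _ (fun i _ _ => cond_sj hζ j i)]
    have h1 := d8_zero hM hζ (a := 2 * ζ ^ (2 * j)) (mul_ne_zero two_ne_zero (pow_ne_zero _ hz))
      (shift_ne hζ two_pow_ne (2 * j)) (by
        rw [mul_comm 2 (2 * M + 1), pow_mul, mul_pow 2, ← pow_mul ζ, mul_comm (2 * j),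
          pow_mul ζ, hζ.pow_eq_one, one_pow, mul_one, ← pow_mul, mul_comm (2 * M + 1) 2]
        exact two_pow_ne')
    change (W8 ζ (sj ζ j) M - V8 ζ (sj ζ j) M) * _ = 0
    unfold sj
    rw [h1, zero_mul]
  have h2 := hP 2 (fun i h1 h2 => cond_two hζ h1 h2)
  rw [h0, eval_zero] at h2
  exact sub_eq_zero.mp ((mul_eq_zero.mp h2.symm).resolve_right (pA_two_ne hζ))

theorem W16_two {ζ : ℂ} {M : ℕ} (hM : 1 ≤ M) (hζ : IsPrimitiveRoot ζ (2 * M + 1)) :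
    W16 ζ 2 M = V16 ζ 2 M := by
  obtain ⟨P, hd, hP⟩ := W16_poly hM hζ
  have hz := zeta_ne_zero' hζ
  set c : ℂ := W16 ζ (2 + 2⁻¹) M - V16 ζ (2 + 2⁻¹) M with hc
  set Q : ℂ[X] := ∏ j ∈ range M, (1 - X * C (ζ ^ (2 * j + 1)) + C (ζ ^ (4 * j + 2))) with hQ
  have hQe : ∀ s : ℂ, Q.eval s = pA ζ s M := by
    intro s
    simp [hQ, pA, eval_prod]
  have hfac : ∀ j : ℕ, (1 - X * C (ζ ^ (2 * j + 1)) + C (ζ ^ (4 * j + 2)) : ℂ[X]) =
      C (-ζ ^ (2 * j + 1)) * X + C (1 + ζ ^ (4 * j + 2)) := by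
    intro j
    simp only [C_neg, C_add, C_1]
    ring
  have hfd : ∀ j : ℕ, (1 - X * C (ζ ^ (2 * j + 1)) + C (ζ ^ (4 * j + 2)) : ℂ[X]).natDegree = 1 := by
    intro j
    rw [hfac]
    exact natDegree_linear (neg_ne_zero.mpr (pow_ne_zero _ hz))
  have hQd : Q.natDegree = M := by
    rw [hQ, natDegree_prod _ _ (fun j _ h => by
      have := hfd j
      rw [h] at this
      simp at this)]
    rw [Finset.sum_congr rfl fun j _ => hfd j]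
    simp
  have h0 : P - C c * Q = 0 := by
    refine poly_zero hζ _ ?_ fun j _ => ?_
    · have h1 : (C c * Q).natDegree ≤ M := (natDegree_C_mul_le _ _).trans hQd.le
      have h2 : (P - C c * Q).natDegree ≤ M := (natDegree_sub_le _ _).trans (max_le hd.le h1)
      omega
    · rw [eval_sub, eval_mul, eval_C, hQe, hP _ (fun i _ _ => cond_sj hζ j i)]
      have h1 := d16_iter hM hζ (a := 2) two_ne_zero two_pow_ne j
      change (W16 ζ (sj ζ j) M - V16 ζ (sj ζ j) M) = c at h1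
      rw [h1, sub_self]
  have hc0 : c = 0 := by
    by_contra hne
    have h1 : P = C c * Q := sub_eq_zero.mp h0
    have h2 : P.natDegree = M := by
      rw [h1, natDegree_C_mul hne, hQd]
    omega
  rw [hc0, C_0, zero_mul, sub_zero] at h0
  have h2 := hP 2 (fun i h1 h2 => cond_two hζ h1 h2)
  rw [h0, eval_zero] at h2
  exact sub_eq_zero.mp ((mul_eq_zero.mp h2.symm).resolve_right (pA_two_ne hζ))

end SC322
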