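import Pool.Agent.SC322.Defs2

/-!
# The functional equation of `T8`, `T16` at a root of unity (q-WZ certificates)
-/

namespace SC322

open Finset Polynomial

namespace P3a

section Field

variable {K : Type*} [Field K]

lemma br_eq {q : K} (hq : 1 - q ≠ 0) (m : ℕ) : br q m = (1 - q ^ m) / (1 - q) := by
  have h1 : q ≠ 1 := fun h => hq (by rw [h, sub_self])
  unfold br
  rw [geom_sum_eq h1, ← neg_sub 1 q, ← neg_sub 1 (q ^ m), neg_div_neg_eq]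

/-- `pA` at the shifted point, `b = a q`, `Y = q ^ k` -/
lemma pA_shift {q a : K} (hq : q ≠ 0) (ha : a ≠ 0) (k : ℕ) :
    pA q (a * q ^ 2 + (a * q ^ 2)⁻¹) k * ((q ^ k) ^ 2 - a * q) =
      pA q (a + a⁻¹) k * (1 - a * q * (q ^ k) ^ 2) := by
  induction k with
  | zero => simp [pA]
  | succ k ih =>
    have e1 : pA q (a * q ^ 2 + (a * q ^ 2)⁻¹) (k + 1) =
        pA q (a * q ^ 2 + (a * q ^ 2)⁻¹) k *
          ((1 - a * q * q ^ 2 * (q ^ k) ^ 2) * (1 - (q ^ k) ^ 2 / (a * q))) := by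
      unfold pA
      rw [prod_range_succ]
      congr 1
      field_simp
      ring
    have e2 : pA q (a + a⁻¹) (k + 1) =
        pA q (a + a⁻¹) k * ((1 - a * q * (q ^ k) ^ 2) * (1 - q ^ 2 * (q ^ k) ^ 2 / (a * q))) := by
      unfold pA
      rw [prod_range_succ]
      congr 1
      field_simp
      ring
    rw [e1, e2, pow_succ q k]
    generalize q ^ k = Y at ih ⊢
    generalize pA q (a * q ^ 2 + (a * q ^ 2)⁻¹) k = A' at ih ⊢
    generalize pA q (a + a⁻¹) k = A at ih ⊢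
    have : A' * ((1 - a * q * q ^ 2 * Y ^ 2) * (1 - Y ^ 2 / (a * q))) * ((Y * q) ^ 2 - a * q) =
        (A' * (Y ^ 2 - a * q)) * (-(1 - a * q * q ^ 2 * Y ^ 2) * ((Y * q) ^ 2 - a * q) /
          (a * q)) := by
      field_simp
      ring
    rw [this, ih]
    field_simp
    ring

/-- `pB` at the shifted point -/
lemma pB_shift {q a : K} (hq : q ≠ 0) (ha : a ≠ 0) (k : ℕ) :
    pB q (a * q ^ 2 + (a * q ^ 2)⁻¹) k *
        ((1 - a * q * q) * (a * q - q ^ k) * (a * q - q * q ^ k)) =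
      -(pB q (a + a⁻¹) k * ((1 - a * q * q ^ k) * (1 - a * q * q * q ^ k) * (a * q - q))) := by
  induction k with
  | zero => simp [pB]; ring
  | succ k ih =>
    have e1 : pB q (a * q ^ 2 + (a * q ^ 2)⁻¹) (k + 1) =
        pB q (a * q ^ 2 + (a * q ^ 2)⁻¹) k *
          ((1 - a * q * q ^ 2 * q ^ k) * (1 - q ^ k / (a * q))) := by
      unfold pB
      rw [prod_range_succ]
      congr 1
      field_simp
      ring
    have e2 : pB q (a + a⁻¹) (k + 1) =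
        pB q (a + a⁻¹) k * ((1 - a * q * q ^ k) * (1 - q ^ 2 * q ^ k / (a * q))) := by
      unfold pB
      rw [prod_range_succ]
      congr 1
      field_simp
      ring
    rw [e1, e2, pow_succ q k]
    generalize q ^ k = Y at ih ⊢
    generalize pB q (a * q ^ 2 + (a * q ^ 2)⁻¹) k = A' at ih ⊢
    generalize pB q (a + a⁻¹) k = A at ih ⊢
    have : A' * ((1 - a * q * q ^ 2 * Y) * (1 - Y / (a * q))) *
        ((1 - a * q * q) * (a * q - Y * q) * (a * q - q * (Y * q))) =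
        (A' * ((1 - a * q * q) * (a * q - Y) * (a * q - q * Y))) *
          ((1 - a * q * q ^ 2 * Y) * (a * q - q * (Y * q)) / (a * q)) := by
      field_simp
    rw [this, ih]
    field_simp

/-- `f8 (k+1) / f8 k` -/
lemma f8_succ {q a : K} (hq : q ≠ 0) (ha : a ≠ 0) (k : ℕ) :
    f8 q (a + a⁻¹) (k + 1) = f8 q (a + a⁻¹) k *
      (-((1 - q * (q ^ k) ^ 2) * ((1 - a * q * (q ^ k) ^ 2) * (a * q - q ^ 2 * (q ^ k) ^ 2))) /
        ((1 - q * q ^ k) * ((1 - a * q * q ^ k) * (a * q - q ^ 2 * q ^ k)))) := by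
  have e1 : pA q (a + a⁻¹) (k + 1) =
      pA q (a + a⁻¹) k * ((1 - a * q * (q ^ k) ^ 2) * (a * q - q ^ 2 * (q ^ k) ^ 2) /
        (a * q)) := by
    unfold pA
    rw [prod_range_succ]
    congr 1
    field_simp
    ring
  have e2 : pB q (a + a⁻¹) (k + 1) =
      pB q (a + a⁻¹) k * ((1 - a * q * q ^ k) * (a * q - q ^ 2 * q ^ k) / (a * q)) := by
    unfold pB
    rw [prod_range_succ]
    congr 1
    field_simp
    ring
  have e3 : pO q (k + 1) = pO q k * (1 - q * (q ^ k) ^ 2) := by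
    unfold pO
    rw [prod_range_succ]
    congr 1
    ring
  have e4 : pQ q (k + 1) = pQ q k * (1 - q * q ^ k) := by
    unfold pQ
    rw [prod_range_succ]
    congr 1
    ring
  unfold f8
  rw [e1, e2, e3, e4, pow_succ (-1 : K) k]
  generalize q ^ k = Y
  generalize pA q (a + a⁻¹) k = A
  generalize pB q (a + a⁻¹) k = B
  generalize pO q k = O
  generalize pQ q k = Q
  generalize (-1 : K) ^ k = e
  have haq : a * q ≠ 0 := mul_ne_zero ha hq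
  simp only [div_eq_mul_inv, mul_inv, inv_inv]
  have : (a * q)⁻¹ * (a * q) = 1 := inv_mul_cancel₀ haq
  calc _ = (-(e * (O * (1 - q * Y ^ 2)) * (A * ((1 - a * q * Y ^ 2) *
      (a * q - q ^ 2 * Y ^ 2))) * (Q⁻¹ * (1 - q * Y)⁻¹ * (B⁻¹ * ((1 - a * q * Y)⁻¹ *
      (a * q - q ^ 2 * Y)⁻¹))))) * ((a * q)⁻¹ * (a * q)) := by
        rw [mul_inv]; ring
    _ = _ := by rw [this]; ring

/-- `f16 (k+1) / f16 k` -/
lemma f16_succ {q a : K} (hq : q ≠ 0) (ha : a ≠ 0) (k : ℕ) :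
    f16 q (a + a⁻¹) (k + 1) = f16 q (a + a⁻¹) k *
      (((1 - q * (q ^ k) ^ 2) * ((1 - a * q * (q ^ k) ^ 2) * (a * q - q ^ 2 * (q ^ k) ^ 2))) /
        ((1 - q ^ 2 * (q ^ k) ^ 2) * ((1 - a * q * q ^ k) * (a * q - q ^ 2 * q ^ k)) *
          (q * q ^ k))) := by
  have e1 : pA q (a + a⁻¹) (k + 1) =
      pA q (a + a⁻¹) k * ((1 - a * q * (q ^ k) ^ 2) * (a * q - q ^ 2 * (q ^ k) ^ 2) /
        (a * q)) := by
    unfold pA
    rw [prod_range_succ]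
    congr 1
    field_simp
    ring
  have e2 : pB q (a + a⁻¹) (k + 1) =
      pB q (a + a⁻¹) k * ((1 - a * q * q ^ k) * (a * q - q ^ 2 * q ^ k) / (a * q)) := by
    unfold pB
    rw [prod_range_succ]
    congr 1
    field_simp
    ring
  have e3 : pO q (k + 1) = pO q k * (1 - q * (q ^ k) ^ 2) := by
    unfold pO
    rw [prod_range_succ]
    congr 1
    ring
  have e4 : pQ q (k + 1) = pQ q k * (1 - q * q ^ k) := by
    unfold pQ
    rw [prod_range_succ]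
    congr 1
    ring
  have e5 : pE q (k + 1) = pE q k * (1 + q * q ^ k) := by
    unfold pE
    rw [prod_range_succ]
    congr 1
    ring
  have e6 : q ^ ((k + 1) * (k + 1 + 1) / 2) = q ^ (k * (k + 1) / 2) * (q * q ^ k) := by
    have h1 : (k + 1) * (k + 1 + 1) = k * (k + 1) + (k + 1) * 2 := by ring
    rw [h1, Nat.add_mul_div_right _ _ (by norm_num : 0 < 2), pow_add, pow_succ]
    ring
  have e7 : (1 - q ^ 2 * (q ^ k) ^ 2) = (1 - q * q ^ k) * (1 + q * q ^ k) := by ring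
  unfold f16
  rw [e1, e2, e3, e4, e5, e6, e7]
  generalize q ^ (k * (k + 1) / 2) = P
  generalize q ^ k = Y
  generalize pA q (a + a⁻¹) k = A
  generalize pB q (a + a⁻¹) k = B
  generalize pO q k = O
  generalize pQ q k = Q
  generalize pE q k = E
  have haq : a * q ≠ 0 := mul_ne_zero ha hq
  simp only [div_eq_mul_inv, mul_inv, inv_inv]
  have : (a * q)⁻¹ * (a * q) = 1 := inv_mul_cancel₀ haq
  calc _ = ((O * (1 - q * Y ^ 2)) * (A * ((1 - a * q * Y ^ 2) *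
      (a * q - q ^ 2 * Y ^ 2))) * (Q⁻¹ * (1 - q * Y)⁻¹ * (E⁻¹ * (1 + q * Y)⁻¹) *
      (B⁻¹ * ((1 - a * q * Y)⁻¹ *
      (a * q - q ^ 2 * Y)⁻¹)) * (P⁻¹ * (q⁻¹ * Y⁻¹)))) * ((a * q)⁻¹ * (a * q)) := by
        rw [mul_inv]; ring
    _ = _ := by rw [this]; ring

lemma aux8 {c b D2 D3 D4 N0 N1 N2 N3 : K} (hb : b ≠ 0) (h2 : D2 ≠ 0) (h3 : D3 ≠ 0)
    (h4 : D4 ≠ 0) (h : N1 - N0 * (b * D2 * D3 * D4) = -(N2 * D2) - N3 * D4) :
    c * (N1 / (b * D2 * D3 * D4)) - N0 * c =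
      c * (-N2 / (b * D3 * D4)) - c * (N3 / (b * D2 * D3)) := by
  have e1 : N1 = N0 * (b * D2 * D3 * D4) - N2 * D2 - N3 * D4 := by linear_combination h
  rw [e1]
  field_simp
  ring

lemma aux16 {c D2 D3 D4 N0 N1 N2 N3 : K} (h2 : D2 ≠ 0) (h3 : D3 ≠ 0)
    (h4 : D4 ≠ 0) (h : N1 - N0 * (D2 * D3 * D4) = -(N2 * D2) + N3 * D4) :
    c * (N1 / (D2 * D3 * D4)) - N0 * c =
      c * (-N2 / (D3 * D4)) + c * (N3 / (D2 * D3)) := by
  have e1 : N1 = N0 * (D2 * D3 * D4) - N2 * D2 + N3 * D4 := by linear_combination h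
  rw [e1]
  field_simp
  ring

lemma rat8 {q b f Y : K} (hb : b ≠ 0)
    (h2 : 1 - q * Y ≠ 0) (h3 : 1 - b * Y ≠ 0)
    (h5 : b - Y ^ 2 ≠ 0)
    (h8 : b - q ^ 2 * Y ≠ 0)
    (h9' : b - q ^ 2 * Y ^ 2 ≠ 0)
    (hd : 1 - b * (q * Y) ≠ 0) (h10' : 1 - b * q ≠ 0) (ha1 : b - q ≠ 0) :
    (b - q) / (b * (1 - b * q)) * ((1 - q * Y ^ 3) / (1 - q) * (f * ((1 - b * Y ^ 2) / (b - Y ^ 2) *
        (((1 - b * q) * (b - Y) * (b - q * Y)) /
          ((1 - b * Y) * (1 - b * (q * Y)) * (b - q)))))) -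
      (1 - q * Y ^ 3) / (1 - q) * f =
      f * (-((1 - q * Y ^ 2) * ((1 - b * Y ^ 2) * (b - q ^ 2 * Y ^ 2))) /
        ((1 - q * Y) * ((1 - b * Y) * (b - q ^ 2 * Y)))) *
        ((1 - b ^ 2) / (1 - q) * (q * Y * (1 - q * Y) * (b - q ^ 2 * Y)) /
        (b * (b - q ^ 2 * Y ^ 2) * (1 - b * (q * Y)))) -
      f * ((1 - b ^ 2) / (1 - q) * (Y * (1 - Y) * (b - q * Y)) /
        (b * (b - Y ^ 2) * (1 - b * Y))) := by
  have main := aux8 (c := f / (1 - q)) (N0 := 1 - q * Y ^ 3)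
    (N1 := (1 - q * Y ^ 3) * (1 - b * Y ^ 2) * (b - Y) * (b - q * Y))
    (N2 := (1 - q * Y ^ 2) * (1 - b * Y ^ 2) * (1 - b ^ 2) * (q * Y))
    (N3 := (1 - b ^ 2) * (Y * (1 - Y) * (b - q * Y))) hb h5 h3 hd (by ring)
  generalize hD2 : b - Y ^ 2 = D2 at *
  generalize hD3 : 1 - b * Y = D3 at *
  generalize hD4 : 1 - b * (q * Y) = D4 at *
  generalize hD5 : 1 - q * Y = D5 at *
  generalize hD6 : b - q ^ 2 * Y = D6 at *
  generalize hD7 : b - q ^ 2 * Y ^ 2 = D7 at *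
  generalize hD8 : 1 - b * q = D8 at *
  generalize hD9 : b - q = D9 at *
  generalize hD1 : (1 - q) = D1 at *
  generalize hN0 : 1 - q * Y ^ 3 = N0 at *
  generalize hNa : 1 - b * Y ^ 2 = Na at *
  generalize hNb : b - Y = Nb at *
  generalize hNc : b - q * Y = Nc at *
  generalize hNd : 1 - q * Y ^ 2 = Nd at *
  generalize hNe : 1 - b ^ 2 = Ne at *
  generalize hNf : 1 - Y = Nf at *
  calc _ = f / D1 * (N0 * Na * Nb * Nc / (b * D2 * D3 * D4)) * ((D9 * D9⁻¹) * (D8 * D8⁻¹)) -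
        N0 * (f / D1) := by
        simp only [div_eq_mul_inv, mul_inv]; ring
    _ = f / D1 * (-(Nd * Na * Ne * (q * Y)) / (b * D3 * D4)) -
        f / D1 * (Ne * (Y * Nf * Nc) / (b * D2 * D3)) := by
        rw [mul_inv_cancel₀ ha1, mul_inv_cancel₀ h10', one_mul, mul_one, main]
    _ = f / D1 * (-(Nd * Na * Ne * (q * Y)) / (b * D3 * D4)) *
          ((D5 * D5⁻¹) * (D6 * D6⁻¹) * (D7 * D7⁻¹)) -
        f / D1 * (Ne * (Y * Nf * Nc) / (b * D2 * D3)) := by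
        rw [mul_inv_cancel₀ h2, mul_inv_cancel₀ h8, mul_inv_cancel₀ h9', one_mul, mul_one,
          mul_one]
    _ = _ := by
        simp only [div_eq_mul_inv, mul_inv]; ring

lemma rat16 {q b f Y : K} (hqY : q * Y ≠ 0)
    (h2 : 1 - q ^ 2 * Y ^ 2 ≠ 0) (h3 : 1 - b * Y ≠ 0)
    (h5 : b - Y ^ 2 ≠ 0)
    (h8 : b - q ^ 2 * Y ≠ 0)
    (h9' : b - q ^ 2 * Y ^ 2 ≠ 0)
    (hd : 1 - b * (q * Y) ≠ 0) (h10' : 1 - b * q ≠ 0) (ha1 : b - q ≠ 0) :
    -((b - q) / (1 - b * q)) * ((1 - q * Y ^ 3) / (1 - q) * (f * ((1 - b * Y ^ 2) / (b - Y ^ 2) *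
        (((1 - b * q) * (b - Y) * (b - q * Y)) /
          ((1 - b * Y) * (1 - b * (q * Y)) * (b - q)))))) -
      (1 - q * Y ^ 3) / (1 - q) * f =
      f * (((1 - q * Y ^ 2) * ((1 - b * Y ^ 2) * (b - q ^ 2 * Y ^ 2))) /
        ((1 - q ^ 2 * Y ^ 2) * ((1 - b * Y) * (b - q ^ 2 * Y)) * (q * Y))) *
        -((1 + b) / (1 - q) * (q * Y * (1 - q ^ 2 * Y ^ 2) * (1 - q * Y) * (b - q ^ 2 * Y)) /
        ((b - q ^ 2 * Y ^ 2) * (1 - b * (q * Y)))) -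
      f * -((1 + b) / (1 - q) * (Y * (1 - Y ^ 2) * (1 - Y) * (b - q * Y)) /
        ((b - Y ^ 2) * (1 - b * Y))) := by
  have main := aux16 (c := f / (1 - q)) (N0 := 1 - q * Y ^ 3)
    (N1 := -((1 - q * Y ^ 3) * (1 - b * Y ^ 2) * (b - Y) * (b - q * Y)))
    (N2 := (1 - q * Y ^ 2) * (1 - b * Y ^ 2) * (1 + b) * (1 - q * Y))
    (N3 := (1 + b) * (Y * (1 - Y ^ 2) * (1 - Y) * (b - q * Y))) h5 h3 hd (by ring)
  generalize hD2 : b - Y ^ 2 = D2 at *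
  generalize hD3 : 1 - b * Y = D3 at *
  generalize hD4 : 1 - b * (q * Y) = D4 at *
  generalize hD5 : 1 - q ^ 2 * Y ^ 2 = D5 at *
  generalize hD6 : b - q ^ 2 * Y = D6 at *
  generalize hD7 : b - q ^ 2 * Y ^ 2 = D7 at *
  generalize hD8 : 1 - b * q = D8 at *
  generalize hD9 : b - q = D9 at *
  generalize hD1 : (1 - q) = D1 at *
  generalize hN0 : 1 - q * Y ^ 3 = N0 at *
  generalize hNa : 1 - b * Y ^ 2 = Na at *
  generalize hNb : b - Y = Nb at *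
  generalize hNc : b - q * Y = Nc at *
  generalize hNd : 1 - q * Y ^ 2 = Nd at *
  generalize hNe : 1 + b = Ne at *
  generalize hNf : 1 - Y = Nf at *
  generalize hNg : 1 - Y ^ 2 = Ng at *
  generalize hNh : 1 - q * Y = Nh at *
  generalize hqY' : q * Y = Z at *
  calc _ = f / D1 * (-(N0 * Na * Nb * Nc) / (D2 * D3 * D4)) * ((D9 * D9⁻¹) * (D8 * D8⁻¹)) -
        N0 * (f / D1) := by
        simp only [div_eq_mul_inv, mul_inv]; ring
    _ = f / D1 * (-(Nd * Na * Ne * Nh) / (D3 * D4)) +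
        f / D1 * (Ne * (Y * Ng * Nf * Nc) / (D2 * D3)) := by
        rw [mul_inv_cancel₀ ha1, mul_inv_cancel₀ h10', one_mul, mul_one, main]
    _ = f / D1 * (-(Nd * Na * Ne * Nh) / (D3 * D4)) *
          ((D5 * D5⁻¹) * (D6 * D6⁻¹) * (D7 * D7⁻¹) * (Z * Z⁻¹)) +
        f / D1 * (Ne * (Y * Ng * Nf * Nc) / (D2 * D3)) := by
        rw [mul_inv_cancel₀ h2, mul_inv_cancel₀ h8, mul_inv_cancel₀ h9', mul_inv_cancel₀ hqY,
          one_mul, mul_one, mul_one, mul_one]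
    _ = _ := by
        simp only [div_eq_mul_inv, mul_inv]; ring

/-- the certificates, `b = a q` -/
def g8 (q b Y : K) : K :=
  (1 - b ^ 2) / (1 - q) * (Y * (1 - Y) * (b - q * Y)) / (b * (b - Y ^ 2) * (1 - b * Y))

def g16 (q b Y : K) : K :=
  -((1 + b) / (1 - q) * (Y * (1 - Y ^ 2) * (1 - Y) * (b - q * Y)) /
    ((b - Y ^ 2) * (1 - b * Y)))

/-- ratio of the shifted to the original products -/
lemma ratio_shift {q a : K} (hq : q ≠ 0) (ha : a ≠ 0) (k : ℕ)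
    (h5 : a * q - (q ^ k) ^ 2 ≠ 0) (h6 : a * q - q ^ k ≠ 0) (h7 : a * q - q * q ^ k ≠ 0)
    (h10 : 1 - a * q * q ≠ 0) :
    pA q (a * q ^ 2 + (a * q ^ 2)⁻¹) k / pB q (a * q ^ 2 + (a * q ^ 2)⁻¹) k =
      pA q (a + a⁻¹) k / pB q (a + a⁻¹) k *
      ((1 - a * q * (q ^ k) ^ 2) / (a * q - (q ^ k) ^ 2) *
        (((1 - a * q * q) * (a * q - q ^ k) * (a * q - q * q ^ k)) /
          ((1 - a * q * q ^ k) * (1 - a * q * (q * q ^ k)) * (a * q - q)))) := by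
  have eA : pA q (a * q ^ 2 + (a * q ^ 2)⁻¹) k =
      -(pA q (a + a⁻¹) k * (1 - a * q * (q ^ k) ^ 2)) / (a * q - (q ^ k) ^ 2) := by
    rw [eq_div_iff h5, ← pA_shift hq ha k]
    ring
  have eB : pB q (a * q ^ 2 + (a * q ^ 2)⁻¹) k =
      -(pB q (a + a⁻¹) k * ((1 - a * q * q ^ k) * (1 - a * q * (q * q ^ k)) * (a * q - q))) /
        ((1 - a * q * q) * (a * q - q ^ k) * (a * q - q * q ^ k)) := by
    rw [eq_div_iff (mul_ne_zero (mul_ne_zero h10 h6) h7), pB_shift hq ha k]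
    ring
  rw [eA, eB]
  simp only [div_eq_mul_inv, mul_inv, inv_inv, inv_neg, neg_mul]
  ring

lemma wz8 {q a : K} (hq : q ≠ 0) (ha : a ≠ 0) (k : ℕ)
    (h1 : 1 - q ≠ 0) (h2 : 1 - q * q ^ k ≠ 0) (h3 : 1 - a * q * q ^ k ≠ 0)
    (h4 : 1 - a * q * (q * q ^ k) ≠ 0) (h5 : a * q - (q ^ k) ^ 2 ≠ 0)
    (h6 : a * q - q ^ k ≠ 0) (h7 : a * q - q * q ^ k ≠ 0) (h8 : a * q - q ^ 2 * q ^ k ≠ 0)
    (h9 : a * q - q ^ 2 * (q ^ k) ^ 2 ≠ 0) (h10 : 1 - a * q * q ≠ 0) (h11 : a * q - q ≠ 0) :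
    -(1 - a) / (a * (1 - a * q ^ 2)) *
        (br q (3 * k + 1) * f8 q (a * q ^ 2 + (a * q ^ 2)⁻¹) k) -
      br q (3 * k + 1) * f8 q (a + a⁻¹) k =
      f8 q (a + a⁻¹) (k + 1) * g8 q (a * q) (q ^ (k + 1)) -
        f8 q (a + a⁻¹) k * g8 q (a * q) (q ^ k) := by
  have key : f8 q (a * q ^ 2 + (a * q ^ 2)⁻¹) k = f8 q (a + a⁻¹) k *
      ((1 - a * q * (q ^ k) ^ 2) / (a * q - (q ^ k) ^ 2) *
        (((1 - a * q * q) * (a * q - q ^ k) * (a * q - q * q ^ k)) /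
          ((1 - a * q * q ^ k) * (1 - a * q * (q * q ^ k)) * (a * q - q)))) := by
    have e := ratio_shift hq ha k h5 h6 h7 h10
    have e1 : ∀ s : K, f8 q s k = (-1) ^ k * pO q k / pQ q k * (pA q s k / pB q s k) := by
      intro s
      unfold f8
      simp only [div_eq_mul_inv, mul_inv]
      ring
    rw [e1, e1, e]
    ring
  have e3k : q ^ (3 * k + 1) = q * (q ^ k) ^ 3 := by ring
  have hrho : -(1 - a) / (a * (1 - a * q ^ 2)) = (a * q - q) / (a * q * (1 - a * q * q)) := by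
    have h12 : 1 - a * q ^ 2 = 1 - a * q * q := by ring
    rw [h12, div_eq_div_iff (mul_ne_zero ha h10) (mul_ne_zero (mul_ne_zero ha hq) h10)]
    ring
  rw [f8_succ hq ha k, br_eq h1, key, e3k, hrho, rat8 (mul_ne_zero ha hq) h2 h3 h5 h8 h9 h4 h10 h11]
  unfold g8
  rw [pow_succ]
  ring_nf

lemma wz16 {q a : K} (hq : q ≠ 0) (ha : a ≠ 0) (k : ℕ)
    (h1 : 1 - q ≠ 0) (h2 : 1 - q ^ 2 * (q ^ k) ^ 2 ≠ 0) (h3 : 1 - a * q * q ^ k ≠ 0)
    (h4 : 1 - a * q * (q * q ^ k) ≠ 0) (h5 : a * q - (q ^ k) ^ 2 ≠ 0)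
    (h6 : a * q - q ^ k ≠ 0) (h7 : a * q - q * q ^ k ≠ 0) (h8 : a * q - q ^ 2 * q ^ k ≠ 0)
    (h9 : a * q - q ^ 2 * (q ^ k) ^ 2 ≠ 0) (h10 : 1 - a * q * q ≠ 0) (h11 : a * q - q ≠ 0) :
    q * (1 - a) / (1 - a * q ^ 2) *
        (br q (3 * k + 1) * f16 q (a * q ^ 2 + (a * q ^ 2)⁻¹) k) -
      br q (3 * k + 1) * f16 q (a + a⁻¹) k =
      f16 q (a + a⁻¹) (k + 1) * g16 q (a * q) (q ^ (k + 1)) -
        f16 q (a + a⁻¹) k * g16 q (a * q) (q ^ k) := by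
  have key : f16 q (a * q ^ 2 + (a * q ^ 2)⁻¹) k = f16 q (a + a⁻¹) k *
      ((1 - a * q * (q ^ k) ^ 2) / (a * q - (q ^ k) ^ 2) *
        (((1 - a * q * q) * (a * q - q ^ k) * (a * q - q * q ^ k)) /
          ((1 - a * q * q ^ k) * (1 - a * q * (q * q ^ k)) * (a * q - q)))) := by
    have e := ratio_shift hq ha k h5 h6 h7 h10
    have e1 : ∀ s : K, f16 q s k = pO q k / (pQ q k * pE q k * q ^ (k * (k + 1) / 2)) *
        (pA q s k / pB q s k) := by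
      intro s
      unfold f16
      simp only [div_eq_mul_inv, mul_inv]
      ring
    rw [e1, e1, e]
    ring
  have e3k : q ^ (3 * k + 1) = q * (q ^ k) ^ 3 := by ring
  have hrho : q * (1 - a) / (1 - a * q ^ 2) = -((a * q - q) / (1 - a * q * q)) := by
    have h12 : 1 - a * q ^ 2 = 1 - a * q * q := by ring
    rw [h12]
    ring
  rw [f16_succ hq ha k, br_eq h1, key, e3k, hrho,
    rat16 (mul_ne_zero hq (pow_ne_zero k hq)) h2 h3 h5 h8 h9 h4 h10 h11]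
  unfold g16
  rw [pow_succ]
  ring_nf

end Field

/-! ### non-vanishing at a root of unity -/

section Zeta

variable {ζ a : ℂ} {M : ℕ}

lemma zeta_ne_zero (hζ : IsPrimitiveRoot ζ (2 * M + 1)) : ζ ≠ 0 :=
  hζ.ne_zero (by omega)

lemma one_sub_mul_ne (hζ : IsPrimitiveRoot ζ (2 * M + 1)) (ha1 : a ^ (2 * M + 1) ≠ 1) (i : ℕ) :
    1 - a * ζ ^ i ≠ 0 := by
  intro h
  apply ha1
  have h1 : a * ζ ^ i = 1 := by linear_combination -h
  have h2 : (a * ζ ^ i) ^ (2 * M + 1) = 1 := by rw [h1, one_pow]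
  rwa [mul_pow, ← pow_mul, mul_comm i, pow_mul, hζ.pow_eq_one, one_pow, mul_one] at h2

lemma mul_zeta_sub_ne (hζ : IsPrimitiveRoot ζ (2 * M + 1)) (ha1 : a ^ (2 * M + 1) ≠ 1) (i : ℕ) :
    a * ζ - ζ ^ i ≠ 0 := by
  intro h
  apply ha1
  have h1 : a * ζ = ζ ^ i := by linear_combination h
  have h2 : (a * ζ) ^ (2 * M + 1) = (ζ ^ i) ^ (2 * M + 1) := by rw [h1]
  rwa [mul_pow, ← pow_mul ζ i, mul_comm i, pow_mul, hζ.pow_eq_one, one_pow, mul_one] at h2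

lemma one_sub_pow_ne (hζ : IsPrimitiveRoot ζ (2 * M + 1)) {i : ℕ} (h1 : ¬ (2 * M + 1) ∣ i) :
    1 - ζ ^ i ≠ 0 := by
  intro h
  apply h1
  rw [← hζ.pow_eq_one_iff_dvd]
  linear_combination -h

lemma pO_zero (hζ : IsPrimitiveRoot ζ (2 * M + 1)) : pO ζ (M + 1) = 0 := by
  unfold pO
  rw [prod_range_succ, hζ.pow_eq_one, sub_self, mul_zero]

end Zeta

end P3a

open P3a

theorem T8_shift {ζ a : ℂ} {M : ℕ} (hM : 1 ≤ M) (hζ : IsPrimitiveRoot ζ (2 * M + 1))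
    (ha : a ≠ 0) (ha1 : a ^ (2 * M + 1) ≠ 1) :
    -(1 - a) / (a * (1 - a * ζ ^ 2)) * T8 ζ (a * ζ ^ 2 + (a * ζ ^ 2)⁻¹) (M + 1) =
      T8 ζ (a + a⁻¹) (M + 1) := by
  have hq := zeta_ne_zero hζ
  have key : ∀ k ∈ range (M + 1), -(1 - a) / (a * (1 - a * ζ ^ 2)) *
        (br ζ (3 * k + 1) * f8 ζ (a * ζ ^ 2 + (a * ζ ^ 2)⁻¹) k) -
      br ζ (3 * k + 1) * f8 ζ (a + a⁻¹) k =
      f8 ζ (a + a⁻¹) (k + 1) * g8 ζ (a * ζ) (ζ ^ (k + 1)) -
        f8 ζ (a + a⁻¹) k * g8 ζ (a * ζ) (ζ ^ k) := by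
    intro k hk
    rw [mem_range] at hk
    refine wz8 hq ha k ?_ ?_ ?_ ?_ ?_ ?_ ?_ ?_ ?_ ?_ ?_
    · have := one_sub_pow_ne hζ (i := 1) (Nat.not_dvd_of_pos_of_lt (by omega) (by omega))
      rwa [pow_one] at this
    · have := one_sub_pow_ne hζ (i := k + 1) (Nat.not_dvd_of_pos_of_lt (by omega) (by omega))
      rwa [pow_succ'] at this
    · have := one_sub_mul_ne hζ ha1 (k + 1)
      rwa [pow_succ', ← mul_assoc] at this
    · have := one_sub_mul_ne hζ ha1 (k + 2)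
      rwa [pow_succ', pow_succ', ← mul_assoc] at this
    · have := mul_zeta_sub_ne hζ ha1 (k * 2)
      rwa [pow_mul] at this
    · exact mul_zeta_sub_ne hζ ha1 k
    · have := mul_zeta_sub_ne hζ ha1 (k + 1)
      rwa [pow_succ'] at this
    · have := mul_zeta_sub_ne hζ ha1 (2 + k)
      rwa [pow_add] at this
    · have := mul_zeta_sub_ne hζ ha1 (2 + k * 2)
      rwa [pow_add, pow_mul] at this
    · have := one_sub_mul_ne hζ ha1 2
      rwa [pow_two, ← mul_assoc] at this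
    · have := mul_zeta_sub_ne hζ ha1 1
      rwa [pow_one] at this
  have h1 : -(1 - a) / (a * (1 - a * ζ ^ 2)) * T8 ζ (a * ζ ^ 2 + (a * ζ ^ 2)⁻¹) (M + 1) -
      T8 ζ (a + a⁻¹) (M + 1) = 0 := by
    unfold T8
    rw [mul_sum, ← sum_sub_distrib, sum_congr rfl key,
      sum_range_sub (fun k => f8 ζ (a + a⁻¹) k * g8 ζ (a * ζ) (ζ ^ k))]
    have e1 : f8 ζ (a + a⁻¹) (M + 1) = 0 := by
      unfold f8
      rw [pO_zero hζ]
      simp
    have e2 : g8 ζ (a * ζ) (ζ ^ 0) = 0 := by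
      unfold g8
      simp
    rw [e1, e2, zero_mul, mul_zero, sub_zero]
  linear_combination h1

theorem T16_shift {ζ a : ℂ} {M : ℕ} (hM : 1 ≤ M) (hζ : IsPrimitiveRoot ζ (2 * M + 1))
    (ha : a ≠ 0) (ha1 : a ^ (2 * M + 1) ≠ 1) :
    ζ * (1 - a) / (1 - a * ζ ^ 2) * T16 ζ (a * ζ ^ 2 + (a * ζ ^ 2)⁻¹) (M + 1) =
      T16 ζ (a + a⁻¹) (M + 1) := by
  have hq := zeta_ne_zero hζ
  have key : ∀ k ∈ range (M + 1), ζ * (1 - a) / (1 - a * ζ ^ 2) *
        (br ζ (3 * k + 1) * f16 ζ (a * ζ ^ 2 + (a * ζ ^ 2)⁻¹) k) -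
      br ζ (3 * k + 1) * f16 ζ (a + a⁻¹) k =
      f16 ζ (a + a⁻¹) (k + 1) * g16 ζ (a * ζ) (ζ ^ (k + 1)) -
        f16 ζ (a + a⁻¹) k * g16 ζ (a * ζ) (ζ ^ k) := by
    intro k hk
    rw [mem_range] at hk
    refine wz16 hq ha k ?_ ?_ ?_ ?_ ?_ ?_ ?_ ?_ ?_ ?_ ?_
    · have := one_sub_pow_ne hζ (i := 1) (Nat.not_dvd_of_pos_of_lt (by omega) (by omega))
      rwa [pow_one] at this
    · have := one_sub_pow_ne hζ (i := 2 + k * 2) (by
        rintro ⟨c, hc⟩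
        have hc1 : c < 2 := by
          by_contra hcon
          have : (2 * M + 1) * 2 ≤ (2 * M + 1) * c := Nat.mul_le_mul_left _ (by omega)
          omega
        interval_cases c <;> omega)
      rwa [pow_add, pow_mul] at this
    · have := one_sub_mul_ne hζ ha1 (k + 1)
      rwa [pow_succ', ← mul_assoc] at this
    · have := one_sub_mul_ne hζ ha1 (k + 2)
      rwa [pow_succ', pow_succ', ← mul_assoc] at this
    · have := mul_zeta_sub_ne hζ ha1 (k * 2)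
      rwa [pow_mul] at this
    · exact mul_zeta_sub_ne hζ ha1 k
    · have := mul_zeta_sub_ne hζ ha1 (k + 1)
      rwa [pow_succ'] at this
    · have := mul_zeta_sub_ne hζ ha1 (2 + k)
      rwa [pow_add] at this
    · have := mul_zeta_sub_ne hζ ha1 (2 + k * 2)
      rwa [pow_add, pow_mul] at this
    · have := one_sub_mul_ne hζ ha1 2
      rwa [pow_two, ← mul_assoc] at this
    · have := mul_zeta_sub_ne hζ ha1 1
      rwa [pow_one] at this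
  have h1 : ζ * (1 - a) / (1 - a * ζ ^ 2) * T16 ζ (a * ζ ^ 2 + (a * ζ ^ 2)⁻¹) (M + 1) -
      T16 ζ (a + a⁻¹) (M + 1) = 0 := by
    unfold T16
    rw [mul_sum, ← sum_sub_distrib, sum_congr rfl key,
      sum_range_sub (fun k => f16 ζ (a + a⁻¹) k * g16 ζ (a * ζ) (ζ ^ k))]
    have e1 : f16 ζ (a + a⁻¹) (M + 1) = 0 := by
      unfold f16
      rw [pO_zero hζ]
      simp
    have e2 : g16 ζ (a * ζ) (ζ ^ 0) = 0 := by
      unfold g16
      simp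
    rw [e1, e2, zero_mul, mul_zero, sub_zero]
  linear_combination h1

end SC322
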