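import Pool.Agent.SC322.P2
import Pool.Agent.SC322.P4a

/-!
# P4 : exact values in a domain and at a root of unity
-/

namespace SC322

open Finset Polynomial

/-- exact values over a domain; `s = q^n + q^(-n)` is given by `s * q^n = q^(2n) + 1` -/
theorem U8_exact {R : Type*} [CommRing R] [IsDomain R] (q s : R) (hq0 : q ≠ 0)
    (hq : ∀ j : ℕ, 1 ≤ j → q ^ j ≠ 1) (M : ℕ)
    (hs : s * q ^ (2 * M + 1) = (q ^ (2 * M + 1)) ^ 2 + 1) :
    (U8 q M).eval s = (-1) ^ M * q ^ (M ^ 2) * br q (2 * M + 1) * (pQ q M * pB q s M) := by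
  let K := FractionRing R
  let φ : R →+* K := algebraMap R K
  have hφ : Function.Injective φ := IsFractionRing.injective R K
  apply hφ
  have hq0' : φ q ≠ 0 := fun h => hq0 (hφ (by rw [h, map_zero]))
  have hq' : ∀ j : ℕ, 1 ≤ j → (φ q) ^ j ≠ 1 := fun j hj h =>
    hq j hj (hφ (by rw [map_pow, h, map_one]))
  have hs' : φ s = (φ q) ^ (2 * M + 1) + ((φ q) ^ (2 * M + 1))⁻¹ := by
    have h1 := congrArg φ hs
    simp only [map_mul, map_pow, map_add, map_one] at h1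
    have hn : (φ q) ^ (2 * M + 1) ≠ 0 := pow_ne_zero _ hq0'
    exact p4_aux_s hn h1
  rw [p4_eval_map, U8_map]
  have hB := p4_pB_ne (φ q) hq0' hq' M
  rw [← hs'] at hB
  rw [U8_eval (φ q) (φ s) M (p4_pQ_ne _ hq' M) hB]
  have hT := T8_exact (φ q) hq0' hq' M
  rw [← hs'] at hT
  rw [hT]
  simp only [map_mul, map_pow, map_neg, map_one, p4_map_pQ, p4_map_pB, p4_map_br]

theorem U16_exact {R : Type*} [CommRing R] [IsDomain R] (q s : R) (hq0 : q ≠ 0)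
    (hq : ∀ j : ℕ, 1 ≤ j → q ^ j ≠ 1) (hq2 : ∀ j : ℕ, 1 ≤ j → 1 + q ^ j ≠ 0) (M : ℕ)
    (hs : s * q ^ (2 * M + 1) = (q ^ (2 * M + 1)) ^ 2 + 1) :
    (U16 q M).eval s =
      q ^ (M * (M + 1) / 2 - M) * br q (2 * M + 1) * (pQ q M * pE q M * pB q s M) := by
  let K := FractionRing R
  let φ : R →+* K := algebraMap R K
  have hφ : Function.Injective φ := IsFractionRing.injective R K
  apply hφ
  have hq0' : φ q ≠ 0 := fun h => hq0 (hφ (by rw [h, map_zero]))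
  have hq' : ∀ j : ℕ, 1 ≤ j → (φ q) ^ j ≠ 1 := fun j hj h =>
    hq j hj (hφ (by rw [map_pow, h, map_one]))
  have hq2' : ∀ j : ℕ, 1 ≤ j → 1 + (φ q) ^ j ≠ 0 := fun j hj h =>
    hq2 j hj (hφ (by rw [map_add, map_pow, map_one, h, map_zero]))
  have hs' : φ s = (φ q) ^ (2 * M + 1) + ((φ q) ^ (2 * M + 1))⁻¹ := by
    have h1 := congrArg φ hs
    simp only [map_mul, map_pow, map_add, map_one] at h1
    have hn : (φ q) ^ (2 * M + 1) ≠ 0 := pow_ne_zero _ hq0'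
    exact p4_aux_s hn h1
  rw [p4_eval_map, U16_map]
  have hB := p4_pB_ne (φ q) hq0' hq' M
  rw [← hs'] at hB
  rw [U16_eval (φ q) (φ s) M (p4_pQ_ne _ hq' M) (p4_pE_ne _ hq2' M) hB hq0']
  have hT := T16_exact (φ q) hq0' hq' M
  rw [← hs'] at hT
  rw [hT]
  simp only [map_mul, map_pow, p4_map_pQ, p4_map_pE, p4_map_pB, p4_map_br]
  have hle : M ≤ M * (M + 1) / 2 := by
    rcases Nat.eq_zero_or_pos M with h | h
    · subst h; simp
    · rw [Nat.le_div_iff_mul_le (by norm_num)]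
      exact Nat.mul_le_mul_left M (by omega)
  have h4 : (φ q) ^ (M * (M + 1) / 2) = (φ q) ^ M * (φ q) ^ (M * (M + 1) / 2 - M) := by
    rw [← pow_add]
    congr 1
    omega
  rw [h4]
  have hM0 : (φ q) ^ M ≠ 0 := pow_ne_zero _ hq0'
  exact p4_aux_d hM0

theorem T8_two {ζ : ℂ} {M : ℕ} (hM : 1 ≤ M) (hζ : IsPrimitiveRoot ζ (2 * M + 1)) :
    T8 ζ 2 (M + 1) = 0 := by
  obtain ⟨s, hs, hs2⟩ := p4_exists_s hζ
  have hζ0 := p4_zeta_ne hζ
  have hex := U8_exact (qz ζ) s p4_qz_ne_zero (fun j hj h => by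
    refine p4_qz_pow_ne hζ0 1 hj ?_
    rw [h, map_one]) M hs
  have h1 := congrArg PowerSeries.constantCoeff hex
  rw [p4_eval_map, U8_map, hs2, p4_constantCoeff_qz] at h1
  simp only [map_mul, p4_map_br, p4_constantCoeff_qz, p4_br_zeta hM hζ, mul_zero, zero_mul] at h1
  have hQ := p4_zeta_pQ_ne hζ
  have hB : pB ζ 2 M ≠ 0 := by
    rw [p4_zeta_pB_two]
    exact pow_ne_zero _ hQ
  rw [U8_eval ζ 2 M hQ hB] at h1
  rcases mul_eq_zero.1 h1 with h2 | h2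
  · exact h2
  · exact absurd h2 (mul_ne_zero hQ hB)

theorem T16_two {ζ : ℂ} {M : ℕ} (hM : 1 ≤ M) (hζ : IsPrimitiveRoot ζ (2 * M + 1)) :
    T16 ζ 2 (M + 1) = 0 := by
  obtain ⟨s, hs, hs2⟩ := p4_exists_s hζ
  have hζ0 := p4_zeta_ne hζ
  have hex := U16_exact (qz ζ) s p4_qz_ne_zero (fun j hj h => by
    refine p4_qz_pow_ne hζ0 1 hj ?_
    rw [h, map_one]) (fun j hj h => by
    refine p4_qz_pow_ne hζ0 (-1) hj ?_
    rw [map_neg, map_one]
    linear_combination h) M hs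
  have h1 := congrArg PowerSeries.constantCoeff hex
  rw [p4_eval_map, U16_map, hs2, p4_constantCoeff_qz] at h1
  simp only [map_mul, p4_map_br, p4_constantCoeff_qz, p4_br_zeta hM hζ, mul_zero, zero_mul] at h1
  have hQ := p4_zeta_pQ_ne hζ
  have hE := p4_zeta_pE_ne hζ
  have hB : pB ζ 2 M ≠ 0 := by
    rw [p4_zeta_pB_two]
    exact pow_ne_zero _ hQ
  rw [U16_eval ζ 2 M hQ hE hB hζ0] at h1
  rcases mul_eq_zero.1 h1 with h2 | h2
  · exact h2
  · exact absurd h2 (mul_ne_zero (mul_ne_zero (mul_ne_zero hQ hE) hB) (pow_ne_zero _ hζ0))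

end SC322
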