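import Pool.Agent.SC322.Defs2
import Pool.Agent.SC322.P3a
import Pool.Agent.SC322.P4

/-!
# Vanishing of `U8` and `U16` at roots of unity
-/

namespace SC322

open Finset Polynomial

namespace P3b

theorem norm_zeta {ζ : ℂ} {M : ℕ} (hζ : IsPrimitiveRoot ζ (2 * M + 1)) : ‖ζ‖ = 1 :=
  hζ.norm'_eq_one (by omega)

theorem zeta_ne_zero {ζ : ℂ} {M : ℕ} (hζ : IsPrimitiveRoot ζ (2 * M + 1)) : ζ ≠ 0 :=
  hζ.ne_zero (by omega)

theorem ne_one_of_norm {x : ℂ} (h : ‖x‖ ≠ 1) : 1 - x ≠ 0 := by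
  intro h0
  apply h
  rw [← sub_eq_zero.1 h0, norm_one]

theorem pQ_ne {ζ : ℂ} {M : ℕ} (hζ : IsPrimitiveRoot ζ (2 * M + 1)) : pQ ζ M ≠ 0 := by
  rw [pQ, prod_ne_zero_iff]
  intro j hj h0
  rw [mem_range] at hj
  exact hζ.pow_ne_one_of_pos_of_lt (by omega) (by omega) (sub_eq_zero.1 h0).symm

theorem pE_ne {ζ : ℂ} {M : ℕ} (hζ : IsPrimitiveRoot ζ (2 * M + 1)) : pE ζ M ≠ 0 := by
  rw [pE, prod_ne_zero_iff]
  intro j hj h0
  have h1 : ζ ^ (j + 1) = -1 := by linear_combination h0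
  have h2 : (ζ ^ (j + 1)) ^ (2 * M + 1) = 1 := by
    rw [← pow_mul, mul_comm, pow_mul, hζ.pow_eq_one, one_pow]
  rw [h1, pow_succ, pow_mul] at h2
  norm_num at h2

theorem factor (a x : ℂ) (ha : a ≠ 0) : 1 - (a + a⁻¹) * x + x ^ 2 = (1 - a * x) * (1 - x / a) := by
  field_simp
  ring

theorem pB_ne {ζ a : ℂ} {M : ℕ} (hζ : IsPrimitiveRoot ζ (2 * M + 1)) (ha : ‖a‖ = 2) :
    pB ζ (a + a⁻¹) M ≠ 0 := by
  have ha0 : a ≠ 0 := by
    rintro rfl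
    norm_num at ha
  rw [pB, prod_ne_zero_iff]
  intro j _
  have h1 : ζ ^ (2 * j + 2) = (ζ ^ (j + 1)) ^ 2 := by ring
  rw [h1, factor a _ ha0]
  have hn : ‖ζ ^ (j + 1)‖ = 1 := by rw [norm_pow, norm_zeta hζ, one_pow]
  refine mul_ne_zero (ne_one_of_norm ?_) (ne_one_of_norm ?_)
  · rw [norm_mul, ha, hn]; norm_num
  · rw [norm_div, ha, hn]; norm_num

theorem pB_two_ne {ζ : ℂ} {M : ℕ} (hζ : IsPrimitiveRoot ζ (2 * M + 1)) : pB ζ 2 M ≠ 0 := by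
  rw [pB, prod_ne_zero_iff]
  intro j hj
  rw [mem_range] at hj
  have h1 : 1 - 2 * ζ ^ (j + 1) + ζ ^ (2 * j + 2) = (1 - ζ ^ (j + 1)) ^ 2 := by ring
  rw [h1]
  refine pow_ne_zero _ fun h0 => ?_
  exact hζ.pow_ne_one_of_pos_of_lt (by omega) (by omega) (sub_eq_zero.1 h0).symm

theorem pB_shift_aux (q a : ℂ) (hq : q ≠ 0) (ha : a ≠ 0) (l : ℕ) :
    pB q (a * q ^ 2 + (a * q ^ 2)⁻¹) l *
        ((1 - a * q) * (1 - a * q ^ 2) * (1 - q ^ l / (a * q)) * (1 - q ^ l / a)) =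
      pB q (a + a⁻¹) l *
        ((1 - a * q * q ^ l) * (1 - a * q ^ 2 * q ^ l) * (1 - 1 / (a * q)) * (1 - 1 / a)) := by
  induction l with
  | zero => simp [pB]
  | succ l ih =>
    rw [pB, pB, prod_range_succ, prod_range_succ]
    have h1 : 1 - (a * q ^ 2 + (a * q ^ 2)⁻¹) * q ^ (l + 1) + q ^ (2 * l + 2) =
        (1 - a * q ^ 2 * (q ^ l * q)) * (1 - q ^ l / (a * q)) := by
      field_simp
      ring
    have h2 : 1 - (a + a⁻¹) * q ^ (l + 1) + q ^ (2 * l + 2) =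
        (1 - a * q * q ^ l) * (1 - q ^ l * q / a) := by
      field_simp
      ring
    have h3 : q ^ (l + 1) / (a * q) = q ^ l / a := by
      rw [pow_succ]; field_simp
    have h4 : q ^ (l + 1) = q ^ l * q := pow_succ q l
    rw [h1, h2, h3, h4]
    simp only [pB] at ih
    generalize (∏ j ∈ range l, (1 - (a * q ^ 2 + (a * q ^ 2)⁻¹) * q ^ (j + 1) + q ^ (2 * j + 2))) =
      P₁ at ih ⊢
    generalize (∏ j ∈ range l, (1 - (a + a⁻¹) * q ^ (j + 1) + q ^ (2 * j + 2))) = P₂ at ih ⊢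
    linear_combination ((1 - a * q ^ 2 * (q ^ l * q)) * (1 - q ^ l * q / a)) * ih

theorem pB_shift {ζ a : ℂ} {M : ℕ} (hζ : IsPrimitiveRoot ζ (2 * M + 1)) (ha : ‖a‖ = 2) :
    (1 - a * ζ ^ 2) * pB ζ (a * ζ ^ 2 + (a * ζ ^ 2)⁻¹) M =
      ζ * (1 - a) * pB ζ (a + a⁻¹) M := by
  have ha0 : a ≠ 0 := by
    rintro rfl
    norm_num at ha
  have hz0 := zeta_ne_zero hζ
  have hn := norm_zeta hζ
  have h := pB_shift_aux ζ a hz0 ha0 M
  set u := ζ ^ M with hu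
  have huz : u ^ 2 * ζ = 1 := by
    rw [hu, ← pow_mul, ← pow_succ, mul_comm M 2]
    exact hζ.pow_eq_one
  have hun : ‖u‖ = 1 := by rw [hu, norm_pow, hn, one_pow]
  have hu0 : u ≠ 0 := by
    intro h0
    rw [h0] at hun
    norm_num at hun
  have e1 : 1 - u / a ≠ 0 := ne_one_of_norm (by rw [norm_div, hun, ha]; norm_num)
  have e2 : 1 - u / (a * ζ) ≠ 0 :=
    ne_one_of_norm (by rw [norm_div, norm_mul, hun, ha, hn]; norm_num)
  have e3 : 1 - a * ζ ≠ 0 := ne_one_of_norm (by rw [norm_mul, ha, hn]; norm_num)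
  have g1 : 1 - a * ζ * u = -(a * ζ * u) * (1 - u / a) := by
    have : a * ζ * u * (u / a) = u ^ 2 * ζ := by field_simp
    linear_combination (-1 : ℂ) * huz - this
  have g2 : 1 - a * ζ ^ 2 * u = -(a * ζ ^ 2 * u) * (1 - u / (a * ζ)) := by
    have : a * ζ ^ 2 * u * (u / (a * ζ)) = u ^ 2 * ζ := by field_simp
    linear_combination (-1 : ℂ) * huz - this
  rw [g1, g2] at h
  have h2 : pB ζ (a * ζ ^ 2 + (a * ζ ^ 2)⁻¹) M * ((1 - a * ζ) * (1 - a * ζ ^ 2)) =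
      pB ζ (a + a⁻¹) M * ((a * ζ * u) * (a * ζ ^ 2 * u) * (1 - 1 / (a * ζ)) * (1 - 1 / a)) := by
    apply mul_right_cancel₀ (mul_ne_zero e1 e2)
    linear_combination h
  have h3 : (a * ζ * u) * (a * ζ ^ 2 * u) * (1 - 1 / (a * ζ)) * (1 - 1 / a) =
      ζ * (1 - a) * (1 - a * ζ) := by
    have : (a * ζ * u) * (a * ζ ^ 2 * u) * (1 - 1 / (a * ζ)) * (1 - 1 / a) =
        (u ^ 2 * ζ) * (ζ * (1 - a) * (1 - a * ζ)) := by
      field_simp
      ring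
    rw [this, huz, one_mul]
  rw [h3] at h2
  apply mul_right_cancel₀ e3
  linear_combination h2

theorem inj_points {ζ : ℂ} {M : ℕ} (hζ : IsPrimitiveRoot ζ (2 * M + 1)) :
    Function.Injective fun j : Fin (2 * M + 1) =>
      2 * ζ ^ (2 * (j : ℕ)) + (2 * ζ ^ (2 * (j : ℕ)))⁻¹ := by
  intro i j hij
  simp only at hij
  set x := 2 * ζ ^ (2 * (i : ℕ)) with hx
  set y := 2 * ζ ^ (2 * (j : ℕ)) with hy
  have hn := norm_zeta hζ
  have hxn : ‖x‖ = 2 := by rw [hx, norm_mul, norm_pow, hn]; norm_num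
  have hyn : ‖y‖ = 2 := by rw [hy, norm_mul, norm_pow, hn]; norm_num
  have hx0 : x ≠ 0 := by intro h0; rw [h0] at hxn; norm_num at hxn
  have hy0 : y ≠ 0 := by intro h0; rw [h0] at hyn; norm_num at hyn
  have h1 : (x - y) * (1 - x * y) = 0 := by
    field_simp at hij
    linear_combination -hij
  rcases mul_eq_zero.1 h1 with h2 | h2
  · have h3 : ζ ^ (2 * (i : ℕ)) = ζ ^ (2 * (j : ℕ)) := by
      have : x = y := sub_eq_zero.1 h2
      rw [hx, hy] at this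
      exact mul_left_cancel₀ two_ne_zero this
    have h4 : ∀ k : ℕ, ζ ^ k = (ζ ^ (2 * k)) ^ (M + 1) := by
      intro k
      have h5 : 2 * k * (M + 1) = (2 * M + 1) * k + k := by ring
      rw [← pow_mul, h5, pow_add, pow_mul, hζ.pow_eq_one, one_pow, one_mul]
    have h6 : (i : ℕ) = j := hζ.pow_inj i.2 j.2 (by rw [h4 i, h4 j, h3])
    exact Fin.ext h6
  · exfalso
    have h3 : x * y = 1 := (sub_eq_zero.1 h2).symm
    have h4 : ‖x * y‖ = 1 := by rw [h3, norm_one]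
    rw [norm_mul, hxn, hyn] at h4
    norm_num at h4

/-- a polynomial of degree `≤ M` vanishing on the orbit is zero -/
theorem eq_zero_of_orbit {ζ : ℂ} {M : ℕ} (hM : 1 ≤ M) (hζ : IsPrimitiveRoot ζ (2 * M + 1))
    (P : ℂ[X]) (hP : P.natDegree ≤ M)
    (h : ∀ j : ℕ, P.eval (2 * ζ ^ (2 * j) + (2 * ζ ^ (2 * j))⁻¹) = 0) : P = 0 := by
  apply eq_zero_of_natDegree_lt_card_of_eval_eq_zero P (inj_points hζ) fun j => h j
  rw [Fintype.card_fin]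
  omega

theorem pow_ne_one {a : ℂ} {n : ℕ} (ha : ‖a‖ = 2) (hn : n ≠ 0) : a ^ n ≠ 1 := by
  intro h
  have h1 : ‖a ^ n‖ = 1 := by rw [h, norm_one]
  rw [norm_pow, ha] at h1
  have : (1 : ℝ) < 2 ^ n := one_lt_pow₀ (by norm_num) hn
  linarith

end P3b

open P3b

theorem U8_zeta {ζ : ℂ} {M : ℕ} (hM : 1 ≤ M) (hζ : IsPrimitiveRoot ζ (2 * M + 1)) :
    U8 ζ M = 0 := by
  have hn := norm_zeta hζ
  have hz0 := zeta_ne_zero hζ
  have hz1 : ζ ^ (2 * M + 1) = 1 := hζ.pow_eq_one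
  -- `B a = T8 (a) / (1 - a)` satisfies `B (a ζ²) = - a B a`
  have step : ∀ a : ℂ, ‖a‖ = 2 →
      T8 ζ (a * ζ ^ 2 + (a * ζ ^ 2)⁻¹) (M + 1) / (1 - a * ζ ^ 2) =
        -a * (T8 ζ (a + a⁻¹) (M + 1) / (1 - a)) := by
    intro a ha
    have ha0 : a ≠ 0 := by
      rintro rfl
      norm_num at ha
    have h := T8_shift hM hζ ha0 (P3b.pow_ne_one ha (by omega))
    have e1 : 1 - a ≠ 0 := ne_one_of_norm (by rw [ha]; norm_num)
    have e2 : 1 - a * ζ ^ 2 ≠ 0 :=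
      ne_one_of_norm (by rw [norm_mul, norm_pow, ha, hn]; norm_num)
    rw [← h]
    field_simp
  have hT : ∀ a : ℂ, ‖a‖ = 2 → T8 ζ (a + a⁻¹) (M + 1) = 0 := by
    intro a ha
    have e1 : 1 - a ≠ 0 := ne_one_of_norm (by rw [ha]; norm_num)
    have key : ∀ k : ℕ, ‖T8 ζ (a * ζ ^ (2 * k) + (a * ζ ^ (2 * k))⁻¹) (M + 1) /
        (1 - a * ζ ^ (2 * k))‖ = 2 ^ k * ‖T8 ζ (a + a⁻¹) (M + 1) / (1 - a)‖ := by
      intro k
      induction k with
      | zero => simp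
      | succ k ih =>
        have hk : ‖a * ζ ^ (2 * k)‖ = 2 := by rw [norm_mul, norm_pow, ha, hn]; norm_num
        have h1 := step (a * ζ ^ (2 * k)) hk
        have h2 : a * ζ ^ (2 * k) * ζ ^ 2 = a * ζ ^ (2 * (k + 1)) := by ring
        rw [h2] at h1
        rw [h1, norm_mul, norm_neg, hk, ih]
        ring
    have h1 := key (2 * M + 1)
    have h2 : ζ ^ (2 * (2 * M + 1)) = 1 := by
      rw [mul_comm, pow_mul, hz1, one_pow]
    rw [h2, mul_one] at h1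
    have h3 : (1 : ℝ) < 2 ^ (2 * M + 1) := one_lt_pow₀ (by norm_num) (by omega)
    have h4 : ‖T8 ζ (a + a⁻¹) (M + 1) / (1 - a)‖ = 0 := by
      nlinarith [norm_nonneg (T8 ζ (a + a⁻¹) (M + 1) / (1 - a))]
    rw [norm_eq_zero, div_eq_zero_iff] at h4
    rcases h4 with h4 | h4
    · exact h4
    · exact absurd h4 e1
  apply eq_zero_of_orbit hM hζ _ (U8_natDegree ζ M)
  intro j
  have hj : ‖2 * ζ ^ (2 * j)‖ = 2 := by rw [norm_mul, norm_pow, hn]; norm_num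
  rw [U8_eval ζ _ M (pQ_ne hζ) (pB_ne hζ hj), hT _ hj, zero_mul]

/-- uses `T16 ζ 2 (M+1) = 0`, i.e. `T16_two` below -/
theorem U16_zeta {ζ : ℂ} {M : ℕ} (hM : 1 ≤ M) (hζ : IsPrimitiveRoot ζ (2 * M + 1)) :
    U16 ζ M = 0 := by
  have hn := norm_zeta hζ
  have hz0 := zeta_ne_zero hζ
  have step : ∀ a : ℂ, ‖a‖ = 2 →
      (U16 ζ M).eval (a * ζ ^ 2 + (a * ζ ^ 2)⁻¹) = (U16 ζ M).eval (a + a⁻¹) := by
    intro a ha
    have ha0 : a ≠ 0 := by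
      rintro rfl
      norm_num at ha
    have ha' : ‖a * ζ ^ 2‖ = 2 := by rw [norm_mul, norm_pow, ha, hn]; norm_num
    have h := T16_shift hM hζ ha0 (P3b.pow_ne_one ha (by omega))
    have e1 : 1 - a ≠ 0 := ne_one_of_norm (by rw [ha]; norm_num)
    have e2 : 1 - a * ζ ^ 2 ≠ 0 := ne_one_of_norm (by rw [ha']; norm_num)
    rw [U16_eval ζ _ M (pQ_ne hζ) (pE_ne hζ) (pB_ne hζ ha') hz0,
      U16_eval ζ _ M (pQ_ne hζ) (pE_ne hζ) (pB_ne hζ ha) hz0, ← h]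
    have h2 := P3b.pB_shift hζ ha
    have h3 : pB ζ (a * ζ ^ 2 + (a * ζ ^ 2)⁻¹) M =
        ζ * (1 - a) / (1 - a * ζ ^ 2) * pB ζ (a + a⁻¹) M := by
      rw [div_mul_eq_mul_div, eq_div_iff e2]
      linear_combination h2
    rw [h3]
    ring
  have hconst : ∀ j : ℕ, (U16 ζ M).eval (2 * ζ ^ (2 * j) + (2 * ζ ^ (2 * j))⁻¹) =
      (U16 ζ M).eval (2 + 2⁻¹) := by
    intro j
    induction j with
    | zero => simp
    | succ j ih =>
      have hj : ‖2 * ζ ^ (2 * j)‖ = 2 := by rw [norm_mul, norm_pow, hn]; norm_num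
      have h1 := step _ hj
      have h2 : 2 * ζ ^ (2 * j) * ζ ^ 2 = 2 * ζ ^ (2 * (j + 1)) := by ring
      rw [h2] at h1
      rw [h1, ih]
  set c := (U16 ζ M).eval (2 + 2⁻¹) with hc
  have h1 : U16 ζ M - C c = 0 := by
    apply eq_zero_of_orbit hM hζ
    · rw [natDegree_sub_C]
      exact U16_natDegree ζ M
    · intro j
      rw [eval_sub, eval_C, hconst, sub_self]
  have h2 : U16 ζ M = C c := sub_eq_zero.1 h1
  have h3 : (U16 ζ M).eval 2 = 0 := by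
    rw [U16_eval ζ 2 M (pQ_ne hζ) (pE_ne hζ) (pB_two_ne hζ) hz0, T16_two hM hζ, zero_mul]
  rw [h2, eval_C] at h3
  rw [h2, h3, C_0]

end SC322
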