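import Pool.Agent.SC322.P1
import Pool.Agent.SC322.P3b
import Pool.Agent.SC322.P4

/-!
# Creative microscoping: the truncated sums modulo `ε^3`
-/

namespace SC322

open Finset Polynomial


namespace P8

theorem unit_of {f : PowerSeries ℂ} (h : PowerSeries.constantCoeff f ≠ 0) : IsUnit f :=
  PowerSeries.isUnit_iff_constantCoeff.mpr (isUnit_iff_ne_zero.mpr h)

theorem cc_qz (ζ : ℂ) : PowerSeries.constantCoeff (qz ζ) = ζ := by
  simp [qz]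

theorem map_br {R S : Type*} [CommRing R] [CommRing S] (φ : R →+* S) (q : R) (m : ℕ) :
    φ (br q m) = br (φ q) m := by simp [br]

theorem map_pO {R S : Type*} [CommRing R] [CommRing S] (φ : R →+* S) (q : R) (m : ℕ) :
    φ (pO q m) = pO (φ q) m := by simp [pO]

theorem map_pQ {R S : Type*} [CommRing R] [CommRing S] (φ : R →+* S) (q : R) (m : ℕ) :
    φ (pQ q m) = pQ (φ q) m := by simp [pQ]

theorem map_pE {R S : Type*} [CommRing R] [CommRing S] (φ : R →+* S) (q : R) (m : ℕ) :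
    φ (pE q m) = pE (φ q) m := by simp [pE]

theorem pA_two {R : Type*} [CommRing R] (q : R) (k : ℕ) : pA q 2 k = pO q k ^ 2 := by
  rw [pA, pO, ← prod_pow]
  refine prod_congr rfl fun j _ => ?_
  ring

theorem pB_two {R : Type*} [CommRing R] (q : R) (k : ℕ) : pB q 2 k = pQ q k ^ 2 := by
  rw [pB, pQ, ← prod_pow]
  refine prod_congr rfl fun j _ => ?_
  ring

theorem pQ_mul_Ico {R : Type*} [CommRing R] (q : R) {k M : ℕ} (h : k ≤ M) :
    pQ q k * ∏ j ∈ Ico k M, (1 - q ^ (j + 1)) = pQ q M := by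
  rw [pQ, pQ, prod_range_mul_prod_Ico _ h]

theorem pE_mul_Ico {R : Type*} [CommRing R] (q : R) {k M : ℕ} (h : k ≤ M) :
    pE q k * ∏ j ∈ Ico k M, (1 + q ^ (j + 1)) = pE q M := by
  rw [pE, pE, prod_range_mul_prod_Ico _ h]

/-- the denominator polynomial in `s` -/
noncomputable def BB {R : Type*} [CommRing R] (q : R) (M : ℕ) : R[X] :=
  ∏ j ∈ range M, (1 - X * C (q ^ (j + 1)) + C (q ^ (2 * j + 2)))

theorem BB_eval {R : Type*} [CommRing R] (q s : R) (M : ℕ) : (BB q M).eval s = pB q s M := by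
  simp [BB, pB, eval_prod]

theorem U8_eval_two {R : Type*} [CommRing R] (q : R) (M : ℕ) :
    (U8 q M).eval 2 = ∑ k ∈ range (M + 1), (-1) ^ k * br q (3 * k + 1) * pO q k ^ 3 *
      (∏ j ∈ Ico k M, (1 - q ^ (j + 1))) ^ 3 := by
  rw [U8, eval_finsetSum]
  refine sum_congr rfl fun k _ => ?_
  have h1 : ∏ j ∈ range k, (1 - 2 * q ^ (2 * j + 1) + q ^ (4 * j + 2)) = pO q k ^ 2 := pA_two q k
  have h2 : ∏ j ∈ Ico k M, (1 - 2 * q ^ (j + 1) + q ^ (2 * j + 2)) =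
      (∏ j ∈ Ico k M, (1 - q ^ (j + 1))) ^ 2 := by
    rw [← prod_pow]
    refine prod_congr rfl fun j _ => ?_
    ring
  simp only [eval_mul, eval_C, eval_prod, eval_add, eval_sub, eval_one, eval_X, h1, h2]
  ring

theorem U16_eval_two {R : Type*} [CommRing R] (q : R) (M : ℕ) :
    (U16 q M).eval 2 = ∑ k ∈ range (M + 1), br q (3 * k + 1) * pO q k ^ 3 *
      (∏ j ∈ Ico k M, (1 - q ^ (j + 1))) ^ 3 * (∏ j ∈ Ico k M, (1 + q ^ (j + 1))) *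
        q ^ (M * (M + 1) / 2 - k * (k + 1) / 2) := by
  rw [U16, eval_finsetSum]
  refine sum_congr rfl fun k _ => ?_
  have h1 : ∏ j ∈ range k, (1 - 2 * q ^ (2 * j + 1) + q ^ (4 * j + 2)) = pO q k ^ 2 := pA_two q k
  have h2 : ∏ j ∈ Ico k M, (1 - 2 * q ^ (j + 1) + q ^ (2 * j + 2)) =
      (∏ j ∈ Ico k M, (1 - q ^ (j + 1))) ^ 2 := by
    rw [← prod_pow]
    refine prod_congr rfl fun j _ => ?_
    ring
  simp only [eval_mul, eval_C, eval_prod, eval_add, eval_sub, eval_one, eval_X, h1, h2]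
  ring

section zeta
variable {ζ : ℂ} {M : ℕ}

theorem ne_one_of (hM : 1 ≤ M) (hζ : IsPrimitiveRoot ζ (2 * M + 1)) : ζ ≠ 1 :=
  hζ.ne_one (by omega)

theorem zeta_ne_zero (hζ : IsPrimitiveRoot ζ (2 * M + 1)) : ζ ≠ 0 := hζ.ne_zero (by omega)

theorem br_zeta (hM : 1 ≤ M) (hζ : IsPrimitiveRoot ζ (2 * M + 1)) : br ζ (2 * M + 1) = 0 :=
  hζ.geom_sum_eq_zero (by omega)

theorem one_add_ne (hζ : IsPrimitiveRoot ζ (2 * M + 1)) (i : ℕ) : 1 + ζ ^ i ≠ 0 := by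
  intro h
  have h1 : ζ ^ i = -1 := by linear_combination h
  have h2 : (ζ ^ i) ^ (2 * M + 1) = 1 := by
    rw [← pow_mul, mul_comm, pow_mul, hζ.pow_eq_one, one_pow]
  rw [h1, pow_succ, pow_mul] at h2
  norm_num at h2

theorem one_sub_ne (hζ : IsPrimitiveRoot ζ (2 * M + 1)) {i : ℕ} (h1 : 1 ≤ i) (h2 : i < 2 * M + 1) :
    1 - ζ ^ i ≠ 0 := by
  intro h
  exact hζ.pow_ne_one_of_pos_of_lt (by omega) h2 (by linear_combination -h)

theorem pQ_zeta_ne (hζ : IsPrimitiveRoot ζ (2 * M + 1)) {k : ℕ} (hk : k ≤ M) : pQ ζ k ≠ 0 := by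
  rw [pQ, prod_ne_zero_iff]
  intro j hj
  rw [mem_range] at hj
  exact one_sub_ne hζ (by omega) (by omega)

theorem pE_zeta_ne (hζ : IsPrimitiveRoot ζ (2 * M + 1)) (k : ℕ) : pE ζ k ≠ 0 := by
  rw [pE, prod_ne_zero_iff]
  intro j hj
  exact one_add_ne hζ _

theorem qz_pow_ne_one {ζ : ℂ} (hζ0 : ζ ≠ 0) (j : ℕ) (hj : 1 ≤ j) : qz ζ ^ j ≠ 1 := by
  intro h
  have h1 : PowerSeries.derivative ℂ (qz ζ ^ j) = PowerSeries.derivative ℂ 1 := by rw [h]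
  have h2 : PowerSeries.derivative ℂ (qz ζ) = 1 := by
    rw [qz, map_add]
    simp
  rw [Derivation.leibniz_pow, h2, Derivation.map_one_eq_zero] at h1
  have h3 := congrArg PowerSeries.constantCoeff h1
  simp only [smul_eq_mul, mul_one, map_zero, nsmul_eq_mul, map_mul, map_pow, cc_qz,
    map_natCast] at h3
  have : (j : ℂ) ≠ 0 := by exact_mod_cast (by omega : j ≠ 0)
  exact (mul_ne_zero this (pow_ne_zero _ hζ0)) h3

theorem one_add_qz_pow_ne {ζ : ℂ} (hζ0 : ζ ≠ 0) (j : ℕ) (hj : 1 ≤ j) : 1 + qz ζ ^ j ≠ 0 := by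
  intro h
  refine qz_pow_ne_one hζ0 (j * 2) (by omega) ?_
  rw [pow_mul, show qz ζ ^ j = -1 by linear_combination h]
  norm_num

/-- If `V` vanishes at `s_n` and reduces to zero, then `ε^3` divides `V(2)`. -/
theorem dvd_eval_two (hζ : IsPrimitiveRoot ζ (2 * M + 1)) (V : (PowerSeries ℂ)[X])
    (s : PowerSeries ℂ) (hs : s * qz ζ ^ (2 * M + 1) = (qz ζ ^ (2 * M + 1)) ^ 2 + 1)
    (hV : V.eval s = 0) (hV0 : V.map (PowerSeries.constantCoeff (R := ℂ)) = 0) :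
    PowerSeries.X ^ 3 ∣ V.eval 2 := by
  obtain ⟨V₁, rfl⟩ := dvd_iff_isRoot.mpr hV
  have hu : IsUnit (qz ζ ^ (2 * M + 1)) := by
    apply unit_of
    rw [map_pow, cc_qz, hζ.pow_eq_one]
    exact one_ne_zero
  rw [Polynomial.map_mul] at hV0
  have h1 : V₁.map (PowerSeries.constantCoeff (R := ℂ)) = 0 := by
    rcases mul_eq_zero.mp hV0 with h | h
    · exfalso
      rw [Polynomial.map_sub, map_X, map_C] at h
      exact X_sub_C_ne_zero _ h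
    · exact h
  have h2 : PowerSeries.X ∣ V₁.eval 2 := by
    rw [PowerSeries.X_dvd_iff]
    have h3 : PowerSeries.constantCoeff (R := ℂ) (V₁.eval 2) =
        (V₁.map (PowerSeries.constantCoeff (R := ℂ))).eval
          (PowerSeries.constantCoeff (R := ℂ) 2) := by
      rw [eval_map, eval₂_at_apply]
    rw [h3, h1, eval_zero]
  have h4 : PowerSeries.X ∣ 1 - qz ζ ^ (2 * M + 1) := by
    rw [PowerSeries.X_dvd_iff, map_sub, map_one, map_pow, cc_qz, hζ.pow_eq_one, sub_self]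
  have h5 : PowerSeries.X ^ 2 ∣ (2 : PowerSeries ℂ) - s := by
    have h6 : (2 - s) * qz ζ ^ (2 * M + 1) = -(1 - qz ζ ^ (2 * M + 1)) ^ 2 := by
      linear_combination -hs
    have h7 : PowerSeries.X ^ 2 ∣ (2 - s) * qz ζ ^ (2 * M + 1) := by
      rw [h6]
      exact (pow_dvd_pow_of_dvd h4 2).neg_right
    exact (hu.dvd_mul_right).mp h7
  rw [eval_mul, eval_sub, eval_X, eval_C, pow_succ]
  exact mul_dvd_mul h5 h2

theorem exists_s (hζ : IsPrimitiveRoot ζ (2 * M + 1)) : ∃ s : PowerSeries ℂ,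
    s * qz ζ ^ (2 * M + 1) = (qz ζ ^ (2 * M + 1)) ^ 2 + 1 := by
  have hu : IsUnit (qz ζ ^ (2 * M + 1)) := by
    apply unit_of
    rw [map_pow, cc_qz, hζ.pow_eq_one]
    exact one_ne_zero
  obtain ⟨t, ht⟩ := hu.exists_left_inv
  exact ⟨((qz ζ ^ (2 * M + 1)) ^ 2 + 1) * t, by rw [mul_assoc, ht, mul_one]⟩

theorem BB_map (φ : PowerSeries ℂ →+* ℂ) (q : PowerSeries ℂ) : (BB q M).map φ = BB (φ q) M := by
  simp [BB, Polynomial.map_prod]

end zeta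

end P8

open P8

theorem T8_local {ζ : ℂ} {M : ℕ} (hM : 1 ≤ M) (hζ : IsPrimitiveRoot ζ (2 * M + 1)) :
    PowerSeries.X ^ 3 ∣ (∑ k ∈ range (M + 1), t8 (qz ζ) k) -
      (-1) ^ M * qz ζ ^ (M ^ 2) * br (qz ζ) (2 * M + 1) := by
  have hζ0 := zeta_ne_zero hζ
  obtain ⟨s, hs⟩ := exists_s hζ
  have hq0 : qz ζ ≠ 0 := fun h => hζ0 (by rw [← cc_qz ζ, h, map_zero])
  have hex := U8_exact (qz ζ) s hq0 (qz_pow_ne_one hζ0) M hs
  have key := dvd_eval_two hζ (U8 (qz ζ) M -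
    C ((-1) ^ M * qz ζ ^ (M ^ 2) * br (qz ζ) (2 * M + 1) * pQ (qz ζ) M) * BB (qz ζ) M) s hs
    (by rw [eval_sub, hex, eval_mul, eval_C, BB_eval]; ring)
    (by
      rw [Polynomial.map_sub, U8_map, Polynomial.map_mul, map_C, cc_qz, U8_zeta hM hζ]
      simp only [map_mul, map_pow, map_neg, map_one, map_br, cc_qz, br_zeta hM hζ]
      simp)
  rw [eval_sub, eval_mul, eval_C, BB_eval, pB_two, U8_eval_two] at key
  have hcQ : ∀ k ≤ M, IsUnit (pQ (qz ζ) k) := fun k hk => by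
    apply unit_of
    rw [map_pQ, cc_qz]
    exact pQ_zeta_ne hζ hk
  have hterm : ∀ k ∈ range (M + 1), (-1) ^ k * br (qz ζ) (3 * k + 1) * pO (qz ζ) k ^ 3 *
      (∏ j ∈ Ico k M, (1 - qz ζ ^ (j + 1))) ^ 3 = pQ (qz ζ) M ^ 3 * t8 (qz ζ) k := by
    intro k hk
    rw [mem_range] at hk
    have h1 := pQ_mul_Ico (qz ζ) (by omega : k ≤ M)
    have h2 := cq_mul_pQ (qz ζ) k
    have h3 : pE (qz ζ) k ^ 3 * (pE (qz ζ) k ^ 3)⁻¹ = 1 := by
      apply PowerSeries.mul_inv_cancel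
      rw [map_pow, map_pE, cc_qz]
      exact pow_ne_zero _ (pE_zeta_ne hζ k)
    rw [← h1, t8]
    have h4 : cq (qz ζ) k ^ 3 * pQ (qz ζ) k ^ 3 = pO (qz ζ) k ^ 3 * pE (qz ζ) k ^ 3 := by
      rw [← mul_pow, h2, mul_pow]
    linear_combination (-(-1) ^ k * br (qz ζ) (3 * k + 1) *
      (∏ j ∈ Ico k M, (1 - qz ζ ^ (j + 1))) ^ 3 * (pE (qz ζ) k ^ 3)⁻¹) * h4 -
      ((-1) ^ k * br (qz ζ) (3 * k + 1) *
      (∏ j ∈ Ico k M, (1 - qz ζ ^ (j + 1))) ^ 3 * pO (qz ζ) k ^ 3) * h3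
  rw [sum_congr rfl hterm, ← mul_sum] at key
  have h5 : pQ (qz ζ) M ^ 3 * ∑ k ∈ range (M + 1), t8 (qz ζ) k -
      (-1) ^ M * qz ζ ^ (M ^ 2) * br (qz ζ) (2 * M + 1) * pQ (qz ζ) M * pQ (qz ζ) M ^ 2 =
      pQ (qz ζ) M ^ 3 * ((∑ k ∈ range (M + 1), t8 (qz ζ) k) -
      (-1) ^ M * qz ζ ^ (M ^ 2) * br (qz ζ) (2 * M + 1)) := by ring
  rw [h5] at key
  exact (((hcQ M le_rfl).pow 3).dvd_mul_left).mp key

theorem T16_local {ζ : ℂ} {M : ℕ} (hM : 1 ≤ M) (hζ : IsPrimitiveRoot ζ (2 * M + 1)) :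
    PowerSeries.X ^ 3 ∣ (∑ k ∈ range (M + 1), t16 (qz ζ) k) -
      (qz ζ ^ M)⁻¹ * br (qz ζ) (2 * M + 1) := by
  have hζ0 := zeta_ne_zero hζ
  obtain ⟨s, hs⟩ := exists_s hζ
  have hq0 : qz ζ ≠ 0 := fun h => hζ0 (by rw [← cc_qz ζ, h, map_zero])
  have hex := U16_exact (qz ζ) s hq0 (qz_pow_ne_one hζ0) (one_add_qz_pow_ne hζ0) M hs
  have key := dvd_eval_two hζ (U16 (qz ζ) M -
    C (qz ζ ^ (M * (M + 1) / 2 - M) * br (qz ζ) (2 * M + 1) * (pQ (qz ζ) M * pE (qz ζ) M)) *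
      BB (qz ζ) M) s hs
    (by rw [eval_sub, hex, eval_mul, eval_C, BB_eval]; ring)
    (by
      rw [Polynomial.map_sub, U16_map, Polynomial.map_mul, map_C, cc_qz, U16_zeta hM hζ]
      simp only [map_mul, map_pow, map_br, cc_qz, br_zeta hM hζ]
      simp)
  rw [eval_sub, eval_mul, eval_C, BB_eval, pB_two, U16_eval_two] at key
  have hcQ : ∀ k ≤ M, IsUnit (pQ (qz ζ) k) := fun k hk => by
    apply unit_of
    rw [map_pQ, cc_qz]
    exact pQ_zeta_ne hζ hk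
  have hcE : IsUnit (pE (qz ζ) M) := by
    apply unit_of
    rw [map_pE, cc_qz]
    exact pE_zeta_ne hζ M
  have hcq : ∀ j, IsUnit (qz ζ ^ j) := fun j => by
    apply unit_of
    rw [map_pow, cc_qz]
    exact pow_ne_zero _ hζ0
  have hterm : ∀ k ∈ range (M + 1), br (qz ζ) (3 * k + 1) * pO (qz ζ) k ^ 3 *
      (∏ j ∈ Ico k M, (1 - qz ζ ^ (j + 1))) ^ 3 * (∏ j ∈ Ico k M, (1 + qz ζ ^ (j + 1))) *
        qz ζ ^ (M * (M + 1) / 2 - k * (k + 1) / 2) =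
      (pQ (qz ζ) M ^ 3 * pE (qz ζ) M * qz ζ ^ (M * (M + 1) / 2)) * t16 (qz ζ) k := by
    intro k hk
    rw [mem_range] at hk
    have h1 := pQ_mul_Ico (qz ζ) (by omega : k ≤ M)
    have h1' := pE_mul_Ico (qz ζ) (by omega : k ≤ M)
    have h2 := cq_mul_pQ (qz ζ) k
    have hle : k * (k + 1) / 2 ≤ M * (M + 1) / 2 :=
      Nat.div_le_div_right (Nat.mul_le_mul (by omega) (by omega))
    have h6 : qz ζ ^ (M * (M + 1) / 2) = qz ζ ^ (M * (M + 1) / 2 - k * (k + 1) / 2) *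
        qz ζ ^ (k * (k + 1) / 2) := by
      rw [← pow_add, Nat.sub_add_cancel hle]
    have h3 : (pE (qz ζ) k ^ 4 * qz ζ ^ (k * (k + 1) / 2)) *
        (pE (qz ζ) k ^ 4 * qz ζ ^ (k * (k + 1) / 2))⁻¹ = 1 := by
      apply PowerSeries.mul_inv_cancel
      rw [map_mul, map_pow, map_pow, map_pE, cc_qz]
      exact mul_ne_zero (pow_ne_zero _ (pE_zeta_ne hζ k)) (pow_ne_zero _ hζ0)
    rw [← h1, ← h1', t16, h6]
    have h4 : cq (qz ζ) k ^ 3 * pQ (qz ζ) k ^ 3 = pO (qz ζ) k ^ 3 * pE (qz ζ) k ^ 3 := by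
      rw [← mul_pow, h2, mul_pow]
    set P := ∏ j ∈ Ico k M, (1 - qz ζ ^ (j + 1))
    set E := ∏ j ∈ Ico k M, (1 + qz ζ ^ (j + 1))
    set I := (pE (qz ζ) k ^ 4 * qz ζ ^ (k * (k + 1) / 2))⁻¹
    linear_combination (-(br (qz ζ) (3 * k + 1) * P ^ 3 * E *
      qz ζ ^ (M * (M + 1) / 2 - k * (k + 1) / 2) * pE (qz ζ) k * qz ζ ^ (k * (k + 1) / 2) * I)) * h4 -
      (br (qz ζ) (3 * k + 1) * P ^ 3 * E * pO (qz ζ) k ^ 3 *
        qz ζ ^ (M * (M + 1) / 2 - k * (k + 1) / 2)) * h3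
  rw [sum_congr rfl hterm, ← mul_sum] at key
  have hle : M ≤ M * (M + 1) / 2 := by
    rw [Nat.le_div_iff_mul_le (by norm_num)]
    nlinarith
  have h7 : qz ζ ^ (M * (M + 1) / 2 - M) = qz ζ ^ (M * (M + 1) / 2) * (qz ζ ^ M)⁻¹ := by
    have h8 : qz ζ ^ M * (qz ζ ^ M)⁻¹ = 1 := by
      apply PowerSeries.mul_inv_cancel
      rw [map_pow, cc_qz]
      exact pow_ne_zero _ hζ0
    have h9 : qz ζ ^ (M * (M + 1) / 2) = qz ζ ^ (M * (M + 1) / 2 - M) * qz ζ ^ M := by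
      rw [← pow_add, Nat.sub_add_cancel hle]
    rw [h9, mul_assoc, h8, mul_one]
  have h5 : (pQ (qz ζ) M ^ 3 * pE (qz ζ) M * qz ζ ^ (M * (M + 1) / 2)) *
        ∑ k ∈ range (M + 1), t16 (qz ζ) k -
      qz ζ ^ (M * (M + 1) / 2 - M) * br (qz ζ) (2 * M + 1) * (pQ (qz ζ) M * pE (qz ζ) M) *
        pQ (qz ζ) M ^ 2 =
      (pQ (qz ζ) M ^ 3 * pE (qz ζ) M * qz ζ ^ (M * (M + 1) / 2)) *
      ((∑ k ∈ range (M + 1), t16 (qz ζ) k) - (qz ζ ^ M)⁻¹ * br (qz ζ) (2 * M + 1)) := by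
    rw [h7]; ring
  rw [h5] at key
  exact (((((hcQ M le_rfl).pow 3).mul hcE).mul (hcq _)).dvd_mul_left).mp key

end SC322
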