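import Pool.Agent.SC322.P1

/-!
P9: the upper half terms `t_{n-l}` and the values at `ζ`.
-/

namespace SC322

open Finset Polynomial

namespace P9

section gen
variable {R : Type*} [CommRing R]

lemma pQ_succ (q : R) (k : ℕ) : pQ q (k + 1) = pQ q k * (1 - q ^ (k + 1)) := by
  unfold pQ; rw [prod_range_succ]

lemma pE_succ (q : R) (k : ℕ) : pE q (k + 1) = pE q k * (1 + q ^ (k + 1)) := by
  unfold pE; rw [prod_range_succ]

lemma pO_succ (q : R) (k : ℕ) : pO q (k + 1) = pO q k * (1 - q ^ (2 * k + 1)) := by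
  unfold pO; rw [prod_range_succ]

lemma pQ_double (q : R) (k : ℕ) : pQ q (2 * k) = pO q k * pQ q k * pE q k := by
  induction k with
  | zero => simp [pQ, pO, pE]
  | succ k ih =>
    rw [show 2 * (k + 1) = 2 * k + 1 + 1 by ring, pQ_succ, pQ_succ, ih, pO_succ, pQ_succ, pE_succ]
    ring

lemma pA_two (q : R) (k : ℕ) : pA q 2 k = pO q k ^ 2 := by
  unfold pA pO
  rw [← prod_pow]
  exact prod_congr rfl fun j _ => by ring

lemma pB_two (q : R) (k : ℕ) : pB q 2 k = pQ q k ^ 2 := by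
  unfold pB pQ
  rw [← prod_pow]
  exact prod_congr rfl fun j _ => by ring

lemma br_mul (q : R) (m : ℕ) : br q m * (1 - q) = 1 - q ^ m := by
  unfold br
  exact geom_sum_mul_neg q m

end gen

section field
variable {K : Type*} [Field K] {ζ : K} {M : ℕ}

lemma one_sub_ne (hζ : IsPrimitiveRoot ζ (2 * M + 1)) {j : ℕ} (h1 : 0 < j) (h2 : j < 2 * M + 1) :
    1 - ζ ^ j ≠ 0 := by
  intro h
  exact hζ.pow_ne_one_of_pos_of_lt h1.ne' h2 (sub_eq_zero.mp h).symm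

lemma pQ_ne (hζ : IsPrimitiveRoot ζ (2 * M + 1)) {k : ℕ} (hk : k ≤ 2 * M) : pQ ζ k ≠ 0 := by
  unfold pQ
  rw [prod_ne_zero_iff]
  intro j hj
  rw [mem_range] at hj
  exact one_sub_ne hζ (by omega) (by omega)

lemma pO_ne (hζ : IsPrimitiveRoot ζ (2 * M + 1)) {k : ℕ} (hk : k ≤ M) : pO ζ k ≠ 0 := by
  unfold pO
  rw [prod_ne_zero_iff]
  intro j hj
  rw [mem_range] at hj
  exact one_sub_ne hζ (by omega) (by omega)

/-- reflection: `∏_{j<k} (1-ζ^(2j+1)) = (-1)^k ζ^(k(k+1)) ...` in the form used below -/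
lemma refl_Q (hζ : IsPrimitiveRoot ζ (2 * M + 1)) {k : ℕ} (hk : k ≤ 2 * M) :
    pQ ζ (2 * M) * ζ ^ (k * (k + 1) / 2) = (-1) ^ k * pQ ζ (2 * M - k) * pQ ζ k := by
  induction k with
  | zero => simp [pQ]
  | succ k ih =>
    have ih' := ih (by omega)
    have hn : ζ ^ (2 * M + 1) = 1 := hζ.pow_eq_one
    have e1 : (k + 1) * (k + 1 + 1) / 2 = k * (k + 1) / 2 + (k + 1) := by
      have : (k + 1) * (k + 1 + 1) = k * (k + 1) + (k + 1) * 2 := by ring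
      rw [this, Nat.add_mul_div_right _ _ (by norm_num)]
    have e2 : 2 * M - k = (2 * M - (k + 1)) + 1 := by omega
    rw [e1, pow_add, ← mul_assoc, ih', e2, pQ_succ, pQ_succ ζ k]
    have e3 : ζ ^ (2 * M - (k + 1) + 1) * ζ ^ (k + 1) = 1 := by
      rw [← pow_add, show 2 * M - (k + 1) + 1 + (k + 1) = 2 * M + 1 by omega, hn]
    linear_combination ((-1) ^ (k + 1) * pQ ζ (2 * M - (k + 1)) * pQ ζ k) * e3

lemma refl_O (hζ : IsPrimitiveRoot ζ (2 * M + 1)) {k : ℕ} (hk : k ≤ M) :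
    pO ζ k * (pQ ζ (M - k) * pE ζ (M - k)) = (-1) ^ k * ζ ^ (k ^ 2) * (pQ ζ M * pE ζ M) := by
  induction k with
  | zero => simp [pO]
  | succ k ih =>
    have ih' := ih (by omega)
    have hn : ζ ^ (2 * M + 1) = 1 := hζ.pow_eq_one
    have e2 : M - k = (M - (k + 1)) + 1 := by omega
    rw [e2, pQ_succ, pE_succ] at ih'
    rw [pO_succ, show (k + 1) ^ 2 = k ^ 2 + (2 * k + 1) by ring, pow_add, pow_succ (-1 : K)]
    have e3 : ζ ^ (M - (k + 1) + 1) * ζ ^ (M - (k + 1) + 1) * ζ ^ (2 * k + 1) = 1 := by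
      rw [← pow_add, ← pow_add,
        show M - (k + 1) + 1 + (M - (k + 1) + 1) + (2 * k + 1) = 2 * M + 1 by omega, hn]
    linear_combination (-ζ ^ (2 * k + 1)) * ih' -
      (pO ζ k * pQ ζ (M - (k + 1)) * pE ζ (M - (k + 1))) * e3

lemma one_add_ne (h2 : (2 : K) ≠ 0) (hζ : IsPrimitiveRoot ζ (2 * M + 1)) (j : ℕ) :
    1 + ζ ^ j ≠ 0 := by
  intro h
  have h1 : ζ ^ j = -1 := by linear_combination h
  have h3 : (ζ ^ j) ^ (2 * M + 1) = 1 := by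
    rw [← pow_mul, mul_comm, pow_mul, hζ.pow_eq_one, one_pow]
  rw [h1, pow_add, pow_mul] at h3
  norm_num at h3
  apply h2
  linear_combination (-1 : K) * h3

lemma pE_ne (h2 : (2 : K) ≠ 0) (hζ : IsPrimitiveRoot ζ (2 * M + 1)) (k : ℕ) : pE ζ k ≠ 0 := by
  unfold pE
  rw [prod_ne_zero_iff]
  intro j _
  exact one_add_ne h2 hζ _

lemma pO_eq (hζ : IsPrimitiveRoot ζ (2 * M + 1)) :
    pO ζ M = (-1) ^ M * ζ ^ (M ^ 2) * (pQ ζ M * pE ζ M) := by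
  have h := refl_O hζ (le_refl M)
  simpa [pQ, pE] using h

lemma pow_eq_of (hζ : IsPrimitiveRoot ζ (2 * M + 1)) {a b c : ℕ}
    (h : a = b + (2 * M + 1) * c) : ζ ^ a = ζ ^ b := by
  rw [h, pow_add, pow_mul, hζ.pow_eq_one, one_pow, mul_one]

lemma pE_sq (h2 : (2 : K) ≠ 0) (hζ : IsPrimitiveRoot ζ (2 * M + 1)) :
    pE ζ M ^ 2 = ζ ^ (M * (M + 1) / 2) := by
  have hQ : pQ ζ M ≠ 0 := pQ_ne hζ (by omega)
  have hE : pE ζ M ≠ 0 := pE_ne h2 hζ M
  have h1 := refl_Q hζ (k := M) (by omega)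
  rw [pQ_double, show 2 * M - M = M by omega] at h1
  have h3 := pO_eq hζ
  have hz : ζ ≠ 0 := hζ.ne_zero (by omega)
  rw [h3] at h1
  have h4 : ζ ^ (M ^ 2) * ζ ^ (M * (M + 1) / 2) * pE ζ M ^ 2 = 1 := by
    have h5 : (-1 : K) ^ M * (pQ ζ M * pQ ζ M) ≠ 0 :=
      mul_ne_zero (pow_ne_zero _ (by norm_num)) (mul_ne_zero hQ hQ)
    apply mul_left_cancel₀ h5
    linear_combination h1
  have h6 : ζ ^ (M ^ 2) * ζ ^ (M * (M + 1) / 2) * ζ ^ (M * (M + 1) / 2) = 1 := by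
    rw [← pow_add, ← pow_add]
    have h7 : M * (M + 1) / 2 + M * (M + 1) / 2 = M * (M + 1) := by
      have := Nat.div_mul_cancel (Nat.even_mul_succ_self M).two_dvd
      omega
    have h8 : M ^ 2 + M * (M + 1) / 2 + M * (M + 1) / 2 = 0 + (2 * M + 1) * M := by
      rw [add_assoc, h7]; ring
    rw [pow_eq_of hζ h8, pow_zero]
  have h9 : ζ ^ (M ^ 2) * ζ ^ (M * (M + 1) / 2) ≠ 0 :=
    mul_ne_zero (pow_ne_zero _ hz) (pow_ne_zero _ hz)
  apply mul_left_cancel₀ h9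
  rw [h4, h6]

lemma tri_succ (j : ℕ) : (j + 1) * (j + 1 + 1) / 2 = j * (j + 1) / 2 + (j + 1) := by
  have : (j + 1) * (j + 1 + 1) = j * (j + 1) + (j + 1) * 2 := by ring
  rw [this, Nat.add_mul_div_right _ _ (by norm_num)]

lemma pow_tri_succ (ζ : K) (j : ℕ) :
    ζ ^ ((j + 1) * (j + 1 + 1) / 2) = ζ ^ (j * (j + 1) / 2) * ζ ^ (j + 1) := by
  rw [tri_succ, pow_add]

lemma pE_refl (h2 : (2 : K) ≠ 0) (hζ : IsPrimitiveRoot ζ (2 * M + 1)) {j : ℕ} (hj : j ≤ M) :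
    pE ζ (2 * M - j) * pE ζ j = ζ ^ (j * (j + 1) / 2) := by
  induction hj using Nat.decreasingInduction with
  | self =>
    rw [show 2 * M - M = M by omega, ← pE_sq h2 hζ]; ring
  | of_succ j hj ih =>
    have hz : ζ ≠ 0 := hζ.ne_zero (by omega)
    rw [tri_succ, pow_add, pE_succ] at ih
    rw [show 2 * M - j = (2 * M - (j + 1)) + 1 by omega, pE_succ]
    have e3 : ζ ^ (2 * M - (j + 1) + 1) * ζ ^ (j + 1) = 1 := by
      rw [← pow_add, show 2 * M - (j + 1) + 1 + (j + 1) = 2 * M + 1 by omega, hζ.pow_eq_one]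
    apply mul_right_cancel₀ (pow_ne_zero (j + 1) hz)
    rw [← ih]
    linear_combination (pE ζ (2 * M - (j + 1)) * pE ζ j) * e3

/-- values of `g = cq / pE` at `ζ` -/
lemma gM_sq (h2 : (2 : K) ≠ 0) (hM : 1 ≤ M) (hζ : IsPrimitiveRoot ζ (2 * M + 1)) {x : K}
    (hx : x * pQ ζ M = pO ζ M) :
    x ^ 2 * (1 - ζ ^ M) = -ζ ^ (M * (M + 1) / 2) * (1 - ζ ^ (M + 1)) := by
  have hQ : pQ ζ M ≠ 0 := pQ_ne hζ (by omega)
  have h3 := pO_eq hζ
  have hx1 : x = (-1) ^ M * ζ ^ (M ^ 2) * pE ζ M := by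
    apply mul_right_cancel₀ hQ
    rw [hx, h3]; ring
  have h4 : x ^ 2 = ζ ^ (M + 1) * ζ ^ (M * (M + 1) / 2) := by
    have h5 : M ^ 2 * 2 = (M + 1) + (2 * M + 1) * (M - 1) := by
      obtain ⟨m, rfl⟩ : ∃ m, M = m + 1 := ⟨M - 1, by omega⟩
      simp only [Nat.add_sub_cancel]
      ring
    have h6 : (ζ ^ (M ^ 2)) ^ 2 = ζ ^ (M + 1) := by
      rw [← pow_mul, pow_eq_of hζ h5]
    have h7 : ((-1 : K) ^ M) ^ 2 = 1 := by
      rw [← pow_mul, mul_comm, pow_mul]; norm_num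
    rw [hx1, mul_pow, mul_pow, pE_sq h2 hζ, h6, h7, one_mul]
  have e3 : ζ ^ (M + 1) * ζ ^ M = 1 := by
    rw [← pow_add, show M + 1 + M = 2 * M + 1 by omega, hζ.pow_eq_one]
  rw [h4]
  linear_combination (-ζ ^ (M * (M + 1) / 2)) * e3

end field

section ps
open PowerSeries

variable {ζ : ℂ} {M : ℕ}

@[simp] lemma cc_qz (ζ : ℂ) : PowerSeries.constantCoeff (qz ζ) = ζ := by
  simp [qz]

lemma cc_pE (ζ : ℂ) (k : ℕ) : PowerSeries.constantCoeff (pE (qz ζ) k) = pE ζ k := by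
  simp [pE, map_prod]

lemma cc_br (ζ : ℂ) (k : ℕ) : PowerSeries.constantCoeff (br (qz ζ) k) = br ζ k := by
  simp [br, map_sum]

lemma cc_cq (ζ : ℂ) (k : ℕ) : PowerSeries.constantCoeff (cq (qz ζ) k) = cq ζ k := by
  rw [cq_map, cc_qz]

/-- `g_k = cq / pE` -/
noncomputable def gg (ζ : ℂ) (k : ℕ) : PowerSeries ℂ := cq (qz ζ) k * (pE (qz ζ) k)⁻¹

lemma cc_one_add_ne (hζ : IsPrimitiveRoot ζ (2 * M + 1)) (j : ℕ) :
    PowerSeries.constantCoeff (1 + qz ζ ^ j) ≠ 0 := by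
  simpa using one_add_ne two_ne_zero hζ j

lemma cc_one_sub_ne (hζ : IsPrimitiveRoot ζ (2 * M + 1)) {j : ℕ} (h1 : 0 < j)
    (h2 : j < 2 * M + 1) : PowerSeries.constantCoeff (1 - qz ζ ^ j) ≠ 0 := by
  simpa using one_sub_ne hζ h1 h2

lemma gg_succ (hζ : IsPrimitiveRoot ζ (2 * M + 1)) (k : ℕ) :
    gg ζ (k + 1) * (1 - qz ζ ^ (k + 1)) = (1 - qz ζ ^ (2 * k + 1)) * gg ζ k := by
  unfold gg
  have h1 := cq_succ (qz ζ) k
  have h2 := PowerSeries.mul_inv_cancel _ (cc_one_add_ne hζ (k + 1))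
  rw [pE_succ, PowerSeries.mul_inv_rev]
  linear_combination ((1 + qz ζ ^ (k + 1))⁻¹ * (pE (qz ζ) k)⁻¹) * h1 +
    ((1 - qz ζ ^ (2 * k + 1)) * cq (qz ζ) k * (pE (qz ζ) k)⁻¹) * h2

lemma cc_gg (k : ℕ) :
    PowerSeries.constantCoeff (gg ζ k) = cq ζ k / pE ζ k := by
  unfold gg
  rw [map_mul, cc_cq, PowerSeries.constantCoeff_inv, cc_pE]
  rfl

lemma cc_gg_mul (hζ : IsPrimitiveRoot ζ (2 * M + 1)) (k : ℕ) :
    PowerSeries.constantCoeff (gg ζ k) * pQ ζ k = pO ζ k := by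
  rw [cc_gg, div_mul_eq_mul_div, cq_mul_pQ, mul_div_assoc, div_self (pE_ne two_ne_zero hζ k),
    mul_one]

lemma gg_upper (hM : 1 ≤ M) (hζ : IsPrimitiveRoot ζ (2 * M + 1)) {l : ℕ} (h1 : 1 ≤ l)
    (h2 : l ≤ M) : ∃ w : PowerSeries ℂ, gg ζ (2 * M + 1 - l) = (1 - qz ζ ^ (2 * M + 1)) * w ∧
      PowerSeries.constantCoeff w * (PowerSeries.constantCoeff (gg ζ l) * (1 - ζ ^ l)) =
        -ζ ^ (l * (l + 1) / 2) := by
  induction h2 using Nat.decreasingInduction with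
  | self =>
    have hu := cc_one_sub_ne hζ (j := M + 1) (by omega) (by omega)
    have hs := gg_succ hζ M
    have hi := PowerSeries.mul_inv_cancel _ hu
    refine ⟨gg ζ M * (1 - qz ζ ^ (M + 1))⁻¹, ?_, ?_⟩
    · rw [show 2 * M + 1 - M = M + 1 by omega]
      linear_combination (1 - qz ζ ^ (M + 1))⁻¹ * hs - gg ζ (M + 1) * hi
    · have h3 := gM_sq two_ne_zero hM hζ (cc_gg_mul hζ M)
      have h4 : (1 - ζ ^ (M + 1)) ≠ 0 := one_sub_ne hζ (by omega) (by omega)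
      rw [map_mul, PowerSeries.constantCoeff_inv]
      simp only [map_sub, map_one, map_pow, cc_qz]
      field_simp
      linear_combination h3
  | of_succ l hl ih =>
    obtain ⟨w, hw1, hw2⟩ := ih (by omega)
    have hu := cc_one_sub_ne hζ (j := 2 * M + 1 - l) (by omega) (by omega)
    have hi := PowerSeries.mul_inv_cancel _ hu
    have hs := gg_succ hζ (2 * M + 1 - (l + 1))
    rw [show 2 * M + 1 - (l + 1) + 1 = 2 * M + 1 - l by omega, hw1] at hs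
    have hs2 := congrArg PowerSeries.constantCoeff (gg_succ hζ l)
    simp only [map_mul, map_sub, map_one, map_pow, cc_qz] at hs2
    refine ⟨w * (1 - qz ζ ^ (2 * (2 * M + 1 - (l + 1)) + 1)) * (1 - qz ζ ^ (2 * M + 1 - l))⁻¹,
      ?_, ?_⟩
    · linear_combination (1 - qz ζ ^ (2 * M + 1 - l))⁻¹ * hs - gg ζ (2 * M + 1 - l) * hi
    · have h4 : (1 - ζ ^ (2 * M + 1 - l)) ≠ 0 := one_sub_ne hζ (by omega) (by omega)
      have h5 : (1 - ζ ^ (l + 1)) ≠ 0 := one_sub_ne hζ (by omega) (by omega)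
      have h6 : (1 - ζ ^ l) ≠ 0 := one_sub_ne hζ (by omega) (by omega)
      have hz : ζ ≠ 0 := hζ.ne_zero (by omega)
      rw [map_mul, map_mul, PowerSeries.constantCoeff_inv]
      simp only [map_sub, map_one, map_pow, cc_qz]
      have e1 : ζ ^ (2 * M + 1 - l) * ζ ^ l = 1 := by
        rw [← pow_add, show 2 * M + 1 - l + l = 2 * M + 1 by omega, hζ.pow_eq_one]
      have e2 : ζ ^ (2 * (2 * M + 1 - (l + 1)) + 1) * ζ ^ (2 * l + 1) = 1 := by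
        rw [← pow_add, show 2 * (2 * M + 1 - (l + 1)) + 1 + (2 * l + 1) =
          0 + (2 * M + 1) * 2 by omega, pow_eq_of hζ rfl, pow_zero]
      rw [pow_tri_succ] at hw2
      have e3 : ζ ^ (2 * l + 1) = ζ ^ l * ζ ^ (l + 1) := by rw [← pow_add]; congr 1; ring
      rw [e3] at e2 hs2
      have hs0 : ζ ^ (l + 1) ≠ 0 := pow_ne_zero _ hz
      generalize PowerSeries.constantCoeff w = c at *
      generalize PowerSeries.constantCoeff (gg ζ l) = x at *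
      generalize PowerSeries.constantCoeff (gg ζ (l + 1)) = y at *
      generalize ζ ^ (2 * M + 1 - l) = u at *
      generalize ζ ^ (2 * (2 * M + 1 - (l + 1)) + 1) = v at *
      generalize ζ ^ (l + 1) = s at *
      generalize ζ ^ l = t at *
      generalize ζ ^ (l * (l + 1) / 2) = T at *
      have key : c * (1 - v) * (x * (1 - t)) = -T * (1 - u) := by
        apply mul_right_cancel₀ hs0
        linear_combination (-c * (1 - v) * x * s) * e1 + (c * x * (1 - u)) * e2 -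
          (c * (1 - u)) * hs2 + (1 - u) * hw2
      field_simp
      linear_combination key

lemma inv_pow3 (a : PowerSeries ℂ) : (a ^ 3)⁻¹ = a⁻¹ ^ 3 := by
  rw [pow_succ, pow_two, PowerSeries.mul_inv_rev, PowerSeries.mul_inv_rev]; ring

lemma t8_eq (ζ : ℂ) (k : ℕ) :
    t8 (qz ζ) k = (-1) ^ k * br (qz ζ) (3 * k + 1) * gg ζ k ^ 3 := by
  unfold t8 gg
  rw [inv_pow3]; ring

lemma t16_eq (ζ : ℂ) (k : ℕ) :
    t16 (qz ζ) k = br (qz ζ) (3 * k + 1) * gg ζ k ^ 3 *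
      (pE (qz ζ) k * qz ζ ^ (k * (k + 1) / 2))⁻¹ := by
  unfold t16 gg
  rw [show pE (qz ζ) k ^ 4 * qz ζ ^ (k * (k + 1) / 2) =
    pE (qz ζ) k ^ 3 * (pE (qz ζ) k * qz ζ ^ (k * (k + 1) / 2)) by ring,
    PowerSeries.mul_inv_rev, inv_pow3]
  ring

lemma f8_two {x : ℂ} {k : ℕ} (hQ : pQ ζ k ≠ 0) (hx : x * pQ ζ k = pO ζ k) :
    f8 ζ 2 k = (-1) ^ k * x ^ 3 := by
  unfold f8
  rw [pA_two, pB_two, ← hx]
  field_simp

lemma f16_two {x : ℂ} {k : ℕ} (hQ : pQ ζ k ≠ 0) (hx : x * pQ ζ k = pO ζ k) :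
    f16 ζ 2 k = x ^ 3 / (pE ζ k * ζ ^ (k * (k + 1) / 2)) := by
  unfold f16
  rw [pA_two, pB_two, ← hx]
  by_cases hE : pE ζ k * ζ ^ (k * (k + 1) / 2) = 0
  · rw [hE, div_zero]
    rw [show pQ ζ k * pE ζ k * pQ ζ k ^ 2 * ζ ^ (k * (k + 1) / 2) =
      pQ ζ k ^ 3 * (pE ζ k * ζ ^ (k * (k + 1) / 2)) by ring, hE, mul_zero, div_zero]
  · have h1 := left_ne_zero_of_mul hE
    have h2 := right_ne_zero_of_mul hE
    field_simp

lemma br_refl (hM : 1 ≤ M) (hζ : IsPrimitiveRoot ζ (2 * M + 1)) {l : ℕ} (h1 : 1 ≤ l)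
    (h2 : l ≤ M) :
    br ζ (3 * (2 * M + 1 - l) + 1) * ζ ^ (3 * l - 1) = -br ζ (3 * l - 1) := by
  have h3 : (1 - ζ) ≠ 0 := by simpa using one_sub_ne hζ (j := 1) (by omega) (by omega)
  apply mul_right_cancel₀ h3
  have h4 := br_mul ζ (3 * (2 * M + 1 - l) + 1)
  have h5 := br_mul ζ (3 * l - 1)
  have e1 : ζ ^ (3 * (2 * M + 1 - l) + 1) * ζ ^ (3 * l - 1) = 1 := by
    rw [← pow_add, pow_eq_of hζ (b := 0) (c := 3) (by omega), pow_zero]
  linear_combination ζ ^ (3 * l - 1) * h4 + h5 - e1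

end ps

end P9

open P9

theorem t8_lower {ζ : ℂ} {M : ℕ} (hM : 1 ≤ M) (hζ : IsPrimitiveRoot ζ (2 * M + 1)) {l : ℕ}
    (h2 : l ≤ M + 1) :
    PowerSeries.constantCoeff (∑ k ∈ range l, t8 (qz ζ) k) = T8 ζ 2 l := by
  unfold T8
  rw [map_sum]
  refine sum_congr rfl fun k hk => ?_
  rw [mem_range] at hk
  rw [f8_two (pQ_ne hζ (by omega)) (cc_gg_mul hζ k), t8_eq]
  simp only [map_mul, map_pow, cc_br, map_neg, map_one]
  ring

theorem t16_lower {ζ : ℂ} {M : ℕ} (hM : 1 ≤ M) (hζ : IsPrimitiveRoot ζ (2 * M + 1)) {l : ℕ}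
    (h2 : l ≤ M + 1) :
    PowerSeries.constantCoeff (∑ k ∈ range l, t16 (qz ζ) k) = T16 ζ 2 l := by
  unfold T16
  rw [map_sum]
  refine sum_congr rfl fun k hk => ?_
  rw [mem_range] at hk
  rw [f16_two (pQ_ne hζ (by omega)) (cc_gg_mul hζ k), t16_eq]
  rw [map_mul, PowerSeries.constantCoeff_inv]
  simp only [map_mul, map_pow, cc_br, cc_pE, cc_qz]
  rw [div_eq_mul_inv]
  ring

theorem t8_dual {ζ : ℂ} {M : ℕ} (hM : 1 ≤ M) (hζ : IsPrimitiveRoot ζ (2 * M + 1)) {l : ℕ}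
    (h1 : 1 ≤ l) (h2 : l ≤ M) : ∃ w : PowerSeries ℂ,
      t8 (qz ζ) (2 * M + 1 - l) = (1 - qz ζ ^ (2 * M + 1)) ^ 3 * w ∧
      PowerSeries.constantCoeff w = D8 ζ 2 l := by
  obtain ⟨w, hw1, hw2⟩ := gg_upper hM hζ h1 h2
  refine ⟨(-1) ^ (2 * M + 1 - l) * br (qz ζ) (3 * (2 * M + 1 - l) + 1) * w ^ 3, ?_, ?_⟩
  · rw [t8_eq, hw1]; ring
  · have hx := cc_gg_mul hζ l
    have hO : pO ζ l ≠ 0 := pO_ne hζ h2
    have hQ : pQ ζ l ≠ 0 := pQ_ne hζ (by omega)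
    simp only [map_mul, map_pow, cc_br, map_neg, map_one]
    unfold D8
    rw [f8_two hQ hx]
    have hB := br_refl hM hζ h1 h2
    have hz : ζ ≠ 0 := hζ.ne_zero (by omega)
    have ht : 1 - ζ ^ l ≠ 0 := one_sub_ne hζ (by omega) (by omega)
    have hx0 : PowerSeries.constantCoeff (gg ζ l) ≠ 0 := by
      intro h; rw [h, zero_mul] at hx; exact hO hx.symm
    have hs : (-1 : ℂ) ^ (2 * M + 1 - l) * (-1) ^ l = -1 := by
      rw [← pow_add, show 2 * M + 1 - l + l = 2 * M + 1 by omega, pow_add, pow_mul]; norm_num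
    have hs2 : (-1 : ℂ) ^ l * (-1) ^ l = 1 := by
      rw [← pow_add, ← two_mul, pow_mul]; norm_num
    obtain ⟨j, rfl⟩ : ∃ j, l = j + 1 := ⟨l - 1, by omega⟩
    have eT : (j + 1) * (j + 1 - 1) / 2 = j * (j + 1) / 2 := by
      rw [Nat.add_sub_cancel, mul_comm]
    rw [eT]
    rw [pow_tri_succ] at hw2
    have e6 : ζ ^ (3 * (j + 1) - 1) * ζ = (ζ ^ (j + 1)) ^ 3 := by
      rw [← pow_succ, ← pow_mul]; congr 1; omega
    have e7 : ζ ^ (2 * (j + 1)) = (ζ ^ (j + 1)) ^ 2 := by rw [← pow_mul, mul_comm]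
    have e8 : ζ ^ (3 * (j * (j + 1) / 2)) = (ζ ^ (j * (j + 1) / 2)) ^ 3 := by
      rw [← pow_mul, mul_comm]
    rw [e7, e8]
    generalize PowerSeries.constantCoeff w = c at *
    generalize PowerSeries.constantCoeff (gg ζ (j + 1)) = x at *
    generalize ζ ^ (j + 1) = t at *
    generalize ζ ^ (j * (j + 1) / 2) = T at *
    generalize br ζ (3 * (2 * M + 1 - (j + 1)) + 1) = B' at *
    generalize br ζ (3 * (j + 1) - 1) = B at *
    generalize ζ ^ (3 * (j + 1) - 1) = r at *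
    generalize (-1 : ℂ) ^ (2 * M + 1 - (j + 1)) = σ at *
    have hτ : (-1 : ℂ) ^ (j + 1) ≠ 0 := pow_ne_zero _ (by norm_num)
    generalize (-1 : ℂ) ^ (j + 1) = τ at *
    have hden : τ * x ^ 3 * (1 - t) * (1 - 2 * t + t ^ 2) ≠ 0 := by
      rw [show 1 - 2 * t + t ^ 2 = (1 - t) ^ 2 by ring]
      exact mul_ne_zero (mul_ne_zero (mul_ne_zero hτ (pow_ne_zero _ hx0)) ht)
        (pow_ne_zero _ ht)
    rw [eq_div_iff hden]
    have h3 : c ^ 3 * (x ^ 3 * (1 - t) ^ 3) = -(T ^ 3 * t ^ 3) := by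
      have h4 : (c * (x * (1 - t))) ^ 3 = (-(T * t)) ^ 3 := by rw [hw2]
      linear_combination h4
    calc σ * B' * c ^ 3 * (τ * x ^ 3 * (1 - t) * (1 - 2 * t + t ^ 2))
        = (σ * τ) * B' * (c ^ 3 * (x ^ 3 * (1 - t) ^ 3)) := by ring
      _ = -(ζ * B * T ^ 3) := by
        rw [hs, h3, ← e6]
        linear_combination (T ^ 3 * ζ) * hB

theorem t16_dual {ζ : ℂ} {M : ℕ} (hM : 1 ≤ M) (hζ : IsPrimitiveRoot ζ (2 * M + 1)) {l : ℕ}
    (h1 : 1 ≤ l) (h2 : l ≤ M) : ∃ w : PowerSeries ℂ,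
      t16 (qz ζ) (2 * M + 1 - l) = (1 - qz ζ ^ (2 * M + 1)) ^ 3 * w ∧
      PowerSeries.constantCoeff w = D16 ζ 2 l := by
  obtain ⟨w, hw1, hw2⟩ := gg_upper hM hζ h1 h2
  refine ⟨br (qz ζ) (3 * (2 * M + 1 - l) + 1) * w ^ 3 *
    (pE (qz ζ) (2 * M + 1 - l) *
      qz ζ ^ ((2 * M + 1 - l) * (2 * M + 1 - l + 1) / 2))⁻¹, ?_, ?_⟩
  · rw [t16_eq, hw1]; ring
  · have hx := cc_gg_mul hζ l
    have hO : pO ζ l ≠ 0 := pO_ne hζ h2
    have hQ : pQ ζ l ≠ 0 := pQ_ne hζ (by omega)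
    rw [map_mul, PowerSeries.constantCoeff_inv]
    simp only [map_mul, map_pow, cc_br, cc_pE, cc_qz]
    unfold D16
    rw [f16_two hQ hx]
    have hB := br_refl hM hζ h1 h2
    have hz : ζ ≠ 0 := hζ.ne_zero (by omega)
    have ht : 1 - ζ ^ l ≠ 0 := one_sub_ne hζ (by omega) (by omega)
    have ht0 : ζ ^ l ≠ 0 := pow_ne_zero _ hz
    have ht2 : 1 + ζ ^ l ≠ 0 := one_add_ne two_ne_zero hζ l
    have hx0 : PowerSeries.constantCoeff (gg ζ l) ≠ 0 := by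
      intro h; rw [h, zero_mul] at hx; exact hO hx.symm
    obtain ⟨j, rfl⟩ : ∃ j, l = j + 1 := ⟨l - 1, by omega⟩
    have hE := pE_refl two_ne_zero hζ (j := j) (by omega)
    rw [show 2 * M - j = 2 * M + 1 - (j + 1) by omega] at hE
    have hE1 : pE ζ j ≠ 0 := pE_ne two_ne_zero hζ j
    have hE2 : pE ζ (2 * M + 1 - (j + 1)) ≠ 0 := pE_ne two_ne_zero hζ _
    rw [pE_succ]
    have eN : (2 * M + 1 - (j + 1)) * (2 * M + 1 - (j + 1) + 1) / 2 =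
        j * (j + 1) / 2 + (2 * M + 1) * (M - j) := by
      have h5 : (2 * M + 1 - (j + 1)) * (2 * M + 1 - (j + 1) + 1) =
          j * (j + 1) + ((2 * M + 1) * (M - j)) * 2 := by
        obtain ⟨m, rfl⟩ : ∃ m, M = j + 1 + m := ⟨M - (j + 1), by omega⟩
        rw [show 2 * (j + 1 + m) + 1 - (j + 1) = j + 2 + 2 * m by omega,
          show j + 1 + m - j = 1 + m by omega]
        ring
      rw [h5, Nat.add_mul_div_right _ _ (by norm_num)]
    rw [pow_eq_of hζ eN]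
    have hT0 : ζ ^ (j * (j + 1) / 2) ≠ 0 := pow_ne_zero _ hz
    rw [pow_tri_succ] at hw2 ⊢
    have e6 : ζ ^ (3 * (j + 1) - 1) * ζ = (ζ ^ (j + 1)) ^ 3 := by
      rw [← pow_succ, ← pow_mul]; congr 1; omega
    have e7 : ζ ^ (2 * (j + 1)) = (ζ ^ (j + 1)) ^ 2 := by rw [← pow_mul, mul_comm]
    rw [e7]
    generalize PowerSeries.constantCoeff w = c at *
    generalize PowerSeries.constantCoeff (gg ζ (j + 1)) = x at *
    generalize ζ ^ (j + 1) = t at *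
    generalize ζ ^ (j * (j + 1) / 2) = T at *
    generalize br ζ (3 * (2 * M + 1 - (j + 1)) + 1) = B' at *
    generalize br ζ (3 * (j + 1) - 1) = B at *
    generalize ζ ^ (3 * (j + 1) - 1) = r at *
    generalize pE ζ j = E at *
    generalize pE ζ (2 * M + 1 - (j + 1)) = E' at *
    have h3 : c ^ 3 * (x ^ 3 * (1 - t) ^ 3) = -(T ^ 3 * t ^ 3) := by
      have h4 : (c * (x * (1 - t))) ^ 3 = (-(T * t)) ^ 3 := by rw [hw2]
      linear_combination h4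
    have hlhs : B' * c ^ 3 * (E' * T)⁻¹ = B' * c ^ 3 * E / T ^ 2 := by
      rw [← hE]
      field_simp
    have hrhs : ζ * B / (t * (x ^ 3 / (E * (1 + t) * (T * t))) * (1 - t ^ 2) *
        (1 - 2 * t + t ^ 2)) = ζ * B * E * T / (x ^ 3 * (1 - t) ^ 3) := by
      rw [show 1 - 2 * t + t ^ 2 = (1 - t) ^ 2 by ring,
        show 1 - t ^ 2 = (1 - t) * (1 + t) by ring]
      field_simp
    rw [hlhs, hrhs, div_eq_div_iff (pow_ne_zero _ hT0)
      (mul_ne_zero (pow_ne_zero _ hx0) (pow_ne_zero _ ht))]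
    calc B' * c ^ 3 * E * (x ^ 3 * (1 - t) ^ 3)
        = B' * E * (c ^ 3 * (x ^ 3 * (1 - t) ^ 3)) := by ring
      _ = ζ * B * E * T * T ^ 2 := by
        rw [h3, ← e6]
        linear_combination (-E * T ^ 3 * ζ) * hB

end SC322
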