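import Pool.Agent.SC322.P10Aux
import Pool.Agent.SC322.P7b
import Pool.Agent.SC322.P8
import Pool.Agent.SC322.P9

set_option autoImplicit false

namespace SC322

open Finset Polynomial


theorem conv8_local {ζ : ℂ} {M : ℕ} (hM : 1 ≤ M) (hζ : IsPrimitiveRoot ζ (2 * M + 1)) :
    PowerSeries.X ^ 4 ∣ conv (t8 (qz ζ)) (2 * M + 1) -
      (br (qz ζ) (2 * M + 1) ^ 2 * qz ζ ^ (2 * M ^ 2) +
        2 * (1 - qz ζ ^ (2 * M + 1)) ^ 3 * PowerSeries.C (V8 ζ 2 M)) := by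
  have hne : ζ ≠ 1 := hζ.ne_one (by omega)
  have h := conv_local_aux (t8 (qz ζ)) M ((-1) ^ M * qz ζ ^ (M ^ 2)) (br (qz ζ) (2 * M + 1))
    (1 - qz ζ ^ (2 * M + 1)) (D8 ζ 2) (T8 ζ 2) (V8 ζ 2 M) (T8_local hM hζ)
    (X_dvd_br_qz hζ.pow_eq_one hne) (X_dvd_one_sub_qz hζ.pow_eq_one)
    (fun l h1 h2 => t8_dual hM hζ h1 h2) (fun l h2 => t8_lower hM hζ h2)
    (by rw [← W8_two hM hζ]; rfl)
  have e : ((-1 : PowerSeries ℂ) ^ M * qz ζ ^ (M ^ 2)) ^ 2 = qz ζ ^ (2 * M ^ 2) := by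
    rw [mul_pow, ← pow_mul, mul_comm M 2, pow_mul, neg_one_sq, one_pow, one_mul, ← pow_mul,
      mul_comm]
  rw [e] at h
  exact h

theorem conv16_local {ζ : ℂ} {M : ℕ} (hM : 1 ≤ M) (hζ : IsPrimitiveRoot ζ (2 * M + 1)) :
    PowerSeries.X ^ 4 ∣ conv (t16 (qz ζ)) (2 * M + 1) -
      (br (qz ζ) (2 * M + 1) ^ 2 * (qz ζ ^ (2 * M))⁻¹ +
        2 * (1 - qz ζ ^ (2 * M + 1)) ^ 3 * PowerSeries.C (V16 ζ 2 M)) := by
  have hne : ζ ≠ 1 := hζ.ne_one (by omega)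
  have h0 : ζ ≠ 0 := hζ.ne_zero (by omega)
  have hc : PowerSeries.constantCoeff (qz ζ ^ M) ≠ 0 := by
    rw [map_pow, qz, map_add, PowerSeries.constantCoeff_C, PowerSeries.constantCoeff_X, add_zero]
    exact pow_ne_zero _ h0
  have hc2 : PowerSeries.constantCoeff (qz ζ ^ (2 * M)) ≠ 0 := by
    rw [map_pow, qz, map_add, PowerSeries.constantCoeff_C, PowerSeries.constantCoeff_X, add_zero]
    exact pow_ne_zero _ h0
  have h := conv_local_aux (t16 (qz ζ)) M ((qz ζ ^ M)⁻¹) (br (qz ζ) (2 * M + 1))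
    (1 - qz ζ ^ (2 * M + 1)) (D16 ζ 2) (T16 ζ 2) (V16 ζ 2 M) (T16_local hM hζ)
    (X_dvd_br_qz hζ.pow_eq_one hne) (X_dvd_one_sub_qz hζ.pow_eq_one)
    (fun l h1 h2 => t16_dual hM hζ h1 h2) (fun l h2 => t16_lower hM hζ h2)
    (by rw [← W16_two hM hζ]; rfl)
  have e : ((qz ζ ^ M)⁻¹) ^ 2 = (qz ζ ^ (2 * M))⁻¹ := by
    rw [PowerSeries.eq_inv_iff_mul_eq_one hc2, mul_comm 2 M, pow_mul, ← mul_pow,
      PowerSeries.inv_mul_cancel _ hc, one_pow]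
  rw [e] at h
  exact h

end SC322
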