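import Pool.Agent.SC322.Defs2

/-!
# P10, part 1: the truncated convolution modulo `X ^ 4`, in abstract form
-/

set_option autoImplicit false

namespace SC322

open Finset Polynomial

theorem sum_upper {R : Type*} [AddCommMonoid R] (F : ℕ → R) (M i : ℕ) (hi : i ≤ M) :
    ∑ j ∈ range (2 * M + 1 - i), F j =
      ∑ j ∈ range (M + 1), F j + ∑ l ∈ Ioc i M, F (2 * M + 1 - l) := by
  have h : 2 * M + 1 - i = (M + 1) + (M - i) := by omega
  rw [h, Finset.sum_range_add]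
  congr 1
  refine Finset.sum_nbij' (fun x => M - x) (fun l => M - l) ?_ ?_ ?_ ?_ ?_
  · intro x hx; simp only [mem_range, mem_Ioc] at *; omega
  · intro x hx; simp only [mem_range, mem_Ioc] at *; omega
  · intro x hx; simp only [mem_range] at *; omega
  · intro x hx; simp only [mem_Ioc] at *; omega
  · intro x hx; simp only [mem_range] at *; congr 1; omega

theorem conv_split {R : Type*} [CommRing R] (t : ℕ → R) (M : ℕ) :
    conv t (2 * M + 1) = (∑ k ∈ range (M + 1), t k) ^ 2 +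
      2 * ∑ l ∈ Icc 1 M, t (2 * M + 1 - l) * ∑ j ∈ range l, t j := by
  have hIcc : Icc 1 M = Ioc 0 M := by ext x; simp [Nat.lt_iff_add_one_le]
  rw [conv]
  have h0 := sum_upper (fun i => t i * ∑ j ∈ range (2 * M + 1 - i), t j) M 0 (Nat.zero_le _)
  rw [Nat.sub_zero] at h0
  rw [h0]
  have h1 : ∑ j ∈ range (M + 1), t j * ∑ j ∈ range (2 * M + 1 - j), t j =
      (∑ k ∈ range (M + 1), t k) ^ 2 +
        ∑ i ∈ range (M + 1), t i * ∑ l ∈ Ioc i M, t (2 * M + 1 - l) := by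
    rw [sq, Finset.sum_mul, ← Finset.sum_add_distrib]
    refine Finset.sum_congr rfl fun i hi => ?_
    rw [sum_upper t M i (by simpa [Nat.lt_succ_iff] using hi), mul_add]
  have h2 : ∑ i ∈ range (M + 1), t i * ∑ l ∈ Ioc i M, t (2 * M + 1 - l) =
      ∑ l ∈ Ioc 0 M, t (2 * M + 1 - l) * ∑ j ∈ range l, t j := by
    simp_rw [Finset.mul_sum]
    rw [Finset.sum_comm' (t' := Ioc 0 M) (s' := fun l => range l)]
    · refine Finset.sum_congr rfl fun l _ => Finset.sum_congr rfl fun j _ => mul_comm _ _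
    · intro x y
      simp only [mem_range, mem_Ioc]
      omega
  have h3 : ∑ l ∈ Ioc 0 M, t (2 * M + 1 - l) * ∑ j ∈ range (2 * M + 1 - (2 * M + 1 - l)), t j =
      ∑ l ∈ Ioc 0 M, t (2 * M + 1 - l) * ∑ j ∈ range l, t j := by
    refine Finset.sum_congr rfl fun l hl => ?_
    rw [mem_Ioc] at hl
    rw [show 2 * M + 1 - (2 * M + 1 - l) = l by omega]
  rw [h1, h2, h3, hIcc]
  ring

theorem conv_local_aux (t : ℕ → PowerSeries ℂ) (M : ℕ) (ξ N U : PowerSeries ℂ) (D T : ℕ → ℂ)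
    (V : ℂ) (hS : PowerSeries.X ^ 3 ∣ (∑ k ∈ range (M + 1), t k) - ξ * N)
    (hN : PowerSeries.X ∣ N) (hU : PowerSeries.X ∣ U)
    (hw : ∀ l, 1 ≤ l → l ≤ M → ∃ w : PowerSeries ℂ,
      t (2 * M + 1 - l) = U ^ 3 * w ∧ PowerSeries.constantCoeff w = D l)
    (hT : ∀ l, l ≤ M + 1 → PowerSeries.constantCoeff (∑ k ∈ range l, t k) = T l)
    (hV : ∑ l ∈ Icc 1 M, D l * T l = V) :
    PowerSeries.X ^ 4 ∣ conv t (2 * M + 1) - (N ^ 2 * ξ ^ 2 + 2 * U ^ 3 * PowerSeries.C V) := by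
  classical
  choose! w hw1 hw2 using hw
  rw [conv_split]
  have h1 : ∑ l ∈ Icc 1 M, t (2 * M + 1 - l) * ∑ j ∈ range l, t j =
      U ^ 3 * ∑ l ∈ Icc 1 M, w l * ∑ j ∈ range l, t j := by
    rw [Finset.mul_sum]
    refine Finset.sum_congr rfl fun l hl => ?_
    rw [mem_Icc] at hl
    rw [hw1 l hl.1 hl.2]
    ring
  have h2 : PowerSeries.X ∣ (∑ l ∈ Icc 1 M, w l * ∑ j ∈ range l, t j) - PowerSeries.C V := by
    rw [PowerSeries.X_dvd_iff, map_sub, map_sum, PowerSeries.constantCoeff_C, ← hV, sub_eq_zero]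
    refine Finset.sum_congr rfl fun l hl => ?_
    rw [mem_Icc] at hl
    rw [map_mul, hw2 l hl.1 hl.2, hT l (by omega)]
  obtain ⟨A, hA⟩ := hS
  obtain ⟨N', hN'⟩ := hN
  obtain ⟨U', hU'⟩ := hU
  obtain ⟨B, hB⟩ := h2
  have e1 : (∑ k ∈ range (M + 1), t k) = ξ * N + PowerSeries.X ^ 3 * A := by
    rw [← hA]; ring
  have e2 : (∑ l ∈ Icc 1 M, w l * ∑ j ∈ range l, t j) = PowerSeries.C V + PowerSeries.X * B := by
    rw [← hB]; ring
  rw [h1, e1, e2]
  refine ⟨2 * ξ * N' * A + PowerSeries.X ^ 2 * A ^ 2 + 2 * U' ^ 3 * B, ?_⟩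
  rw [hN', hU']
  ring

theorem X_dvd_one_sub_qz {ζ : ℂ} {n : ℕ} (hζ : ζ ^ n = 1) :
    PowerSeries.X ∣ 1 - qz ζ ^ n := by
  rw [PowerSeries.X_dvd_iff, map_sub, map_one, map_pow, qz, map_add, PowerSeries.constantCoeff_C,
    PowerSeries.constantCoeff_X, add_zero, hζ, sub_self]

theorem X_dvd_br_qz {ζ : ℂ} {n : ℕ} (hζ : ζ ^ n = 1) (hne : ζ ≠ 1) :
    PowerSeries.X ∣ br (qz ζ) n := by
  rw [PowerSeries.X_dvd_iff, br, map_sum]
  have h1 : ∑ i ∈ range n, PowerSeries.constantCoeff (qz ζ ^ i) = ∑ i ∈ range n, ζ ^ i := by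
    refine Finset.sum_congr rfl fun i _ => ?_
    rw [map_pow, qz, map_add, PowerSeries.constantCoeff_C, PowerSeries.constantCoeff_X, add_zero]
  rw [h1]
  have h2 := geom_sum_mul ζ n
  rw [hζ, sub_self] at h2
  exact (mul_eq_zero.mp h2).resolve_right (sub_ne_zero.mpr hne)

end SC322
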