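import Pool.Agent.SC322.P11core
import Pool.Agent.SC322.P9
import Pool.Agent.SC322.P4

/-!
# The convolutions modulo `ε^2` at every root of unity
-/

set_option autoImplicit false

namespace SC322

open Finset

theorem conv8_block {ζ : ℂ} {m : ℕ} (hm : 1 ≤ m) (hζ : IsPrimitiveRoot ζ (2 * m + 1)) (N : ℕ) :
    PowerSeries.X ^ 2 ∣ conv (t8 (qz ζ)) (N * (2 * m + 1)) := by
  refine conv8_block_of hm hζ ?_ N
  rw [t8_lower hm hζ le_rfl, T8_two hm hζ]

theorem conv16_block {ζ : ℂ} {m : ℕ} (hm : 1 ≤ m) (hζ : IsPrimitiveRoot ζ (2 * m + 1)) (N : ℕ) :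
    PowerSeries.X ^ 2 ∣ conv (t16 (qz ζ)) (N * (2 * m + 1)) := by
  refine conv16_block_of hm hζ ?_ N
  rw [t16_lower hm hζ le_rfl, T16_two hm hζ]

end SC322
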