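import Pool.Agent.SC322.P1

/-!
# The block argument for the truncated squares
-/

namespace SC322

open Finset Polynomial

section abstract_block

variable {R : Type*} [CommRing R]

theorem sum_range_mul_block (f : ℕ → R) (d N : ℕ) :
    ∑ k ∈ range (N * d), f k = ∑ i ∈ range N, ∑ s ∈ range d, f (i * d + s) := by
  induction N with
  | zero => simp
  | succ N ih => rw [add_mul, one_mul, sum_range_add, ih, sum_range_succ]

theorem dvd_block_sum {x : R} {m : ℕ} {t : ℕ → R}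
    (h1 : ∀ i s, m < s → s < 2 * m + 1 → x ^ 2 ∣ t (i * (2 * m + 1) + s))
    (h2 : ∀ i, x ∣ ∑ s ∈ range (m + 1), t (i * (2 * m + 1) + s)) (j : ℕ) :
    x ∣ ∑ k ∈ range (j * (2 * m + 1)), t k := by
  rw [sum_range_mul_block]
  refine dvd_sum (fun i _ => ?_)
  have e : 2 * m + 1 = (m + 1) + m := by ring
  have h3 : ∑ s ∈ range (2 * m + 1), t (i * (2 * m + 1) + s) =
      ∑ s ∈ range (m + 1), t (i * (2 * m + 1) + s) +
        ∑ s ∈ range m, t (i * (2 * m + 1) + (m + 1 + s)) := by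
    conv_lhs => rw [show range (2 * m + 1) = range ((m + 1) + m) from by rw [e]]
    rw [sum_range_add]
  rw [h3]
  refine dvd_add (h2 i) (dvd_sum (fun s hs => ?_))
  rw [mem_range] at hs
  exact (dvd_pow_self x two_ne_zero).trans (h1 i _ (by omega) (by omega))

theorem conv_block_dvd {x : R} {m : ℕ} {t : ℕ → R}
    (h1 : ∀ i s, m < s → s < 2 * m + 1 → x ^ 2 ∣ t (i * (2 * m + 1) + s))
    (h2 : ∀ i, x ∣ ∑ s ∈ range (m + 1), t (i * (2 * m + 1) + s)) (N : ℕ) :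
    x ^ 2 ∣ conv t (N * (2 * m + 1)) := by
  unfold conv
  rw [sum_range_mul_block]
  refine dvd_sum (fun i hi => ?_)
  rw [mem_range] at hi
  obtain ⟨j, hj⟩ : ∃ j, N = i + 1 + j := ⟨N - (i + 1), by omega⟩
  have e : 2 * m + 1 = (m + 1) + m := by ring
  have h3 : ∀ g : ℕ → R, ∑ s ∈ range (2 * m + 1), g s =
      ∑ s ∈ range (m + 1), g s + ∑ s ∈ range m, g (m + 1 + s) := by
    intro g
    conv_lhs => rw [show range (2 * m + 1) = range ((m + 1) + m) from by rw [e]]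
    rw [sum_range_add]
  rw [h3]
  refine dvd_add ?_ (dvd_sum (fun s hs => ?_))
  swap
  · rw [mem_range] at hs
    exact (h1 i _ (by omega) (by omega)).mul_right _
  -- the main part
  have h4 : ∀ s ∈ range (m + 1), x ^ 2 ∣
      t (i * (2 * m + 1) + s) * ∑ k ∈ range (N * (2 * m + 1) - (i * (2 * m + 1) + s)), t k -
        t (i * (2 * m + 1) + s) * ∑ k ∈ range ((j + 1) * (2 * m + 1)), t k := by
    intro s hs
    rw [mem_range] at hs
    have e1 : (j + 1) * (2 * m + 1) = (N * (2 * m + 1) - (i * (2 * m + 1) + s)) + s := by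
      have e2 : N * (2 * m + 1) = (j + 1) * (2 * m + 1) + i * (2 * m + 1) := by
        rw [hj]
        ring
      have e3 : s ≤ (j + 1) * (2 * m + 1) := by
        have : 1 * (2 * m + 1) ≤ (j + 1) * (2 * m + 1) := Nat.mul_le_mul_right _ (by omega)
        omega
      omega
    rw [e1, sum_range_add, ← mul_sub, sub_add_cancel_left]
    refine Dvd.dvd.mul_left ?_ _
    rw [dvd_neg]
    refine dvd_sum (fun r hr => ?_)
    rw [mem_range] at hr
    have e4 : N * (2 * m + 1) - (i * (2 * m + 1) + s) + r =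
        j * (2 * m + 1) + (2 * m + 1 - s + r) := by
      have e2 : N * (2 * m + 1) = j * (2 * m + 1) + (2 * m + 1) + i * (2 * m + 1) := by
        rw [hj]
        ring
      omega
    rw [e4]
    exact h1 j _ (by omega) (by omega)
  have h5 := dvd_sum h4
  rw [sum_sub_distrib, ← sum_mul] at h5
  have h6 : x ^ 2 ∣ (∑ s ∈ range (m + 1), t (i * (2 * m + 1) + s)) *
      ∑ k ∈ range ((j + 1) * (2 * m + 1)), t k := by
    rw [pow_two]
    exact mul_dvd_mul (h2 i) (dvd_block_sum h1 h2 (j + 1))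
  have h7 := dvd_add h5 h6
  rwa [sub_add_cancel] at h7

end abstract_block

section terms

variable {ζ : ℂ} {m : ℕ}

theorem constCoeff_qz : PowerSeries.constantCoeff (qz ζ) = ζ := by
  simp [qz]

theorem constCoeff_cq (k : ℕ) : PowerSeries.constantCoeff (cq (qz ζ) k) = cq ζ k := by
  rw [cq_map, constCoeff_qz]

theorem constCoeff_t8 (k : ℕ) : PowerSeries.constantCoeff (t8 (qz ζ) k) =
    (-1) ^ k * br ζ (3 * k + 1) * cq ζ k ^ 3 * (pE ζ k ^ 3)⁻¹ := by
  unfold t8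
  rw [map_mul, map_mul, map_mul, map_pow, map_pow, map_neg, map_one, PowerSeries.constantCoeff_inv,
    map_pow, constCoeff_cq, br_map, pE_map, constCoeff_qz]

theorem constCoeff_t16 (k : ℕ) : PowerSeries.constantCoeff (t16 (qz ζ) k) =
    br ζ (3 * k + 1) * cq ζ k ^ 3 * (pE ζ k ^ 4 * ζ ^ (k * (k + 1) / 2))⁻¹ := by
  unfold t16
  rw [map_mul, map_mul, map_pow, PowerSeries.constantCoeff_inv,
    map_mul, map_pow, map_pow, constCoeff_cq, br_map, pE_map, constCoeff_qz]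

theorem pow_block {d : ℕ} (h : ζ ^ d = 1) (i s : ℕ) : ζ ^ (i * d + s) = ζ ^ s := by
  rw [pow_add, mul_comm i d, pow_mul, h, one_pow, one_mul]

theorem br_block {d : ℕ} (h : ζ ^ d = 1) (h1 : ζ ≠ 1) (i s : ℕ) :
    br ζ (i * d + s) = br ζ s := by
  have h2 : ζ - 1 ≠ 0 := sub_ne_zero.2 h1
  apply mul_right_cancel₀ h2
  unfold br
  rw [geom_sum_mul, geom_sum_mul, pow_block h]

theorem pE_block {d : ℕ} (h : ζ ^ d = 1) (i s : ℕ) :
    pE ζ (i * d + s) = pE ζ (i * d) * pE ζ s := by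
  unfold pE
  rw [prod_range_add]
  congr 1
  refine prod_congr rfl (fun j _ => ?_)
  rw [add_assoc, pow_block h]

theorem X_pow_dvd_t8 (hζ : IsPrimitiveRoot ζ (2 * m + 1)) (i s : ℕ) (h1 : m < s)
    (h2 : s < 2 * m + 1) :
    (PowerSeries.X : PowerSeries ℂ) ^ 2 ∣ t8 (qz ζ) (i * (2 * m + 1) + s) := by
  have h3 : (PowerSeries.X : PowerSeries ℂ) ∣ cq (qz ζ) (i * (2 * m + 1) + s) := by
    rw [PowerSeries.X_dvd_iff, constCoeff_cq, cq_zeta_lucas hζ i s h2, cq_zeta_zero hζ h1 h2,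
      mul_zero]
  have h4 : (PowerSeries.X : PowerSeries ℂ) ^ 2 ∣ cq (qz ζ) (i * (2 * m + 1) + s) ^ 3 :=
    (pow_dvd_pow _ (by norm_num)).trans (pow_dvd_pow_of_dvd h3 3)
  unfold t8
  exact (h4.mul_left _).mul_right _

theorem X_pow_dvd_t16 (hζ : IsPrimitiveRoot ζ (2 * m + 1)) (i s : ℕ) (h1 : m < s)
    (h2 : s < 2 * m + 1) :
    (PowerSeries.X : PowerSeries ℂ) ^ 2 ∣ t16 (qz ζ) (i * (2 * m + 1) + s) := by
  have h3 : (PowerSeries.X : PowerSeries ℂ) ∣ cq (qz ζ) (i * (2 * m + 1) + s) := by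
    rw [PowerSeries.X_dvd_iff, constCoeff_cq, cq_zeta_lucas hζ i s h2, cq_zeta_zero hζ h1 h2,
      mul_zero]
  have h4 : (PowerSeries.X : PowerSeries ℂ) ^ 2 ∣ cq (qz ζ) (i * (2 * m + 1) + s) ^ 3 :=
    (pow_dvd_pow _ (by norm_num)).trans (pow_dvd_pow_of_dvd h3 3)
  unfold t16
  exact (h4.mul_left _).mul_right _

theorem X_dvd_block8 (hm : 1 ≤ m) (hζ : IsPrimitiveRoot ζ (2 * m + 1))
    (h0 : PowerSeries.constantCoeff (∑ k ∈ range (m + 1), t8 (qz ζ) k) = 0) (i : ℕ) :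
    (PowerSeries.X : PowerSeries ℂ) ∣
      ∑ s ∈ range (m + 1), t8 (qz ζ) (i * (2 * m + 1) + s) := by
  have hz1 : ζ ≠ 1 := hζ.ne_one (by omega)
  rw [PowerSeries.X_dvd_iff, map_sum]
  have h1 : ∀ s ∈ range (m + 1), PowerSeries.constantCoeff (t8 (qz ζ) (i * (2 * m + 1) + s)) =
      ((-1) ^ (i * (2 * m + 1)) * cq ζ (i * (2 * m + 1)) ^ 3 * (pE ζ (i * (2 * m + 1)) ^ 3)⁻¹) *
        PowerSeries.constantCoeff (t8 (qz ζ) s) := by
    intro s hs
    rw [mem_range] at hs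
    rw [constCoeff_t8, constCoeff_t8, cq_zeta_lucas hζ i s (by omega),
      pE_block hζ.pow_eq_one]
    have e1 : 3 * (i * (2 * m + 1) + s) + 1 = (3 * i) * (2 * m + 1) + (3 * s + 1) := by ring
    rw [e1, br_block hζ.pow_eq_one hz1, pow_add, mul_pow, mul_pow, mul_inv]
    ring
  rw [sum_congr rfl h1, ← mul_sum, ← map_sum, h0, mul_zero]

theorem X_dvd_block16 (hm : 1 ≤ m) (hζ : IsPrimitiveRoot ζ (2 * m + 1))
    (h0 : PowerSeries.constantCoeff (∑ k ∈ range (m + 1), t16 (qz ζ) k) = 0) (i : ℕ) :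
    (PowerSeries.X : PowerSeries ℂ) ∣
      ∑ s ∈ range (m + 1), t16 (qz ζ) (i * (2 * m + 1) + s) := by
  have hz1 : ζ ≠ 1 := hζ.ne_one (by omega)
  rw [PowerSeries.X_dvd_iff, map_sum]
  have h1 : ∀ s ∈ range (m + 1), PowerSeries.constantCoeff (t16 (qz ζ) (i * (2 * m + 1) + s)) =
      (cq ζ (i * (2 * m + 1)) ^ 3 * (pE ζ (i * (2 * m + 1)) ^ 4 *
        ζ ^ ((i * (2 * m + 1)) * (i * (2 * m + 1) + 1) / 2))⁻¹) *
        PowerSeries.constantCoeff (t16 (qz ζ) s) := by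
    intro s hs
    rw [mem_range] at hs
    rw [constCoeff_t16, constCoeff_t16, cq_zeta_lucas hζ i s (by omega),
      pE_block hζ.pow_eq_one]
    have e1 : 3 * (i * (2 * m + 1) + s) + 1 = (3 * i) * (2 * m + 1) + (3 * s + 1) := by ring
    have e2 : (i * (2 * m + 1) + s) * (i * (2 * m + 1) + s + 1) / 2 =
        (i * s) * (2 * m + 1) + ((i * (2 * m + 1)) * (i * (2 * m + 1) + 1) / 2 +
          s * (s + 1) / 2) := by
      have e3 := Nat.even_mul_succ_self (i * (2 * m + 1))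
      have e4 := Nat.even_mul_succ_self s
      obtain ⟨u, hu⟩ := e3
      obtain ⟨v, hv⟩ := e4
      rw [hu, hv]
      have e5 : (i * (2 * m + 1) + s) * (i * (2 * m + 1) + s + 1) =
          2 * ((i * s) * (2 * m + 1) + (u + v)) := by
        have e6 : (i * (2 * m + 1) + s) * (i * (2 * m + 1) + s + 1) =
          (i * (2 * m + 1)) * (i * (2 * m + 1) + 1) + s * (s + 1) +
            2 * ((i * s) * (2 * m + 1)) := by ring
        rw [e6, hu, hv]
        ring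
      omega
    rw [e1, br_block hζ.pow_eq_one hz1, e2, pow_block hζ.pow_eq_one, pow_add, mul_inv, mul_inv,
      mul_inv, mul_inv]
    ring
  rw [sum_congr rfl h1, ← mul_sum, ← map_sum, h0, mul_zero]

theorem conv8_block_of (hm : 1 ≤ m) (hζ : IsPrimitiveRoot ζ (2 * m + 1))
    (h0 : PowerSeries.constantCoeff (∑ k ∈ range (m + 1), t8 (qz ζ) k) = 0) (N : ℕ) :
    PowerSeries.X ^ 2 ∣ conv (t8 (qz ζ)) (N * (2 * m + 1)) :=
  conv_block_dvd (X_pow_dvd_t8 hζ) (X_dvd_block8 hm hζ h0) N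

theorem conv16_block_of (hm : 1 ≤ m) (hζ : IsPrimitiveRoot ζ (2 * m + 1))
    (h0 : PowerSeries.constantCoeff (∑ k ∈ range (m + 1), t16 (qz ζ) k) = 0) (N : ℕ) :
    PowerSeries.X ^ 2 ∣ conv (t16 (qz ζ)) (N * (2 * m + 1)) :=
  conv_block_dvd (X_pow_dvd_t16 hζ) (X_dvd_block16 hm hζ h0) N

end terms

end SC322
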