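import Pool.Agent.SC322.Defs2

/-!
# SC322, package P12a: from local divisibility at roots of unity to divisibility at `q = 1`
-/

namespace SC322

open Finset Polynomial

theorem coe_comp_taylor (f : ℤ[X]) (ζ : ℂ) :
    (((f.map (Int.castRingHom ℂ)).comp (X + C ζ) : ℂ[X]) : PowerSeries ℂ) = aeval (qz ζ) f := by
  have h1 : (((f.map (Int.castRingHom ℂ)).comp (X + C ζ) : ℂ[X]) : PowerSeries ℂ) =
      Polynomial.coeToPowerSeries.ringHom ((f.map (Int.castRingHom ℂ)).comp (X + C ζ)) := rfl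
  rw [h1, Polynomial.comp, Polynomial.eval₂_map, Polynomial.hom_eval₂, Polynomial.aeval_def]
  have h2 : Polynomial.coeToPowerSeries.ringHom (X + C ζ : ℂ[X]) = qz ζ := by
    simp [qz, add_comm]
  rw [h2]
  congr 1
  exact RingHom.ext_int _ _

theorem dvd_of_local {f : ℤ[X]} {ζ : ℂ} {e : ℕ}
    (h : (PowerSeries.X : PowerSeries ℂ) ^ e ∣ aeval (qz ζ) f) :
    (X - C ζ) ^ e ∣ f.map (Int.castRingHom ℂ) := by
  rw [← coe_comp_taylor, PowerSeries.X_pow_dvd_iff] at h
  have h1 : (X : ℂ[X]) ^ e ∣ (f.map (Int.castRingHom ℂ)).comp (X + C ζ) := by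
    rw [Polynomial.X_pow_dvd_iff]
    intro d hd
    have := h d hd
    rwa [Polynomial.coeff_coe] at this
  obtain ⟨g, hg⟩ := h1
  refine ⟨g.comp (X - C ζ), ?_⟩
  have h2 := congrArg (fun P : ℂ[X] => P.comp (X - C ζ)) hg
  simp only [Polynomial.mul_comp, Polynomial.pow_comp, Polynomial.X_comp,
    Polynomial.comp_assoc, Polynomial.add_comp, Polynomial.C_comp, sub_add_cancel,
    Polynomial.comp_X] at h2
  exact h2

theorem cyc_pow_dvd {n : ℕ} (hn : n ≠ 0) (e : ℕ) (g : ℂ[X])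
    (h : ∀ ζ : ℂ, IsPrimitiveRoot ζ n → (X - C ζ) ^ e ∣ g) : (cyclotomic n ℂ) ^ e ∣ g := by
  rw [cyclotomic_eq_prod_X_sub_primitiveRoots (Complex.isPrimitiveRoot_exp n hn),
    ← Finset.prod_pow]
  apply Finset.prod_dvd_of_coprime
  · intro a _ b _ hab
    exact IsCoprime.pow (Polynomial.pairwise_coprime_X_sub_C Function.injective_id hab)
  · intro ζ hζ
    exact h ζ (isPrimitiveRoot_of_mem_primitiveRoots hζ)

theorem cyc_coprime {n m : ℕ} (h : n ≠ m) : IsCoprime (cyclotomic n ℂ) (cyclotomic m ℂ) := by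
  have h1 := (cyclotomic.isCoprime_rat h).map (mapRingHom (algebraMap ℚ ℂ))
  simpa only [coe_mapRingHom, map_cyclotomic] using h1

theorem eval_one_dvd {p r : ℕ} (hp : p.Prime) (_hp2 : p ≠ 2) (hr : 1 ≤ r) (f : ℤ[X])
    (h2 : ∀ ζ : ℂ, ζ ^ (p ^ r) = 1 → ζ ≠ 1 →
      (PowerSeries.X : PowerSeries ℂ) ^ 2 ∣ aeval (qz ζ) f)
    (h4 : ∀ ζ : ℂ, IsPrimitiveRoot ζ (p ^ r) →
      (PowerSeries.X : PowerSeries ℂ) ^ 4 ∣ aeval (qz ζ) f) :
    (p : ℤ) ^ (2 * r + 2) ∣ f.eval 1 := by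
  classical
  have := Fact.mk hp
  let e : ℕ → ℕ := fun i => if i = r then 4 else 2
  have hG : (∏ i ∈ Icc 1 r, (cyclotomic (p ^ i) ℤ) ^ (e i)) ∣ f := by
    rw [← Polynomial.map_dvd_map (Int.castRingHom ℂ) (Int.cast_injective)
      (monic_prod_of_monic _ _ fun i _ => (cyclotomic.monic _ ℤ).pow _)]
    rw [Polynomial.map_prod]
    apply Finset.prod_dvd_of_coprime
    · intro a _ b _ hab
      simp only [Function.onFun, Polynomial.map_pow, map_cyclotomic]
      apply IsCoprime.pow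
      apply cyc_coprime
      intro hpp
      exact hab (Nat.pow_right_injective hp.two_le hpp)
    · intro i hi
      rw [Finset.mem_Icc] at hi
      rw [Polynomial.map_pow, map_cyclotomic]
      apply cyc_pow_dvd (pow_ne_zero _ hp.ne_zero)
      intro ζ hζ
      apply dvd_of_local
      by_cases hir : i = r
      · subst hir
        simp only [e, if_true]
        exact h4 ζ hζ
      · simp only [e, if_neg hir]
        apply h2 ζ
        · rw [hζ.pow_eq_one_iff_dvd]
          exact pow_dvd_pow _ hi.2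
        · intro h1
          subst h1
          have h3 : p ^ i = 1 := by
            have := hζ.dvd_of_pow_eq_one 1 (by simp)
            exact Nat.dvd_one.mp this
          have h5 : 1 < p ^ i := Nat.one_lt_pow (by omega) hp.one_lt
          omega
  have h5 := Polynomial.eval_dvd hG (x := (1 : ℤ))
  have h6 : (∏ i ∈ Icc 1 r, (cyclotomic (p ^ i) ℤ) ^ (e i)).eval 1 = (p : ℤ) ^ (2 * r + 2) := by
    rw [Polynomial.eval_prod]
    have h7 : ∀ i ∈ Icc 1 r, ((cyclotomic (p ^ i) ℤ) ^ (e i)).eval 1 = (p : ℤ) ^ (e i) := by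
      intro i hi
      rw [Finset.mem_Icc] at hi
      obtain ⟨j, rfl⟩ : ∃ j, i = j + 1 := ⟨i - 1, by omega⟩
      rw [Polynomial.eval_pow, eval_one_cyclotomic_prime_pow]
    rw [Finset.prod_congr rfl h7, Finset.prod_pow_eq_pow_sum]
    congr 1
    obtain ⟨t, rfl⟩ : ∃ t, r = t + 1 := ⟨r - 1, by omega⟩
    rw [Finset.sum_Icc_succ_top (by omega)]
    have h8 : ∑ k ∈ Icc 1 t, e k = ∑ k ∈ Icc 1 t, 2 := by
      apply Finset.sum_congr rfl
      intro k hk
      rw [Finset.mem_Icc] at hk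
      simp only [e]
      rw [if_neg (by omega)]
    rw [h8]
    simp [e]
    ring
  rwa [h6] at h5

end SC322
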