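import Pool.Agent.SC322.Defs2

/-! Package P12b : an integral polynomial congruent to `[n]/[m]` modulo `Φ_n^2`. -/

namespace SC322

open Finset Polynomial

namespace P12b

theorem br_mul {R : Type*} [CommRing R] (q : R) (m u : ℕ) :
    br q (m * u) = br q m * br (q ^ m) u := by
  induction u with
  | zero => simp [br]
  | succ u ih =>
    have h1 : br q (m * (u + 1)) = br q (m * u) + q ^ (m * u) * br q m := by
      unfold br
      rw [Nat.mul_succ, Finset.sum_range_add, Finset.mul_sum]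
      congr 1
      exact Finset.sum_congr rfl fun i _ => by rw [pow_add]
    have h2 : br (q ^ m) (u + 1) = br (q ^ m) u + (q ^ m) ^ u := by
      unfold br
      rw [Finset.sum_range_succ]
    rw [h1, h2, ih, ← pow_mul]
    ring

theorem br_add {R : Type*} [CommRing R] (q : R) (g t : ℕ) :
    br q (g + t) = br q g + q ^ g * br q t := by
  unfold br
  rw [Finset.sum_range_add, Finset.mul_sum]
  congr 1
  exact Finset.sum_congr rfl fun i _ => by rw [pow_add]

theorem br_map {R S : Type*} [CommRing R] [CommRing S] (φ : R →+* S) (q : R) (m : ℕ) :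
    φ (br q m) = br (φ q) m := by
  simp [br, map_sum, map_pow]

theorem cc_qz (ζ : ℂ) : PowerSeries.constantCoeff (qz ζ) = ζ := by
  simp [qz]

/-- `[m]_ζ = 0` for a root of unity `ζ ≠ 1` of order dividing `m`. -/
theorem br_zero {ζ : ℂ} {m : ℕ} (h : ζ ^ m = 1) (h1 : ζ ≠ 1) : br ζ m = 0 := by
  unfold br
  have := geom_sum_mul ζ m
  rw [h, sub_self] at this
  rcases mul_eq_zero.1 this with h2 | h2
  · exact h2
  · exact absurd (sub_eq_zero.1 h2) h1

end P12b

open P12b

/-- an integral polynomial congruent to `[n]/[m]` modulo `Φ_n^2` -/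
theorem exists_quot {n m : ℕ} (h1 : 1 ≤ m) (h2 : m < n) : ∃ A : ℤ[X], ∀ ζ : ℂ,
    IsPrimitiveRoot ζ n →
      (PowerSeries.X : PowerSeries ℂ) ^ 2 ∣ br (qz ζ) m * aeval (qz ζ) A - br (qz ζ) n := by
  set g := Nat.gcd m n with hg
  have hgm : g ≤ m := Nat.gcd_le_left _ h1
  have hgn : g < n := lt_of_le_of_lt hgm h2
  have hg0 : 0 < g := Nat.gcd_pos_of_pos_left _ h1
  obtain ⟨u, -, hu⟩ := Nat.exists_mul_mod_eq_gcd (k := n) (n := m) hgn
  obtain ⟨k, hk⟩ : ∃ k, m * u = g + n * k := ⟨m * u / n, by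
    have := Nat.mod_add_div (m * u) n
    rw [hu] at this
    exact this.symm⟩
  obtain ⟨e, he⟩ : g ∣ n := Nat.gcd_dvd_right m n
  refine ⟨br (X ^ g) e * br (X ^ m) u, fun ζ hζ => ?_⟩
  have hmap : aeval (qz ζ) (br (X ^ g) e * br (X ^ m) u : ℤ[X]) =
      br (qz ζ ^ g) e * br (qz ζ ^ m) u := by
    rw [map_mul]
    have := br_map (aeval (qz ζ) : ℤ[X] →ₐ[ℤ] PowerSeries ℂ).toRingHom (X ^ g) e
    have h' := br_map (aeval (qz ζ) : ℤ[X] →ₐ[ℤ] PowerSeries ℂ).toRingHom (X ^ m) u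
    simp only [AlgHom.toRingHom_eq_coe, RingHom.coe_coe, map_pow, aeval_X] at this h'
    rw [this, h']
  rw [hmap]
  have key : br (qz ζ) m * (br (qz ζ ^ g) e * br (qz ζ ^ m) u) - br (qz ζ) n =
      (qz ζ) ^ g * br (qz ζ ^ g) e * br (qz ζ) (n * k) := by
    have e1 : br (qz ζ) m * br (qz ζ ^ m) u = br (qz ζ) g + qz ζ ^ g * br (qz ζ) (n * k) := by
      rw [← br_mul, hk, br_add]
    have e2 : br (qz ζ) n = br (qz ζ) g * br (qz ζ ^ g) e := by
      rw [← br_mul, ← he]
    calc br (qz ζ) m * (br (qz ζ ^ g) e * br (qz ζ ^ m) u) - br (qz ζ) n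
        = br (qz ζ ^ g) e * (br (qz ζ) m * br (qz ζ ^ m) u) - br (qz ζ) n := by ring
      _ = _ := by rw [e1, e2]; ring
  rw [key]
  have hne1 : ζ ≠ 1 := by
    intro h
    have := hζ.dvd_of_pow_eq_one 1 (by rw [h, pow_one])
    have := Nat.le_of_dvd one_pos this
    omega
  have d1 : (PowerSeries.X : PowerSeries ℂ) ∣ br (qz ζ ^ g) e := by
    rw [PowerSeries.X_dvd_iff, br_map, map_pow, cc_qz]
    apply br_zero
    · rw [← pow_mul, ← he]; exact hζ.pow_eq_one
    · intro h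
      have := hζ.dvd_of_pow_eq_one g h
      have := Nat.le_of_dvd hg0 this
      omega
  have d2 : (PowerSeries.X : PowerSeries ℂ) ∣ br (qz ζ) (n * k) := by
    rw [PowerSeries.X_dvd_iff, br_map, cc_qz]
    apply br_zero
    · rw [pow_mul, hζ.pow_eq_one, one_pow]
    · exact hne1
  rw [pow_two]
  exact mul_dvd_mul (dvd_mul_of_dvd_right d1 _) d2

end SC322
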