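import Pool.Agent.SC322.P1
import Pool.Agent.SC322.P10
import Pool.Agent.SC322.P11
import Pool.Agent.SC322.P12a
import Pool.Agent.SC322.P12b

namespace SC322.P13

open SC322 Finset Polynomial

/-! ## polynomial versions of the terms -/

noncomputable def PP8 (n k : ℕ) : ℤ[X] :=
  (-1) ^ k * br X (3 * k + 1) * cq X k ^ 3 * (∏ j ∈ Ico k (n - 1), (1 + X ^ (j + 1))) ^ 3 *
    pE X (n - 1) * X ^ (n * (n - 1) / 2)

noncomputable def PP16 (n k : ℕ) : ℤ[X] :=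
  br X (3 * k + 1) * cq X k ^ 3 * (∏ j ∈ Ico k (n - 1), (1 + X ^ (j + 1))) ^ 4 *
    X ^ (n * (n - 1) / 2 - k * (k + 1) / 2)

theorem map_br {R S : Type*} [CommRing R] [CommRing S] (φ : R →+* S) (q : R) (m : ℕ) :
    φ (br q m) = br (φ q) m := by
  simp [br, map_sum, map_pow]

theorem map_pE {R S : Type*} [CommRing R] [CommRing S] (φ : R →+* S) (q : R) (m : ℕ) :
    φ (pE q m) = pE (φ q) m := by
  simp [pE, map_prod]

theorem map_conv {R S : Type*} [CommRing R] [CommRing S] (φ : R →+* S) (t : ℕ → R) (n : ℕ) :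
    φ (conv t n) = conv (fun k => φ (t k)) n := by
  simp [conv, map_sum, map_mul]

theorem br_mul {R : Type*} [CommRing R] (q : R) (m : ℕ) : (1 - q) * br q m = 1 - q ^ m := by
  unfold br
  exact mul_neg_geom_sum q m

section local_ring

variable {ζ : ℂ}

theorem cc_qz : PowerSeries.constantCoeff (qz ζ) = ζ := by
  simp [qz]

theorem ps_inv {x : PowerSeries ℂ} (h : PowerSeries.constantCoeff x ≠ 0) : x * x⁻¹ = 1 :=
  PowerSeries.mul_inv_cancel x h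

theorem ne_zero_of_odd {d : ℕ} (hζ : ζ ^ (2 * d + 1) = 1) (j : ℕ) : 1 + ζ ^ j ≠ 0 := by
  intro h
  have h1 : ζ ^ j = -1 := by linear_combination h
  have h2 : (ζ ^ j) ^ (2 * d + 1) = 1 := by
    rw [← pow_mul, mul_comm, pow_mul, hζ, one_pow]
  rw [h1, pow_succ, pow_mul] at h2
  norm_num at h2

theorem zeta_ne_zero {d : ℕ} (hζ : ζ ^ (2 * d + 1) = 1) : ζ ≠ 0 := by
  intro h
  rw [h, zero_pow (by omega)] at hζ
  exact zero_ne_one hζ

theorem cc_pE_ne {d : ℕ} (hζ : ζ ^ (2 * d + 1) = 1) (k : ℕ) :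
    PowerSeries.constantCoeff (pE (qz ζ) k) ≠ 0 := by
  rw [map_pE, cc_qz]
  unfold pE
  rw [Finset.prod_ne_zero_iff]
  intro j _
  exact ne_zero_of_odd hζ _

theorem pE_split {R : Type*} [CommRing R] (q : R) {k n : ℕ} (h : k ≤ n) :
    pE q k * ∏ j ∈ Ico k n, (1 + q ^ (j + 1)) = pE q n := by
  unfold pE
  exact Finset.prod_range_mul_prod_Ico _ h

theorem aeval_PP8 {d : ℕ} (hζ : ζ ^ (2 * d + 1) = 1) {n k : ℕ} (hk : k ≤ n - 1) :
    aeval (qz ζ) (PP8 n k) =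
      (pE (qz ζ) (n - 1) ^ 4 * qz ζ ^ (n * (n - 1) / 2)) * t8 (qz ζ) k := by
  have e1 : aeval (qz ζ) (PP8 n k) =
      (-1) ^ k * br (qz ζ) (3 * k + 1) * cq (qz ζ) k ^ 3 *
        (∏ j ∈ Ico k (n - 1), (1 + qz ζ ^ (j + 1))) ^ 3 *
        pE (qz ζ) (n - 1) * qz ζ ^ (n * (n - 1) / 2) := by
    have h1 := map_br (aeval (R := ℤ) (qz ζ)).toRingHom X (3 * k + 1)
    have h2 := cq_map (aeval (R := ℤ) (qz ζ)).toRingHom X k
    have h3 := map_pE (aeval (R := ℤ) (qz ζ)).toRingHom X (n - 1)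
    simp only [AlgHom.toRingHom_eq_coe, RingHom.coe_coe, aeval_X] at h1 h2 h3
    unfold PP8
    simp only [map_mul, map_pow, map_neg, map_one, map_prod, map_add, aeval_X, h1, h2, h3]
  rw [e1, t8, ← pE_split (qz ζ) hk]
  have hu : (pE (qz ζ) k ^ 3) * (pE (qz ζ) k ^ 3)⁻¹ = 1 := by
    apply ps_inv
    rw [map_pow]
    exact pow_ne_zero _ (cc_pE_ne hζ k)
  set P := pE (qz ζ) k
  set T := ∏ j ∈ Ico k (n - 1), (1 + qz ζ ^ (j + 1))
  have : (-1 : PowerSeries ℂ) ^ k * br (qz ζ) (3 * k + 1) * cq (qz ζ) k ^ 3 * T ^ 3 * (P * T) *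
      qz ζ ^ (n * (n - 1) / 2) =
      (-1 : PowerSeries ℂ) ^ k * br (qz ζ) (3 * k + 1) * cq (qz ζ) k ^ 3 * T ^ 3 * (P * T) *
      qz ζ ^ (n * (n - 1) / 2) * ((P ^ 3) * (P ^ 3)⁻¹) := by rw [hu, mul_one]
  rw [this]
  ring

theorem aeval_PP16 {d : ℕ} (hζ : ζ ^ (2 * d + 1) = 1) {n k : ℕ} (hk : k ≤ n - 1) :
    aeval (qz ζ) (PP16 n k) =
      (pE (qz ζ) (n - 1) ^ 4 * qz ζ ^ (n * (n - 1) / 2)) * t16 (qz ζ) k := by
  have e1 : aeval (qz ζ) (PP16 n k) =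
      br (qz ζ) (3 * k + 1) * cq (qz ζ) k ^ 3 *
        (∏ j ∈ Ico k (n - 1), (1 + qz ζ ^ (j + 1))) ^ 4 *
        qz ζ ^ (n * (n - 1) / 2 - k * (k + 1) / 2) := by
    have h1 := map_br (aeval (R := ℤ) (qz ζ)).toRingHom X (3 * k + 1)
    have h2 := cq_map (aeval (R := ℤ) (qz ζ)).toRingHom X k
    simp only [AlgHom.toRingHom_eq_coe, RingHom.coe_coe, aeval_X] at h1 h2
    unfold PP16
    simp only [map_mul, map_pow, map_one, map_prod, map_add, aeval_X, h1, h2]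
  have hle : k * (k + 1) / 2 ≤ n * (n - 1) / 2 := by
    rcases Nat.eq_zero_or_pos n with h0 | h0
    · subst h0
      have : k = 0 := by omega
      subst this
      simp
    · apply Nat.div_le_div_right
      calc k * (k + 1) ≤ (n - 1) * n := Nat.mul_le_mul hk (by omega)
        _ = n * (n - 1) := Nat.mul_comm _ _
  have hpow : qz ζ ^ (n * (n - 1) / 2) =
      qz ζ ^ (n * (n - 1) / 2 - k * (k + 1) / 2) * qz ζ ^ (k * (k + 1) / 2) := by
    rw [← pow_add]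
    congr 1
    omega
  rw [e1, t16, ← pE_split (qz ζ) hk, hpow]
  have hu : (pE (qz ζ) k ^ 4 * qz ζ ^ (k * (k + 1) / 2)) *
      (pE (qz ζ) k ^ 4 * qz ζ ^ (k * (k + 1) / 2))⁻¹ = 1 := by
    apply ps_inv
    rw [map_mul, map_pow, map_pow, cc_qz]
    exact mul_ne_zero (pow_ne_zero _ (cc_pE_ne hζ k)) (pow_ne_zero _ (zeta_ne_zero hζ))
  set P := pE (qz ζ) k
  set T := ∏ j ∈ Ico k (n - 1), (1 + qz ζ ^ (j + 1))
  set Z := (P ^ 4 * qz ζ ^ (k * (k + 1) / 2))⁻¹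
  calc br (qz ζ) (3 * k + 1) * cq (qz ζ) k ^ 3 * T ^ 4 *
      qz ζ ^ (n * (n - 1) / 2 - k * (k + 1) / 2)
      = br (qz ζ) (3 * k + 1) * cq (qz ζ) k ^ 3 * T ^ 4 *
      qz ζ ^ (n * (n - 1) / 2 - k * (k + 1) / 2) * ((P ^ 4 * qz ζ ^ (k * (k + 1) / 2)) * Z) := by
        rw [hu, mul_one]
    _ = _ := by ring

theorem conv_congr_mul {R : Type*} [CommRing R] (t u : ℕ → R) (D : R) (n : ℕ)
    (h : ∀ k, k ≤ n - 1 → u k = D * t k) : conv u n = D ^ 2 * conv t n := by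
  unfold conv
  rw [Finset.mul_sum]
  apply Finset.sum_congr rfl
  intro i hi
  rw [Finset.mem_range] at hi
  have e : ∑ j ∈ range (n - i), u j = D * ∑ j ∈ range (n - i), t j := by
    rw [Finset.mul_sum]
    apply Finset.sum_congr rfl
    intro j hj
    rw [Finset.mem_range] at hj
    exact h j (by omega)
  rw [h i (by omega), e]
  ring

theorem aeval_conv8 {d : ℕ} (hζ : ζ ^ (2 * d + 1) = 1) (n : ℕ) :
    aeval (qz ζ) (conv (PP8 n) n) =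
      (pE (qz ζ) (n - 1) ^ 4 * qz ζ ^ (n * (n - 1) / 2)) ^ 2 * conv (t8 (qz ζ)) n := by
  have h := map_conv (aeval (R := ℤ) (qz ζ)).toRingHom (PP8 n) n
  simp only [AlgHom.toRingHom_eq_coe, RingHom.coe_coe] at h
  rw [h]
  exact conv_congr_mul _ _ _ _ (fun k hk => aeval_PP8 hζ hk)

theorem aeval_conv16 {d : ℕ} (hζ : ζ ^ (2 * d + 1) = 1) (n : ℕ) :
    aeval (qz ζ) (conv (PP16 n) n) =
      (pE (qz ζ) (n - 1) ^ 4 * qz ζ ^ (n * (n - 1) / 2)) ^ 2 * conv (t16 (qz ζ)) n := by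
  have h := map_conv (aeval (R := ℤ) (qz ζ)).toRingHom (PP16 n) n
  simp only [AlgHom.toRingHom_eq_coe, RingHom.coe_coe] at h
  rw [h]
  exact conv_congr_mul _ _ _ _ (fun k hk => aeval_PP16 hζ hk)

theorem X_dvd_br {n : ℕ} (hζ : ζ ^ n = 1) (h1 : ζ ≠ 1) :
    (PowerSeries.X : PowerSeries ℂ) ∣ br (qz ζ) n := by
  rw [PowerSeries.X_dvd_iff, map_br, cc_qz]
  have h := br_mul ζ n
  rw [hζ, sub_self] at h
  rcases mul_eq_zero.mp h with h | h
  · exact absurd (sub_eq_zero.mp h).symm h1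
  · exact h

end local_ring


/-! ## the global polynomial -/

noncomputable def corr (M : ℕ) (A : ℕ → ℤ[X]) : ℤ[X] :=
  ∑ i ∈ range ((M + 1) / 2), A i * X * (1 - X ^ (2 * i * (i + 1))) * (1 + X ^ (2 * i + 1))

noncomputable def FF (M : ℕ) (A : ℕ → ℤ[X]) : ℤ[X] :=
  conv (PP16 (2 * M + 1)) (2 * M + 1) - conv (PP8 (2 * M + 1)) (2 * M + 1) -
    br X (2 * M + 1) ^ 2 * (pE X (2 * M) ^ 8 *
      (X ^ (2 * (M * (2 * M + 1)) - 2 * M) - X ^ (2 * (M * (2 * M + 1)) + 2 * M ^ 2))) -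
    br X (2 * M + 1) ^ 2 * (2 * (pE X (2 * M) ^ 8 * X ^ (2 * (M * (2 * M + 1))) * corr M A))

theorem pref_eq (M : ℕ) : (2 * M + 1) * (2 * M + 1 - 1) / 2 = M * (2 * M + 1) := by
  have : (2 * M + 1) * (2 * M + 1 - 1) = 2 * (M * (2 * M + 1)) := by
    rw [Nat.add_sub_cancel]; ring
  rw [this, Nat.mul_div_cancel_left _ (by norm_num)]

theorem corr_term {ζ : ℂ} {M : ℕ} (hM : 1 ≤ M) (hζ : IsPrimitiveRoot ζ (2 * M + 1)) {i : ℕ}
    (hi : i < (M + 1) / 2) (A : ℤ[X])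
    (hA : (PowerSeries.X : PowerSeries ℂ) ^ 2 ∣
      br (qz ζ) (2 * i + 1) * aeval (qz ζ) A - br (qz ζ) (2 * M + 1)) :
    (PowerSeries.X : PowerSeries ℂ) ^ 4 ∣
      (1 - qz ζ ^ (2 * M + 1)) ^ 3 * PowerSeries.C (ζ / (1 - ζ) ^ 2 *
        ((1 - ζ ^ (2 * i * (i + 1))) * (1 - ζ ^ (4 * i + 2)) /
          (1 - 2 * ζ ^ (2 * i + 1) + ζ ^ (4 * i + 2)))) -
      br (qz ζ) (2 * M + 1) ^ 2 * (aeval (qz ζ) A * qz ζ * (1 - qz ζ ^ (2 * i * (i + 1))) *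
        (1 + qz ζ ^ (2 * i + 1))) := by
  have h1 : ζ ≠ 1 := hζ.ne_one (by omega)
  have hm : ζ ^ (2 * i + 1) ≠ 1 := hζ.pow_ne_one_of_pos_of_lt (by omega) (by omega)
  have h1' : (1 : ℂ) - ζ ≠ 0 := sub_ne_zero.mpr h1.symm
  have hm' : (1 : ℂ) - ζ ^ (2 * i + 1) ≠ 0 := sub_ne_zero.mpr hm.symm
  have hB : (PowerSeries.X : PowerSeries ℂ) ∣ br (qz ζ) (2 * M + 1) :=
    X_dvd_br hζ.pow_eq_one h1
  set q := qz ζ with hq
  set B := br q (2 * M + 1) with hBdef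
  set m := 2 * i + 1 with hmdef
  set e := 2 * i * (i + 1) with he
  have h4 : 4 * i + 2 = 2 * m := by omega
  rw [h4]
  set v : ℂ := ζ / (1 - ζ) ^ 2 * ((1 - ζ ^ e) * (1 - ζ ^ (2 * m)) /
    (1 - 2 * ζ ^ m + ζ ^ (2 * m))) with hv
  -- unit
  have hu : PowerSeries.constantCoeff (br q m) ≠ 0 := by
    rw [map_br, hq, cc_qz]
    intro h0
    have := br_mul ζ m
    rw [h0, mul_zero] at this
    exact hm' this.symm
  have key : (PowerSeries.X : PowerSeries ℂ) ^ 4 ∣ br q m *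
      ((1 - q ^ (2 * M + 1)) ^ 3 * PowerSeries.C v -
        B ^ 2 * (aeval q A * q * (1 - q ^ e) * (1 + q ^ m))) := by
    obtain ⟨a, ha⟩ := hA
    obtain ⟨b, hb⟩ := hB
    have hy : (1 - q ^ (2 * M + 1)) = (1 - q) * B := (br_mul q (2 * M + 1)).symm
    have hc : (PowerSeries.X : PowerSeries ℂ) ∣
        (1 - q) ^ 3 * PowerSeries.C v * br q m - q * (1 - q ^ e) * (1 + q ^ m) := by
      rw [PowerSeries.X_dvd_iff]
      simp only [map_sub, map_mul, map_pow, map_one, map_add, PowerSeries.constantCoeff_C,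
        map_br, hq, cc_qz]
      have hbr : (1 - ζ) * br ζ m = 1 - ζ ^ m := br_mul ζ m
      have hden : (1 : ℂ) - 2 * ζ ^ m + ζ ^ (2 * m) = (1 - ζ ^ m) ^ 2 := by ring
      have hnum : (1 : ℂ) - ζ ^ (2 * m) = (1 - ζ ^ m) * (1 + ζ ^ m) := by ring
      have hv2 : v * (1 - ζ) ^ 2 * (1 - ζ ^ m) = ζ * (1 - ζ ^ e) * (1 + ζ ^ m) := by
        rw [hv, hden, hnum]
        field_simp
      linear_combination (v * (1 - ζ) ^ 2) * hbr + hv2
    obtain ⟨c, hc⟩ := hc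
    have hA' : br q m * aeval q A = B + PowerSeries.X ^ 2 * a := by
      linear_combination ha
    have : br q m * ((1 - q ^ (2 * M + 1)) ^ 3 * PowerSeries.C v -
        B ^ 2 * (aeval q A * q * (1 - q ^ e) * (1 + q ^ m))) =
        PowerSeries.X ^ 4 * (b ^ 3 * c - b ^ 2 * a * (q * (1 - q ^ e) * (1 + q ^ m))) := by
      rw [hy]
      have e1 : br q m * (((1 - q) * B) ^ 3 * PowerSeries.C v -
        B ^ 2 * (aeval q A * q * (1 - q ^ e) * (1 + q ^ m))) =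
          B ^ 3 * ((1 - q) ^ 3 * PowerSeries.C v * br q m) -
          B ^ 2 * (br q m * aeval q A) * (q * (1 - q ^ e) * (1 + q ^ m)) := by ring
      have e2 : (1 - q) ^ 3 * PowerSeries.C v * br q m = q * (1 - q ^ e) * (1 + q ^ m) +
        PowerSeries.X * c := by linear_combination hc
      rw [e1, hA', e2, hb]
      ring
    rw [this]
    exact Dvd.intro _ rfl
  have hinv := ps_inv hu
  set E := (1 - q ^ (2 * M + 1)) ^ 3 * PowerSeries.C v -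
        B ^ 2 * (aeval q A * q * (1 - q ^ e) * (1 + q ^ m)) with hE
  have this : E = (br q m)⁻¹ * (br q m * E) := by
    calc E = (br q m * (br q m)⁻¹) * E := by rw [hinv, one_mul]
      _ = _ := by ring
  rw [this]
  exact Dvd.dvd.mul_left key _

theorem aeval_FF {ζ : ℂ} {d : ℕ} (hζ : ζ ^ (2 * d + 1) = 1) (M : ℕ) (A : ℕ → ℤ[X]) :
    aeval (qz ζ) (FF M A) =
      (pE (qz ζ) (2 * M) ^ 4 * qz ζ ^ (M * (2 * M + 1))) ^ 2 *
        (conv (t16 (qz ζ)) (2 * M + 1) - conv (t8 (qz ζ)) (2 * M + 1)) -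
      br (qz ζ) (2 * M + 1) ^ 2 * (pE (qz ζ) (2 * M) ^ 8 *
        (qz ζ ^ (2 * (M * (2 * M + 1)) - 2 * M) - qz ζ ^ (2 * (M * (2 * M + 1)) + 2 * M ^ 2))) -
      br (qz ζ) (2 * M + 1) ^ 2 * (2 * (pE (qz ζ) (2 * M) ^ 8 *
        qz ζ ^ (2 * (M * (2 * M + 1))) * ∑ i ∈ range ((M + 1) / 2),
          aeval (qz ζ) (A i) * qz ζ * (1 - qz ζ ^ (2 * i * (i + 1))) *
            (1 + qz ζ ^ (2 * i + 1)))) := by
  have h1 := map_br (aeval (R := ℤ) (qz ζ)).toRingHom X (2 * M + 1)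
  have h3 := map_pE (aeval (R := ℤ) (qz ζ)).toRingHom X (2 * M)
  simp only [AlgHom.toRingHom_eq_coe, RingHom.coe_coe, aeval_X] at h1 h3
  have h8 := aeval_conv8 hζ (2 * M + 1)
  have h16 := aeval_conv16 hζ (2 * M + 1)
  rw [pref_eq, Nat.add_sub_cancel] at h8 h16
  unfold FF corr
  simp only [map_sub, map_mul, map_pow, map_one, map_add, map_sum, aeval_X, h1, h3, h8, h16,
    map_ofNat]
  ring

theorem FF_local2 {ζ : ℂ} {M : ℕ} (A : ℕ → ℤ[X]) (hζ : ζ ^ (2 * M + 1) = 1) (h1 : ζ ≠ 1) :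
    (PowerSeries.X : PowerSeries ℂ) ^ 2 ∣ aeval (qz ζ) (FF M A) := by
  have hB : (PowerSeries.X : PowerSeries ℂ) ^ 2 ∣ br (qz ζ) (2 * M + 1) ^ 2 :=
    pow_dvd_pow_of_dvd (X_dvd_br hζ h1) 2
  have hprim := IsPrimitiveRoot.orderOf ζ
  have hdvd : orderOf ζ ∣ 2 * M + 1 := orderOf_dvd_of_pow_eq_one hζ
  obtain ⟨N, hN⟩ := hdvd
  have hodd : ¬ 2 ∣ orderOf ζ := by
    intro h2
    have : 2 ∣ 2 * M + 1 := hN ▸ Dvd.dvd.mul_right h2 N
    omega
  obtain ⟨m, hm⟩ : ∃ m, orderOf ζ = 2 * m + 1 := ⟨orderOf ζ / 2, by omega⟩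
  have hm1 : 1 ≤ m := by
    rcases Nat.eq_zero_or_pos m with h0 | h0
    · subst h0
      rw [mul_zero, zero_add, orderOf_eq_one_iff] at hm
      exact absurd hm h1
    · exact h0
  rw [hm] at hprim hN
  have hN' : 2 * M + 1 = N * (2 * m + 1) := by rw [hN, mul_comm]
  have c8 := conv8_block hm1 hprim N
  have c16 := conv16_block hm1 hprim N
  rw [← hN'] at c8 c16
  rw [aeval_FF hζ]
  refine dvd_sub (dvd_sub ?_ ?_) ?_
  · exact Dvd.dvd.mul_left (dvd_sub c16 c8) _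
  · exact Dvd.dvd.mul_right hB _
  · exact Dvd.dvd.mul_right hB _

theorem FF_local4 {ζ : ℂ} {M : ℕ} (hM : 1 ≤ M) (A : ℕ → ℤ[X])
    (hζ : IsPrimitiveRoot ζ (2 * M + 1))
    (hA : ∀ i, i < (M + 1) / 2 → (PowerSeries.X : PowerSeries ℂ) ^ 2 ∣
      br (qz ζ) (2 * i + 1) * aeval (qz ζ) (A i) - br (qz ζ) (2 * M + 1)) :
    (PowerSeries.X : PowerSeries ℂ) ^ 4 ∣ aeval (qz ζ) (FF M A) := by
  have c8 := conv8_local hM hζ
  have c16 := conv16_local hM hζ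
  obtain ⟨x8, hx8⟩ := c8
  obtain ⟨x16, hx16⟩ := c16
  rw [aeval_FF hζ.pow_eq_one]
  have hV : V16 ζ 2 M - V8 ζ 2 M = ∑ i ∈ range ((M + 1) / 2), ζ / (1 - ζ) ^ 2 *
        ((1 - ζ ^ (2 * i * (i + 1))) * (1 - ζ ^ (4 * i + 2)) /
          (1 - 2 * ζ ^ (2 * i + 1) + ζ ^ (4 * i + 2))) := by
    unfold V16 V8
    rw [← mul_sub, ← Finset.sum_sub_distrib, Finset.mul_sum]
    apply Finset.sum_congr rfl
    intro i _
    ring
  have hsum : (PowerSeries.X : PowerSeries ℂ) ^ 4 ∣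
      (1 - qz ζ ^ (2 * M + 1)) ^ 3 * PowerSeries.C (V16 ζ 2 M - V8 ζ 2 M) -
      br (qz ζ) (2 * M + 1) ^ 2 * ∑ i ∈ range ((M + 1) / 2),
          aeval (qz ζ) (A i) * qz ζ * (1 - qz ζ ^ (2 * i * (i + 1))) *
            (1 + qz ζ ^ (2 * i + 1)) := by
    rw [hV, map_sum, Finset.mul_sum, Finset.mul_sum, ← Finset.sum_sub_distrib]
    apply Finset.dvd_sum
    intro i hi
    rw [Finset.mem_range] at hi
    exact corr_term hM hζ hi (A i) (hA i hi)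
  obtain ⟨x, hx⟩ := hsum
  set q := qz ζ with hq
  set B := br q (2 * M + 1)
  set S := ∑ i ∈ range ((M + 1) / 2),
          aeval q (A i) * q * (1 - q ^ (2 * i * (i + 1))) * (1 + q ^ (2 * i + 1))
  have hle : 2 * M ≤ 2 * (M * (2 * M + 1)) := by nlinarith
  have hqi : q ^ (2 * M) * (q ^ (2 * M))⁻¹ = 1 := by
    apply ps_inv
    rw [map_pow, hq, cc_qz]
    exact pow_ne_zero _ (zeta_ne_zero hζ.pow_eq_one)
  have hpow : q ^ (2 * (M * (2 * M + 1))) = q ^ (2 * (M * (2 * M + 1)) - 2 * M) * q ^ (2 * M) := by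
    rw [← pow_add]
    congr 1
    omega
  have h16' : conv (t16 q) (2 * M + 1) = B ^ 2 * (q ^ (2 * M))⁻¹ +
        2 * (1 - q ^ (2 * M + 1)) ^ 3 * PowerSeries.C (V16 ζ 2 M) + PowerSeries.X ^ 4 * x16 := by
    linear_combination hx16
  have h8' : conv (t8 q) (2 * M + 1) = B ^ 2 * q ^ (2 * M ^ 2) +
        2 * (1 - q ^ (2 * M + 1)) ^ 3 * PowerSeries.C (V8 ζ 2 M) + PowerSeries.X ^ 4 * x8 := by
    linear_combination hx8
  rw [map_sub] at hx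
  rw [h16', h8']
  refine ⟨pE q (2 * M) ^ 8 * q ^ (2 * (M * (2 * M + 1))) * (x16 - x8 + 2 * x), ?_⟩
  have e1 : (pE q (2 * M) ^ 4 * q ^ (M * (2 * M + 1))) ^ 2 =
      pE q (2 * M) ^ 8 * q ^ (2 * (M * (2 * M + 1))) := by ring
  have e2 : q ^ (2 * (M * (2 * M + 1))) * (q ^ (2 * M))⁻¹ =
      q ^ (2 * (M * (2 * M + 1)) - 2 * M) := by
    rw [hpow, mul_assoc, hqi, mul_one]
  have e3 : q ^ (2 * (M * (2 * M + 1)) + 2 * M ^ 2) =
      q ^ (2 * (M * (2 * M + 1))) * q ^ (2 * M ^ 2) := pow_add _ _ _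
  rw [e1, e3]
  linear_combination (pE q (2 * M) ^ 8 * B ^ 2) * e2 +
    (2 * pE q (2 * M) ^ 8 * q ^ (2 * (M * (2 * M + 1)))) * hx

theorem eval_PP8 {n k : ℕ} : (PP8 n k).eval 1 =
    (-1) ^ k * (3 * k + 1 : ℤ) * (Nat.centralBinom k) ^ 3 * (2 ^ (n - 1) * 8 ^ (n - 1 - k)) := by
  have h1 := map_br (evalRingHom (1 : ℤ)) X (3 * k + 1)
  have h2 := cq_map (evalRingHom (1 : ℤ)) X k
  have h3 := map_pE (evalRingHom (1 : ℤ)) X (n - 1)
  simp only [coe_evalRingHom, eval_X] at h1 h2 h3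
  have h4 : br (1 : ℤ) (3 * k + 1) = 3 * k + 1 := by simp [br]
  have h5 : pE (1 : ℤ) (n - 1) = 2 ^ (n - 1) := by simp [pE]
  unfold PP8
  simp only [eval_mul, eval_pow, eval_neg, eval_one, eval_prod, eval_add, eval_X, one_pow, h1,
    h2, h3, h4, h5, cq_one, Finset.prod_const, Nat.card_Ico, mul_one]
  have : ((1 + 1 : ℤ) ^ (n - 1 - k)) ^ 3 = 8 ^ (n - 1 - k) := by
    rw [← pow_mul, mul_comm, pow_mul]; norm_num
  rw [this]
  ring

theorem eval_PP16 {n k : ℕ} : (PP16 n k).eval 1 =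
    (3 * k + 1 : ℤ) * (Nat.centralBinom k) ^ 3 * 16 ^ (n - 1 - k) := by
  have h1 := map_br (evalRingHom (1 : ℤ)) X (3 * k + 1)
  have h2 := cq_map (evalRingHom (1 : ℤ)) X k
  simp only [coe_evalRingHom, eval_X] at h1 h2
  have h4 : br (1 : ℤ) (3 * k + 1) = 3 * k + 1 := by simp [br]
  unfold PP16
  simp only [eval_mul, eval_pow, eval_one, eval_prod, eval_add, eval_X, one_pow, h1,
    h2, h4, cq_one, Finset.prod_const, Nat.card_Ico, mul_one]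
  have : ((1 + 1 : ℤ) ^ (n - 1 - k)) ^ 4 = 16 ^ (n - 1 - k) := by
    rw [← pow_mul, mul_comm, pow_mul]; norm_num
  rw [this]

theorem eval_FF (M : ℕ) (A : ℕ → ℤ[X]) : (FF M A).eval 1 =
    (conv (PP16 (2 * M + 1)) (2 * M + 1)).eval 1 - (conv (PP8 (2 * M + 1)) (2 * M + 1)).eval 1 := by
  unfold FF corr
  simp only [eval_sub, eval_mul, eval_pow, eval_one, eval_add, eval_X, one_pow, sub_self,
    mul_zero, zero_mul, sub_zero, eval_finsetSum, Finset.sum_const_zero]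

theorem result_int' {p r : ℕ} (hp : p.Prime) (hp2 : p ≠ 2) (hr : 1 ≤ r) :
    (p : ℤ) ^ (2 * r + 2) ∣
      (∑ i ∈ range (p ^ r), (3 * i + 1 : ℤ) * (Nat.centralBinom i) ^ 3 * 16 ^ (p ^ r - 1 - i) *
          ∑ j ∈ range (p ^ r - i), (3 * j + 1 : ℤ) * (Nat.centralBinom j) ^ 3 *
            16 ^ (p ^ r - 1 - j)) -
      ∑ i ∈ range (p ^ r), (-1) ^ i * (3 * i + 1 : ℤ) * (Nat.centralBinom i) ^ 3 *
          (2 ^ (p ^ r - 1) * 8 ^ (p ^ r - 1 - i)) *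
          ∑ j ∈ range (p ^ r - i), (-1) ^ j * (3 * j + 1 : ℤ) * (Nat.centralBinom j) ^ 3 *
            (2 ^ (p ^ r - 1) * 8 ^ (p ^ r - 1 - j)) := by
  have hodd : Odd (p ^ r) := (hp.odd_of_ne_two hp2).pow
  obtain ⟨M, hM⟩ := hodd
  have h3 : 3 ≤ p ^ r := by
    have h3p : 3 ≤ p := by
      have := hp.two_le
      omega
    calc 3 ≤ p := h3p
      _ = p ^ 1 := (pow_one p).symm
      _ ≤ p ^ r := Nat.pow_le_pow_right hp.pos hr
  have hM1 : 1 ≤ M := by omega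
  have hex : ∀ i : ℕ, ∃ A : ℤ[X], i < (M + 1) / 2 → ∀ ζ : ℂ, IsPrimitiveRoot ζ (2 * M + 1) →
      (PowerSeries.X : PowerSeries ℂ) ^ 2 ∣
        br (qz ζ) (2 * i + 1) * aeval (qz ζ) A - br (qz ζ) (2 * M + 1) := by
    intro i
    by_cases hi : i < (M + 1) / 2
    · obtain ⟨A, hA⟩ := exists_quot (n := 2 * M + 1) (m := 2 * i + 1) (by omega) (by omega)
      exact ⟨A, fun _ => hA⟩
    · exact ⟨0, fun h => absurd h hi⟩
  choose A hA using hex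
  have key := eval_one_dvd hp hp2 hr (FF M A)
    (fun ζ h1 h2 => FF_local2 A (hM ▸ h1) h2)
    (fun ζ h1 => FF_local4 hM1 A (hM ▸ h1) (fun i hi => hA i hi ζ (hM ▸ h1)))
  rw [eval_FF, ← hM] at key
  have e16 : (conv (PP16 (p ^ r)) (p ^ r)).eval 1 =
      ∑ i ∈ range (p ^ r), (3 * i + 1 : ℤ) * (Nat.centralBinom i) ^ 3 * 16 ^ (p ^ r - 1 - i) *
          ∑ j ∈ range (p ^ r - i), (3 * j + 1 : ℤ) * (Nat.centralBinom j) ^ 3 *
            16 ^ (p ^ r - 1 - j) := by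
    unfold conv
    rw [eval_finsetSum]
    apply Finset.sum_congr rfl
    intro i hi
    rw [Finset.mem_range] at hi
    rw [eval_mul, eval_PP16, eval_finsetSum]
    congr 1
    apply Finset.sum_congr rfl
    intro j hj
    rw [Finset.mem_range] at hj
    exact eval_PP16
  have e8 : (conv (PP8 (p ^ r)) (p ^ r)).eval 1 =
      ∑ i ∈ range (p ^ r), (-1) ^ i * (3 * i + 1 : ℤ) * (Nat.centralBinom i) ^ 3 *
          (2 ^ (p ^ r - 1) * 8 ^ (p ^ r - 1 - i)) *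
          ∑ j ∈ range (p ^ r - i), (-1) ^ j * (3 * j + 1 : ℤ) * (Nat.centralBinom j) ^ 3 *
            (2 ^ (p ^ r - 1) * 8 ^ (p ^ r - 1 - j)) := by
    unfold conv
    rw [eval_finsetSum]
    apply Finset.sum_congr rfl
    intro i hi
    rw [Finset.mem_range] at hi
    rw [eval_mul, eval_PP8, eval_finsetSum]
    congr 1
    apply Finset.sum_congr rfl
    intro j hj
    rw [Finset.mem_range] at hj
    exact eval_PP8
  rw [e16, e8] at key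
  exact key

end SC322.P13
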