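import Pool.Agent.SC322.P13

namespace SC322.P14

open SC322 SC322.P13 Finset

/-- transfer from the integral statement to the rational numbers -/
theorem main_rat {p r : ℕ} (hp : p.Prime) (hp2 : p ≠ 2) (hr : 1 ≤ r) :
    (p : ℤ) ^ (2 * r + 2) ∣
      (∑ k ∈ range (p ^ r), ((1 : ℚ) / 16 ^ k - 1 / (-8) ^ k) *
        ∑ j ∈ range (k + 1), ((2 * j).choose j : ℚ) ^ 3 * ((2 * (k - j)).choose (k - j) : ℚ) ^ 3 *
          (3 * (j : ℚ) + 1) * (3 * ((k - j : ℕ) : ℚ) + 1)).num := by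
  have key := result_int' hp hp2 hr
  set n := p ^ r with hn
  have hn1 : 1 ≤ n := Nat.one_le_pow _ _ hp.pos
  set I : ℤ := (∑ i ∈ range n, (3 * i + 1 : ℤ) * (Nat.centralBinom i) ^ 3 * 16 ^ (n - 1 - i) *
          ∑ j ∈ range (n - i), (3 * j + 1 : ℤ) * (Nat.centralBinom j) ^ 3 *
            16 ^ (n - 1 - j)) -
      ∑ i ∈ range n, (-1) ^ i * (3 * i + 1 : ℤ) * (Nat.centralBinom i) ^ 3 *
          (2 ^ (n - 1) * 8 ^ (n - 1 - i)) *
          ∑ j ∈ range (n - i), (-1) ^ j * (3 * j + 1 : ℤ) * (Nat.centralBinom j) ^ 3 *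
            (2 ^ (n - 1) * 8 ^ (n - 1 - j)) with hI
  set x : ℚ := ∑ k ∈ range n, ((1 : ℚ) / 16 ^ k - 1 / (-8) ^ k) *
        ∑ j ∈ range (k + 1), ((2 * j).choose j : ℚ) ^ 3 * ((2 * (k - j)).choose (k - j) : ℚ) ^ 3 *
          (3 * (j : ℚ) + 1) * (3 * ((k - j : ℕ) : ℚ) + 1) with hx
  -- general convolution identity for a ratio `y`
  have conv_id : ∀ y : ℚ, ∑ k ∈ range n, y ^ k *
        ∑ j ∈ range (k + 1), ((2 * j).choose j : ℚ) ^ 3 * ((2 * (k - j)).choose (k - j) : ℚ) ^ 3 *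
          (3 * (j : ℚ) + 1) * (3 * ((k - j : ℕ) : ℚ) + 1) =
      ∑ i ∈ range n, (3 * (i : ℚ) + 1) * (Nat.centralBinom i : ℚ) ^ 3 * y ^ i *
        ∑ j ∈ range (n - i), (3 * (j : ℚ) + 1) * (Nat.centralBinom j : ℚ) ^ 3 * y ^ j := by
    intro y
    have h := Finset.sum_range_diag_flip n (fun i j : ℕ =>
      ((3 * (i : ℚ) + 1) * (Nat.centralBinom i : ℚ) ^ 3 * y ^ i) *
        ((3 * (j : ℚ) + 1) * (Nat.centralBinom j : ℚ) ^ 3 * y ^ j))
    calc _ = ∑ m ∈ range n, ∑ k ∈ range (m + 1),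
        ((3 * (k : ℚ) + 1) * (Nat.centralBinom k : ℚ) ^ 3 * y ^ k) *
        ((3 * ((m - k : ℕ) : ℚ) + 1) * (Nat.centralBinom (m - k) : ℚ) ^ 3 * y ^ (m - k)) := by
          apply Finset.sum_congr rfl
          intro m _
          rw [Finset.mul_sum]
          apply Finset.sum_congr rfl
          intro k hk
          rw [Finset.mem_range] at hk
          have e : y ^ m = y ^ k * y ^ (m - k) := by
            rw [← pow_add]; congr 1; omega
          rw [e, Nat.centralBinom_eq_two_mul_choose, Nat.centralBinom_eq_two_mul_choose]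
          ring
      _ = _ := by
          rw [h]
          apply Finset.sum_congr rfl
          intro i _
          rw [Finset.mul_sum]
  have hx2 : x = (∑ k ∈ range n, (1 / 16 : ℚ) ^ k *
        ∑ j ∈ range (k + 1), ((2 * j).choose j : ℚ) ^ 3 * ((2 * (k - j)).choose (k - j) : ℚ) ^ 3 *
          (3 * (j : ℚ) + 1) * (3 * ((k - j : ℕ) : ℚ) + 1)) -
      ∑ k ∈ range n, (-1 / 8 : ℚ) ^ k *
        ∑ j ∈ range (k + 1), ((2 * j).choose j : ℚ) ^ 3 * ((2 * (k - j)).choose (k - j) : ℚ) ^ 3 *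
          (3 * (j : ℚ) + 1) * (3 * ((k - j : ℕ) : ℚ) + 1) := by
    rw [hx, ← Finset.sum_sub_distrib]
    apply Finset.sum_congr rfl
    intro k _
    have e1 : (1 / 16 : ℚ) ^ k = 1 / 16 ^ k := by rw [div_pow, one_pow]
    have e2 : (-1 / 8 : ℚ) ^ k = 1 / (-8) ^ k := by
      rw [show (-1 / 8 : ℚ) = 1 / (-8) by norm_num, div_pow, one_pow]
    rw [e1, e2]
    ring
  have hIx : (I : ℚ) = 2 ^ (8 * (n - 1)) * x := by
    rw [hx2, conv_id, conv_id, mul_sub, hI]
    push_cast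
    congr 1
    · rw [Finset.mul_sum]
      apply Finset.sum_congr rfl
      intro i hi
      rw [Finset.mem_range] at hi
      have hs : ∑ j ∈ range (n - i), (3 * (j : ℚ) + 1) * (Nat.centralBinom j : ℚ) ^ 3 *
          16 ^ (n - 1 - j) = 16 ^ (n - 1) * ∑ j ∈ range (n - i), (3 * (j : ℚ) + 1) *
            (Nat.centralBinom j : ℚ) ^ 3 * (1 / 16) ^ j := by
        rw [Finset.mul_sum]
        apply Finset.sum_congr rfl
        intro j hj
        rw [Finset.mem_range] at hj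
        have e : (16 : ℚ) ^ (n - 1) = 16 ^ (n - 1 - j) * 16 ^ j := by
          rw [← pow_add]; congr 1; omega
        rw [e, div_pow, one_pow]
        field_simp
      rw [hs]
      have e : (16 : ℚ) ^ (n - 1) = 16 ^ (n - 1 - i) * 16 ^ i := by
        rw [← pow_add]; congr 1; omega
      have e2 : (2 : ℚ) ^ (8 * (n - 1)) = 16 ^ (n - 1) * 16 ^ (n - 1) := by
        rw [← mul_pow, pow_mul]; norm_num
      rw [e2]
      have e3 : (16 : ℚ) ^ (n - 1 - i) = 16 ^ (n - 1) * (1 / 16) ^ i := by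
        rw [e, div_pow, one_pow]; field_simp
      rw [e3]
      ring
    · rw [Finset.mul_sum]
      apply Finset.sum_congr rfl
      intro i hi
      rw [Finset.mem_range] at hi
      have e0 : ∀ j, j ≤ n - 1 → (-1 : ℚ) ^ j * 8 ^ (n - 1 - j) = 8 ^ (n - 1) * (-1 / 8) ^ j := by
        intro j hj
        have e : (8 : ℚ) ^ (n - 1) = 8 ^ (n - 1 - j) * 8 ^ j := by
          rw [← pow_add]; congr 1; omega
        rw [e, div_pow]
        field_simp
      have hs : ∑ j ∈ range (n - i), (-1) ^ j * (3 * (j : ℚ) + 1) *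
          (Nat.centralBinom j : ℚ) ^ 3 * (2 ^ (n - 1) * 8 ^ (n - 1 - j)) =
          2 ^ (n - 1) * 8 ^ (n - 1) * ∑ j ∈ range (n - i), (3 * (j : ℚ) + 1) *
            (Nat.centralBinom j : ℚ) ^ 3 * (-1 / 8) ^ j := by
        rw [Finset.mul_sum]
        apply Finset.sum_congr rfl
        intro j hj
        rw [Finset.mem_range] at hj
        linear_combination ((3 * (j : ℚ) + 1) * (Nat.centralBinom j : ℚ) ^ 3 * 2 ^ (n - 1)) *
          e0 j (by omega)
      rw [hs]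
      have e2 : (2 : ℚ) ^ (8 * (n - 1)) = (2 ^ (n - 1) * 8 ^ (n - 1)) *
          (2 ^ (n - 1) * 8 ^ (n - 1)) := by
        rw [← mul_pow, ← mul_pow, pow_mul]; norm_num
      rw [e2]
      linear_combination ((3 * (i : ℚ) + 1) * (Nat.centralBinom i : ℚ) ^ 3 * 2 ^ (n - 1) *
        (2 ^ (n - 1) * 8 ^ (n - 1) * ∑ j ∈ range (n - i), (3 * (j : ℚ) + 1) *
            (Nat.centralBinom j : ℚ) ^ 3 * (-1 / 8) ^ j)) * e0 i (by omega)
  -- numerators
  have hnum : I * x.den = 2 ^ (8 * (n - 1)) * x.num := by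
    have h1 : (I : ℚ) * x.den = 2 ^ (8 * (n - 1)) * x.num := by
      rw [hIx, mul_assoc, Rat.mul_den_eq_num]
    exact_mod_cast h1
  have hd : (p : ℤ) ^ (2 * r + 2) ∣ 2 ^ (8 * (n - 1)) * x.num := by
    rw [← hnum]
    exact Dvd.dvd.mul_right key _
  have hcop : IsCoprime ((p : ℤ) ^ (2 * r + 2)) (2 ^ (8 * (n - 1))) := by
    apply IsCoprime.pow
    have : Nat.Coprime p 2 := (Nat.coprime_primes hp Nat.prime_two).mpr hp2
    exact_mod_cast Nat.isCoprime_iff_coprime.mpr this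
  exact hcop.dvd_of_dvd_mul_left hd

end SC322.P14
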