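import Pool.Agent.SC322.Defs2

/-!
# P2: the q-WZ pairs and the exact evaluation at `a = q^(2M+1)` (helper29)
-/

namespace SC322

open Finset Polynomial

section WZ

variable {K : Type*} [Field K]

/-- `1 - s X + X^2 = (1 - a X) (1 - X / a)` -/
theorem quad_fac {a : K} (ha : a ≠ 0) (X : K) :
    1 - (a + a⁻¹) * X + X ^ 2 = (1 - a * X) * (1 - X / a) := by
  field_simp
  ring

theorem br_mul (q : K) (m : ℕ) : br q m * (1 - q) = 1 - q ^ m := by
  unfold br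
  rw [mul_comm, mul_neg_geom_sum]

theorem br_eq {q : K} (hq : 1 - q ≠ 0) (m : ℕ) : br q m = (1 - q ^ m) / (1 - q) := by
  rw [eq_div_iff hq, br_mul]

theorem f8_zero (q s : K) : f8 q s 0 = 1 := by simp [f8, pO, pA, pQ, pB]

theorem f16_zero (q s : K) : f16 q s 0 = 1 := by simp [f16, pO, pA, pQ, pB, pE]

theorem f8_succ (q s : K) (l : ℕ) : f8 q s (l + 1) = f8 q s l *
    (-((1 - q ^ (2 * l + 1)) * (1 - s * q ^ (2 * l + 1) + q ^ (4 * l + 2))) /
      ((1 - q ^ (l + 1)) * (1 - s * q ^ (l + 1) + q ^ (2 * l + 2)))) := by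
  simp only [f8, pO, pA, pQ, pB, prod_range_succ, pow_succ (-1 : K)]
  rw [div_mul_div_comm]
  congr 1 <;> ring

theorem f16_succ (q s : K) (l : ℕ) : f16 q s (l + 1) = f16 q s l *
    ((1 - q ^ (2 * l + 1)) * (1 - s * q ^ (2 * l + 1) + q ^ (4 * l + 2)) /
      ((1 - q ^ (l + 1)) * (1 + q ^ (l + 1)) * (1 - s * q ^ (l + 1) + q ^ (2 * l + 2)) *
        q ^ (l + 1))) := by
  have h : (l + 1) * (l + 1 + 1) / 2 = l * (l + 1) / 2 + (l + 1) := by
    have : (l + 1) * (l + 1 + 1) = l * (l + 1) + (l + 1) * 2 := by ring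
    rw [this, Nat.add_mul_div_right _ _ (by norm_num)]
  simp only [f16, pO, pA, pQ, pB, pE, prod_range_succ, h, pow_add q (l * (l + 1) / 2) (l + 1)]
  rw [div_mul_div_comm]
  congr 1 <;> ring

theorem pA_shift {q a : K} (hq : q ≠ 0) (ha : a ≠ 0) (l : ℕ) :
    pA q (a * q ^ 2 + (a * q ^ 2)⁻¹) l * ((1 - a * q) * (1 - q ^ (2 * l) / (a * q))) =
      pA q (a + a⁻¹) l * ((1 - a * q * q ^ (2 * l)) * (1 - 1 / (a * q))) := by
  have haq : a * q ^ 2 ≠ 0 := mul_ne_zero ha (pow_ne_zero _ hq)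
  induction l with
  | zero => simp [pA]
  | succ l ih =>
    have e1 : pA q (a * q ^ 2 + (a * q ^ 2)⁻¹) (l + 1) =
        pA q (a * q ^ 2 + (a * q ^ 2)⁻¹) l *
          ((1 - a * q * q ^ (2 * l) * q ^ 2) * (1 - q ^ (2 * l) / (a * q))) := by
      have h4 : (4 * l + 2) = (2 * l + 1) * 2 := by ring
      rw [pA, prod_range_succ, ← pA, h4, pow_mul, quad_fac haq]
      congr 2
      · ring
      · rw [pow_succ]
        field_simp
    have e2 : pA q (a + a⁻¹) (l + 1) = pA q (a + a⁻¹) l *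
          ((1 - a * q * q ^ (2 * l)) * (1 - q ^ (2 * l) * q ^ 2 / (a * q))) := by
      have h4 : (4 * l + 2) = (2 * l + 1) * 2 := by ring
      rw [pA, prod_range_succ, ← pA, h4, pow_mul, quad_fac ha]
      congr 2
      · ring
      · rw [pow_succ]
        field_simp
    have e3 : q ^ (2 * (l + 1)) = q ^ (2 * l) * q ^ 2 := by ring
    rw [e1, e2, e3]
    linear_combination ((1 - a * q * q ^ (2 * l) * q ^ 2) * (1 - q ^ (2 * l) * q ^ 2 / (a * q))) * ih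

theorem pB_shift {q a : K} (hq : q ≠ 0) (ha : a ≠ 0) (l : ℕ) :
    pB q (a * q ^ 2 + (a * q ^ 2)⁻¹) l *
        ((1 - a * q) * (1 - a * q * q) * (1 - q ^ l / (a * q)) * (1 - q ^ l / a)) =
      pB q (a + a⁻¹) l *
        ((1 - a * q * q ^ l) * (1 - a * q * q * q ^ l) * (1 - 1 / (a * q)) * (1 - 1 / a)) := by
  have haq : a * q ^ 2 ≠ 0 := mul_ne_zero ha (pow_ne_zero _ hq)
  induction l with
  | zero => simp [pB]
  | succ l ih =>
    have e1 : pB q (a * q ^ 2 + (a * q ^ 2)⁻¹) (l + 1) =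
        pB q (a * q ^ 2 + (a * q ^ 2)⁻¹) l *
          ((1 - a * q * q * q ^ l * q) * (1 - q ^ l / (a * q))) := by
      have h4 : (2 * l + 2) = (l + 1) * 2 := by ring
      rw [pB, prod_range_succ, ← pB, h4, pow_mul, quad_fac haq]
      congr 2
      · ring
      · rw [pow_succ]
        field_simp
    have e2 : pB q (a + a⁻¹) (l + 1) = pB q (a + a⁻¹) l *
          ((1 - a * q * q ^ l) * (1 - q ^ l * q / a)) := by
      have h4 : (2 * l + 2) = (l + 1) * 2 := by ring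
      rw [pB, prod_range_succ, ← pB, h4, pow_mul, quad_fac ha]
      congr 2
      · ring
      · rw [pow_succ]
    have e3 : q ^ (l + 1) = q ^ l * q := by ring
    have e4 : q ^ l * q / (a * q) = q ^ l / a := by field_simp
    rw [e1, e2, e3, e4]
    linear_combination ((1 - a * q * q * q ^ l * q) * (1 - q ^ l * q / a)) * ih

/-- nonvanishing conditions for the shift `a → a q^2` at `l` -/
structure Good (q a : K) (l : ℕ) : Prop where
  hq : q ≠ 0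
  ha : a ≠ 0
  q1 : 1 - q ≠ 0
  a1 : 1 - a ≠ 0
  b1 : 1 - a * q ≠ 0
  bq1 : 1 - a * q * q ≠ 0
  bY : 1 - a * q * q ^ l ≠ 0
  bqY : 1 - a * q * q * q ^ l ≠ 0
  Yb : a * q - q ^ l ≠ 0
  Ya : a - q ^ l ≠ 0
  Y2b : a * q - q ^ (2 * l) ≠ 0

/-- the ratio `ρ8 f8(l, a q^2) / f8(l, a)` -/
theorem shift8 {q a : K} {l : ℕ} (h : Good q a l) :
    -(1 - a) / (a * (1 - a * q ^ 2)) * f8 q (a * q ^ 2 + (a * q ^ 2)⁻¹) l =
      f8 q (a + a⁻¹) l * ((1 - a * q * q ^ (2 * l)) * (1 - q ^ l / (a * q)) * (1 - q ^ l / a) /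
        ((1 - q ^ (2 * l) / (a * q)) * (1 - a * q * q ^ l) * (1 - a * q * q * q ^ l))) := by
  obtain ⟨hq, ha, q1, a1, b1, bq1, bY, bqY, Yb, Ya, Y2b⟩ := h
  have hA := pA_shift hq ha l
  have hB := pB_shift hq ha l
  have haq : a * q ≠ 0 := mul_ne_zero ha hq
  have Yb' : 1 - q ^ l / (a * q) ≠ 0 := by
    rw [one_sub_div haq]; exact div_ne_zero Yb haq
  have Ya' : 1 - q ^ l / a ≠ 0 := by
    rw [one_sub_div ha]; exact div_ne_zero Ya ha
  have Y2b' : 1 - q ^ (2 * l) / (a * q) ≠ 0 := by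
    rw [one_sub_div haq]; exact div_ne_zero Y2b haq
  have hb1 : 1 - 1 / (a * q) ≠ 0 := by
    rw [one_sub_div haq, ← neg_sub]; exact div_ne_zero (neg_ne_zero.2 b1) haq
  have ha1 : 1 - 1 / a ≠ 0 := by
    rw [one_sub_div ha, ← neg_sub]; exact div_ne_zero (neg_ne_zero.2 a1) ha
  have hA' : pA q (a * q ^ 2 + (a * q ^ 2)⁻¹) l = pA q (a + a⁻¹) l *
      (((1 - a * q * q ^ (2 * l)) * (1 - 1 / (a * q))) /
        ((1 - a * q) * (1 - q ^ (2 * l) / (a * q)))) := by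
    rw [← mul_div_assoc, eq_div_iff (mul_ne_zero b1 Y2b'), hA]
  have hB' : pB q (a * q ^ 2 + (a * q ^ 2)⁻¹) l = pB q (a + a⁻¹) l *
      (((1 - a * q * q ^ l) * (1 - a * q * q * q ^ l) * (1 - 1 / (a * q)) * (1 - 1 / a)) /
        ((1 - a * q) * (1 - a * q * q) * (1 - q ^ l / (a * q)) * (1 - q ^ l / a))) := by
    rw [← mul_div_assoc, eq_div_iff (mul_ne_zero (mul_ne_zero (mul_ne_zero b1 bq1) Yb') Ya'), hB]
  have e1 : 1 - 1 / a = -(1 - a) / a := by field_simp; ring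
  have e2 : (1 - a * q ^ 2) = 1 - a * q * q := by ring
  rw [f8, f8, hA', hB', e2]
  generalize pA q (a + a⁻¹) l = A
  generalize pB q (a + a⁻¹) l = B
  generalize pO q l = O
  generalize pQ q l = Q
  generalize (-1 : K) ^ l = e
  have key : -(1 - a) / (a * (1 - a * q * q)) * ((((1 - a * q * q ^ (2 * l)) * (1 - 1 / (a * q))) /
        ((1 - a * q) * (1 - q ^ (2 * l) / (a * q)))) /
      (((1 - a * q * q ^ l) * (1 - a * q * q * q ^ l) * (1 - 1 / (a * q)) * (1 - 1 / a)) /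
        ((1 - a * q) * (1 - a * q * q) * (1 - q ^ l / (a * q)) * (1 - q ^ l / a)))) =
      (1 - a * q * q ^ (2 * l)) * (1 - q ^ l / (a * q)) * (1 - q ^ l / a) /
        ((1 - q ^ (2 * l) / (a * q)) * (1 - a * q * q ^ l) * (1 - a * q * q * q ^ l)) := by
    generalize 1 - q ^ l / (a * q) = y1 at *
    generalize 1 - q ^ l / a = y2 at *
    generalize 1 - q ^ (2 * l) / (a * q) = y3 at *
    generalize 1 - a * q * q ^ (2 * l) = y4 at *
    generalize 1 - a * q * q ^ l = y5 at *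
    generalize 1 - a * q * q * q ^ l = y6 at *
    generalize 1 - 1 / (a * q) = y7 at *
    rw [e1] at *
    generalize 1 - a * q = y8 at *
    generalize 1 - a * q * q = y9 at *
    field_simp
  rw [← key]
  simp only [div_eq_mul_inv, mul_inv, inv_inv]
  ring

/-- the ratio `ρ16 f16(l, a q^2) / f16(l, a)` -/
theorem shift16 {q a : K} {l : ℕ} (h : Good q a l) :
    q * (1 - a) / (1 - a * q ^ 2) * f16 q (a * q ^ 2 + (a * q ^ 2)⁻¹) l =
      f16 q (a + a⁻¹) l * (-(a * q) * ((1 - a * q * q ^ (2 * l)) * (1 - q ^ l / (a * q)) *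
        (1 - q ^ l / a)) /
        ((1 - q ^ (2 * l) / (a * q)) * (1 - a * q * q ^ l) * (1 - a * q * q * q ^ l))) := by
  have h8 := shift8 h
  have f8' : ∀ s : K, f16 q s l = f8 q s l * ((-1) ^ l / (pE q l * q ^ (l * (l + 1) / 2))) := by
    intro s
    have hm : ((-1 : K) ^ l) * (-1) ^ l = 1 := by
      rw [← mul_pow]; norm_num
    rw [f16, f8, div_mul_div_comm]
    rw [show (-1 : K) ^ l * pO q l * pA q s l * (-1) ^ l =
      ((-1 : K) ^ l * (-1) ^ l) * (pO q l * pA q s l) by ring, hm, one_mul]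
    congr 1
    ring
  have ha := h.ha
  have hb := h.bq1
  have e2 : (1 - a * q ^ 2) = 1 - a * q * q := by ring
  have e3 : q * (1 - a) / (1 - a * q ^ 2) = -(a * q) * (-(1 - a) / (a * (1 - a * q ^ 2))) := by
    rw [e2]
    field_simp
  rw [e3, f8', f8']
  generalize f8 q (a * q ^ 2 + (a * q ^ 2)⁻¹) l = x at *
  generalize f8 q (a + a⁻¹) l = y at *
  generalize (-1) ^ l / (pE q l * q ^ (l * (l + 1) / 2)) = w at *
  generalize (1 - a * q * q ^ (2 * l)) * (1 - q ^ l / (a * q)) * (1 - q ^ l / a) = u at *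
  generalize (1 - q ^ (2 * l) / (a * q)) * (1 - a * q * q ^ l) * (1 - a * q * q * q ^ l) = v at *
  calc -(a * q) * (-(1 - a) / (a * (1 - a * q ^ 2))) * (x * w) =
      -(a * q) * w * (-(1 - a) / (a * (1 - a * q ^ 2)) * x) := by ring
    _ = -(a * q) * w * (y * (u / v)) := by rw [h8]
    _ = _ := by ring

/-- WZ certificates; `H l` is the value of `G (l+1)` -/
def G8 (q a : K) (l : ℕ) : K :=
  f8 q (a + a⁻¹) l * (((a * q)⁻¹ - a * q) * (q ^ l * (1 - q ^ l) * (1 - q ^ l / a)) /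
    ((1 - q) * ((1 - q ^ (2 * l) / (a * q)) * (1 - a * q * q ^ l))))

def H8 (q a : K) (l : ℕ) : K :=
  f8 q (a + a⁻¹) l * (-(((a * q)⁻¹ - a * q) * (q * q ^ l * (1 - q * q ^ (2 * l)) *
    (1 - a * q * q ^ (2 * l)))) / ((1 - q) * ((1 - a * q * q ^ l) * (1 - a * q * q * q ^ l))))

def G16 (q a : K) (l : ℕ) : K :=
  f16 q (a + a⁻¹) l * (-(1 + a * q) * (q ^ l * (1 - q ^ (2 * l)) * (1 - q ^ l) * (1 - q ^ l / a)) /
    ((1 - q) * ((1 - q ^ (2 * l) / (a * q)) * (1 - a * q * q ^ l))))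

def H16 (q a : K) (l : ℕ) : K :=
  f16 q (a + a⁻¹) l * (-(1 + a * q) * ((1 - q * q ^ (2 * l)) * (1 - a * q * q ^ (2 * l)) *
    (1 - q * q ^ l)) / ((1 - q) * ((1 - a * q * q ^ l) * (1 - a * q * q * q ^ l))))

theorem G8_zero (q a : K) : G8 q a 0 = 0 := by simp [G8]

theorem G16_zero (q a : K) : G16 q a 0 = 0 := by simp [G16]

/-- the WZ identity, first family -/
theorem wz8 {q a : K} {l : ℕ} (h : Good q a l) :
    -(1 - a) / (a * (1 - a * q ^ 2)) *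
        (br q (3 * l + 1) * f8 q (a * q ^ 2 + (a * q ^ 2)⁻¹) l) -
      br q (3 * l + 1) * f8 q (a + a⁻¹) l = H8 q a l - G8 q a l := by
  have h8 := shift8 h
  obtain ⟨hq, ha, q1, a1, b1, bq1, bY, bqY, Yb, Ya, Y2b⟩ := h
  rw [mul_left_comm, h8, br_eq q1, G8, H8]
  have e3 : q ^ (3 * l + 1) = q * (q ^ l) ^ 3 := by ring
  have e2 : q ^ (2 * l) = (q ^ l) ^ 2 := by ring
  rw [e2] at Y2b
  rw [e3, e2]
  generalize f8 q (a + a⁻¹) l = f
  generalize q ^ l = Y at *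
  have haq : a * q ≠ 0 := mul_ne_zero ha hq
  have d1 : 1 - Y ^ 2 / (a * q) = (a * q - Y ^ 2) / (a * q) := by field_simp
  have d2 : 1 - Y / (a * q) = (a * q - Y) / (a * q) := by field_simp
  have d3 : 1 - Y / a = (a - Y) / a := by field_simp
  rw [d1, d2, d3]
  generalize hx5 : 1 - a * q * Y = x5 at *
  generalize hx6 : 1 - a * q * q * Y = x6 at *
  generalize hx3 : a * q - Y ^ 2 = x3 at *
  generalize hx0 : 1 - q = x0 at *
  field_simp
  rw [← hx5, ← hx6, ← hx3]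
  ring

/-- the WZ identity, second family -/
theorem wz16 {q a : K} {l : ℕ} (h : Good q a l) :
    q * (1 - a) / (1 - a * q ^ 2) *
        (br q (3 * l + 1) * f16 q (a * q ^ 2 + (a * q ^ 2)⁻¹) l) -
      br q (3 * l + 1) * f16 q (a + a⁻¹) l = H16 q a l - G16 q a l := by
  have h8 := shift16 h
  obtain ⟨hq, ha, q1, a1, b1, bq1, bY, bqY, Yb, Ya, Y2b⟩ := h
  rw [mul_left_comm, h8, br_eq q1, G16, H16]
  have e3 : q ^ (3 * l + 1) = q * (q ^ l) ^ 3 := by ring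
  have e2 : q ^ (2 * l) = (q ^ l) ^ 2 := by ring
  rw [e2] at Y2b
  rw [e3, e2]
  generalize f16 q (a + a⁻¹) l = f
  generalize q ^ l = Y at *
  have haq : a * q ≠ 0 := mul_ne_zero ha hq
  have d1 : 1 - Y ^ 2 / (a * q) = (a * q - Y ^ 2) / (a * q) := by field_simp
  have d2 : 1 - Y / (a * q) = (a * q - Y) / (a * q) := by field_simp
  have d3 : 1 - Y / a = (a - Y) / a := by field_simp
  rw [d1, d2, d3]
  generalize hx5 : 1 - a * q * Y = x5 at *
  generalize hx6 : 1 - a * q * q * Y = x6 at *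
  generalize hx3 : a * q - Y ^ 2 = x3 at *
  generalize hx0 : 1 - q = x0 at *
  field_simp
  rw [← hx5, ← hx6, ← hx3]
  ring

theorem G8_succ {q a : K} {l : ℕ} (h : Good q a (l + 1)) (hY : 1 - q ^ (l + 1) ≠ 0) :
    G8 q a (l + 1) = H8 q a l := by
  obtain ⟨hq, ha, q1, a1, b1, bq1, bY, bqY, Yb, Ya, Y2b⟩ := h
  have h4 : (4 * l + 2) = (2 * l + 1) * 2 := by ring
  have h5 : (2 * l + 2) = (l + 1) * 2 := by ring
  rw [G8, H8, f8_succ, h4, h5, pow_mul, pow_mul q (l + 1) 2, quad_fac ha, quad_fac ha]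
  generalize f8 q (a + a⁻¹) l = f
  have e1 : q ^ (l + 1) = q * q ^ l := by ring
  have e2 : q ^ (2 * l) = (q ^ l) ^ 2 := by ring
  have e3 : q ^ (2 * (l + 1)) = q ^ 2 * (q ^ l) ^ 2 := by ring
  have e4 : q ^ (2 * l + 1) = q * (q ^ l) ^ 2 := by ring
  rw [e1] at hY bY bqY Yb Ya
  rw [e3] at Y2b
  rw [e4, e3, e2, e1]
  generalize q ^ l = Y at *
  have haq : a * q ≠ 0 := mul_ne_zero ha hq
  have Y2a : a - q * Y ^ 2 ≠ 0 := by
    intro h0
    apply Y2b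
    linear_combination q * h0
  have d1 : 1 - q ^ 2 * Y ^ 2 / (a * q) = (a - q * Y ^ 2) / a := by field_simp
  have d2 : 1 - q * Y ^ 2 / a = (a - q * Y ^ 2) / a := by field_simp
  have d3 : 1 - q * Y / a = (a - q * Y) / a := by field_simp
  have d4 : 1 - a * q * (q * Y) = 1 - a * q * q * Y := by ring
  have d5 : 1 - a * (q * Y) = 1 - a * q * Y := by ring
  have d6 : 1 - a * (q * Y ^ 2) = 1 - a * q * Y ^ 2 := by ring
  rw [d1, d2, d3, d4, d5, d6]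
  rw [d4] at bY
  generalize hx6 : 1 - a * q * q * Y = x6 at *
  generalize hx3 : a - q * Y ^ 2 = x3 at *
  generalize hx2 : a - q * Y = x2 at *
  generalize hx1 : 1 - q * Y = x1 at *
  generalize hx0 : 1 - q = x0 at *
  generalize hx5 : 1 - a * q * Y = x5 at *
  generalize hx7 : (a * q)⁻¹ - a * q = x7 at *
  generalize hx8 : 1 - q * Y ^ 2 = x8 at *
  generalize hx9 : 1 - a * q * Y ^ 2 = x9 at *
  by_cases h50 : x5 = 0
  · simp [h50]
  · field_simp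

theorem G16_succ {q a : K} {l : ℕ} (h : Good q a (l + 1)) (hY : 1 - q ^ (l + 1) ≠ 0)
    (hY' : 1 + q ^ (l + 1) ≠ 0) :
    G16 q a (l + 1) = H16 q a l := by
  obtain ⟨hq, ha, q1, a1, b1, bq1, bY, bqY, Yb, Ya, Y2b⟩ := h
  have h4 : (4 * l + 2) = (2 * l + 1) * 2 := by ring
  have h5 : (2 * l + 2) = (l + 1) * 2 := by ring
  rw [G16, H16, f16_succ, h4, h5, pow_mul, pow_mul q (l + 1) 2, quad_fac ha, quad_fac ha]
  generalize f16 q (a + a⁻¹) l = f
  have e1 : q ^ (l + 1) = q * q ^ l := by ring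
  have e2 : q ^ (2 * l) = (q ^ l) ^ 2 := by ring
  have e3 : q ^ (2 * (l + 1)) = q ^ 2 * (q ^ l) ^ 2 := by ring
  have e4 : q ^ (2 * l + 1) = q * (q ^ l) ^ 2 := by ring
  have hY0 : q ^ l ≠ 0 := pow_ne_zero _ hq
  rw [e1] at hY bY bqY Yb Ya hY'
  rw [e3] at Y2b
  rw [e4, e3, e2, e1]
  generalize q ^ l = Y at *
  have haq : a * q ≠ 0 := mul_ne_zero ha hq
  have Y2a : a - q * Y ^ 2 ≠ 0 := by
    intro h0
    apply Y2b
    linear_combination q * h0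
  have d1 : 1 - q ^ 2 * Y ^ 2 / (a * q) = (a - q * Y ^ 2) / a := by field_simp
  have d2 : 1 - q * Y ^ 2 / a = (a - q * Y ^ 2) / a := by field_simp
  have d3 : 1 - q * Y / a = (a - q * Y) / a := by field_simp
  have d4 : 1 - a * q * (q * Y) = 1 - a * q * q * Y := by ring
  have d5 : 1 - a * (q * Y) = 1 - a * q * Y := by ring
  have d6 : 1 - a * (q * Y ^ 2) = 1 - a * q * Y ^ 2 := by ring
  have d7 : 1 - q ^ 2 * Y ^ 2 = (1 - q * Y) * (1 + q * Y) := by ring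
  rw [d1, d2, d3, d4, d5, d6, d7]
  rw [d4] at bY
  generalize hx6 : 1 - a * q * q * Y = x6 at *
  generalize hx3 : a - q * Y ^ 2 = x3 at *
  generalize hx2 : a - q * Y = x2 at *
  generalize hx1 : 1 - q * Y = x1 at *
  generalize hx10 : 1 + q * Y = x10 at *
  generalize hx0 : 1 - q = x0 at *
  generalize hx5 : 1 - a * q * Y = x5 at *
  generalize hx8 : 1 - q * Y ^ 2 = x8 at *
  generalize hx9 : 1 - a * q * Y ^ 2 = x9 at *
  by_cases h50 : x5 = 0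
  · simp [h50]
  · field_simp

/-- summed WZ identity -/
theorem tele8 {q a : K} (L : ℕ) (hG : ∀ l ≤ L, Good q a l)
    (hQ : ∀ l, 1 ≤ l → l ≤ L → 1 - q ^ l ≠ 0) :
    -(1 - a) / (a * (1 - a * q ^ 2)) * T8 q (a * q ^ 2 + (a * q ^ 2)⁻¹) (L + 1) -
      T8 q (a + a⁻¹) (L + 1) = H8 q a L := by
  induction L with
  | zero =>
    have h := wz8 (hG 0 le_rfl)
    rw [G8_zero, sub_zero] at h
    simpa [T8] using h
  | succ L ih =>
    have h1 := ih (fun l hl => hG l (hl.trans (Nat.le_succ L)))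
      (fun l h1 h2 => hQ l h1 (h2.trans (Nat.le_succ L)))
    have h2 := wz8 (hG (L + 1) le_rfl)
    rw [G8_succ (hG (L + 1) le_rfl) (hQ (L + 1) (by omega) le_rfl)] at h2
    have e1 : ∀ s : K, T8 q s (L + 1 + 1) =
        T8 q s (L + 1) + br q (3 * (L + 1) + 1) * f8 q s (L + 1) := fun s => by
      rw [T8, sum_range_succ, ← T8]
    rw [e1, e1]
    linear_combination h1 + h2

theorem tele16 {q a : K} (L : ℕ) (hG : ∀ l ≤ L, Good q a l)
    (hQ : ∀ l, 1 ≤ l → l ≤ L → 1 - q ^ l ≠ 0) (hE : ∀ l, 1 ≤ l → l ≤ L → 1 + q ^ l ≠ 0) :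
    q * (1 - a) / (1 - a * q ^ 2) * T16 q (a * q ^ 2 + (a * q ^ 2)⁻¹) (L + 1) -
      T16 q (a + a⁻¹) (L + 1) = H16 q a L := by
  induction L with
  | zero =>
    have h := wz16 (hG 0 le_rfl)
    rw [G16_zero, sub_zero] at h
    simpa [T16] using h
  | succ L ih =>
    have h1 := ih (fun l hl => hG l (hl.trans (Nat.le_succ L)))
      (fun l h1 h2 => hQ l h1 (h2.trans (Nat.le_succ L)))
      (fun l h1 h2 => hE l h1 (h2.trans (Nat.le_succ L)))
    have h2 := wz16 (hG (L + 1) le_rfl)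
    rw [G16_succ (hG (L + 1) le_rfl) (hQ (L + 1) (by omega) le_rfl)
      (hE (L + 1) (by omega) le_rfl)] at h2
    have e1 : ∀ s : K, T16 q s (L + 1 + 1) =
        T16 q s (L + 1) + br q (3 * (L + 1) + 1) * f16 q s (L + 1) := fun s => by
      rw [T16, sum_range_succ, ← T16]
    rw [e1, e1]
    linear_combination h1 + h2

section generic

variable {q : K} (hq0 : q ≠ 0) (hq : ∀ j : ℕ, 1 ≤ j → q ^ j ≠ 1)

include hq in
theorem gen1 {j : ℕ} (hj : 1 ≤ j) : 1 - q ^ j ≠ 0 := fun h => hq j hj (sub_eq_zero.1 h).symm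

include hq in
theorem gen2 {j : ℕ} (hj : 1 ≤ j) : 1 + q ^ j ≠ 0 := by
  intro h
  apply hq (j * 2) (by omega)
  rw [pow_mul]
  linear_combination (q ^ j - 1) * h

include hq0 hq in
theorem gen3 {i j : ℕ} (hj : i ≠ j) : q ^ i - q ^ j ≠ 0 := by
  intro h
  rw [sub_eq_zero] at h
  rcases lt_or_gt_of_ne hj with h1 | h1
  · obtain ⟨d, rfl⟩ := Nat.exists_eq_add_of_lt h1
    apply hq (d + 1) (by omega)
    have : q ^ i * q ^ (d + 1) = q ^ i * 1 := by
      rw [mul_one, ← pow_add, ← add_assoc]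
      exact h.symm
    exact mul_left_cancel₀ (pow_ne_zero i hq0) this
  · obtain ⟨d, rfl⟩ := Nat.exists_eq_add_of_lt h1
    apply hq (d + 1) (by omega)
    have : q ^ j * q ^ (d + 1) = q ^ j * 1 := by
      rw [mul_one, ← pow_add, ← add_assoc]
      exact h
    exact mul_left_cancel₀ (pow_ne_zero j hq0) this

include hq0 hq in
theorem good_of_generic (M l : ℕ) (hl : l ≤ M) : Good q (q ^ (2 * M + 1)) l := by
  refine ⟨hq0, pow_ne_zero _ hq0, ?_, gen1 hq (by omega), ?_, ?_, ?_, ?_, ?_, ?_, ?_⟩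
  · simpa using gen1 hq (j := 1) le_rfl
  · rw [← pow_succ]; exact gen1 hq (by omega)
  · rw [← pow_succ, ← pow_succ]; exact gen1 hq (by omega)
  · rw [← pow_succ, ← pow_add]; exact gen1 hq (by omega)
  · rw [← pow_succ, ← pow_succ, ← pow_add]; exact gen1 hq (by omega)
  · rw [← pow_succ]; exact gen3 hq0 hq (by omega)
  · exact gen3 hq0 hq (by omega)
  · rw [← pow_succ]; exact gen3 hq0 hq (by omega)

include hq0 hq in
theorem last8 (M : ℕ) :
    -(1 - q ^ (2 * M + 1)) / (q ^ (2 * M + 1) * (1 - q ^ (2 * M + 1) * q ^ 2)) *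
        (br q (3 * (M + 1) + 1) *
          f8 q (q ^ (2 * M + 1) * q ^ 2 + (q ^ (2 * M + 1) * q ^ 2)⁻¹) (M + 1)) +
      H8 q (q ^ (2 * M + 1)) M = 0 := by
  have hgood := good_of_generic hq0 hq M M le_rfl
  have h8 := shift8 hgood
  have hY0 : q ^ M ≠ 0 := pow_ne_zero _ hq0
  have haq : q ^ (2 * M + 1) * q ^ 2 ≠ 0 :=
    mul_ne_zero (pow_ne_zero _ hq0) (pow_ne_zero _ hq0)
  have h4 : (4 * M + 2) = (2 * M + 1) * 2 := by ring
  have h5 : (2 * M + 2) = (M + 1) * 2 := by ring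
  rw [mul_left_comm, f8_succ, ← mul_assoc (-(1 - q ^ (2 * M + 1)) / _), h8, H8, h4, h5,
    pow_mul q (2 * M + 1) 2, pow_mul q (M + 1) 2, quad_fac haq, quad_fac haq,
    br_eq hgood.q1]
  have n1 : 1 - q * q ^ M ≠ 0 := by
    rw [← pow_succ']; exact gen1 hq (by omega)
  have n2 : 1 - q ^ 2 * (q ^ M) ^ 3 ≠ 0 := by
    rw [← pow_mul, ← pow_add]; exact gen1 hq (by omega)
  have n3 : 1 - q ^ 3 * (q ^ M) ^ 3 ≠ 0 := by
    rw [← pow_mul, ← pow_add]; exact gen1 hq (by omega)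
  have n4 : 1 - q ^ 4 * (q ^ M) ^ 3 ≠ 0 := by
    rw [← pow_mul, ← pow_add]; exact gen1 hq (by omega)
  have n5 : q ^ 2 * q ^ M - 1 ≠ 0 := by
    rw [← pow_add, ← neg_sub]; exact neg_ne_zero.2 (gen1 hq (by omega))
  have n6 : q ^ 2 - 1 ≠ 0 := by
    rw [← neg_sub]; exact neg_ne_zero.2 (gen1 hq (by omega))
  have n7 : q * q ^ M - 1 ≠ 0 := by
    rw [← neg_sub]; exact neg_ne_zero.2 n1
  have q1 := hgood.q1
  have e1 : q ^ (2 * M + 1) = q * (q ^ M) ^ 2 := by ring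
  have e2 : q ^ (2 * M) = (q ^ M) ^ 2 := by ring
  have e3 : q ^ (M + 1) = q * q ^ M := by ring
  have e4 : q ^ (3 * (M + 1) + 1) = q ^ 4 * (q ^ M) ^ 3 := by ring
  rw [e4, e3, e2, e1]
  generalize f8 q (q * (q ^ M) ^ 2 + (q * (q ^ M) ^ 2)⁻¹) M = f
  clear h8 hgood haq e1 e2 e3 e4
  generalize q ^ M = Y at *
  have d1 : 1 - q * Y ^ 2 * q * Y ^ 2 = (1 - q * Y ^ 2 * q * Y ^ 2) := rfl
  have d2 : 1 - Y / (q * Y ^ 2 * q) = (q ^ 2 * Y - 1) / (q ^ 2 * Y) := by field_simp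
  have d3 : 1 - Y / (q * Y ^ 2) = (q * Y - 1) / (q * Y) := by field_simp
  have d4 : 1 - Y ^ 2 / (q * Y ^ 2 * q) = (q ^ 2 - 1) / q ^ 2 := by field_simp
  have d5 : 1 - q * Y ^ 2 * q * Y = 1 - q ^ 2 * Y ^ 3 := by ring
  have d6 : 1 - q * Y ^ 2 * q * q * Y = 1 - q ^ 3 * Y ^ 3 := by ring
  have d7 : 1 - q * Y ^ 2 / (q * Y ^ 2 * q ^ 2) = (q ^ 2 - 1) / q ^ 2 := by field_simp
  have d8 : 1 - q * Y ^ 2 * q ^ 2 * (q * Y) = 1 - q ^ 4 * Y ^ 3 := by ring
  have d9 : 1 - q * Y / (q * Y ^ 2 * q ^ 2) = (q ^ 2 * Y - 1) / (q ^ 2 * Y) := by field_simp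
  rw [d2, d3, d4, d5, d6, d7, d8, d9]
  generalize hx2 : 1 - q ^ 2 * Y ^ 3 = x2 at *
  generalize hx3 : 1 - q ^ 3 * Y ^ 3 = x3 at *
  generalize hx4 : 1 - q ^ 4 * Y ^ 3 = x4 at *
  generalize hx5 : q ^ 2 * Y - 1 = x5 at *
  generalize hx6 : q ^ 2 - 1 = x6 at *
  generalize hx1 : 1 - q * Y = x1 at *
  generalize hx0 : 1 - q = x0 at *
  have d10 : q * Y - 1 = -x1 := by rw [← hx1]; ring
  rw [d10]
  field_simp
  ring

include hq0 hq in
theorem last16 (M : ℕ) :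
    q * (1 - q ^ (2 * M + 1)) / (1 - q ^ (2 * M + 1) * q ^ 2) *
        (br q (3 * (M + 1) + 1) *
          f16 q (q ^ (2 * M + 1) * q ^ 2 + (q ^ (2 * M + 1) * q ^ 2)⁻¹) (M + 1)) +
      H16 q (q ^ (2 * M + 1)) M = 0 := by
  have hgood := good_of_generic hq0 hq M M le_rfl
  have h8 := shift16 hgood
  have hY0 : q ^ M ≠ 0 := pow_ne_zero _ hq0
  have haq : q ^ (2 * M + 1) * q ^ 2 ≠ 0 :=
    mul_ne_zero (pow_ne_zero _ hq0) (pow_ne_zero _ hq0)
  have h4 : (4 * M + 2) = (2 * M + 1) * 2 := by ring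
  have h5 : (2 * M + 2) = (M + 1) * 2 := by ring
  rw [mul_left_comm, f16_succ, ← mul_assoc (q * (1 - q ^ (2 * M + 1)) / _), h8, H16, h4, h5,
    pow_mul q (2 * M + 1) 2, pow_mul q (M + 1) 2, quad_fac haq, quad_fac haq,
    br_eq hgood.q1]
  have n1 : 1 - q * q ^ M ≠ 0 := by
    rw [← pow_succ']; exact gen1 hq (by omega)
  have n11 : 1 + q * q ^ M ≠ 0 := by
    rw [← pow_succ']; exact gen2 hq (by omega)
  have n2 : 1 - q ^ 2 * (q ^ M) ^ 3 ≠ 0 := by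
    rw [← pow_mul, ← pow_add]; exact gen1 hq (by omega)
  have n3 : 1 - q ^ 3 * (q ^ M) ^ 3 ≠ 0 := by
    rw [← pow_mul, ← pow_add]; exact gen1 hq (by omega)
  have n4 : 1 - q ^ 4 * (q ^ M) ^ 3 ≠ 0 := by
    rw [← pow_mul, ← pow_add]; exact gen1 hq (by omega)
  have n5 : q ^ 2 * q ^ M - 1 ≠ 0 := by
    rw [← pow_add, ← neg_sub]; exact neg_ne_zero.2 (gen1 hq (by omega))
  have n6 : q ^ 2 - 1 ≠ 0 := by
    rw [← neg_sub]; exact neg_ne_zero.2 (gen1 hq (by omega))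
  have n7 : q * q ^ M - 1 ≠ 0 := by
    rw [← neg_sub]; exact neg_ne_zero.2 n1
  have q1 := hgood.q1
  have e1 : q ^ (2 * M + 1) = q * (q ^ M) ^ 2 := by ring
  have e2 : q ^ (2 * M) = (q ^ M) ^ 2 := by ring
  have e3 : q ^ (M + 1) = q * q ^ M := by ring
  have e4 : q ^ (3 * (M + 1) + 1) = q ^ 4 * (q ^ M) ^ 3 := by ring
  rw [e4, e3, e2, e1]
  generalize f16 q (q * (q ^ M) ^ 2 + (q * (q ^ M) ^ 2)⁻¹) M = f
  clear h8 hgood haq e1 e2 e3 e4
  generalize q ^ M = Y at *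
  have d2 : 1 - Y / (q * Y ^ 2 * q) = (q ^ 2 * Y - 1) / (q ^ 2 * Y) := by field_simp
  have d3 : 1 - Y / (q * Y ^ 2) = (q * Y - 1) / (q * Y) := by field_simp
  have d4 : 1 - Y ^ 2 / (q * Y ^ 2 * q) = (q ^ 2 - 1) / q ^ 2 := by field_simp
  have d5 : 1 - q * Y ^ 2 * q * Y = 1 - q ^ 2 * Y ^ 3 := by ring
  have d6 : 1 - q * Y ^ 2 * q * q * Y = 1 - q ^ 3 * Y ^ 3 := by ring
  have d7 : 1 - q * Y ^ 2 / (q * Y ^ 2 * q ^ 2) = (q ^ 2 - 1) / q ^ 2 := by field_simp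
  have d8 : 1 - q * Y ^ 2 * q ^ 2 * (q * Y) = 1 - q ^ 4 * Y ^ 3 := by ring
  have d9 : 1 - q * Y / (q * Y ^ 2 * q ^ 2) = (q ^ 2 * Y - 1) / (q ^ 2 * Y) := by field_simp
  rw [d2, d3, d4, d5, d6, d7, d8, d9]
  generalize hx2 : 1 - q ^ 2 * Y ^ 3 = x2 at *
  generalize hx3 : 1 - q ^ 3 * Y ^ 3 = x3 at *
  generalize hx4 : 1 - q ^ 4 * Y ^ 3 = x4 at *
  generalize hx5 : q ^ 2 * Y - 1 = x5 at *
  generalize hx6 : q ^ 2 - 1 = x6 at *
  generalize hx1 : 1 - q * Y = x1 at *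
  generalize hx11 : 1 + q * Y = x11 at *
  generalize hx0 : 1 - q = x0 at *
  have d10 : q * Y - 1 = -x1 := by rw [← hx1]; ring
  rw [d10]
  field_simp
  rw [← hx11, ← hx1]
  ring

end generic

/-- exact evaluation, first family -/
theorem T8_exact (q : K) (hq0 : q ≠ 0) (hq : ∀ j : ℕ, 1 ≤ j → q ^ j ≠ 1)
    (M : ℕ) : T8 q (q ^ (2 * M + 1) + (q ^ (2 * M + 1))⁻¹) (M + 1) =
      (-1) ^ M * q ^ (M ^ 2) * br q (2 * M + 1) := by
  induction M with
  | zero => simp [T8, br, f8_zero]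
  | succ M ih =>
    have h1 := tele8 (q := q) (a := q ^ (2 * M + 1)) M
      (fun l hl => good_of_generic hq0 hq M l hl) (fun l h1 _ => gen1 hq h1)
    have h2 := last8 hq0 hq M
    have e0 : q ^ (2 * (M + 1) + 1) = q ^ (2 * M + 1) * q ^ 2 := by ring
    have e1 : T8 q (q ^ (2 * M + 1) * q ^ 2 + (q ^ (2 * M + 1) * q ^ 2)⁻¹) (M + 1 + 1) =
        T8 q (q ^ (2 * M + 1) * q ^ 2 + (q ^ (2 * M + 1) * q ^ 2)⁻¹) (M + 1) +
          br q (3 * (M + 1) + 1) *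
            f8 q (q ^ (2 * M + 1) * q ^ 2 + (q ^ (2 * M + 1) * q ^ 2)⁻¹) (M + 1) := by
      rw [T8, sum_range_succ, ← T8]
    have h3 : -(1 - q ^ (2 * M + 1)) / (q ^ (2 * M + 1) * (1 - q ^ (2 * M + 1) * q ^ 2)) *
        T8 q (q ^ (2 * M + 1) * q ^ 2 + (q ^ (2 * M + 1) * q ^ 2)⁻¹) (M + 1 + 1) =
        T8 q (q ^ (2 * M + 1) + (q ^ (2 * M + 1))⁻¹) (M + 1) := by
      rw [e1]
      linear_combination h1 + h2
    rw [ih] at h3
    rw [e0]
    have n1 := gen1 hq (j := 2 * M + 1) (by omega)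
    have n2 := gen1 hq (j := 2 * (M + 1) + 1) (by omega)
    have n0 : (1 - q) ≠ 0 := by simpa using gen1 hq (j := 1) le_rfl
    have n3 : q ^ (2 * M + 1) ≠ 0 := pow_ne_zero _ hq0
    rw [br_eq n0] at h3 ⊢
    rw [e0] at n2 ⊢
    have e2 : q ^ ((M + 1) ^ 2) = q ^ (M ^ 2) * q ^ (2 * M + 1) := by ring
    rw [e2, pow_succ (-1 : K)]
    generalize T8 q (q ^ (2 * M + 1) * q ^ 2 + (q ^ (2 * M + 1) * q ^ 2)⁻¹) (M + 1 + 1) = T at *
    generalize q ^ (2 * M + 1) = a at *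
    generalize q ^ (M ^ 2) = c at *
    generalize (-1 : K) ^ M = e at *
    generalize 1 - a * q ^ 2 = x at *
    generalize 1 - a = y at *
    generalize 1 - q = z at *
    field_simp at h3 ⊢
    linear_combination -h3

/-- exact evaluation, second family -/
theorem T16_exact (q : K) (hq0 : q ≠ 0) (hq : ∀ j : ℕ, 1 ≤ j → q ^ j ≠ 1)
    (M : ℕ) : T16 q (q ^ (2 * M + 1) + (q ^ (2 * M + 1))⁻¹) (M + 1) =
      br q (2 * M + 1) / q ^ M := by
  induction M with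
  | zero => simp [T16, br, f16_zero]
  | succ M ih =>
    have h1 := tele16 (q := q) (a := q ^ (2 * M + 1)) M
      (fun l hl => good_of_generic hq0 hq M l hl) (fun l h1 _ => gen1 hq h1)
      (fun l h1 _ => gen2 hq h1)
    have h2 := last16 hq0 hq M
    have e0 : q ^ (2 * (M + 1) + 1) = q ^ (2 * M + 1) * q ^ 2 := by ring
    have e1 : T16 q (q ^ (2 * M + 1) * q ^ 2 + (q ^ (2 * M + 1) * q ^ 2)⁻¹) (M + 1 + 1) =
        T16 q (q ^ (2 * M + 1) * q ^ 2 + (q ^ (2 * M + 1) * q ^ 2)⁻¹) (M + 1) +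
          br q (3 * (M + 1) + 1) *
            f16 q (q ^ (2 * M + 1) * q ^ 2 + (q ^ (2 * M + 1) * q ^ 2)⁻¹) (M + 1) := by
      rw [T16, sum_range_succ, ← T16]
    have h3 : q * (1 - q ^ (2 * M + 1)) / (1 - q ^ (2 * M + 1) * q ^ 2) *
        T16 q (q ^ (2 * M + 1) * q ^ 2 + (q ^ (2 * M + 1) * q ^ 2)⁻¹) (M + 1 + 1) =
        T16 q (q ^ (2 * M + 1) + (q ^ (2 * M + 1))⁻¹) (M + 1) := by
      rw [e1]
      linear_combination h1 + h2
    rw [ih] at h3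
    rw [e0]
    have n1 := gen1 hq (j := 2 * M + 1) (by omega)
    have n2 := gen1 hq (j := 2 * (M + 1) + 1) (by omega)
    have n0 : (1 - q) ≠ 0 := by simpa using gen1 hq (j := 1) le_rfl
    have n3 : q ^ M ≠ 0 := pow_ne_zero _ hq0
    rw [br_eq n0] at h3 ⊢
    rw [e0] at n2 ⊢
    rw [pow_succ q M]
    generalize T16 q (q ^ (2 * M + 1) * q ^ 2 + (q ^ (2 * M + 1) * q ^ 2)⁻¹) (M + 1 + 1) = T at *
    generalize q ^ (2 * M + 1) = a at *
    generalize q ^ M = c at *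
    generalize 1 - a * q ^ 2 = x at *
    generalize 1 - a = y at *
    generalize 1 - q = z at *
    field_simp at h3 ⊢
    linear_combination h3

end WZ

end SC322
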